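import Pool.Agent.Lib.H63.ThreeSquares

/-!
# H82O A01: the three squares theorem for `n ≡ 1 (mod 4)`
-/

set_option autoImplicit false

namespace Pool.Agent.Lib.H82O

open scoped NumberTheorySymbols in
/-- Every `n ≡ 1 (mod 4)` is a sum of three integer squares. Model: the proof of
`three_squares_two_mod_four` in `Pool/Agent/Lib/H63/ThreeSquares.lean` (same file has
`three_squares_of_sq`: if `0 < d'`, `0 < d' n - 1` and `r² + d' = k (d' n - 1)` then `n` is a sum of
three squares).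
PROOF. `n = 1` is clear. Let `n ≥ 5`. Put `e = (3n - 1)/2` (an integer, as `n` is odd). Then
`gcd(4n, e) = 1`: `e` is odd (`n ≡ 1 mod 4` gives `3n - 1 ≡ 2 mod 4`) and a prime dividing `n` and `e`
divides `2e - 3n = -1`. By Dirichlet (`Nat.forall_exists_prime_gt_and_modEq`) there is a prime
`p = 4 n j + e`, `p > 4n`. Put `d = 8 j + 3`, so `2 p = d n - 1`, `d ≡ 3 mod 8`.
JACOBI SYMBOL: `J(-d | p) = 1`. Indeed `J(-2p | d) = J(1 - d n | d) = J(1 | d) = 1`
(`jacobiSym.mod_left'`), so `J(p | d) = J(-2 | d) = 1` as `d ≡ 3 mod 8`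
(`jacobiSym.at_neg_two`, `ZMod.χ₈'`; `J(-2|d)` and `J(p|d)` are `±1` and their product is 1).
If `n ≡ 1 mod 8`: `p ≡ e ≡ 1 mod 4`, `J(-d | p) = J(-1|p) J(d | p) = J(d | p) = J(p | d) = 1`
(`jacobiSym.quadratic_reciprocity_one_mod_four`). If `n ≡ 5 mod 8`: `p ≡ e ≡ 3 mod 4`, and
`J(-d | p) = - J(d | p) = J(p | d) = 1` (`jacobiSym.quadratic_reciprocity_three_mod_four`).
So `-d` is a square modulo `p` (`legendreSym`, as in the model), say `p ∣ r₀² + d`; replacing `r₀` by
`r₀ + p` if necessary `r` is odd, so `2p ∣ r² + d`, and `three_squares_of_sq` applies with `d' = d`. -/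
theorem three_squares_one_mod_four (n : ℕ) (hn : n % 4 = 1) :
    ∃ x y z : ℤ, (n : ℤ) = x ^ 2 + y ^ 2 + z ^ 2 := by
  rcases Nat.lt_or_ge n 5 with h5 | h5
  · have : n = 1 := by omega
    subst this
    exact ⟨1, 0, 0, by norm_num⟩
  obtain ⟨e, he⟩ : ∃ e, 2 * e = 3 * n - 1 := ⟨(3 * n - 1) / 2, by omega⟩
  have he2 : 2 * e + 1 = 3 * n := by omega
  have hcop : e.Coprime (4 * n) := by
    have h1 : e.Coprime n := by
      rw [Nat.coprime_iff_gcd_eq_one]
      have hd1 : Nat.gcd e n ∣ 3 * n := (Nat.gcd_dvd_right e n).mul_left 3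
      rw [← he2] at hd1
      have hd2 : Nat.gcd e n ∣ 2 * e := (Nat.gcd_dvd_left e n).mul_left 2
      exact Nat.dvd_one.mp ((Nat.dvd_add_right hd2).mp hd1)
    have h2 : e.Coprime 4 := by
      have : Odd e := by rw [Nat.odd_iff]; omega
      have h3 : e.Coprime 2 := Nat.Coprime.symm (Nat.coprime_two_left.mpr this)
      simpa using Nat.Coprime.pow_right 2 h3
    exact Nat.Coprime.mul_right h2 h1
  obtain ⟨p, hpgt, hpp, hpmod⟩ :=
    Nat.forall_exists_prime_gt_and_modEq (4 * n) (q := 4 * n) (by omega) hcop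
  obtain ⟨j, hj⟩ : ∃ j, p = 4 * n * j + e := by
    have h1 : p % (4 * n) = e % (4 * n) := hpmod
    rw [Nat.mod_eq_of_lt (show e < 4 * n by omega)] at h1
    exact ⟨p / (4 * n), by rw [← h1]; exact (Nat.div_add_mod p (4 * n)).symm⟩
  set d := 8 * j + 3 with hd
  have hpd : 2 * (p : ℤ) = d * n - 1 := by
    rw [hj, hd]; push_cast
    have : 2 * (e : ℤ) = 3 * n - 1 := by omega
    linear_combination this
  have : Fact p.Prime := ⟨hpp⟩
  have hpmod4 : p % 4 = e % 4 := by
    have h4 : 4 * n * j = 4 * (n * j) := by ring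
    rw [hj, h4]; omega
  have hpodd : Odd p := by rw [Nat.odd_iff]; omega
  have hdodd : Odd d := by rw [Nat.odd_iff]; omega
  -- the symbol J(-2 | d) = 1 and J(-2 p | d) = 1
  have f1 : J(-2 | d) = 1 := by
    rw [jacobiSym.at_neg_two hdodd]
    have : ((d : ℕ) : ZMod 8) = 3 := by
      rw [hd]; push_cast
      have : (8 : ZMod 8) = 0 := by decide
      rw [this]; ring
    rw [this]; decide
  have f2 : J(-2 * (p : ℤ) | d) = 1 := by
    have : J(-2 * (p : ℤ) | d) = J(1 | d) := by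
      apply jacobiSym.mod_left'
      have : -2 * (p : ℤ) = 1 + d * (-n) := by linear_combination (-1 : ℤ) * hpd
      rw [this, Int.add_mul_emod_self_left]
    rw [this, jacobiSym.one_left]
  have f3 : J((p : ℤ) | d) = 1 := by
    rw [jacobiSym.mul_left, f1, one_mul] at f2
    exact f2
  have hsym : J(-(d : ℤ) | p) = 1 := by
    have e1 : J(-(d : ℤ) | p) = J(-1 | p) * J((d : ℤ) | p) := by
      rw [← jacobiSym.mul_left]; simp
    rcases (show p % 4 = 1 ∨ p % 4 = 3 by omega) with h | h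
    · have e2 : J(-1 | p) = 1 := by
        rw [jacobiSym.at_neg_one hpodd, ZMod.χ₄_nat_one_mod_four h]
      have e3 : J((p : ℤ) | d) = J((d : ℤ) | p) :=
        jacobiSym.quadratic_reciprocity_one_mod_four h hdodd
      rw [e1, e2, ← e3, f3]; norm_num
    · have e2 : J(-1 | p) = -1 := by
        rw [jacobiSym.at_neg_one hpodd, ZMod.χ₄_nat_three_mod_four h]
      have e3 : J((d : ℤ) | p) = -J((p : ℤ) | d) :=
        jacobiSym.quadratic_reciprocity_three_mod_four (by omega) h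
      rw [e1, e2, e3, f3]; norm_num
  have hsq : IsSquare ((-(d : ℤ) : ℤ) : ZMod p) := by
    rw [← jacobiSym.legendreSym.to_jacobiSym] at hsym
    by_contra hcon
    rw [← legendreSym.eq_neg_one_iff p] at hcon
    rw [hcon] at hsym
    norm_num at hsym
  obtain ⟨r0, hr0⟩ := hsq
  obtain ⟨r, hr⟩ : ∃ r : ℤ, (r : ZMod p) = r0 := ⟨r0.val, by simp⟩
  have hdvd : (p : ℤ) ∣ r ^ 2 + d := by
    rw [← ZMod.intCast_zmod_eq_zero_iff_dvd]
    push_cast
    rw [hr]
    push_cast at hr0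
    linear_combination (-1 : ZMod p) * hr0
  -- an odd square root
  obtain ⟨r', hr'odd, hr'⟩ : ∃ r' : ℤ, r' % 2 = 1 ∧ (p : ℤ) ∣ r' ^ 2 + d := by
    rcases Int.emod_two_eq_zero_or_one r with h | h
    · refine ⟨r + p, ?_, ?_⟩
      · have : (p : ℤ) % 2 = 1 := by
          have := Nat.odd_iff.mp hpodd; omega
        omega
      · have : (r + p) ^ 2 + (d : ℤ) = (r ^ 2 + d) + p * (2 * r + p) := by ring
        rw [this]
        exact dvd_add hdvd (dvd_mul_right _ _)
    · exact ⟨r, h, hdvd⟩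
  have h2dvd : (2 : ℤ) ∣ r' ^ 2 + d := by
    obtain ⟨s, hs⟩ : ∃ s, r' = 2 * s + 1 := ⟨r' / 2, by omega⟩
    refine ⟨2 * s ^ 2 + 2 * s + 4 * j + 2, ?_⟩
    rw [hs, hd]; push_cast; ring
  have h2p : (2 : ℤ) * p ∣ r' ^ 2 + d := by
    apply IsCoprime.mul_dvd _ h2dvd hr'
    rw [show (2 : ℤ) = ((2 : ℕ) : ℤ) by norm_num, Nat.isCoprime_iff_coprime]
    exact Nat.coprime_two_left.mpr hpodd
  obtain ⟨k, hk⟩ := h2p
  refine Pool.Agent.Lib.H63.ThreeSquares.three_squares_of_sq (n := n) (d' := d) (r := r') (k := k)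
    (by omega) ?_ ?_
  · rw [← hpd]; have := hpp.pos; positivity
  · rw [← hpd, hk]; ring

end Pool.Agent.Lib.H82O
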