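import Pool.Agent.Lib.H82O.Defs

/-!
# H82O A02A: sign rules for bad `m`
-/

set_option autoImplicit false

namespace Pool.Agent.Lib.H82O

open Pool.Agent.Lib.H63.TSP

lemma a02a_sq3 (t : ℤ) : t ^ 2 % 3 = if t % 3 = 0 then 0 else 1 := by
  have : t % 3 = 0 ∨ t % 3 = 1 ∨ t % 3 = 2 := by omega
  rcases this with h | h | h <;> simp [pow_two, Int.mul_emod, h]

lemma a02a_exists (y : ℤ) (hy : y % 3 ≠ 0) :
    (∃ s : ℤ, s ^ 2 = y ^ 2 ∧ s % 3 = 1) ∧ (∃ s : ℤ, s ^ 2 = y ^ 2 ∧ s % 3 = 2) := by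
  have : y % 3 = 1 ∨ y % 3 = 2 := by omega
  rcases this with h | h
  · exact ⟨⟨y, rfl, h⟩, ⟨-y, by ring, by omega⟩⟩
  · exact ⟨⟨-y, by ring, by omega⟩, ⟨y, rfl, h⟩⟩

/-- TYPE I (the even coordinate `x` is divisible by three): `y, z` are then prime to three.
PROOF. `y` is odd and `z` is odd (look modulo 4) and `3 ∤ y`, `3 ∤ z` (modulo 3: the sum of squares
is `2m ≡ 2`). If `z % 3 = 1`: choose the sign `y' = ± y` with `y' % 3 = 2`; then `(e,p,q) = (x,z,y')`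
and `(-x,z,y')` both lie in `X m`, so `hb` gives `x < z` and `-x < z`, whence `0 < z`. If `z % 3 = 2`
choose `y' = ± y` with `y' % 3 = 1`: `(x,y',z)` and `(-x,y',z)` lie in `X m`, so `z < x`, `z < -x` and
`z < 0`. -/
theorem bad_I {m : ℤ} (hm : m % 6 = 1) (hb : Bad m) {x y z : ℤ}
    (h : x ^ 2 + y ^ 2 + z ^ 2 = 2 * m) (hx : x % 2 = 0) (hx3 : x % 3 = 0) :
    z % 3 ≠ 0 ∧ (z % 3 = 1 → 0 < z) ∧ (z % 3 = 2 → z < 0) := by
  have kx := a02a_sq3 x
  have ky := a02a_sq3 y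
  have kz := a02a_sq3 z
  rw [if_pos hx3] at kx
  have hsum : (x ^ 2 + y ^ 2 + z ^ 2) % 3 = 2 := by rw [h]; omega
  have hz : z % 3 ≠ 0 := by
    intro h0
    rw [if_pos h0] at kz
    split_ifs at ky <;> omega
  have hy : y % 3 ≠ 0 := by
    intro h0
    rw [if_pos h0] at ky
    split_ifs at kz <;> omega
  obtain ⟨⟨s, hs, hs1⟩, ⟨t, ht, ht2⟩⟩ := a02a_exists y hy
  refine ⟨hz, fun hz1 => ?_, fun hz2 => ?_⟩
  · have h1 := (hb ⟨x, z, t⟩ ⟨by simp only; rw [ht]; linarith, hx, by simp only; omega,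
      by simp only; omega⟩).1
    have h2 := (hb ⟨-x, z, t⟩ ⟨by simp only; rw [ht, neg_sq]; linarith, by simp only; omega,
      by simp only; omega, by simp only; omega⟩).1
    simp only at h1 h2
    omega
  · have h1 := (hb ⟨x, s, z⟩ ⟨by simp only; rw [hs]; linarith, hx, by simp only; omega,
      by simp only; omega⟩).2
    have h2 := (hb ⟨-x, s, z⟩ ⟨by simp only; rw [hs, neg_sq]; linarith, by simp only; omega,
      by simp only; omega, by simp only; omega⟩).2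
    simp only at h1 h2
    omega

end Pool.Agent.Lib.H82O
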