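import Pool.Agent.Lib.H82O.Defs

/-!
# H82O A02B: sign rules for bad `m`
-/

set_option autoImplicit false

namespace Pool.Agent.Lib.H82O

open Pool.Agent.Lib.H63.TSP

lemma a02b_sq3 (t : ℤ) : t ^ 2 % 3 = if t % 3 = 0 then 0 else 1 := by
  have : t % 3 = 0 ∨ t % 3 = 1 ∨ t % 3 = 2 := by omega
  rcases this with h | h | h <;> simp [pow_two, Int.mul_emod, h]

/-- the basic case -/
lemma a02b_base {m : ℤ} (hb : Bad m) {x y z : ℤ}
    (h : x ^ 2 + y ^ 2 + z ^ 2 = 2 * m) (hx : x % 2 = 0) (hy3 : y % 3 = 0) (hx1 : x % 3 = 1)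
    (hz2 : z % 3 = 2) : 0 < x ∧ 0 < z := by
  have h1 := hb ⟨x, z, y⟩ ⟨by simp only; linarith, hx, by simp only; omega,
      by simp only; omega⟩
  have h2 := hb ⟨x, z, -y⟩ ⟨by simp only; rw [neg_sq]; linarith, hx, by simp only; omega,
      by simp only; omega⟩
  simp only at h1 h2
  omega

/-- TYPE II (the odd coordinate `y` is divisible by three): `x, z` are prime to three.
PROOF. As before `3 ∤ x`, `3 ∤ z`. Let `x % 3 = 1`. If `z % 3 = 2`, then `(e,p,q) = (x, z, y)` and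
`(x, z, -y)` lie in `X m` (`p - e ≡ 1`, `q - e ≡ 2`), so `hb` gives `x < z`, `y < x`, `-y < x`, hence
`0 < x < z`. If `z % 3 = 1` apply this to `-z`: `0 < x`, `0 < -z`. Let `x % 3 = 2`: apply the
previous case to `-x` (and `±z`). -/
theorem bad_II {m : ℤ} (hm : m % 6 = 1) (hb : Bad m) {x y z : ℤ}
    (h : x ^ 2 + y ^ 2 + z ^ 2 = 2 * m) (hx : x % 2 = 0) (hy3 : y % 3 = 0) :
    x % 3 ≠ 0 ∧ z % 3 ≠ 0 ∧ (z % 3 = 2 → 0 < z) ∧ (z % 3 = 1 → z < 0) ∧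
      (x % 3 = 1 → 0 < x) ∧ (x % 3 = 2 → x < 0) := by
  have kx := a02b_sq3 x
  have ky := a02b_sq3 y
  have kz := a02b_sq3 z
  rw [if_pos hy3] at ky
  have hsum : (x ^ 2 + y ^ 2 + z ^ 2) % 3 = 2 := by rw [h]; omega
  have hz0 : z % 3 ≠ 0 := by
    intro h0
    rw [if_pos h0] at kz
    split_ifs at kx <;> omega
  have hx0 : x % 3 ≠ 0 := by
    intro h0
    rw [if_pos h0] at kx
    split_ifs at kz <;> omega
  have hx12 : x % 3 = 1 ∨ x % 3 = 2 := by omega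
  have hz12 : z % 3 = 1 ∨ z % 3 = 2 := by omega
  have n1 : x ^ 2 + y ^ 2 + (-z) ^ 2 = 2 * m := by rw [neg_sq]; exact h
  have n2 : (-x) ^ 2 + y ^ 2 + z ^ 2 = 2 * m := by rw [neg_sq]; exact h
  have n3 : (-x) ^ 2 + y ^ 2 + (-z) ^ 2 = 2 * m := by rw [neg_sq, neg_sq]; exact h
  refine ⟨hx0, hz0, ?_⟩
  rcases hx12 with hx1 | hx1 <;> rcases hz12 with hz1 | hz1
  · have := a02b_base hb n1 hx hy3 hx1 (by omega)
    refine ⟨fun _ => ?_, fun _ => ?_, fun _ => ?_, fun _ => ?_⟩ <;> omega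
  · have := a02b_base hb h hx hy3 hx1 hz1
    refine ⟨fun _ => ?_, fun _ => ?_, fun _ => ?_, fun _ => ?_⟩ <;> omega
  · have := a02b_base hb n3 (by omega) hy3 (by omega) (by omega)
    refine ⟨fun _ => ?_, fun _ => ?_, fun _ => ?_, fun _ => ?_⟩ <;> omega
  · have := a02b_base hb n2 (by omega) hy3 (by omega) hz1
    refine ⟨fun _ => ?_, fun _ => ?_, fun _ => ?_, fun _ => ?_⟩ <;> omega

end Pool.Agent.Lib.H82O
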