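import Pool.Agent.Lib.H82O.Defs
import Pool.Agent.Lib.H82O.A02A
import Pool.Agent.Lib.H82O.A02B

/-! Collects A02A, A02B. -/
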