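import Pool.Agent.Lib.H82O.A02

/-!
# H82O A03: `p² ∣ m`, `p ≡ 1 (mod 6)`
-/

set_option autoImplicit false

namespace Pool.Agent.Lib.H82O

open Pool.Agent.Lib.H63.TSP

/-- residues of a rotated vector -/
lemma a03_res {p k a b c d x y z : ℤ} (hk : p = 6 * k + 1)
    (hn : a ^ 2 + (3 * b) ^ 2 + (3 * c) ^ 2 + (3 * d) ^ 2 = p) (hx : x % 2 = 0) :
    wx a (3 * b) (3 * c) (3 * d) x y z % 2 = 0 ∧ wx a (3 * b) (3 * c) (3 * d) x y z % 3 = x % 3 ∧
    wy a (3 * b) (3 * c) (3 * d) x y z % 3 = y % 3 ∧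
    wz a (3 * b) (3 * c) (3 * d) x y z % 3 = z % 3 := by
  have ha : a ^ 2 = 6 * k + 1 - 9 * b ^ 2 - 9 * c ^ 2 - 9 * d ^ 2 := by
    rw [← hk]; linarith
  have e1 : wx a (3 * b) (3 * c) (3 * d) x y z = x + 3 * ((2 * k - 3 * b ^ 2 - 3 * c ^ 2 - 3 * d ^ 2) * x
      + 3 * (b ^ 2 - c ^ 2 - d ^ 2) * x + 2 * (3 * b * c - a * d) * y + 2 * (3 * b * d + a * c) * z) := by
    unfold wx; linear_combination x * ha
  have e2 : wy a (3 * b) (3 * c) (3 * d) x y z = y + 3 * ((2 * k - 3 * b ^ 2 - 3 * c ^ 2 - 3 * d ^ 2) * y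
      + 3 * (-b ^ 2 + c ^ 2 - d ^ 2) * y + 2 * (3 * b * c + a * d) * x + 2 * (3 * c * d - a * b) * z) := by
    unfold wy; linear_combination y * ha
  have e3 : wz a (3 * b) (3 * c) (3 * d) x y z = z + 3 * ((2 * k - 3 * b ^ 2 - 3 * c ^ 2 - 3 * d ^ 2) * z
      + 3 * (-b ^ 2 - c ^ 2 + d ^ 2) * z + 2 * (3 * b * d - a * c) * x + 2 * (3 * c * d + a * b) * y) := by
    unfold wz; linear_combination z * ha
  refine ⟨?_, ?_, ?_, ?_⟩
  · obtain ⟨x', rfl⟩ : ∃ x', x = 2 * x' := ⟨x / 2, by omega⟩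
    have : wx a (3 * b) (3 * c) (3 * d) (2 * x') y z = 2 * ((a ^ 2 + (3 * b) ^ 2 - (3 * c) ^ 2 - (3 * d) ^ 2) * x'
      + ((3 * b) * (3 * c) - a * (3 * d)) * y + ((3 * b) * (3 * d) + a * (3 * c)) * z) := by
      unfold wx; ring
    rw [this]; exact Int.mul_emod_right _ _
  · rw [e1]; exact Int.add_mul_emod_self_left _ _ _
  · rw [e2]; exact Int.add_mul_emod_self_left _ _ _
  · rw [e3]; exact Int.add_mul_emod_self_left _ _ _

/-- PROOF. For a sign `s = ±1` let `W_s = (wx a (s b) (s c) d x y z, wy .., wz ..)`. By `w_norm`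
`|W_s|² = p² · 2 m' = 2 m`. Modulo 3 (`3 ∣ b, c, d`): `W_s ≡ a² (x,y,z) ≡ (x,y,z)`, since
`a² ≡ p ≡ 1 (mod 3)`. Modulo 2 the first coordinate is
`≡ (a² + b² + c² + d²) x ≡ 0`, so it is even. Also `(p x, p y, p z)` has norm `2m`, first coordinate
even, and residues `(x,y,z)` modulo 3. As `2m' ≡ 2 (mod 3)` exactly one of `x, y, z` is divisible by
three; it is not `z`. If `3 ∣ x` use `bad_I`, if `3 ∣ y` use `bad_II`, for the three vectors `W_1`,
`W_{-1}` and `p (x,y,z)`: the third coordinates of all three have the same residue (1 or 2)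
modulo three, so they have the same strict sign. But (`ring`)
`wz a b c d + wz a (-b) (-c) d = 2 (a² - b² - c² + d²) z`, and `a² - b² - c² + d² < 0`: this is a
contradiction with the sign of `z` (the sign of `p z`, `p > 0`). -/
theorem case_one {m m' p a b c d x y z : ℤ} (hm : m % 6 = 1) (hb : Bad m) (hp : 0 < p)
    (hp6 : p % 6 = 1) (hmm : m = p ^ 2 * m') (hv : x ^ 2 + y ^ 2 + z ^ 2 = 2 * m')
    (hx : x % 2 = 0) (hz : z % 3 ≠ 0) (hn : a ^ 2 + b ^ 2 + c ^ 2 + d ^ 2 = p)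
    (h3b : b % 3 = 0) (h3c : c % 3 = 0) (h3d : d % 3 = 0)
    (hlt : a ^ 2 + d ^ 2 < b ^ 2 + c ^ 2) : False := by
  obtain ⟨b, rfl⟩ : ∃ t, b = 3 * t := ⟨b / 3, by omega⟩
  obtain ⟨c, rfl⟩ : ∃ t, c = 3 * t := ⟨c / 3, by omega⟩
  obtain ⟨d, rfl⟩ : ∃ t, d = 3 * t := ⟨d / 3, by omega⟩
  obtain ⟨k, hk⟩ : ∃ k, p = 6 * k + 1 := ⟨p / 6, by omega⟩
  have hn' : a ^ 2 + (3 * -b) ^ 2 + (3 * -c) ^ 2 + (3 * d) ^ 2 = p := by rw [← hn]; ring
  obtain ⟨r1, r2, r3, r4⟩ := a03_res (x := x) (y := y) (z := z) hk hn hx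
  obtain ⟨s1, s2, s3, s4⟩ := a03_res (x := x) (y := y) (z := z) hk hn' hx
  have nr := w_norm a (3 * b) (3 * c) (3 * d) x y z
  have ns := w_norm a (3 * -b) (3 * -c) (3 * d) x y z
  rw [hn, hv] at nr
  rw [hn', hv] at ns
  have hsum : wz a (3 * b) (3 * c) (3 * d) x y z + wz a (3 * -b) (3 * -c) (3 * d) x y z =
      2 * (a ^ 2 - (3 * b) ^ 2 - (3 * c) ^ 2 + (3 * d) ^ 2) * z := by unfold wz; ring
  set A := wx a (3 * b) (3 * c) (3 * d) x y z
  set B := wy a (3 * b) (3 * c) (3 * d) x y z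
  set C := wz a (3 * b) (3 * c) (3 * d) x y z
  set A' := wx a (3 * -b) (3 * -c) (3 * d) x y z
  set B' := wy a (3 * -b) (3 * -c) (3 * d) x y z
  set C' := wz a (3 * -b) (3 * -c) (3 * d) x y z
  have nr' : A ^ 2 + B ^ 2 + C ^ 2 = 2 * m := by rw [nr, hmm]; ring
  have ns' : A' ^ 2 + B' ^ 2 + C' ^ 2 = 2 * m := by rw [ns, hmm]; ring
  have np : (p * x) ^ 2 + (p * y) ^ 2 + (p * z) ^ 2 = 2 * m := by
    have : (p * x) ^ 2 + (p * y) ^ 2 + (p * z) ^ 2 = p ^ 2 * (x ^ 2 + y ^ 2 + z ^ 2) := by ring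
    rw [this, hv, hmm]; ring
  have px2 : (p * x) % 2 = 0 := by rw [Int.mul_emod, hx]; simp
  have pr : ∀ t : ℤ, (p * t) % 3 = t % 3 := by
    intro t
    have : p * t = t + 3 * (2 * k * t) := by rw [hk]; ring
    rw [this]; exact Int.add_mul_emod_self_left _ _ _
  have hD : a ^ 2 - (3 * b) ^ 2 - (3 * c) ^ 2 + (3 * d) ^ 2 < 0 := by linarith
  -- signs
  have key : (0 < C ∧ 0 < C' ∧ 0 < p * z) ∨ (C < 0 ∧ C' < 0 ∧ p * z < 0) := by
    have q1 := pr x
    have q2 := pr y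
    have q3 := pr z
    by_cases hx3 : x % 3 = 0
    · have t1 := bad_I hm hb nr' r1 (by omega)
      have t2 := bad_I hm hb ns' s1 (by omega)
      have t3 := bad_I hm hb np px2 (by omega)
      have hz12 : z % 3 = 1 ∨ z % 3 = 2 := by omega
      rcases hz12 with h | h
      · exact Or.inl ⟨t1.2.1 (by omega), t2.2.1 (by omega), t3.2.1 (by omega)⟩
      · exact Or.inr ⟨t1.2.2 (by omega), t2.2.2 (by omega), t3.2.2 (by omega)⟩
    · have hy3 : y % 3 = 0 := by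
        have e1 := a02a_sq3 x
        have e2 := a02a_sq3 y
        have e3 := a02a_sq3 z
        rw [if_neg hx3] at e1
        rw [if_neg hz] at e3
        by_contra h0
        rw [if_neg h0] at e2
        have e4 : (2 * m') % 3 = 2 := by
          have h5 : (p ^ 2 * m') % 6 = 1 := by rw [← hmm]; exact hm
          have h6 : p ^ 2 * m' = m' + 6 * ((6 * k ^ 2 + 2 * k) * m') := by rw [hk]; ring
          rw [h6, Int.add_mul_emod_self_left] at h5
          omega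
        rw [← hv] at e4
        omega
      have t1 := bad_II hm hb nr' r1 (by omega)
      have t2 := bad_II hm hb ns' s1 (by omega)
      have t3 := bad_II hm hb np px2 (by omega)
      have hz12 : z % 3 = 1 ∨ z % 3 = 2 := by omega
      rcases hz12 with h | h
      · exact Or.inr ⟨t1.2.2.2.1 (by omega), t2.2.2.2.1 (by omega), t3.2.2.2.1 (by omega)⟩
      · exact Or.inl ⟨t1.2.2.1 (by omega), t2.2.2.1 (by omega), t3.2.2.1 (by omega)⟩
  rcases key with ⟨h1, h2, h3⟩ | ⟨h1, h2, h3⟩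
  · have hz0 : 0 < z := by
      by_contra hc
      push Not at hc
      have := mul_nonpos_of_nonneg_of_nonpos hp.le hc
      omega
    have := mul_neg_of_neg_of_pos hD hz0
    nlinarith
  · have hz0 : z < 0 := by
      by_contra hc
      push Not at hc
      have := mul_nonneg hp.le hc
      omega
    have := mul_pos_of_neg_of_neg hD hz0
    nlinarith

end Pool.Agent.Lib.H82O
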