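import Pool.Agent.Lib.H82O.A02

/-!
# H82O A04: `p² ∣ m`, `p ≡ 5 (mod 6)`, the vector has type II
-/

set_option autoImplicit false

namespace Pool.Agent.Lib.H82O

open Pool.Agent.Lib.H63.TSP

/-- the half rotation -/
lemma a04_half {p m m' k a b c d x y z : ℤ} (hk : p = 6 * k + 5) (hmm : m = p ^ 2 * m')
    (hv : x ^ 2 + y ^ 2 + z ^ 2 = 2 * m') (hx : x % 2 = 0) (hy : y % 3 = 0)
    (hn : a ^ 2 + (3 * b) ^ 2 + (6 * c) ^ 2 + (6 * d) ^ 2 = 2 * p) :
    ∃ X Y Z : ℤ, X ^ 2 + Y ^ 2 + Z ^ 2 = 2 * m ∧ X % 2 = 0 ∧ Y % 3 = 0 ∧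
      X % 3 = (-x) % 3 ∧ Z % 3 = (-z) % 3 ∧
      X = (p - (6 * c) ^ 2 - (6 * d) ^ 2) * x + ((3 * b) * (6 * c) - a * (6 * d)) * y
        + ((3 * b) * (6 * d) + a * (6 * c)) * z ∧
      Z = (p - (3 * b) ^ 2 - (6 * c) ^ 2) * z + ((3 * b) * (6 * d) - a * (6 * c)) * x
        + ((6 * c) * (6 * d) + a * (3 * b)) * y := by
  set X := (p - (6 * c) ^ 2 - (6 * d) ^ 2) * x + ((3 * b) * (6 * c) - a * (6 * d)) * y
        + ((3 * b) * (6 * d) + a * (6 * c)) * z with hX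
  set Y := (p - (3 * b) ^ 2 - (6 * d) ^ 2) * y + ((3 * b) * (6 * c) + a * (6 * d)) * x
        + ((6 * c) * (6 * d) - a * (3 * b)) * z with hY
  set Z := (p - (3 * b) ^ 2 - (6 * c) ^ 2) * z + ((3 * b) * (6 * d) - a * (6 * c)) * x
        + ((6 * c) * (6 * d) + a * (3 * b)) * y with hZ
  have ha : a ^ 2 = 2 * p - (3 * b) ^ 2 - (6 * c) ^ 2 - (6 * d) ^ 2 := by linarith
  have e1 : wx a (3 * b) (6 * c) (6 * d) x y z = 2 * X := by
    rw [hX]; unfold wx; linear_combination x * ha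
  have e2 : wy a (3 * b) (6 * c) (6 * d) x y z = 2 * Y := by
    rw [hY]; unfold wy; linear_combination y * ha
  have e3 : wz a (3 * b) (6 * c) (6 * d) x y z = 2 * Z := by
    rw [hZ]; unfold wz; linear_combination z * ha
  have nr := w_norm a (3 * b) (6 * c) (6 * d) x y z
  rw [hn, hv, e1, e2, e3] at nr
  refine ⟨X, Y, Z, ?_, ?_, ?_, ?_, ?_, rfl, rfl⟩
  · have h4 : 4 * (X ^ 2 + Y ^ 2 + Z ^ 2) = 4 * (2 * m) := by rw [hmm]; linear_combination nr
    linarith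
  · obtain ⟨x', rfl⟩ : ∃ x', x = 2 * x' := ⟨x / 2, by omega⟩
    have : X = 2 * ((p - (6 * c) ^ 2 - (6 * d) ^ 2) * x' + ((3 * b) * (3 * c) - a * (3 * d)) * y
        + ((3 * b) * (3 * d) + a * (3 * c)) * z) := by rw [hX]; ring
    rw [this]; exact Int.mul_emod_right _ _
  · obtain ⟨y', rfl⟩ : ∃ y', y = 3 * y' := ⟨y / 3, by omega⟩
    have : Y = 3 * ((p - (3 * b) ^ 2 - (6 * d) ^ 2) * y' + (b * (6 * c) + a * (2 * d)) * x
        + ((2 * c) * (6 * d) - a * b) * z) := by rw [hY]; ring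
    rw [this]; exact Int.mul_emod_right _ _
  · have : X = -x + 3 * ((2 * k + 2 - 12 * c ^ 2 - 12 * d ^ 2) * x + (b * (6 * c) - a * (2 * d)) * y
        + (b * (6 * d) + a * (2 * c)) * z) := by rw [hX, hk]; ring
    rw [this]; exact Int.add_mul_emod_self_left _ _ _
  · have : Z = -z + 3 * ((2 * k + 2 - 3 * b ^ 2 - 12 * c ^ 2) * z + (b * (6 * d) - a * (2 * c)) * x
        + ((2 * c) * (6 * d) + a * b) * y) := by rw [hZ, hk]; ring
    rw [this]; exact Int.add_mul_emod_self_left _ _ _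

/-- PROOF. Let `(a, b', c', d')` be a sign change of `(a, b, c, d)` and let
`W = (wx .., wy .., wz ..)`. With `a, b` odd, `c, d` even and `a² + b² + c² + d² = 2p ≡ 2 (mod 4)`, all
three coordinates of `W` are even; `W/2` has norm `(2p)² · 2m'/4 = 2m` (`w_norm`); its first
coordinate is even: `(a² + b² - c² - d²) x / 2` is even since `x` is even and the bracket is even, and
`(bc - ad) y`, `(bd + ac) z` are even. Modulo 3: `W ≡ a² (x,y,z)`, and `a² ≡ 2p ≡ 1`, so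
`W/2 ≡ 2 (x,y,z) ≡ - (x,y,z)`; also `p (x,y,z) ≡ - (x,y,z)` modulo 3. Since `3 ∣ y`, `bad_II` applies
to all the vectors `W/2` and to `p (x,y,z)`: their third coordinates have the same strict sign, and
their first coordinates have the same strict sign. (i) If `a² + d² < b² + c²`:
`wz a b c d + wz a (-b) (-c) d = 2 (a² - b² - c² + d²) z`, whose sign is opposite to that of `z`:
contradiction. (ii) If `a² + b² < c² + d²`: `wx a b c d + wx a b (-c) (-d) =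
2 (a² + b² - c² - d²) x`, sign opposite to that of `x` (`x ≠ 0`, `3 ∤ x`): contradiction. -/
theorem case_two {m m' p a b c d x y z : ℤ} (hm : m % 6 = 1) (hb : Bad m) (hp : 0 < p)
    (hp6 : p % 6 = 5) (hmm : m = p ^ 2 * m') (hv : x ^ 2 + y ^ 2 + z ^ 2 = 2 * m')
    (hx : x % 2 = 0) (hy : y % 3 = 0) (hn : a ^ 2 + b ^ 2 + c ^ 2 + d ^ 2 = 2 * p)
    (ha : a % 2 = 1) (hb2 : b % 2 = 1) (hc2 : c % 2 = 0) (hd2 : d % 2 = 0)
    (h3b : b % 3 = 0) (h3c : c % 3 = 0) (h3d : d % 3 = 0)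
    (hlt : a ^ 2 + d ^ 2 < b ^ 2 + c ^ 2 ∨ a ^ 2 + b ^ 2 < c ^ 2 + d ^ 2) : False := by
  obtain ⟨b, rfl⟩ : ∃ t, b = 3 * t := ⟨b / 3, by omega⟩
  obtain ⟨c, rfl⟩ : ∃ t, c = 6 * t := ⟨c / 6, by omega⟩
  obtain ⟨d, rfl⟩ : ∃ t, d = 6 * t := ⟨d / 6, by omega⟩
  obtain ⟨k, hk⟩ : ∃ k, p = 6 * k + 5 := ⟨p / 6, by omega⟩
  have np : (p * x) ^ 2 + (p * y) ^ 2 + (p * z) ^ 2 = 2 * m := by
    have : (p * x) ^ 2 + (p * y) ^ 2 + (p * z) ^ 2 = p ^ 2 * (x ^ 2 + y ^ 2 + z ^ 2) := by ring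
    rw [this, hv, hmm]; ring
  have px2 : (p * x) % 2 = 0 := by rw [Int.mul_emod, hx]; simp
  have pr : ∀ t : ℤ, (p * t) % 3 = (-t) % 3 := by
    intro t
    have : p * t = -t + 3 * ((2 * k + 2) * t) := by rw [hk]; ring
    rw [this]; exact Int.add_mul_emod_self_left _ _ _
  have q1 := pr x
  have q2 := pr y
  have q3 := pr z
  have t0 := bad_II hm hb np px2 (by omega)
  obtain ⟨X, Y, Z, n1, n2, n3, n4, n5, hX, hZ⟩ := a04_half hk hmm hv hx hy hn
  have t1 := bad_II hm hb n1 n2 n3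
  have sgn_pos : ∀ t : ℤ, 0 < p * t → 0 < t := by
    intro t ht
    by_contra hc
    push Not at hc
    have := mul_nonpos_of_nonneg_of_nonpos hp.le hc
    omega
  have sgn_neg : ∀ t : ℤ, p * t < 0 → t < 0 := by
    intro t ht
    by_contra hc
    push Not at hc
    have := mul_nonneg hp.le hc
    omega
  rcases hlt with hlt | hlt
  · have hn' : a ^ 2 + (3 * -b) ^ 2 + (6 * -c) ^ 2 + (6 * d) ^ 2 = 2 * p := by rw [← hn]; ring
    obtain ⟨X', Y', Z', n1', n2', n3', n4', n5', hX', hZ'⟩ := a04_half hk hmm hv hx hy hn'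
    have t2 := bad_II hm hb n1' n2' n3'
    have hsum : Z + Z' = 2 * ((p - (3 * b) ^ 2 - (6 * c) ^ 2) * z) := by rw [hZ, hZ']; ring
    have hD : p - (3 * b) ^ 2 - (6 * c) ^ 2 < 0 := by linarith
    have hz12 : z % 3 = 1 ∨ z % 3 = 2 := by have := t0.2.1; omega
    rcases hz12 with h | h
    · have h1 : 0 < Z := t1.2.2.1 (by omega)
      have h2 : 0 < Z' := t2.2.2.1 (by omega)
      have h3 : 0 < z := sgn_pos z (t0.2.2.1 (by omega))
      have := mul_neg_of_neg_of_pos hD h3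
      linarith
    · have h1 : Z < 0 := t1.2.2.2.1 (by omega)
      have h2 : Z' < 0 := t2.2.2.2.1 (by omega)
      have h3 : z < 0 := sgn_neg z (t0.2.2.2.1 (by omega))
      have := mul_pos_of_neg_of_neg hD h3
      linarith
  · have hn' : a ^ 2 + (3 * b) ^ 2 + (6 * -c) ^ 2 + (6 * -d) ^ 2 = 2 * p := by rw [← hn]; ring
    obtain ⟨X', Y', Z', n1', n2', n3', n4', n5', hX', hZ'⟩ := a04_half hk hmm hv hx hy hn'
    have t2 := bad_II hm hb n1' n2' n3'
    have hsum : X + X' = 2 * ((p - (6 * c) ^ 2 - (6 * d) ^ 2) * x) := by rw [hX, hX']; ring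
    have hD : p - (6 * c) ^ 2 - (6 * d) ^ 2 < 0 := by linarith
    have hx12 : x % 3 = 1 ∨ x % 3 = 2 := by have := t0.1; omega
    rcases hx12 with h | h
    · have h1 : X < 0 := t1.2.2.2.2.2 (by omega)
      have h2 : X' < 0 := t2.2.2.2.2.2 (by omega)
      have h3 : x < 0 := sgn_neg x (t0.2.2.2.2.2 (by omega))
      have := mul_pos_of_neg_of_neg hD h3
      linarith
    · have h1 : 0 < X := t1.2.2.2.2.1 (by omega)
      have h2 : 0 < X' := t2.2.2.2.2.1 (by omega)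
      have h3 : 0 < x := sgn_pos x (t0.2.2.2.2.1 (by omega))
      have := mul_neg_of_neg_of_pos hD h3
      linarith

end Pool.Agent.Lib.H82O
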