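import Pool.Agent.Lib.H82O.A02

/-!
# H82O A05: `p² ∣ m`, `p ≡ 5 (mod 6)`, the vector has type I: the positivity of all rotations
-/

set_option autoImplicit false

namespace Pool.Agent.Lib.H82O

open Pool.Agent.Lib.H63.TSP

/-- PROOF. Put `W = (wx .., wy .., wz ..)`. With `a, c` odd, `b, d` even, `x` even, `y, z` odd
(`2m' ≡ 2 mod 4`) and `a² + b² + c² + d² = 2p ≡ 2 (mod 4)`: all coordinates of `W` are even, and
`W/2` has norm `2m` (`w_norm`). The THIRD coordinate of `W/2` is even: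
`(a² - c² - b² + d²)/2` is even (`a² - c² ≡ 0 mod 8`, `d² - b² ≡ 0 mod 4`), `(bd - ac) x` is even and
`(cd + ab) y` is even. Modulo 3: `W ≡ a² (x,y,z) ≡ (x,y,z)` (`a² ≡ 2p ≡ 1`), so
`W/2 ≡ 2 (x,y,z)`; in particular the first coordinate of `W/2` is divisible by three. So `bad_II`
applies with (even, divisible by three, other) = (third, first, second) coordinates of `W/2`: the third
coordinate of `W/2` is positive if it is `1` modulo 3, i.e. if `z % 3 = 2`, and negative if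
`z % 3 = 1`. On the other hand `p (x,y,z)` has type I and residues `2 (x,y,z)` modulo 3: by `bad_I`,
`p z > 0` if `z % 3 = 2` and `p z < 0` if `z % 3 = 1`. So `z` and `wz` have the same strict sign. -/
theorem type_I_pos {m m' p a b c d x y z : ℤ} (hm : m % 6 = 1) (hb : Bad m) (hp : 0 < p)
    (hp6 : p % 6 = 5) (hmm : m = p ^ 2 * m') (hv : x ^ 2 + y ^ 2 + z ^ 2 = 2 * m')
    (hx : x % 2 = 0) (hx3 : x % 3 = 0) (hn : a ^ 2 + b ^ 2 + c ^ 2 + d ^ 2 = 2 * p)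
    (ha : a % 2 = 1) (hb2 : b % 2 = 0) (hc2 : c % 2 = 1) (hd2 : d % 2 = 0)
    (h3b : b % 3 = 0) (h3c : c % 3 = 0) (h3d : d % 3 = 0) :
    0 < z * wz a b c d x y z := by
  obtain ⟨b', rfl⟩ : ∃ b', b = 6 * b' := ⟨b / 6, by omega⟩
  obtain ⟨d', rfl⟩ : ∃ d', d = 6 * d' := ⟨d / 6, by omega⟩
  obtain ⟨c', rfl⟩ : ∃ c', c = 6 * c' + 3 := ⟨c / 6, by omega⟩
  obtain ⟨x', rfl⟩ : ∃ x', x = 6 * x' := ⟨x / 6, by omega⟩
  obtain ⟨a', rfl⟩ : ∃ a', a = 2 * a' + 1 := ⟨a / 2, by omega⟩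
  -- a² ≡ 1 mod 3
  obtain ⟨s, hs⟩ : ∃ s, (2 * a' + 1) ^ 2 = 3 * s + 1 := by
    obtain ⟨q, hq⟩ : ∃ q, p = 6 * q + 5 := ⟨p / 6, by omega⟩
    refine ⟨4 * q + 3 - 12 * b' ^ 2 - 12 * c' ^ 2 - 12 * c' - 3 - 12 * d' ^ 2, ?_⟩
    rw [hq] at hn
    linear_combination hn
  set W1 : ℤ := (2 * (a' ^ 2 + a' - 9 * c' ^ 2 - 9 * c' - 2) + 18 * b' ^ 2 - 18 * d' ^ 2) * (6 * x') +
    (6 * b' * (6 * c' + 3) - (2 * a' + 1) * (6 * d')) * y +
    (6 * b' * (6 * d') + (2 * a' + 1) * (6 * c' + 3)) * z with hW1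
  set W2 : ℤ := (2 * (a' ^ 2 + a' + 9 * c' ^ 2 + 9 * c') + 5 - 18 * b' ^ 2 - 18 * d' ^ 2) * y +
    (6 * b' * (6 * c' + 3) + (2 * a' + 1) * (6 * d')) * (6 * x') +
    ((6 * c' + 3) * (6 * d') - (2 * a' + 1) * (6 * b')) * z with hW2
  set W3 : ℤ := (2 * (a' ^ 2 + a' - 9 * c' ^ 2 - 9 * c' - 2) - 18 * b' ^ 2 + 18 * d' ^ 2) * z +
    (6 * b' * (6 * d') - (2 * a' + 1) * (6 * c' + 3)) * (6 * x') +
    ((6 * c' + 3) * (6 * d') + (2 * a' + 1) * (6 * b')) * y with hW3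
  have e1 : wx (2 * a' + 1) (6 * b') (6 * c' + 3) (6 * d') (6 * x') y z = 2 * W1 := by
    rw [hW1]; unfold wx; ring
  have e2 : wy (2 * a' + 1) (6 * b') (6 * c' + 3) (6 * d') (6 * x') y z = 2 * W2 := by
    rw [hW2]; unfold wy; ring
  have e3 : wz (2 * a' + 1) (6 * b') (6 * c' + 3) (6 * d') (6 * x') y z = 2 * W3 := by
    rw [hW3]; unfold wz; ring
  have hnorm := w_norm (2 * a' + 1) (6 * b') (6 * c' + 3) (6 * d') (6 * x') y z
  rw [e1, e2, e3, hn, hv] at hnorm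
  have hW : W3 ^ 2 + W1 ^ 2 + W2 ^ 2 = 2 * m := by
    rw [hmm]; linarith
  have h32 : W3 % 2 = 0 := by
    have : W3 = 2 * ((a' ^ 2 + a' - 9 * c' ^ 2 - 9 * c' - 2 - 9 * b' ^ 2 + 9 * d' ^ 2) * z +
      (6 * b' * (6 * d') - (2 * a' + 1) * (6 * c' + 3)) * (3 * x') +
      ((6 * c' + 3) * (3 * d') + (2 * a' + 1) * (3 * b')) * y) := by rw [hW3]; ring
    rw [this]; exact Int.mul_emod_right _ _
  have h13 : W1 % 3 = 0 := by
    have : W1 = 3 * ((2 * (a' ^ 2 + a' - 9 * c' ^ 2 - 9 * c' - 2) + 18 * b' ^ 2 - 18 * d' ^ 2) * (2 * x') +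
      (2 * b' * (6 * c' + 3) - (2 * a' + 1) * (2 * d')) * y +
      (2 * b' * (6 * d') + (2 * a' + 1) * (2 * c' + 1)) * z) := by rw [hW1]; ring
    rw [this]; exact Int.mul_emod_right _ _
  have h33 : ∃ t, 2 * W3 = z + 3 * t := by
    refine ⟨s * z + (-12 * b' ^ 2 - 12 * c' ^ 2 - 12 * c' - 3 + 12 * d' ^ 2) * z +
      2 * (6 * b' * (6 * d') - (2 * a' + 1) * (6 * c' + 3)) * (2 * x') +
      2 * ((6 * c' + 3) * (2 * d') + (2 * a' + 1) * (2 * b')) * y, ?_⟩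
    rw [← e3]; unfold wz
    linear_combination z * hs
  obtain ⟨t, ht⟩ := h33
  obtain ⟨-, -, -, -, hI1, hI2⟩ := bad_II hm hb hW h32 h13
  have hpv : (p * (6 * x')) ^ 2 + (p * y) ^ 2 + (p * z) ^ 2 = 2 * m := by
    rw [hmm]; linear_combination p ^ 2 * hv
  obtain ⟨hz3, hz1, hz2⟩ := bad_I hm hb hpv (by
    rw [show p * (6 * x') = 2 * (p * (3 * x')) by ring]; exact Int.mul_emod_right _ _) (by
    rw [show p * (6 * x') = 3 * (p * (2 * x')) by ring]; exact Int.mul_emod_right _ _)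
  have hpz : ∃ u, p * z = 3 * u + 2 * z := ⟨(2 * (p / 6) + 1) * z, by
    have : p = 6 * (p / 6) + 5 := by omega
    linear_combination z * this⟩
  obtain ⟨u, hu⟩ := hpz
  rw [e3]
  clear_value W1 W2 W3
  rcases (show z % 3 = 0 ∨ z % 3 = 1 ∨ z % 3 = 2 by omega) with h | h | h
  · exfalso; apply hz3; omega
  · have g1 : p * z < 0 := hz2 (by omega)
    have g2 : W3 < 0 := hI2 (by omega)
    have g3 : z < 0 := by
      by_contra hcon
      push Not at hcon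
      have := mul_nonneg hp.le hcon
      linarith
    have : 0 < z * W3 := mul_pos_of_neg_of_neg g3 g2
    linarith
  · have g1 : 0 < p * z := hz1 (by omega)
    have g2 : 0 < W3 := hI1 (by omega)
    have g3 : 0 < z := by
      by_contra hcon
      push Not at hcon
      have := mul_nonpos_of_nonneg_of_nonpos hp.le hcon
      linarith
    have : 0 < z * W3 := mul_pos g3 g2
    linarith

end Pool.Agent.Lib.H82O
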