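import Pool.Agent.Lib.H82O.Defs

/-!
# H82O A06A: the inequality that excludes type I (pure inequalities over the integers)
-/

set_option autoImplicit false

namespace Pool.Agent.Lib.H82O

/-- PROOF. Let `N = |c||d| + |a||b|`. Choose signs `s_a, s_b, s_c, s_d ∈ {1,-1}` such that
`s_c c · s_d d · (y z) = - |c||d||y z|` and `s_a a · s_b b · (y z) = - |a||b||y z|` (if a factor is 0
any choice), and such that moreover `(s_b b s_d d - s_a a s_c c) x z ≤ 0`: changing both `s_a, s_b`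
keeps the first two conditions and changes the sign of `(s_b s_d b d - s_a s_c a c)`. Then `H` gives
`0 < (a² - b² - c² + d²) z² + 2 (..≤ 0) - 2 N |y||z|`, so (`z ≠ 0`)
`2 N |y| < (a² - b² - c² + d²) |z|`. -/
theorem sign_choice {a b c d x y z : ℤ}
    (H : ∀ sa sb sc sd : ℤ, sa ^ 2 = 1 → sb ^ 2 = 1 → sc ^ 2 = 1 → sd ^ 2 = 1 →
      0 < z * wz (sa * a) (sb * b) (sc * c) (sd * d) x y z) :
    2 * (|c| * |d| + |a| * |b|) * |y| < (a ^ 2 - b ^ 2 - c ^ 2 + d ^ 2) * |z| := by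
  have hz : z ≠ 0 := by
    rintro rfl
    have := H 1 1 1 1 (by norm_num) (by norm_num) (by norm_num) (by norm_num)
    simp at this
  -- signs for a product of two
  have sg : ∀ u v w : ℤ, ∃ s t : ℤ, s ^ 2 = 1 ∧ t ^ 2 = 1 ∧
      (s * u) * (t * v) * w = - (|u| * |v| * |w|) := by
    intro u v w
    have h1 : |u| * |v| * |w| = |u * v * w| := by rw [abs_mul, abs_mul]
    rw [h1]
    rcases le_total 0 (u * v * w) with h | h
    · exact ⟨-1, 1, by norm_num, by norm_num, by rw [abs_of_nonneg h]; ring⟩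
    · exact ⟨1, 1, by norm_num, by norm_num, by rw [abs_of_nonpos h]; ring⟩
  obtain ⟨sc, sd, hsc, hsd, hcd⟩ := sg c d (y * z)
  obtain ⟨sa, sb, hsa, hsb, hab⟩ := sg a b (y * z)
  have hyz : |y * z| = |y| * |z| := abs_mul y z
  -- the two sign choices
  have H1 := H sa sb sc sd hsa hsb hsc hsd
  have H2 := H (-sa) (-sb) sc sd (by rw [neg_sq]; exact hsa) (by rw [neg_sq]; exact hsb) hsc hsd
  unfold wz at H1 H2
  have q1 : z * (((sa * a) ^ 2 - (sb * b) ^ 2 - (sc * c) ^ 2 + (sd * d) ^ 2) * z +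
      2 * ((sb * b) * (sd * d) - (sa * a) * (sc * c)) * x +
      2 * ((sc * c) * (sd * d) + (sa * a) * (sb * b)) * y) +
      z * (((-sa * a) ^ 2 - (-sb * b) ^ 2 - (sc * c) ^ 2 + (sd * d) ^ 2) * z +
      2 * ((-sb * b) * (sd * d) - (-sa * a) * (sc * c)) * x +
      2 * ((sc * c) * (sd * d) + (-sa * a) * (-sb * b)) * y) =
      2 * ((a ^ 2 - b ^ 2 - c ^ 2 + d ^ 2) * z ^ 2 - 2 * (|c| * |d| * |y * z| + |a| * |b| * |y * z|)) := by
    have e1 : (sa * a) ^ 2 = a ^ 2 := by rw [mul_pow, hsa, one_mul]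
    have e2 : (sb * b) ^ 2 = b ^ 2 := by rw [mul_pow, hsb, one_mul]
    have e3 : (sc * c) ^ 2 = c ^ 2 := by rw [mul_pow, hsc, one_mul]
    have e4 : (sd * d) ^ 2 = d ^ 2 := by rw [mul_pow, hsd, one_mul]
    linear_combination (2 * z ^ 2) * e1 - 2 * z ^ 2 * e2 - 2 * z ^ 2 * e3 + 2 * z ^ 2 * e4 +
      4 * hcd + 4 * hab
  have q2 : 0 < 2 * ((a ^ 2 - b ^ 2 - c ^ 2 + d ^ 2) * z ^ 2 -
      2 * (|c| * |d| * |y * z| + |a| * |b| * |y * z|)) := by
    rw [← q1]; exact add_pos H1 H2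
  rw [hyz, ← sq_abs z] at q2
  have hz' : 0 < |z| := abs_pos.mpr hz
  have q3 : 0 < |z| * ((a ^ 2 - b ^ 2 - c ^ 2 + d ^ 2) * |z| - 2 * (|c| * |d| + |a| * |b|) * |y|) := by
    nlinarith
  have := pos_of_mul_pos_of_pos_left q3 hz'
  linarith
where
  pos_of_mul_pos_of_pos_left {k q : ℤ} (h : 0 < k * q) (hk : 0 < k) : 0 < q := by
    by_contra hq
    have : k * q ≤ 0 := mul_nonpos_of_nonneg_of_nonpos hk.le (not_lt.mp hq)
    linarith

end Pool.Agent.Lib.H82O
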