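import Pool.Agent.Lib.H82O.Defs

/-!
# H82O A06B: the inequality that excludes type I (pure inequalities over the integers)
-/

set_option autoImplicit false

namespace Pool.Agent.Lib.H82O

/-- PROOF. From `h1`, `h2`: with `N = |o||f| + |a||e|`, `D = a² - e² - o² + f²`:
`2 N Y < D Z`, `2 N Z < D Y` with `Y, Z > 0`, `N ≥ 0`: adding, `2N (Y + Z) < D (Y + Z)`, so `2N < D`.
Similarly `h3`, `h4` give `2 (|o||e| + |a||f|) < a² - f² - o² + e²`. Adding: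
`(|a| + |o|) (|e| + |f|) < a² - o² = (|a| - |o|)(|a| + |o|)`, and `|a| + |o| > 0`, so
`|e| + |f| < |a| - |o| ≤ |a|`. With `a² ≤ 49`: `|o|, |e|, |f| < |a| ≤ 7`, so
`2p = a² + o² + e² + f² ≤ 4 · 49`. -/
theorem type_I_ineq {a o e f p Y Z : ℤ} (hY : 0 < Y) (hZ : 0 < Z)
    (hn : a ^ 2 + o ^ 2 + e ^ 2 + f ^ 2 = 2 * p) (ha : a ^ 2 ≤ 49)
    (h1 : 2 * (|o| * |f| + |a| * |e|) * Y < (a ^ 2 - e ^ 2 - o ^ 2 + f ^ 2) * Z)
    (h2 : 2 * (|o| * |f| + |a| * |e|) * Z < (a ^ 2 - e ^ 2 - o ^ 2 + f ^ 2) * Y)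
    (h3 : 2 * (|o| * |e| + |a| * |f|) * Y < (a ^ 2 - f ^ 2 - o ^ 2 + e ^ 2) * Z)
    (h4 : 2 * (|o| * |e| + |a| * |f|) * Z < (a ^ 2 - f ^ 2 - o ^ 2 + e ^ 2) * Y) :
    p ≤ 98 := by
  have k1 : 2 * (|o| * |f| + |a| * |e|) < a ^ 2 - e ^ 2 - o ^ 2 + f ^ 2 := by
    by_contra hcon
    push Not at hcon
    have hYZ : 0 < Y + Z := by positivity
    nlinarith [mul_le_mul_of_nonneg_right hcon hYZ.le]
  have k2 : 2 * (|o| * |e| + |a| * |f|) < a ^ 2 - f ^ 2 - o ^ 2 + e ^ 2 := by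
    by_contra hcon
    push Not at hcon
    have hYZ : 0 < Y + Z := by positivity
    nlinarith [mul_le_mul_of_nonneg_right hcon hYZ.le]
  rw [← sq_abs a, ← sq_abs o, ← sq_abs e, ← sq_abs f] at k1 k2 hn
  rw [← sq_abs a] at ha
  have a0 := abs_nonneg a
  have o0 := abs_nonneg o
  have e0 := abs_nonneg e
  have f0 := abs_nonneg f
  generalize |a| = A at *
  generalize |o| = O at *
  generalize |e| = E at *
  generalize |f| = F at *
  have k3 : (A + O) * (E + F) < (A + O) * (A - O) := by nlinarith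
  have k4 : E + F < A - O := lt_of_mul_lt_mul_left k3 (by positivity)
  have hA : A ≤ 7 := by nlinarith
  have hO : O ≤ 7 := by omega
  have hE : E ≤ 7 := by omega
  have hF : F ≤ 7 := by omega
  nlinarith

end Pool.Agent.Lib.H82O
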