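import Pool.Agent.Lib.H82O.A05
import Pool.Agent.Lib.H82O.A06

/-!
# H82O A07: `p² ∣ m`, `p ≡ 5 (mod 6)`: type I excluded
-/

set_option autoImplicit false

namespace Pool.Agent.Lib.H82O

open Pool.Agent.Lib.H63.TSP

/-- PROOF. By `type_I_pos`, applied to `(sa a, sb e, sc o, sd f)` (all sign choices; parities, the
divisibility by three and the norm do not change), `sign_choice` gives, with `(b,c,d) = (e,o,f)`,
`2 (|o||f| + |a||e|) |y| < (a² - e² - o² + f²) |z|` (h1 with `Y = |y|`, `Z = |z|`), and with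
`(b,c,d) = (f,o,e)` the inequality h3. Exchanging `y` and `z` (the hypotheses on `(x,y,z)` are symmetric)
gives h2 and h4. `|y|, |z| > 0` since `y, z` are odd (`x` even, `2m' ≡ 2 mod 4`). Conclude by
`type_I_ineq`: `p ≤ 98`. -/
theorem case_three {m m' p a o e f x y z : ℤ} (hm : m % 6 = 1) (hb : Bad m) (hp : 98 < p)
    (hp6 : p % 6 = 5) (hmm : m = p ^ 2 * m') (hv : x ^ 2 + y ^ 2 + z ^ 2 = 2 * m')
    (hx : x % 2 = 0) (hx3 : x % 3 = 0) (hn : a ^ 2 + o ^ 2 + e ^ 2 + f ^ 2 = 2 * p)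
    (ha : a % 2 = 1) (ho : o % 2 = 1) (he : e % 2 = 0) (hf : f % 2 = 0) (ha49 : a ^ 2 ≤ 49)
    (h3o : o % 3 = 0) (h3e : e % 3 = 0) (h3f : f % 3 = 0) : False := by
  have sgn : ∀ s : ℤ, s ^ 2 = 1 → s = 1 ∨ s = -1 := fun s hs => sq_eq_one_iff_of_ne_zero' hs
  have key : ∀ e f y z : ℤ, x ^ 2 + y ^ 2 + z ^ 2 = 2 * m' →
      a ^ 2 + e ^ 2 + o ^ 2 + f ^ 2 = 2 * p → e % 2 = 0 → f % 2 = 0 → e % 3 = 0 → f % 3 = 0 →
      2 * (|o| * |f| + |a| * |e|) * |y| < (a ^ 2 - e ^ 2 - o ^ 2 + f ^ 2) * |z| := by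
    intro e f y z hv hn he hf h3e h3f
    apply sign_choice (x := x)
    intro sa sb sc sd hsa hsb hsc hsd
    apply type_I_pos hm hb (by omega) hp6 hmm hv hx hx3
    · rw [mul_pow, mul_pow, mul_pow, mul_pow, hsa, hsb, hsc, hsd]; linarith
    · rcases sgn sa hsa with rfl | rfl <;> omega
    · rcases sgn sb hsb with rfl | rfl <;> omega
    · rcases sgn sc hsc with rfl | rfl <;> omega
    · rcases sgn sd hsd with rfl | rfl <;> omega
    · rcases sgn sb hsb with rfl | rfl <;> omega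
    · rcases sgn sc hsc with rfl | rfl <;> omega
    · rcases sgn sd hsd with rfl | rfl <;> omega
  have hm' : m' % 2 = 1 := by
    rcases Int.emod_two_eq_zero_or_one m' with h | h
    · exfalso
      obtain ⟨t, ht⟩ : ∃ t, m' = 2 * t := ⟨m' / 2, by omega⟩
      have : m = 2 * (p ^ 2 * t) := by rw [hmm, ht]; ring
      omega
    · exact h
  obtain ⟨t, ht⟩ : ∃ t, m' = 2 * t + 1 := ⟨m' / 2, by omega⟩
  obtain ⟨x1, hx1⟩ : ∃ x1, x = 2 * x1 := ⟨x / 2, by omega⟩
  have nosq : ∀ u : ℤ, u ^ 2 % 4 ≠ 2 := by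
    intro u
    rcases Int.emod_two_eq_zero_or_one u with h | h
    · obtain ⟨v, rfl⟩ : ∃ v, u = 2 * v := ⟨u / 2, by omega⟩
      have : (2 * v) ^ 2 = 4 * v ^ 2 := by ring
      omega
    · obtain ⟨v, rfl⟩ : ∃ v, u = 2 * v + 1 := ⟨u / 2, by omega⟩
      have : (2 * v + 1) ^ 2 = 4 * (v ^ 2 + v) + 1 := by ring
      omega
  have hyz : ∀ y z : ℤ, x ^ 2 + y ^ 2 + z ^ 2 = 2 * m' → 0 < |y| := by
    intro y z hv
    apply abs_pos.mpr
    rintro rfl
    apply nosq z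
    have : z ^ 2 = 4 * t + 2 - 4 * x1 ^ 2 := by rw [ht, hx1] at hv; linarith
    omega
  have hv' : x ^ 2 + z ^ 2 + y ^ 2 = 2 * m' := by linarith
  have h1 := key e f y z hv (by linarith) he hf h3e h3f
  have h2 := key e f z y hv' (by linarith) he hf h3e h3f
  have h3 := key f e y z hv (by linarith) hf he h3f h3e
  have h4 := key f e z y hv' (by linarith) hf he h3f h3e
  have := type_I_ineq (hyz y z hv) (hyz z y hv') hn ha49 h1 h2 h3 h4
  omega
where
  sq_eq_one_iff_of_ne_zero' {s : ℤ} (hs : s ^ 2 = 1) : s = 1 ∨ s = -1 := by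
    have : (s - 1) * (s + 1) = 0 := by linear_combination hs
    rcases mul_eq_zero.mp this with h | h
    · left; linarith
    · right; linarith

end Pool.Agent.Lib.H82O
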