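import Pool.Agent.Lib.H82O.A01

/-!
# H82O A08A: the quaternions of norm `p` and `2p`
-/

set_option autoImplicit false

namespace Pool.Agent.Lib.H82O

/-- PROOF. `p ≡ 1 mod 3`, so `p ≡ 1, 4, 7 (mod 9)`, which are the squares of units modulo 9: there is
`a ∈ {1, .., 8}` with `a² ≡ p (mod 9)`, and one can choose its parity (`a ↔ 9 - a`). If `p ≡ 1 (mod 4)`
take `a` even, then `(p - a²)/9 ≡ 1 (mod 4)` (`9 ≡ 1 mod 4`) and `three_squares_one_mod_four` applies;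
if `p ≡ 3 (mod 4)` take `a` odd, then `(p - a²)/9 ≡ 2 (mod 4)` and `three_squares_two_mod_four`
(`Pool/Agent/Lib/H63/ThreeSquares.lean`) applies (`a² ≤ 64 < p`). So
`p = a² + (3n₁)² + (3n₂)² + (3n₃)²`. Let `d` be the one of `3n₁, 3n₂, 3n₃` with the smallest square and
`b, c` the others: `b² + c² - d² ≥ (b² + c² + d²)/3 = (p - a²)/3 > a²` as `4 a² ≤ 256 < p`. -/
theorem quat_one (p : ℕ) (hp : 256 < p) (hp6 : p % 6 = 1) : ∃ a b c d : ℤ,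
    a ^ 2 + b ^ 2 + c ^ 2 + d ^ 2 = p ∧ b % 3 = 0 ∧ c % 3 = 0 ∧ d % 3 = 0 ∧
      a ^ 2 + d ^ 2 < b ^ 2 + c ^ 2 := by
  obtain ⟨a, k, ha, hpk, hk⟩ : ∃ a k : ℕ, a ≤ 8 ∧ p = a ^ 2 + 9 * k ∧ (k % 4 = 1 ∨ k % 4 = 2) := by
    rcases (show p % 36 = 1 ∨ p % 36 = 13 ∨ p % 36 = 25 ∨ p % 36 = 7 ∨ p % 36 = 19 ∨ p % 36 = 31
      by omega) with h | h | h | h | h | h
    · exact ⟨8, (p - 64) / 9, by norm_num, by omega, by omega⟩
    · exact ⟨2, (p - 4) / 9, by norm_num, by omega, by omega⟩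
    · exact ⟨4, (p - 16) / 9, by norm_num, by omega, by omega⟩
    · exact ⟨5, (p - 25) / 9, by norm_num, by omega, by omega⟩
    · exact ⟨1, (p - 1) / 9, by norm_num, by omega, by omega⟩
    · exact ⟨7, (p - 49) / 9, by norm_num, by omega, by omega⟩
  obtain ⟨x, y, z, hxyz⟩ : ∃ x y z : ℤ, (k : ℤ) = x ^ 2 + y ^ 2 + z ^ 2 := by
    rcases hk with h | h
    · exact three_squares_one_mod_four k h
    · exact Pool.Agent.Lib.H63.ThreeSquares.three_squares_two_mod_four k h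
  have hp2 : (p : ℤ) = a ^ 2 + 9 * k := by rw [hpk]; push_cast; ring
  have hpZ : (256 : ℤ) < p := by exact_mod_cast hp
  have haZ : (a : ℤ) ^ 2 ≤ 64 := by
    have : a ^ 2 ≤ 64 := by nlinarith
    exact_mod_cast this
  have main : ∀ x y z : ℤ, (k : ℤ) = x ^ 2 + y ^ 2 + z ^ 2 → z ^ 2 ≤ x ^ 2 → z ^ 2 ≤ y ^ 2 →
      ∃ a b c d : ℤ, a ^ 2 + b ^ 2 + c ^ 2 + d ^ 2 = p ∧ b % 3 = 0 ∧ c % 3 = 0 ∧ d % 3 = 0 ∧
      a ^ 2 + d ^ 2 < b ^ 2 + c ^ 2 := by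
    intro x y z h h1 h2
    refine ⟨a, 3 * x, 3 * y, 3 * z, ?_, by omega, by omega, by omega, ?_⟩
    · rw [hp2, h]; ring
    · nlinarith
  rcases le_total (x ^ 2) (y ^ 2) with h1 | h1
  · rcases le_total (x ^ 2) (z ^ 2) with h2 | h2
    · exact main z y x (by rw [hxyz]; ring) h2 h1
    · exact main x y z hxyz h2 (h2.trans h1)
  · rcases le_total (y ^ 2) (z ^ 2) with h2 | h2
    · exact main x z y (by rw [hxyz]; ring) h1 h2
    · exact main x y z hxyz (h2.trans h1) h2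

end Pool.Agent.Lib.H82O
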