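import Pool.Agent.Lib.H82O.A01

/-!
# H82O A08B: the quaternions of norm `p` and `2p`
-/

set_option autoImplicit false

namespace Pool.Agent.Lib.H82O

/-- PROOF. `2p ≡ 1 mod 3`, so `2p ≡ 1, 4, 7 mod 9` and there is `a ∈ {1, 7, 5}` (`a² = 1, 49, 25`,
`≡ 1, 4, 7 mod 9`) with `9 ∣ 2p - a²`; `a` is odd, `2p - a² ≡ 2 - 1 = 1 (mod 4)`, so
`N = (2p - a²)/9 ≡ 1 (mod 4)`, `N > 0`; `three_squares_one_mod_four`: `N = n₁² + n₂² + n₃²`; modulo 4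
exactly one `nᵢ` is odd (squares are `0, 1 mod 4`; the sum is `1 mod 4`). Let `b = 3 nᵢ` be the odd one
and `c, d` the other two, ordered such that `d² ≤ c²`. LAST CLAIM: if `a² < b²` then
`a² + d² < b² + c²`. Otherwise `b² ≤ a² ≤ 49`, so `a² + b² ≤ 98 < p` and
`c² + d² = 2p - (a² + b²) > a² + b²`. -/
theorem quat_two (p : ℕ) (hp : 98 < p) (hp6 : p % 6 = 5) : ∃ a b c d : ℤ,
    a ^ 2 + b ^ 2 + c ^ 2 + d ^ 2 = 2 * p ∧ a % 2 = 1 ∧ b % 2 = 1 ∧ c % 2 = 0 ∧ d % 2 = 0 ∧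
      b % 3 = 0 ∧ c % 3 = 0 ∧ d % 3 = 0 ∧ a ^ 2 ≤ 49 ∧
      (a ^ 2 + d ^ 2 < b ^ 2 + c ^ 2 ∨ a ^ 2 + b ^ 2 < c ^ 2 + d ^ 2) := by
  -- the choice of `a`
  obtain ⟨a, ha2, ha49, N, hN, hN4⟩ : ∃ a : ℤ, a % 2 = 1 ∧ a ^ 2 ≤ 49 ∧ ∃ N : ℕ,
      (2 * p : ℤ) - a ^ 2 = 9 * N ∧ N % 4 = 1 := by
    have h9 : (2 * p) % 9 = 1 ∨ (2 * p) % 9 = 4 ∨ (2 * p) % 9 = 7 := by omega
    rcases h9 with h | h | h
    · refine ⟨1, by norm_num, by norm_num, (2 * p - 1) / 9, ?_, ?_⟩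
      · push_cast
        omega
      · omega
    · refine ⟨7, by norm_num, by norm_num, (2 * p - 49) / 9, ?_, ?_⟩
      · omega
      · omega
    · refine ⟨5, by norm_num, by norm_num, (2 * p - 25) / 9, ?_, ?_⟩
      · omega
      · omega
  obtain ⟨x, y, z, hxyz⟩ := three_squares_one_mod_four N hN4
  -- exactly one of the three is odd
  obtain ⟨u, v, w, hu, hv, hw, hsum, hvw⟩ : ∃ u v w : ℤ, u % 2 = 1 ∧ v % 2 = 0 ∧ w % 2 = 0 ∧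
      (N : ℤ) = u ^ 2 + v ^ 2 + w ^ 2 ∧ w ^ 2 ≤ v ^ 2 := by
    have hsq : ∀ t : ℤ, (t % 2 = 0 ∧ t ^ 2 % 4 = 0) ∨ (t % 2 = 1 ∧ t ^ 2 % 4 = 1) := by
      intro t
      rcases Int.emod_two_eq_zero_or_one t with h | h
      · left
        obtain ⟨r, rfl⟩ := Int.dvd_of_emod_eq_zero h
        refine ⟨h, ?_⟩
        have : (2 * r) ^ 2 = 4 * r ^ 2 := by ring
        rw [this]
        omega
      · right
        obtain ⟨r, hr⟩ : ∃ r, t = 2 * r + 1 := ⟨t / 2, by omega⟩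
        refine ⟨h, ?_⟩
        have : t ^ 2 = 4 * (r ^ 2 + r) + 1 := by rw [hr]; ring
        rw [this]
        omega
    have hN4' : (N : ℤ) % 4 = 1 := by omega
    rw [hxyz] at hN4'
    have hcase : (x % 2 = 1 ∧ y % 2 = 0 ∧ z % 2 = 0) ∨ (x % 2 = 0 ∧ y % 2 = 1 ∧ z % 2 = 0) ∨
        (x % 2 = 0 ∧ y % 2 = 0 ∧ z % 2 = 1) := by
      rcases hsq x with ⟨h1, h1'⟩ | ⟨h1, h1'⟩ <;> rcases hsq y with ⟨h2, h2'⟩ | ⟨h2, h2'⟩ <;>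
        rcases hsq z with ⟨h3, h3'⟩ | ⟨h3, h3'⟩ <;> omega
    have hgen : ∀ u v w : ℤ, u % 2 = 1 → v % 2 = 0 → w % 2 = 0 →
        (N : ℤ) = u ^ 2 + v ^ 2 + w ^ 2 → ∃ u v w : ℤ, u % 2 = 1 ∧ v % 2 = 0 ∧ w % 2 = 0 ∧
      (N : ℤ) = u ^ 2 + v ^ 2 + w ^ 2 ∧ w ^ 2 ≤ v ^ 2 := by
      intro u v w h1 h2 h3 h4
      rcases le_total (w ^ 2) (v ^ 2) with h | h
      · exact ⟨u, v, w, h1, h2, h3, h4, h⟩
      · exact ⟨u, w, v, h1, h3, h2, by rw [h4]; ring, h⟩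
    rcases hcase with ⟨h1, h2, h3⟩ | ⟨h1, h2, h3⟩ | ⟨h1, h2, h3⟩
    · exact hgen x y z h1 h2 h3 hxyz
    · exact hgen y x z h2 h1 h3 (by rw [hxyz]; ring)
    · exact hgen z x y h3 h1 h2 (by rw [hxyz]; ring)
  have htot : a ^ 2 + (3 * u) ^ 2 + (3 * v) ^ 2 + (3 * w) ^ 2 = 2 * p := by
    rw [hsum] at hN
    linear_combination -hN
  refine ⟨a, 3 * u, 3 * v, 3 * w, htot, ha2, by omega, by omega, by omega, by omega, by omega,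
    by omega, ha49, ?_⟩
  have hpI : (98 : ℤ) < p := by exact_mod_cast hp
  rcases lt_or_ge (a ^ 2) ((3 * u) ^ 2) with h | h
  · left
    have : (3 * w) ^ 2 ≤ (3 * v) ^ 2 := by nlinarith
    linarith
  · right
    linarith

end Pool.Agent.Lib.H82O
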