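import Pool.Agent.Lib.H82O.A01
import Pool.Agent.Lib.H82O.A08A
import Pool.Agent.Lib.H82O.A08B

/-! Collects A08A, A08B. -/
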