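import Pool.Agent.Lib.H63.TSPAll
import Pool.Agent.Lib.H82O.A03
import Pool.Agent.Lib.H82O.A04
import Pool.Agent.Lib.H82O.A07
import Pool.Agent.Lib.H82O.A08

/-!
# H82O A09: an exceptional `6n+1` is squarefree
-/

set_option autoImplicit false

namespace Pool.Agent.Lib.H82O

open Pool.Agent.Lib.H63.TSP

/-- a representation with the even coordinate first -/
lemma a09_even (m' : ℕ) (h : m' % 2 = 1) : ∃ x y z : ℤ, x % 2 = 0 ∧
    x ^ 2 + y ^ 2 + z ^ 2 = 2 * (m' : ℤ) := by
  obtain ⟨x, y, z, hxyz⟩ := Pool.Agent.Lib.H63.ThreeSquares.three_squares_two_mod_four (2 * m')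
    (by omega)
  have h1 : x ^ 2 + y ^ 2 + z ^ 2 = 2 * (m' : ℤ) := by rw [← hxyz]; push_cast; ring
  rcases exists_even h1 with hx | hy | hz
  · exact ⟨x, y, z, hx, h1⟩
  · exact ⟨y, x, z, hy, by linarith⟩
  · exact ⟨z, x, y, hz, by linarith⟩

/-- the case `p ≡ 1 (mod 6)` for one quaternion -/
lemma a09_one {m : ℤ} {m' p : ℕ} (hm : m % 6 = 1) (hb : Bad m) (hp : 0 < p) (hp6 : p % 6 = 1)
    (hmm : m = (p : ℤ) ^ 2 * m') (hm' : m' % 6 = 1) {a b c d : ℤ}
    (hn : a ^ 2 + b ^ 2 + c ^ 2 + d ^ 2 = (p : ℤ)) (h3b : b % 3 = 0) (h3c : c % 3 = 0)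
    (h3d : d % 3 = 0) (hlt : a ^ 2 + d ^ 2 < b ^ 2 + c ^ 2) : False := by
  obtain ⟨x, y, z, hx, h⟩ := a09_even m' (by omega)
  have ky := a02a_sq3 y
  have kz := a02a_sq3 z
  have kx := a02a_sq3 x
  have hs : (x ^ 2 + y ^ 2 + z ^ 2) % 3 = 2 := by rw [h]; omega
  by_cases hz : z % 3 = 0
  · have hy : y % 3 ≠ 0 := by
      intro h0
      rw [if_pos h0] at ky
      rw [if_pos hz] at kz
      split_ifs at kx <;> omega
    exact case_one hm hb (by exact_mod_cast hp) (by omega) hmm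
      (x := x) (y := z) (z := y) (m' := m') (by linarith) hx hy hn h3b h3c h3d hlt
  · exact case_one hm hb (by exact_mod_cast hp) (by omega) hmm h hx hz hn h3b h3c h3d hlt

/-- PROOF. Otherwise `p² ∣ 6n+1` for a prime `p` (`Nat.squarefree_iff_prime_squarefree`); `p ≠ 2, 3`.
If `5 ≤ p < 300` and `p ≠ 139`, then `-2(6n+1) = 0` in `ZMod p` is a square and `rep_of_prime`
(`Pool/Agent/Lib/H63/TSPAll.lean`) gives `Rep n`. So `p = 139` or `p > 256` (`p ≥ 300`). Put
`m = 6n+1 = p² m'` (`m' : ℕ`, odd, `m' ≡ 1 mod 6` because `p² ≡ 1 mod 6`). `Bad m` is `bad_of_not_rep`.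
`three_squares_two_mod_four` gives `x² + y² + z² = 2m'`, and one coordinate is even (`exists_even`):
after a permutation `x % 2 = 0`. Modulo 3 exactly one of `x, y, z` is `0` (the sum is `≡ 2`).
CASE `p ≡ 1 (mod 6)`: after exchanging `y, z` assume `z % 3 ≠ 0`, and use `case_one` with the
quaternion of `quat_one`, respectively `(a,b,c,d) = (7,9,3,0)` for `p = 139`
(`49 + 81 + 9 + 0 = 139`, `49 + 0 < 81 + 9`).
CASE `p ≡ 5 (mod 6)`, `p > 98`: take `(a,b,c,d)` from `quat_two`. If `x % 3 = 0` use `case_three` with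
`(a, o, e, f) = (a, b, c, d)`. Otherwise exchange `y, z` so that `y % 3 = 0` and use `case_two`. -/
theorem squarefree_of_not_rep {n : ℕ} (h : ¬ Rep n) : Squarefree (6 * n + 1) := by
  by_contra hsq
  rw [Nat.squarefree_iff_prime_squarefree] at hsq
  push Not at hsq
  obtain ⟨p, hp, m', hm'⟩ := hsq
  have hb := bad_of_not_rep h
  have hp2 : p ≠ 2 := by
    rintro rfl
    omega
  have hp3 : p ≠ 3 := by
    rintro rfl
    omega
  have h5 : 5 ≤ p := by
    by_contra hc
    have : p < 5 := by omega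
    interval_cases p <;> first | omega | (revert hp; norm_num)
  have hbig : p = 139 ∨ 300 ≤ p := by
    by_contra hc
    push Not at hc
    refine h (rep_of_prime hp h5 hc.2 hc.1 ⟨0, ?_⟩)
    have h1 : ((6 * n + 1 : ℕ) : ZMod p) = 0 := by
      rw [hm']; push_cast; rw [ZMod.natCast_self]; ring
    push_cast at h1 ⊢
    rw [h1]; ring
  have hmod : p % 6 = 1 ∨ p % 6 = 5 := by
    have h2 : ¬ 2 ∣ p := fun h0 => hp2 ((Nat.prime_dvd_prime_iff_eq Nat.prime_two hp).1 h0).symm
    have h3 : ¬ 3 ∣ p := fun h0 => hp3 ((Nat.prime_dvd_prime_iff_eq Nat.prime_three hp).1 h0).symm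
    omega
  have hm6 : m' % 6 = 1 := by
    have h1 : (p * p) % 6 = 1 := by
      rcases hmod with h0 | h0 <;> simp [Nat.mul_mod, h0]
    have h2 : (p * p * m') % 6 = 1 := by rw [← hm']; omega
    rw [Nat.mul_mod, h1, one_mul, Nat.mod_mod] at h2
    exact h2
  have hmm : (6 * (n : ℤ) + 1) = (p : ℤ) ^ 2 * m' := by
    have : ((6 * n + 1 : ℕ) : ℤ) = ((p * p * m' : ℕ) : ℤ) := by rw [hm']
    push_cast at this
    rw [this]; ring
  have hm : (6 * (n : ℤ) + 1) % 6 = 1 := by omega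
  rcases hmod with h6 | h6
  · rcases hbig with h139 | h300
    · exact a09_one hm hb hp.pos h6 hmm hm6 (a := 7) (b := 9) (c := 3) (d := 0)
        (by rw [h139]; norm_num) (by norm_num) (by norm_num) (by norm_num) (by norm_num)
    · obtain ⟨a, b, c, d, hn, h3b, h3c, h3d, hlt⟩ := quat_one p (by omega) h6
      exact a09_one hm hb hp.pos h6 hmm hm6 hn h3b h3c h3d hlt
  · have hp98 : 98 < p := by omega
    obtain ⟨a, b, c, d, hn, ha, hb2, hc2, hd2, h3b, h3c, h3d, ha49, hlt⟩ := quat_two p hp98 h6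
    obtain ⟨x, y, z, hx, hv⟩ := a09_even m' (by omega)
    by_cases hx3 : x % 3 = 0
    · exact case_three hm hb (p := p) (by exact_mod_cast hp98) (by omega) hmm hv hx hx3
        hn ha hb2 hc2 hd2 ha49 h3b h3c h3d
    · have ky := a02a_sq3 y
      have kz := a02a_sq3 z
      have kx := a02a_sq3 x
      rw [if_neg hx3] at kx
      have hs : (x ^ 2 + y ^ 2 + z ^ 2) % 3 = 2 := by rw [hv]; omega
      by_cases hy : y % 3 = 0
      · exact case_two hm hb (p := p) (by exact_mod_cast hp.pos) (by omega) hmm hv hx hy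
          hn ha hb2 hc2 hd2 h3b h3c h3d hlt
      · rw [if_neg hy] at ky
        have hz : z % 3 = 0 := by
          by_contra h0
          rw [if_neg h0] at kz
          omega
        exact case_two hm hb (p := p) (by exact_mod_cast hp.pos) (by omega) hmm
          (x := x) (y := z) (z := y) (by linarith) hx hz
          hn ha hb2 hc2 hd2 h3b h3c h3d hlt

end Pool.Agent.Lib.H82O
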