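import Pool.Agent.Lib.H63.TSPAll

/-!
# H82O B01: the sieve, definitions and soundness (helper82)
-/

set_option autoImplicit false

namespace Pool.Agent.Lib.H82O.Sv

open Pool.Agent.Lib.H63.TSP

/-- the classes `s` modulo `p` killed by `0, .., k-1` -/
def cleared (p c : ℕ) : ℕ → ℕ
  | 0 => 0
  | k + 1 => cleared p c k ||| 2 ^ (((k * k + 2) * c) % p)

/-- the classes which survive -/
def mask (p c : ℕ) : ℕ := (2 ^ p - 1) ^^^ cleared p c (p / 2 + 1)

/-- periodic extension of the mask to more than `L` bits -/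
def ext (p c L : ℕ) : ℕ := mask p c * ((2 ^ (p * (L / p + 1)) - 1) / (2 ^ p - 1))

/-- intersect the patterns for the class `r` -/
def run : List (ℕ × ℕ × ℕ) → ℕ → ℕ → Bool
  | [], x, _ => x == 0
  | (E, q, c) :: L, x, r => bif x == 0 then true else run L (x &&& (E >>> ((c * r) % q))) r

/-- loop over the lifts `r + M j`, `j < k` -/
def loop (f : ℕ → Bool) (m p M r : ℕ) : ℕ → Bool
  | 0 => true
  | k + 1 => (bif m.testBit ((r + M * k) % p) then f (r + M * k) else true) && loop f m p M r k

lemma cleared_lt (p c : ℕ) (hp : 0 < p) (k : ℕ) : cleared p c k < 2 ^ p := by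
  induction k with
  | zero => exact Nat.two_pow_pos p
  | succ k ih =>
    exact Nat.or_lt_two_pow ih (Nat.pow_lt_pow_right (by norm_num) (Nat.mod_lt _ hp))

lemma mask_lt (p c : ℕ) (hp : 0 < p) : mask p c < 2 ^ p :=
  Nat.xor_lt_two_pow (by have := Nat.two_pow_pos p; omega) (cleared_lt p c hp _)

lemma cleared_spec (p c k s : ℕ) (h : (cleared p c k).testBit s = true) :
    ∃ j : ℕ, s = ((j * j + 2) * c) % p := by
  induction k with
  | zero => simp [cleared] at h
  | succ k ih =>
    rw [cleared, Nat.testBit_or, Bool.or_eq_true] at h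
    rcases h with h | h
    · exact ih h
    · rw [Nat.testBit_two_pow] at h
      exact ⟨k, (of_decide_eq_true h).symm⟩

lemma mask_spec (p c s : ℕ) (hs : s < p) (h : (mask p c).testBit s = false) :
    ∃ j : ℕ, s = ((j * j + 2) * c) % p := by
  rw [mask, Nat.testBit_xor, Nat.testBit_two_pow_sub_one] at h
  have h1 : decide (s < p) = true := decide_eq_true hs
  rw [h1] at h
  apply cleared_spec p c (p / 2 + 1) s
  cases hc : (cleared p c (p / 2 + 1)).testBit s
  · rw [hc] at h; exact absurd h (by decide)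
  · rfl

/-- killed classes are representable -/
lemma rep_of_mask (p c W : ℕ) (hp : p ∈ goodPrimes) (hc : (12 * W * c + 1) % p = 0) (n s : ℕ)
    (hn : n % p = (W * s) % p) (h : (mask p c).testBit (s % p) = false) : Rep n := by
  have hpr : p.Prime ∧ 5 ≤ p ∧ p < 300 ∧ p ≠ 139 := by
    have key : ∀ p ∈ goodPrimes, p.Prime ∧ 5 ≤ p ∧ p < 300 ∧ p ≠ 139 := by
      intro p hp
      simp only [goodPrimes, List.mem_cons, List.not_mem_nil, or_false] at hp
      rcases hp with rfl | rfl | rfl | rfl | rfl | rfl | rfl | rfl | rfl | rfl | rfl | rfl | rfl | rfl | rfl | rfl | rfl | rfl | rfl | rfl | rfl | rfl | rfl | rfl | rfl | rfl | rfl | rfl | rfl | rfl | rfl | rfl | rfl | rfl | rfl | rfl | rfl | rfl | rfl | rfl | rfl | rfl | rfl | rfl | rfl | rfl | rfl | rfl | rfl | rfl | rfl | rfl | rfl | rfl | rfl | rfl | rfl | rfl | rfl <;>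
        (refine ⟨?_, ?_, ?_, ?_⟩ <;> norm_num)
    exact key p hp
  obtain ⟨hpp, h5, h300, h139⟩ := hpr
  obtain ⟨j, hj⟩ := mask_spec p c (s % p) (Nat.mod_lt _ hpp.pos) h
  refine rep_of_prime hpp h5 h300 h139 ⟨(j : ZMod p), ?_⟩
  have e1 : (n : ZMod p) = (W : ZMod p) * (s : ZMod p) := by
    have := (ZMod.natCast_eq_natCast_iff' n (W * s) p).2 hn
    push_cast at this
    exact this
  have e2 : (s : ZMod p) = ((j : ZMod p) * j + 2) * c := by
    have h1 : s % p = ((j * j + 2) * c) % p := hj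
    have := (ZMod.natCast_eq_natCast_iff' s ((j * j + 2) * c) p).2 h1
    push_cast at this
    exact this
  have e3 : (12 : ZMod p) * W * c + 1 = 0 := by
    have : ((12 * W * c + 1 : ℕ) : ZMod p) = 0 := (ZMod.natCast_eq_zero_iff _ _).2
      (Nat.dvd_of_mod_eq_zero hc)
    push_cast at this
    exact this
  push_cast
  rw [e1, e2]
  linear_combination (-((j : ZMod p) * j + 2)) * e3

lemma geo_testBit (p M : ℕ) (hp : 0 < p) (hM : M < 2 ^ p) (k : ℕ) :
    ∀ t, t < p * k → (M * ((2 ^ (p * k) - 1) / (2 ^ p - 1))).testBit t = M.testBit (t % p) := by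
  have hpos : 0 < 2 ^ p - 1 := by
    have : 2 ^ 1 ≤ 2 ^ p := Nat.pow_le_pow_right (by norm_num) hp
    omega
  induction k with
  | zero => intro t ht; simp at ht
  | succ k ih =>
    have hG : (2 ^ (p * (k + 1)) - 1) / (2 ^ p - 1) =
        2 ^ p * ((2 ^ (p * k) - 1) / (2 ^ p - 1)) + 1 := by
      have hdvd : (2 ^ p - 1) ∣ (2 ^ (p * k) - 1) := by
        have := Nat.sub_dvd_pow_sub_pow (2 ^ p) 1 k
        rwa [one_pow, ← pow_mul] at this
      obtain ⟨g, hg⟩ := hdvd
      have h1 : 2 ^ (p * k) - 1 = (2 ^ p - 1) * g := hg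
      have h2 : 2 ^ (p * (k + 1)) - 1 = (2 ^ p - 1) * (2 ^ p * g + 1) := by
        have e : 2 ^ (p * (k + 1)) = 2 ^ p * 2 ^ (p * k) := by rw [← pow_add]; congr 1; ring
        have h3 : 2 ^ (p * k) = (2 ^ p - 1) * g + 1 := by
          have := Nat.two_pow_pos (p * k); omega
        rw [e, h3]
        have h4 : 1 ≤ 2 ^ p := Nat.one_le_two_pow
        obtain ⟨y, hy⟩ : ∃ y, 2 ^ p = y + 1 := ⟨2 ^ p - 1, by omega⟩
        rw [hy, Nat.add_sub_cancel]
        have : (y + 1) * (y * g + 1) = y * ((y + 1) * g + 1) + 1 := by ring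
        rw [this, Nat.add_sub_cancel]
      rw [h1, h2, Nat.mul_div_cancel_left _ hpos, Nat.mul_div_cancel_left _ hpos]
    intro t ht
    rw [hG]
    have e : M * (2 ^ p * ((2 ^ (p * k) - 1) / (2 ^ p - 1)) + 1) =
        2 ^ p * (M * ((2 ^ (p * k) - 1) / (2 ^ p - 1))) + M := by ring
    rw [e, Nat.testBit_two_pow_mul_add _ hM]
    split_ifs with h
    · rw [Nat.mod_eq_of_lt h]
    · have h1 : t - p < p * k := by
        have : p * (k + 1) = p * k + p := by ring
        omega
      rw [ih (t - p) h1]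
      congr 1
      rw [← Nat.add_mod_right (t - p) p]
      congr 1
      omega

lemma ext_spec (p c L : ℕ) (hp : 0 < p) (t : ℕ) (ht : t < L) (h : (ext p c L).testBit t = false) :
    (mask p c).testBit (t % p) = false := by
  have h1 : t < p * (L / p + 1) := lt_of_lt_of_le ht (Nat.lt_mul_div_succ L hp).le
  rw [ext, geo_testBit p _ hp (mask_lt p c hp) _ t h1] at h
  exact h

/-- validity of a pattern: `(E, q, w)` -/
def Ent (W T : ℕ) (e : ℕ × ℕ × ℕ) : Prop := ∀ r t n : ℕ, n = r + W * t → t < T →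
  e.1.testBit (t + (e.2.2 * r) % e.2.1) = false → Rep n

lemma ent_one (W T p c q w L : ℕ) (hp : p ∈ goodPrimes) (hc : (12 * W * c + 1) % p = 0)
    (hq : 0 < q) (hpq : q % p = 0) (hw : (W * w) % q = 1 % q) (hL : T + q ≤ L) :
    Ent W T (ext p c L, q, w) := by
  intro r t n hn ht h
  have hp0 : 0 < p := by
    rcases Nat.eq_zero_or_pos p with h0 | h0
    · subst h0; exact absurd hp (by decide)
    · exact h0
  have hs : t + (w * r) % q < L := by
    have := Nat.mod_lt (w * r) hq
    omega
  have h1 := ext_spec p c L hp0 _ hs h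
  refine rep_of_mask p c W hp hc n (t + (w * r) % q) ?_ h1
  have hpd : p ∣ q := Nat.dvd_of_mod_eq_zero hpq
  have e1 : W * w ≡ 1 [MOD p] := Nat.ModEq.of_dvd hpd hw
  have e2 : (w * r) % q ≡ w * r [MOD p] := Nat.ModEq.of_dvd hpd (Nat.mod_modEq _ _)
  have e3 : W * (t + (w * r) % q) ≡ n [MOD p] := by
    calc W * (t + (w * r) % q) ≡ W * (t + w * r) [MOD p] := (e2.add_left t).mul_left W
      _ = W * t + (W * w) * r := by ring
      _ ≡ W * t + 1 * r [MOD p] := (e1.mul_right r).add_left _
      _ = n := by rw [hn]; ring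
  exact e3.symm

lemma ent_and (W T E E' q w : ℕ) (h : Ent W T (E, q, w)) (h' : Ent W T (E', q, w)) :
    Ent W T (E &&& E', q, w) := by
  intro r t n hn ht hb
  simp only [Nat.testBit_and, Bool.and_eq_false_iff] at hb
  rcases hb with hb | hb
  · exact h r t n hn ht hb
  · exact h' r t n hn ht hb

lemma run_sound (W T : ℕ) : ∀ (L : List (ℕ × ℕ × ℕ)) (x r : ℕ), (∀ e ∈ L, Ent W T e) →
    run L x r = true → ∀ t n, n = r + W * t → t < T → x.testBit t = true → Rep n
  | [], x, r, _, h, t, n, _, _, hx => by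
    simp only [run, beq_iff_eq] at h
    rw [h] at hx
    simp at hx
  | (E, q, c) :: L, x, r, hL, h, t, n, hn, ht, hx => by
    simp only [run] at h
    cases hx0 : (x == 0)
    · rw [hx0, cond_false] at h
      cases hE : (E >>> ((c * r) % q)).testBit t
      · rw [Nat.testBit_shiftRight, Nat.add_comm] at hE
        exact hL (E, q, c) (List.mem_cons_self) r t n hn ht hE
      · refine run_sound W T L _ r (fun e he => hL e (List.mem_cons_of_mem _ he)) h t n hn ht ?_
        rw [Nat.testBit_and, hx, hE]; rfl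
    · rw [beq_iff_eq] at hx0
      rw [hx0] at hx
      simp at hx

lemma loop_sound (f : ℕ → Bool) (m p M r : ℕ) (hp : 0 < p) (hM : 0 < M) (B : ℕ)
    (hm : ∀ n, m.testBit (n % p) = false → Rep n)
    (hf : ∀ r', f r' = true → ∀ n, n < B → n % (M * p) = r' → Rep n)
    (h : loop f m p M r p = true) : ∀ n, n < B → n % M = r → Rep n := by
  intro n hn hr
  have key : ∀ k, loop f m p M r k = true → ∀ j, j < k →
      (m.testBit ((r + M * j) % p) = false ∨ f (r + M * j) = true) := by
    intro k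
    induction k with
    | zero => intro _ j hj; omega
    | succ k ih =>
      intro hk j hj
      rw [loop, Bool.and_eq_true] at hk
      rcases Nat.lt_succ_iff_lt_or_eq.mp hj with h1 | h1
      · exact ih hk.2 j h1
      · subst h1
        cases hb : m.testBit ((r + M * j) % p)
        · exact Or.inl rfl
        · rw [hb, cond_true] at hk
          exact Or.inr hk.1
  have hj : (n / M) % p < p := Nat.mod_lt _ hp
  have hmod : n % (M * p) = r + M * ((n / M) % p) := by rw [Nat.mod_mul, hr]
  rcases key p h _ hj with h1 | h1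
  · refine hm n ?_
    rw [← hmod, Nat.mod_mul_left_mod] at h1
    exact h1
  · exact hf _ h1 n hn hmod

end Pool.Agent.Lib.H82O.Sv
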