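import Pool.Agent.Lib.H82O.B01

/-!
# H82O B02: the tables of the sieve (helper82)
-/

set_option autoImplicit false
set_option maxRecDepth 100000

namespace Pool.Agent.Lib.H82O.Sv

open Pool.Agent.Lib.H63.TSP

/-- `5 * 7 * 11 * 13 * 17 * 19` -/
def WW : ℕ := 1616615

/-- number of bits; `WW * TT` exceeds `10^13/6` -/
def TT : ℕ := 1030961

/-- the patterns -/
def tab : List (ℕ × ℕ × ℕ) := [
  (ext 23 13 1051638 &&& ext 29 7 1051638 &&& ext 31 11 1051638, 20677, 6905),
  (ext 37 7 1096192 &&& ext 41 18 1096192 &&& ext 43 8 1096192, 65231, 57266),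
  (ext 47 30 1177930 &&& ext 53 26 1177930 &&& ext 59 39 1177930, 146969, 16701),
  (ext 61 8 1035048 &&& ext 67 1 1035048, 4087, 3137),
  (ext 71 44 1036144 &&& ext 73 44 1036144, 5183, 4655),
  (ext 79 22 1037518 &&& ext 83 17 1037518, 6557, 5108),
  (ext 89 16 1039594 &&& ext 97 23 1039594, 8633, 5059),
  (ext 101 72 1041364 &&& ext 103 2 1041364, 10403, 8731),
  (ext 107 47 1042624 &&& ext 109 82 1042624, 11663, 10243),
  (ext 113 99 1045312 &&& ext 127 42 1045312, 14351, 5592),
  (ext 131 54 1048908 &&& ext 137 86 1048908, 17947, 7736),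
  (ext 149 11 1053460 &&& ext 151 144 1053460, 22499, 6275),
  (ext 157 100 1056552 &&& ext 163 158 1056552, 25591, 17012),
  (ext 167 21 1059852 &&& ext 173 83 1059852, 28891, 20456),
  (ext 179 73 1063360 &&& ext 181 162 1063360, 32399, 29912),
  (ext 191 23 1067824 &&& ext 193 103 1067824, 36863, 17678),
  (ext 197 98 1070164 &&& ext 199 171 1070164, 39203, 6704)]

/-- check of the class `r` modulo `5005` -/
def chk (r : ℕ) : Bool :=
  loop (fun r1 => loop (fun r2 => run tab (2 ^ TT - 1) r2) (mask 19 11) 19 85085 r1 19) (mask 17 7) 17 5005 r 17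

lemma tab_ok : ∀ e ∈ tab, Ent WW TT e := by
  intro e he
  simp only [tab, List.mem_cons, List.not_mem_nil, or_false] at he
  rcases he with rfl | rfl | rfl | rfl | rfl | rfl | rfl | rfl | rfl | rfl | rfl | rfl | rfl | rfl | rfl | rfl | rfl
  · exact ent_and _ _ _ _ _ _ (ent_and _ _ _ _ _ _ (ent_one WW TT 23 13 20677 6905 1051638 (by decide) (by decide) (by norm_num) (by norm_num) (by decide) (by decide)) (ent_one WW TT 29 7 20677 6905 1051638 (by decide) (by decide) (by norm_num) (by norm_num) (by decide) (by decide))) (ent_one WW TT 31 11 20677 6905 1051638 (by decide) (by decide) (by norm_num) (by norm_num) (by decide) (by decide))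
  · exact ent_and _ _ _ _ _ _ (ent_and _ _ _ _ _ _ (ent_one WW TT 37 7 65231 57266 1096192 (by decide) (by decide) (by norm_num) (by norm_num) (by decide) (by decide)) (ent_one WW TT 41 18 65231 57266 1096192 (by decide) (by decide) (by norm_num) (by norm_num) (by decide) (by decide))) (ent_one WW TT 43 8 65231 57266 1096192 (by decide) (by decide) (by norm_num) (by norm_num) (by decide) (by decide))
  · exact ent_and _ _ _ _ _ _ (ent_and _ _ _ _ _ _ (ent_one WW TT 47 30 146969 16701 1177930 (by decide) (by decide) (by norm_num) (by norm_num) (by decide) (by decide)) (ent_one WW TT 53 26 146969 16701 1177930 (by decide) (by decide) (by norm_num) (by norm_num) (by decide) (by decide))) (ent_one WW TT 59 39 146969 16701 1177930 (by decide) (by decide) (by norm_num) (by norm_num) (by decide) (by decide))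
  · exact ent_and _ _ _ _ _ _ (ent_one WW TT 61 8 4087 3137 1035048 (by decide) (by decide) (by norm_num) (by norm_num) (by decide) (by decide)) (ent_one WW TT 67 1 4087 3137 1035048 (by decide) (by decide) (by norm_num) (by norm_num) (by decide) (by decide))
  · exact ent_and _ _ _ _ _ _ (ent_one WW TT 71 44 5183 4655 1036144 (by decide) (by decide) (by norm_num) (by norm_num) (by decide) (by decide)) (ent_one WW TT 73 44 5183 4655 1036144 (by decide) (by decide) (by norm_num) (by norm_num) (by decide) (by decide))
  · exact ent_and _ _ _ _ _ _ (ent_one WW TT 79 22 6557 5108 1037518 (by decide) (by decide) (by norm_num) (by norm_num) (by decide) (by decide)) (ent_one WW TT 83 17 6557 5108 1037518 (by decide) (by decide) (by norm_num) (by norm_num) (by decide) (by decide))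
  · exact ent_and _ _ _ _ _ _ (ent_one WW TT 89 16 8633 5059 1039594 (by decide) (by decide) (by norm_num) (by norm_num) (by decide) (by decide)) (ent_one WW TT 97 23 8633 5059 1039594 (by decide) (by decide) (by norm_num) (by norm_num) (by decide) (by decide))
  · exact ent_and _ _ _ _ _ _ (ent_one WW TT 101 72 10403 8731 1041364 (by decide) (by decide) (by norm_num) (by norm_num) (by decide) (by decide)) (ent_one WW TT 103 2 10403 8731 1041364 (by decide) (by decide) (by norm_num) (by norm_num) (by decide) (by decide))
  · exact ent_and _ _ _ _ _ _ (ent_one WW TT 107 47 11663 10243 1042624 (by decide) (by decide) (by norm_num) (by norm_num) (by decide) (by decide)) (ent_one WW TT 109 82 11663 10243 1042624 (by decide) (by decide) (by norm_num) (by norm_num) (by decide) (by decide))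
  · exact ent_and _ _ _ _ _ _ (ent_one WW TT 113 99 14351 5592 1045312 (by decide) (by decide) (by norm_num) (by norm_num) (by decide) (by decide)) (ent_one WW TT 127 42 14351 5592 1045312 (by decide) (by decide) (by norm_num) (by norm_num) (by decide) (by decide))
  · exact ent_and _ _ _ _ _ _ (ent_one WW TT 131 54 17947 7736 1048908 (by decide) (by decide) (by norm_num) (by norm_num) (by decide) (by decide)) (ent_one WW TT 137 86 17947 7736 1048908 (by decide) (by decide) (by norm_num) (by norm_num) (by decide) (by decide))
  · exact ent_and _ _ _ _ _ _ (ent_one WW TT 149 11 22499 6275 1053460 (by decide) (by decide) (by norm_num) (by norm_num) (by decide) (by decide)) (ent_one WW TT 151 144 22499 6275 1053460 (by decide) (by decide) (by norm_num) (by norm_num) (by decide) (by decide))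
  · exact ent_and _ _ _ _ _ _ (ent_one WW TT 157 100 25591 17012 1056552 (by decide) (by decide) (by norm_num) (by norm_num) (by decide) (by decide)) (ent_one WW TT 163 158 25591 17012 1056552 (by decide) (by decide) (by norm_num) (by norm_num) (by decide) (by decide))
  · exact ent_and _ _ _ _ _ _ (ent_one WW TT 167 21 28891 20456 1059852 (by decide) (by decide) (by norm_num) (by norm_num) (by decide) (by decide)) (ent_one WW TT 173 83 28891 20456 1059852 (by decide) (by decide) (by norm_num) (by norm_num) (by decide) (by decide))
  · exact ent_and _ _ _ _ _ _ (ent_one WW TT 179 73 32399 29912 1063360 (by decide) (by decide) (by norm_num) (by norm_num) (by decide) (by decide)) (ent_one WW TT 181 162 32399 29912 1063360 (by decide) (by decide) (by norm_num) (by norm_num) (by decide) (by decide))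
  · exact ent_and _ _ _ _ _ _ (ent_one WW TT 191 23 36863 17678 1067824 (by decide) (by decide) (by norm_num) (by norm_num) (by decide) (by decide)) (ent_one WW TT 193 103 36863 17678 1067824 (by decide) (by decide) (by norm_num) (by norm_num) (by decide) (by decide))
  · exact ent_and _ _ _ _ _ _ (ent_one WW TT 197 98 39203 6704 1070164 (by decide) (by decide) (by norm_num) (by norm_num) (by decide) (by decide)) (ent_one WW TT 199 171 39203 6704 1070164 (by decide) (by decide) (by norm_num) (by norm_num) (by decide) (by decide))

lemma chk_sound (r : ℕ) (h : chk r = true) (n : ℕ) (hn : n < WW * TT) (hr : n % 5005 = r) :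
    Rep n := by
  refine loop_sound _ _ 17 5005 r (by norm_num) (by norm_num) (WW * TT) ?_ ?_ h n hn hr
  · intro n hb
    exact rep_of_mask 17 7 1 (by decide) (by decide) n n (by rw [one_mul]) hb
  · intro r1 h1 n hn hr1
    refine loop_sound _ _ 19 85085 r1 (by norm_num) (by norm_num) (WW * TT) ?_ ?_ h1 n hn hr1
    · intro n hb
      exact rep_of_mask 19 11 1 (by decide) (by decide) n n (by rw [one_mul]) hb
    · intro r2 h2 n hn hr2
      have hr2' : n % WW = r2 := hr2
      have h3 : n = r2 + WW * (n / WW) := by rw [← hr2']; exact (Nat.mod_add_div n WW).symm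
      have h4 : n / WW < TT := Nat.div_lt_of_lt_mul hn
      refine run_sound WW TT tab _ r2 tab_ok h2 (n / WW) n h3 h4 ?_
      rw [Nat.testBit_two_pow_sub_one]
      exact decide_eq_true h4

def chkL (L : List ℕ) : Bool := L.all chk

lemma chkL_three {a b c : ℕ} (h1 : chk a = true) (h2 : chk b = true) (h3 : chk c = true) :
    chkL [a, b, c] = true := by
  simp only [chkL, List.all_cons, List.all_nil, h1, h2, h3, Bool.and_self]

end Pool.Agent.Lib.H82O.Sv
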