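import Pool.Agent.Lib.H82O.B02

/-!
# H82O B03A: kernel computation, part of the sieve (helper82)
-/

set_option autoImplicit false
set_option maxRecDepth 100000

namespace Pool.Agent.Lib.H82O.Sv

theorem c_13 : chk 13 = true := by decide +kernel

theorem c_35 : chk 35 = true := by decide +kernel

theorem c_95 : chk 95 = true := by decide +kernel

theorem sv_0 : chkL [13, 35, 95] = true := chkL_three c_13 c_35 c_95

theorem c_98 : chk 98 = true := by decide +kernel

theorem c_153 : chk 153 = true := by decide +kernel

theorem c_230 : chk 230 = true := by decide +kernel

theorem sv_1 : chkL [98, 153, 230] = true := chkL_three c_98 c_153 c_230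

theorem c_238 : chk 238 = true := by decide +kernel

theorem c_293 : chk 293 = true := by decide +kernel

theorem c_333 : chk 333 = true := by decide +kernel

theorem sv_2 : chkL [238, 293, 333] = true := chkL_three c_238 c_293 c_333

theorem c_398 : chk 398 = true := by decide +kernel

theorem c_403 : chk 403 = true := by decide +kernel

theorem c_410 : chk 410 = true := by decide +kernel

theorem sv_3 : chkL [398, 403, 410] = true := chkL_three c_398 c_403 c_410

theorem c_420 : chk 420 = true := by decide +kernel

theorem c_475 : chk 475 = true := by decide +kernel

theorem c_553 : chk 553 = true := by decide +kernel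

theorem sv_4 : chkL [420, 475, 553] = true := chkL_three c_420 c_475 c_553

theorem c_585 : chk 585 = true := by decide +kernel

theorem c_595 : chk 595 = true := by decide +kernel

theorem c_608 : chk 608 = true := by decide +kernel

theorem sv_5 : chkL [585, 595, 608] = true := chkL_three c_585 c_595 c_608

theorem c_615 : chk 615 = true := by decide +kernel

theorem c_650 : chk 650 = true := by decide +kernel

theorem c_683 : chk 683 = true := by decide +kernel

theorem sv_6 : chkL [615, 650, 683] = true := chkL_three c_615 c_650 c_683

theorem c_685 : chk 685 = true := by decide +kernel

theorem c_725 : chk 725 = true := by decide +kernel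

theorem c_728 : chk 728 = true := by decide +kernel

theorem sv_7 : chkL [685, 725, 728] = true := chkL_three c_685 c_725 c_728

theorem c_788 : chk 788 = true := by decide +kernel

theorem c_865 : chk 865 = true := by decide +kernel

theorem c_868 : chk 868 = true := by decide +kernel

theorem sv_8 : chkL [788, 865, 868] = true := chkL_three c_788 c_865 c_868

theorem c_893 : chk 893 = true := by decide +kernel

theorem c_923 : chk 923 = true := by decide +kernel

theorem c_945 : chk 945 = true := by decide +kernel

theorem sv_9 : chkL [893, 923, 945] = true := chkL_three c_893 c_923 c_945

end Pool.Agent.Lib.H82O.Sv
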