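import Pool.Agent.Lib.H82O.B02

/-!
# H82O B03B: kernel computation, part of the sieve (helper82)
-/

set_option autoImplicit false
set_option maxRecDepth 100000

namespace Pool.Agent.Lib.H82O.Sv

theorem c_958 : chk 958 = true := by decide +kernel

theorem c_970 : chk 970 = true := by decide +kernel

theorem c_1008 : chk 1008 = true := by decide +kernel

theorem sv_10 : chkL [958, 970, 1008] = true := chkL_three c_958 c_970 c_1008

theorem c_1035 : chk 1035 = true := by decide +kernel

theorem c_1063 : chk 1063 = true := by decide +kernel

theorem c_1070 : chk 1070 = true := by decide +kernel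

theorem sv_11 : chkL [1035, 1063, 1070] = true := chkL_three c_1035 c_1063 c_1070

theorem c_1113 : chk 1113 = true := by decide +kernel

theorem c_1140 : chk 1140 = true := by decide +kernel

theorem c_1180 : chk 1180 = true := by decide +kernel

theorem sv_12 : chkL [1113, 1140, 1180] = true := chkL_three c_1113 c_1140 c_1180

theorem c_1190 : chk 1190 = true := by decide +kernel

theorem c_1245 : chk 1245 = true := by decide +kernel

theorem c_1278 : chk 1278 = true := by decide +kernel

theorem sv_13 : chkL [1190, 1245, 1278] = true := chkL_three c_1190 c_1245 c_1278

theorem c_1308 : chk 1308 = true := by decide +kernel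

theorem c_1323 : chk 1323 = true := by decide +kernel

theorem c_1330 : chk 1330 = true := by decide +kernel

theorem sv_14 : chkL [1308, 1323, 1330] = true := chkL_three c_1308 c_1323 c_1330

theorem c_1343 : chk 1343 = true := by decide +kernel

theorem c_1365 : chk 1365 = true := by decide +kernel

theorem c_1378 : chk 1378 = true := by decide +kernel

theorem sv_15 : chkL [1343, 1365, 1378] = true := chkL_three c_1343 c_1365 c_1378

theorem c_1385 : chk 1385 = true := by decide +kernel

theorem c_1400 : chk 1400 = true := by decide +kernel

theorem c_1453 : chk 1453 = true := by decide +kernel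

theorem sv_16 : chkL [1385, 1400, 1453] = true := chkL_three c_1385 c_1400 c_1453

theorem c_1495 : chk 1495 = true := by decide +kernel

theorem c_1525 : chk 1525 = true := by decide +kernel

theorem c_1530 : chk 1530 = true := by decide +kernel

theorem sv_17 : chkL [1495, 1525, 1530] = true := chkL_three c_1495 c_1525 c_1530

theorem c_1635 : chk 1635 = true := by decide +kernel

theorem c_1638 : chk 1638 = true := by decide +kernel

theorem c_1673 : chk 1673 = true := by decide +kernel

theorem sv_18 : chkL [1635, 1638, 1673] = true := chkL_three c_1635 c_1638 c_1673

theorem c_1750 : chk 1750 = true := by decide +kernel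

theorem c_1763 : chk 1763 = true := by decide +kernel

theorem c_1778 : chk 1778 = true := by decide +kernel

theorem sv_19 : chkL [1750, 1763, 1778] = true := chkL_three c_1750 c_1763 c_1778

end Pool.Agent.Lib.H82O.Sv
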