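import Pool.Agent.Lib.H82O.B02

/-!
# H82O B03C: kernel computation, part of the sieve (helper82)
-/

set_option autoImplicit false
set_option maxRecDepth 100000

namespace Pool.Agent.Lib.H82O.Sv

theorem c_1785 : chk 1785 = true := by decide +kernel

theorem c_1803 : chk 1803 = true := by decide +kernel

theorem c_1833 : chk 1833 = true := by decide +kernel

theorem sv_20 : chkL [1785, 1803, 1833] = true := chkL_three c_1785 c_1803 c_1833

theorem c_1840 : chk 1840 = true := by decide +kernel

theorem c_1855 : chk 1855 = true := by decide +kernel

theorem c_1880 : chk 1880 = true := by decide +kernel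

theorem sv_21 : chkL [1840, 1855, 1880] = true := chkL_three c_1840 c_1855 c_1880

theorem c_1915 : chk 1915 = true := by decide +kernel

theorem c_1950 : chk 1950 = true := by decide +kernel

theorem c_1960 : chk 1960 = true := by decide +kernel

theorem sv_22 : chkL [1915, 1950, 1960] = true := chkL_three c_1915 c_1950 c_1960

theorem c_2015 : chk 2015 = true := by decide +kernel

theorem c_2023 : chk 2023 = true := by decide +kernel

theorem c_2048 : chk 2048 = true := by decide +kernel

theorem sv_23 : chkL [2015, 2023, 2048] = true := chkL_three c_2015 c_2023 c_2048

theorem c_2058 : chk 2058 = true := by decide +kernel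

theorem c_2093 : chk 2093 = true := by decide +kernel

theorem c_2100 : chk 2100 = true := by decide +kernel

theorem sv_24 : chkL [2058, 2093, 2100] = true := chkL_three c_2058 c_2093 c_2100

theorem c_2113 : chk 2113 = true := by decide +kernel

theorem c_2155 : chk 2155 = true := by decide +kernel

theorem c_2188 : chk 2188 = true := by decide +kernel

theorem sv_25 : chkL [2113, 2155, 2188] = true := chkL_three c_2113 c_2155 c_2188

theorem c_2218 : chk 2218 = true := by decide +kernel

theorem c_2223 : chk 2223 = true := by decide +kernel

theorem c_2240 : chk 2240 = true := by decide +kernel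

theorem sv_26 : chkL [2218, 2223, 2240] = true := chkL_three c_2218 c_2223 c_2240

theorem c_2258 : chk 2258 = true := by decide +kernel

theorem c_2295 : chk 2295 = true := by decide +kernel

theorem c_2323 : chk 2323 = true := by decide +kernel

theorem sv_27 : chkL [2258, 2295, 2323] = true := chkL_three c_2258 c_2295 c_2323

theorem c_2335 : chk 2335 = true := by decide +kernel

theorem c_2400 : chk 2400 = true := by decide +kernel

theorem c_2405 : chk 2405 = true := by decide +kernel

theorem sv_28 : chkL [2335, 2400, 2405] = true := chkL_three c_2335 c_2400 c_2405

theorem c_2478 : chk 2478 = true := by decide +kernel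

theorem c_2548 : chk 2548 = true := by decide +kernel

theorem c_2555 : chk 2555 = true := by decide +kernel

theorem sv_29 : chkL [2478, 2548, 2555] = true := chkL_three c_2478 c_2548 c_2555

end Pool.Agent.Lib.H82O.Sv
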