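import Pool.Agent.Lib.H82O.B02

/-!
# H82O B03D: kernel computation, part of the sieve (helper82)
-/

set_option autoImplicit false
set_option maxRecDepth 100000

namespace Pool.Agent.Lib.H82O.Sv

theorem c_2608 : chk 2608 = true := by decide +kernel

theorem c_2610 : chk 2610 = true := by decide +kernel

theorem c_2643 : chk 2643 = true := by decide +kernel

theorem sv_30 : chkL [2608, 2610, 2643] = true := chkL_three c_2608 c_2610 c_2643

theorem c_2685 : chk 2685 = true := by decide +kernel

theorem c_2708 : chk 2708 = true := by decide +kernel

theorem c_2713 : chk 2713 = true := by decide +kernel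

theorem sv_31 : chkL [2685, 2708, 2713] = true := chkL_three c_2685 c_2708 c_2713

theorem c_2730 : chk 2730 = true := by decide +kernel

theorem c_2790 : chk 2790 = true := by decide +kernel

theorem c_2818 : chk 2818 = true := by decide +kernel

theorem sv_32 : chkL [2730, 2790, 2818] = true := chkL_three c_2730 c_2790 c_2818

theorem c_2828 : chk 2828 = true := by decide +kernel

theorem c_2870 : chk 2870 = true := by decide +kernel

theorem c_2883 : chk 2883 = true := by decide +kernel

theorem sv_33 : chkL [2828, 2870, 2883] = true := chkL_three c_2828 c_2870 c_2883

theorem c_2895 : chk 2895 = true := by decide +kernel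

theorem c_2925 : chk 2925 = true := by decide +kernel

theorem c_2933 : chk 2933 = true := by decide +kernel

theorem sv_34 : chkL [2895, 2925, 2933] = true := chkL_three c_2895 c_2925 c_2933

theorem c_2958 : chk 2958 = true := by decide +kernel

theorem c_2960 : chk 2960 = true := by decide +kernel

theorem c_3010 : chk 3010 = true := by decide +kernel

theorem sv_35 : chkL [2958, 2960, 3010] = true := chkL_three c_2958 c_2960 c_3010

theorem c_3038 : chk 3038 = true := by decide +kernel

theorem c_3065 : chk 3065 = true := by decide +kernel

theorem c_3098 : chk 3098 = true := by decide +kernel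

theorem sv_36 : chkL [3038, 3065, 3098] = true := chkL_three c_3038 c_3065 c_3098

theorem c_3115 : chk 3115 = true := by decide +kernel

theorem c_3233 : chk 3233 = true := by decide +kernel

theorem c_3280 : chk 3280 = true := by decide +kernel

theorem sv_37 : chkL [3115, 3233, 3280] = true := chkL_three c_3115 c_3233 c_3280

theorem c_3310 : chk 3310 = true := by decide +kernel

theorem c_3325 : chk 3325 = true := by decide +kernel

theorem c_3345 : chk 3345 = true := by decide +kernel

theorem sv_38 : chkL [3310, 3325, 3345] = true := chkL_three c_3310 c_3325 c_3345

theorem c_3380 : chk 3380 = true := by decide +kernel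

theorem c_3413 : chk 3413 = true := by decide +kernel

theorem c_3423 : chk 3423 = true := by decide +kernel

theorem sv_39 : chkL [3380, 3413, 3423] = true := chkL_three c_3380 c_3413 c_3423

end Pool.Agent.Lib.H82O.Sv
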