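import Pool.Agent.Lib.H82O.B02

/-!
# H82O B03E: kernel computation, part of the sieve (helper82)
-/

set_option autoImplicit false
set_option maxRecDepth 100000

namespace Pool.Agent.Lib.H82O.Sv

theorem c_3455 : chk 3455 = true := by decide +kernel

theorem c_3478 : chk 3478 = true := by decide +kernel

theorem c_3588 : chk 3588 = true := by decide +kernel

theorem sv_40 : chkL [3455, 3478, 3588] = true := chkL_three c_3455 c_3478 c_3588

theorem c_3598 : chk 3598 = true := by decide +kernel

theorem c_3618 : chk 3618 = true := by decide +kernel

theorem c_3640 : chk 3640 = true := by decide +kernel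

theorem sv_41 : chkL [3598, 3618, 3640] = true := chkL_three c_3598 c_3618 c_3640

theorem c_3653 : chk 3653 = true := by decide +kernel

theorem c_3675 : chk 3675 = true := by decide +kernel

theorem c_3688 : chk 3688 = true := by decide +kernel

theorem sv_42 : chkL [3653, 3675, 3688] = true := chkL_three c_3653 c_3675 c_3688

theorem c_3728 : chk 3728 = true := by decide +kernel

theorem c_3765 : chk 3765 = true := by decide +kernel

theorem c_3780 : chk 3780 = true := by decide +kernel

theorem sv_43 : chkL [3728, 3765, 3780] = true := chkL_three c_3728 c_3765 c_3780

theorem c_3805 : chk 3805 = true := by decide +kernel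

theorem c_3835 : chk 3835 = true := by decide +kernel

theorem c_3868 : chk 3868 = true := by decide +kernel

theorem sv_44 : chkL [3805, 3835, 3868] = true := chkL_three c_3805 c_3835 c_3868

theorem c_3948 : chk 3948 = true := by decide +kernel

theorem c_3973 : chk 3973 = true := by decide +kernel

theorem c_4025 : chk 4025 = true := by decide +kernel

theorem sv_45 : chkL [3948, 3973, 4025] = true := chkL_three c_3948 c_3973 c_4025

theorem c_4038 : chk 4038 = true := by decide +kernel

theorem c_4050 : chk 4050 = true := by decide +kernel

theorem c_4060 : chk 4060 = true := by decide +kernel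

theorem sv_46 : chkL [4038, 4050, 4060] = true := chkL_three c_4038 c_4050 c_4060

theorem c_4073 : chk 4073 = true := by decide +kernel

theorem c_4095 : chk 4095 = true := by decide +kernel

theorem c_4115 : chk 4115 = true := by decide +kernel

theorem sv_47 : chkL [4073, 4095, 4115] = true := chkL_three c_4073 c_4095 c_4115

theorem c_4143 : chk 4143 = true := by decide +kernel

theorem c_4183 : chk 4183 = true := by decide +kernel

theorem c_4190 : chk 4190 = true := by decide +kernel

theorem sv_48 : chkL [4143, 4183, 4190] = true := chkL_three c_4143 c_4183 c_4190

theorem c_4193 : chk 4193 = true := by decide +kernel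

theorem c_4220 : chk 4220 = true := by decide +kernel

theorem c_4225 : chk 4225 = true := by decide +kernel

theorem sv_49 : chkL [4193, 4220, 4225] = true := chkL_three c_4193 c_4220 c_4225

end Pool.Agent.Lib.H82O.Sv
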