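import Pool.Agent.Lib.H82O.B02

/-!
# H82O B03F: kernel computation, part of the sieve (helper82)
-/

set_option autoImplicit false
set_option maxRecDepth 100000

namespace Pool.Agent.Lib.H82O.Sv

theorem c_4248 : chk 4248 = true := by decide +kernel

theorem c_4260 : chk 4260 = true := by decide +kernel

theorem c_4325 : chk 4325 = true := by decide +kernel

theorem sv_50 : chkL [4248, 4260, 4325] = true := chkL_three c_4248 c_4260 c_4325

theorem c_4333 : chk 4333 = true := by decide +kernel

theorem c_4368 : chk 4368 = true := by decide +kernel

theorem c_4388 : chk 4388 = true := by decide +kernel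

theorem sv_51 : chkL [4333, 4368, 4388] = true := chkL_three c_4333 c_4368 c_4388

theorem c_4403 : chk 4403 = true := by decide +kernel

theorem c_4480 : chk 4480 = true := by decide +kernel

theorem c_4498 : chk 4498 = true := by decide +kernel

theorem sv_52 : chkL [4403, 4480, 4498] = true := chkL_three c_4403 c_4480 c_4498

theorem c_4528 : chk 4528 = true := by decide +kernel

theorem c_4533 : chk 4533 = true := by decide +kernel

theorem c_4550 : chk 4550 = true := by decide +kernel

theorem sv_53 : chkL [4528, 4533, 4550] = true := chkL_three c_4528 c_4533 c_4550

theorem c_4610 : chk 4610 = true := by decide +kernel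

theorem c_4638 : chk 4638 = true := by decide +kernel

theorem c_4645 : chk 4645 = true := by decide +kernel

theorem sv_54 : chkL [4610, 4638, 4645] = true := chkL_three c_4610 c_4638 c_4645

theorem c_4710 : chk 4710 = true := by decide +kernel

theorem c_4715 : chk 4715 = true := by decide +kernel

theorem c_4753 : chk 4753 = true := by decide +kernel

theorem sv_55 : chkL [4710, 4715, 4753] = true := chkL_three c_4710 c_4715 c_4753

theorem c_4788 : chk 4788 = true := by decide +kernel

theorem c_4820 : chk 4820 = true := by decide +kernel

theorem c_4830 : chk 4830 = true := by decide +kernel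

theorem sv_56 : chkL [4788, 4820, 4830] = true := chkL_three c_4788 c_4820 c_4830

theorem c_4843 : chk 4843 = true := by decide +kernel

theorem c_4858 : chk 4858 = true := by decide +kernel

theorem c_4883 : chk 4883 = true := by decide +kernel

theorem sv_57 : chkL [4843, 4858, 4883] = true := chkL_three c_4843 c_4858 c_4883

theorem c_4885 : chk 4885 = true := by decide +kernel

theorem c_4918 : chk 4918 = true := by decide +kernel

theorem c_4935 : chk 4935 = true := by decide +kernel

theorem sv_58 : chkL [4885, 4918, 4935] = true := chkL_three c_4885 c_4918 c_4935

theorem c_4953 : chk 4953 = true := by decide +kernel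

theorem c_4960 : chk 4960 = true := by decide +kernel

theorem c_4963 : chk 4963 = true := by decide +kernel

theorem sv_59 : chkL [4953, 4960, 4963] = true := chkL_three c_4953 c_4960 c_4963

end Pool.Agent.Lib.H82O.Sv
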