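import Pool.Agent.Lib.H82O.Defs
import Pool.Agent.Lib.H82O.B03A
import Pool.Agent.Lib.H82O.B03B
import Pool.Agent.Lib.H82O.B03C
import Pool.Agent.Lib.H82O.B03D
import Pool.Agent.Lib.H82O.B03E
import Pool.Agent.Lib.H82O.B03F

/-!
# H82O B09: every `n` with `6n+1 < 10^13` is representable (helper82)
-/

set_option autoImplicit false
set_option maxRecDepth 100000

namespace Pool.Agent.Lib.H82O

open Pool.Agent.Lib.H63.TSP

namespace Sv

/-- the classes modulo `5005` which survive 5, 7, 11, 13 -/
def cls : List (List ℕ) := [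
  [13, 35, 95],
  [98, 153, 230],
  [238, 293, 333],
  [398, 403, 410],
  [420, 475, 553],
  [585, 595, 608],
  [615, 650, 683],
  [685, 725, 728],
  [788, 865, 868],
  [893, 923, 945],
  [958, 970, 1008],
  [1035, 1063, 1070],
  [1113, 1140, 1180],
  [1190, 1245, 1278],
  [1308, 1323, 1330],
  [1343, 1365, 1378],
  [1385, 1400, 1453],
  [1495, 1525, 1530],
  [1635, 1638, 1673],
  [1750, 1763, 1778],
  [1785, 1803, 1833],
  [1840, 1855, 1880],
  [1915, 1950, 1960],
  [2015, 2023, 2048],
  [2058, 2093, 2100],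
  [2113, 2155, 2188],
  [2218, 2223, 2240],
  [2258, 2295, 2323],
  [2335, 2400, 2405],
  [2478, 2548, 2555],
  [2608, 2610, 2643],
  [2685, 2708, 2713],
  [2730, 2790, 2818],
  [2828, 2870, 2883],
  [2895, 2925, 2933],
  [2958, 2960, 3010],
  [3038, 3065, 3098],
  [3115, 3233, 3280],
  [3310, 3325, 3345],
  [3380, 3413, 3423],
  [3455, 3478, 3588],
  [3598, 3618, 3640],
  [3653, 3675, 3688],
  [3728, 3765, 3780],
  [3805, 3835, 3868],
  [3948, 3973, 4025],
  [4038, 4050, 4060],
  [4073, 4095, 4115],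
  [4143, 4183, 4190],
  [4193, 4220, 4225],
  [4248, 4260, 4325],
  [4333, 4368, 4388],
  [4403, 4480, 4498],
  [4528, 4533, 4550],
  [4610, 4638, 4645],
  [4710, 4715, 4753],
  [4788, 4820, 4830],
  [4843, 4858, 4883],
  [4885, 4918, 4935],
  [4953, 4960, 4963]]

lemma cls_ok : ∀ L ∈ cls, chkL L = true := by
  intro L hL
  simp only [cls, List.mem_cons, List.not_mem_nil, or_false] at hL
  rcases hL with rfl | rfl | rfl | rfl | rfl | rfl | rfl | rfl | rfl | rfl | rfl | rfl | rfl | rfl | rfl | rfl | rfl | rfl | rfl | rfl | rfl | rfl | rfl | rfl | rfl | rfl | rfl | rfl | rfl | rfl | rfl | rfl | rfl | rfl | rfl | rfl | rfl | rfl | rfl | rfl | rfl | rfl | rfl | rfl | rfl | rfl | rfl | rfl | rfl | rfl | rfl | rfl | rfl | rfl | rfl | rfl | rfl | rfl | rfl | rfl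
  · exact sv_0
  · exact sv_1
  · exact sv_2
  · exact sv_3
  · exact sv_4
  · exact sv_5
  · exact sv_6
  · exact sv_7
  · exact sv_8
  · exact sv_9
  · exact sv_10
  · exact sv_11
  · exact sv_12
  · exact sv_13
  · exact sv_14
  · exact sv_15
  · exact sv_16
  · exact sv_17
  · exact sv_18
  · exact sv_19
  · exact sv_20
  · exact sv_21
  · exact sv_22
  · exact sv_23
  · exact sv_24
  · exact sv_25
  · exact sv_26
  · exact sv_27
  · exact sv_28
  · exact sv_29
  · exact sv_30
  · exact sv_31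
  · exact sv_32
  · exact sv_33
  · exact sv_34
  · exact sv_35
  · exact sv_36
  · exact sv_37
  · exact sv_38
  · exact sv_39
  · exact sv_40
  · exact sv_41
  · exact sv_42
  · exact sv_43
  · exact sv_44
  · exact sv_45
  · exact sv_46
  · exact sv_47
  · exact sv_48
  · exact sv_49
  · exact sv_50
  · exact sv_51
  · exact sv_52
  · exact sv_53
  · exact sv_54
  · exact sv_55
  · exact sv_56
  · exact sv_57
  · exact sv_58
  · exact sv_59

lemma cls_all : ∀ r ∈ List.range 5005, (mask 5 2).testBit (r % 5) = false ∨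
    (mask 7 4).testBit (r % 7) = false ∨ (mask 11 10).testBit (r % 11) = false ∨
    (mask 13 1).testBit (r % 13) = false ∨ r ∈ cls.flatten := by decide +kernel

end Sv

open Sv in
theorem sieve_all (n : ℕ) (hn : 6 * n + 1 < 10 ^ 13) : Rep n := by
  have hlt : n < WW * TT := by
    have : WW * TT = 1666667017015 := by decide
    omega
  have hd : ∀ p, p ∣ 5005 → (n % 5005) % p = n % p := fun p hp => Nat.mod_mod_of_dvd n hp
  rcases cls_all (n % 5005) (List.mem_range.2 (Nat.mod_lt _ (by norm_num))) with h | h | h | h | h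
  · rw [hd 5 (by norm_num)] at h
    exact rep_of_mask 5 2 1 (by decide) (by decide) n n (by rw [one_mul]) h
  · rw [hd 7 (by norm_num)] at h
    exact rep_of_mask 7 4 1 (by decide) (by decide) n n (by rw [one_mul]) h
  · rw [hd 11 (by norm_num)] at h
    exact rep_of_mask 11 10 1 (by decide) (by decide) n n (by rw [one_mul]) h
  · rw [hd 13 (by norm_num)] at h
    exact rep_of_mask 13 1 1 (by decide) (by decide) n n (by rw [one_mul]) h
  · rw [List.mem_flatten] at h
    obtain ⟨L, hL, hr⟩ := h
    have h1 := cls_ok L hL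
    rw [chkL, List.all_eq_true] at h1
    exact chk_sound _ (h1 _ hr) n hlt rfl

end Pool.Agent.Lib.H82O
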