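import Pool.Agent.Lib.H82O.Q02

/-!
# H82O Q06A: the fibre: coordinates `(s, c)`
-/

set_option autoImplicit false

namespace Pool.Agent.Lib.H82O

open Pool.Agent.Lib.H63.TSP

theorem q06a_star (v : V) : star (qv v) = -qv v := by
  ext <;> simp [qv]

/-- PROOF. Put `w = γ̄₁ γ` (`γ̄₁ = star γ₁`). From `u γ₁ = γ₁ v` (conjugate: `γ̄₁ u = v γ̄₁`, as
`star (qv u) = - qv u`) `v w = γ̄₁ u γ = γ̄₁ γ v = w v`. Let `w = s + w'` with `w'` pure, `w' = (X,Y,Z)`;
commuting with `v = (e,p,q)` means `2 (w' × v) = 0`: `Y q = Z p`, `Z e = X q`, `X p = Y e` (compare the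
coordinates of `v w = w v`). With Bezout `a e + b' p + c' q = 1` put `c = a X + b' Y + c' Z`; then
`X = X (a e + b' p + c' q) = e (a X + b' Y + c' Z) = c e`, similarly `Y = c p`, `Z = c q`. Norms:
`nq γ₁ · nq γ = nq w = s² + c² |v|² = s² + 2 m c²`. -/
theorem fibre_coord (m : ℤ) (v u : V) (hv : v.e ^ 2 + v.p ^ 2 + v.q ^ 2 = 2 * m)
    (hprim : PrimV v) (γ₁ γ : HZ) (h₁ : qv u * γ₁ = γ₁ * qv v) (h : qv u * γ = γ * qv v) :
    ∃ s c : ℤ, star γ₁ * γ = qi s + qi c * qv v ∧ nq γ₁ * nq γ = s ^ 2 + 2 * m * c ^ 2 := by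
  have h2 : star γ₁ * qv u = qv v * star γ₁ := by
    have h3 := congrArg star h₁
    rw [star_mul, star_mul, q06a_star, q06a_star, mul_neg, neg_mul, neg_inj] at h3
    exact h3
  obtain ⟨w, hw⟩ : ∃ w : HZ, w = star γ₁ * γ := ⟨_, rfl⟩
  have hcomm : qv v * w = w * qv v := by
    rw [hw, ← mul_assoc, ← h2, mul_assoc, h, mul_assoc]
  have hnorm : nq γ₁ * nq γ = nq w := by
    rw [hw, nq_mul, nq_star]
  rw [← hw, hnorm]
  obtain ⟨a, b, c, habc⟩ := hprim
  have e1 := congrArg (fun x : HZ => x.imI) hcomm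
  have e2 := congrArg (fun x : HZ => x.imJ) hcomm
  have e3 := congrArg (fun x : HZ => x.imK) hcomm
  simp only [Quaternion.imI_mul, Quaternion.imJ_mul, Quaternion.imK_mul, qv] at e1 e2 e3
  obtain ⟨t, ht⟩ : ∃ t : ℤ, t = a * w.imI + b * w.imJ + c * w.imK := ⟨_, rfl⟩
  have c1 : v.p * w.imK = v.q * w.imJ := by linarith
  have c2 : v.q * w.imI = v.e * w.imK := by linarith
  have c3 : v.e * w.imJ = v.p * w.imI := by linarith
  have x1 : w.imI = t * v.e := by
    rw [ht]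
    linear_combination (-w.imI) * habc - b * c3 + c * c2
  have x2 : w.imJ = t * v.p := by
    rw [ht]
    linear_combination (-w.imJ) * habc + a * c3 - c * c1
  have x3 : w.imK = t * v.q := by
    rw [ht]
    linear_combination (-w.imK) * habc - a * c2 + b * c1
  refine ⟨w.re, t, ?_, ?_⟩
  · ext
    · simp [qi, qv]
    · simp [qi, qv, x1]
    · simp [qi, qv, x2]
    · simp [qi, qv, x3]
  · unfold nq
    rw [x1, x2, x3]
    linear_combination (t ^ 2) * hv

end Pool.Agent.Lib.H82O
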