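import Pool.Agent.Lib.H82O.Q02

/-!
# H82O Q06B: the fibre: coordinates `(s, c)`
-/

set_option autoImplicit false

namespace Pool.Agent.Lib.H82O

open Pool.Agent.Lib.H63.TSP

theorem q06b_re (b : ℤ) : (qi b).re = b := rfl
theorem q06b_imI (b : ℤ) : (qi b).imI = 0 := rfl
theorem q06b_imJ (b : ℤ) : (qi b).imJ = 0 := rfl
theorem q06b_imK (b : ℤ) : (qi b).imK = 0 := rfl

/-- PROOF. Subtract: `γ̄₁ (γ - γ') = s - s'`; multiply by `γ₁` on the left: `A (γ - γ') = (s - s') γ₁`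
with `A = nq γ₁`; so `A ∣ (s - s') · (coordinates of γ₁)`, and by `PrimH γ₁` `A ∣ s - s'`. Parity:
`A nq γ = s² + 2 m c²` is odd, so `s` is odd; likewise `s'`; so `2 ∣ s - s'`, and `A` is odd:
`2A ∣ s - s'` (`IsCoprime.mul_dvd` or `omega` after writing). -/
theorem fibre_class (m : ℤ) (v : V) (γ₁ γ γ' : HZ) (hodd₁ : nq γ₁ % 2 = 1) (hp : PrimH γ₁)
    (s s' c : ℤ) (h : star γ₁ * γ = qi s + qi c * qv v) (h' : star γ₁ * γ' = qi s' + qi c * qv v)
    (hs : nq γ₁ * nq γ = s ^ 2 + 2 * m * c ^ 2) (hs' : nq γ₁ * nq γ' = s' ^ 2 + 2 * m * c ^ 2)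
    (ho : nq γ % 2 = 1) (ho' : nq γ' % 2 = 1) : 2 * nq γ₁ ∣ s - s' := by
  have e : qi (nq γ₁) * (γ - γ') = γ₁ * (qi s - qi s') := by
    rw [← mul_star_nq, mul_assoc, mul_sub (star γ₁), h, h']
    congr 1
    abel
  have e0 := congrArg QuaternionAlgebra.re e
  have e1 := congrArg QuaternionAlgebra.imI e
  have e2 := congrArg QuaternionAlgebra.imJ e
  have e3 := congrArg QuaternionAlgebra.imK e
  simp only [Quaternion.re_mul, Quaternion.imI_mul, Quaternion.imJ_mul, Quaternion.imK_mul,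
    Quaternion.re_sub, Quaternion.imI_sub, Quaternion.imJ_sub, Quaternion.imK_sub,
    q06b_re, q06b_imI, q06b_imJ, q06b_imK] at e0 e1 e2 e3
  obtain ⟨a, b, c', d, hp⟩ := hp
  have hdvd : nq γ₁ ∣ s - s' := by
    refine ⟨a * (γ.re - γ'.re) + b * (γ.imI - γ'.imI) + c' * (γ.imJ - γ'.imJ) +
      d * (γ.imK - γ'.imK), ?_⟩
    linear_combination (-(s - s')) * hp - a * e0 - b * e1 - c' * e2 - d * e3
  have hpar : ∀ t N : ℤ, nq γ₁ * N = t ^ 2 + 2 * m * c ^ 2 → N % 2 = 1 → t % 2 = 1 := by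
    intro t N h1 h2
    by_contra h3
    have h4 : t % 2 = 0 := by omega
    obtain ⟨u, rfl⟩ := Int.dvd_of_emod_eq_zero h4
    have h5 : (nq γ₁ * N) % 2 = 1 := by rw [Int.mul_emod, hodd₁, h2]; rfl
    rw [h1] at h5
    have h6 : (2 * u) ^ 2 + 2 * m * c ^ 2 = 2 * (2 * u ^ 2 + m * c ^ 2) := by ring
    rw [h6] at h5
    omega
  have hs1 := hpar s _ hs ho
  have hs2 := hpar s' _ hs' ho'
  have h2 : (2 : ℤ) ∣ s - s' := by omega
  refine IsCoprime.mul_dvd ?_ h2 hdvd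
  refine ⟨-(nq γ₁ / 2), 1, ?_⟩
  omega

/-- `γ` is determined by `(s, c)`: multiply `γ̄₁ γ = γ̄₁ γ'` by `γ₁` on the left, and cancel
`nq γ₁ ≠ 0` in the coordinates. -/
theorem fibre_inj (γ₁ γ γ' : HZ) (hodd₁ : nq γ₁ % 2 = 1) (h : star γ₁ * γ = star γ₁ * γ') :
    γ = γ' := by
  have e : qi (nq γ₁) * γ = qi (nq γ₁) * γ' := by
    rw [← mul_star_nq, mul_assoc, mul_assoc, h]
  have hA : nq γ₁ ≠ 0 := by omega
  have e0 := congrArg QuaternionAlgebra.re e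
  have e1 := congrArg QuaternionAlgebra.imI e
  have e2 := congrArg QuaternionAlgebra.imJ e
  have e3 := congrArg QuaternionAlgebra.imK e
  simp only [Quaternion.re_mul, Quaternion.imI_mul, Quaternion.imJ_mul, Quaternion.imK_mul,
    q06b_re, q06b_imI, q06b_imJ, q06b_imK, zero_mul, sub_zero, add_zero, mul_eq_mul_left_iff, hA,
    or_false] at e0 e1 e2 e3
  ext
  · exact e0
  · exact e1
  · exact e2
  · exact e3

end Pool.Agent.Lib.H82O
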