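import Pool.Agent.Lib.H82O.Q02
import Pool.Agent.Lib.H82O.Q06A
import Pool.Agent.Lib.H82O.Q06B

/-! Collects Q06A, Q06B. -/
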