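import Pool.Agent.Lib.H82O.G02
import Pool.Agent.Lib.H82O.Q06

/-!
# H82O G03: the Gaussian sum over a fibre
-/

set_option autoImplicit false

namespace Pool.Agent.Lib.H82O

open Pool.Agent.Lib.H63.TSP

/-- PROOF. Let `A = nq γ₁` (odd, so `> 0`). By `fibre_coord` choose `(s, c)` for every `γ ∈ F`;
`γ ↦ (s, c)` is injective on `F` (`fibre_inj`), `nq γ = (s² + 2 m c²)/A`, and by `fibre_class` the
hypothesis of `gauss_pairs` holds for the image of `F`. So the sum is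
`≤ (1 + √(π/(tA))/2)(1 + √(πA/(2mt)))`
`= 1 + √(π/(tA))/2 + √(πA/(2mt)) + π/(2 t √(2m))`, and with `A ≥ 1` the two middle terms are
`≤ 2 A √π/√t ≤ 4 A/√t` (`√A ≤ A`, `√(2m) ≥ 1`, `√π ≤ 2`; total of the middle terms
`≤ (1/2 + A) √π/√t ≤ (3/2) A · 2/√t`). -/
theorem fibre_bound (m : ℤ) (hm : 0 < m) (v u : V)
    (hv : v.e ^ 2 + v.p ^ 2 + v.q ^ 2 = 2 * m) (hprim : PrimV v) (γ₁ : HZ)
    (h₁ : qv u * γ₁ = γ₁ * qv v) (hodd₁ : nq γ₁ % 2 = 1) (hp : PrimH γ₁) (F : Finset HZ)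
    (hF : ∀ γ ∈ F, qv u * γ = γ * qv v ∧ nq γ % 2 = 1) (t : ℝ) (ht : 0 < t) :
    ∑ γ ∈ F, Real.exp (-t * (nq γ : ℝ)) ≤
      Real.pi / (2 * Real.sqrt (2 * m)) / t + 4 * nq γ₁ / Real.sqrt t + 1 := by
  classical
  set A : ℤ := nq γ₁ with hAdef
  have hA0 : 0 ≤ A := by rw [hAdef]; unfold nq; positivity
  have hA : 0 < A := by
    rcases hA0.lt_or_eq with h | h
    · exact h
    · rw [← h] at hodd₁; norm_num at hodd₁
  have hA1 : (1 : ℝ) ≤ (A : ℝ) := by exact_mod_cast hA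
  have hAR : (0 : ℝ) < (A : ℝ) := by linarith
  have hmR : (1 : ℝ) ≤ (m : ℝ) := by exact_mod_cast hm
  have hmR0 : (0 : ℝ) < (m : ℝ) := by linarith
  have hex : ∀ γ : HZ, ∃ sc : ℤ × ℤ, γ ∈ F →
      star γ₁ * γ = qi sc.1 + qi sc.2 * qv v ∧ A * nq γ = sc.1 ^ 2 + 2 * m * sc.2 ^ 2 := by
    intro γ
    by_cases hγ : γ ∈ F
    · obtain ⟨s, c, h1, h2⟩ := fibre_coord m v u hv hprim γ₁ γ h₁ (hF γ hγ).1
      exact ⟨(s, c), fun _ => ⟨h1, h2⟩⟩
    · exact ⟨(0, 0), fun h => absurd h hγ⟩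
  choose f hf using hex
  have hinj : Set.InjOn f (F : Set HZ) := by
    intro γ hγ γ' hγ' hff
    have h1 := (hf γ hγ).1
    have h2 := (hf γ' hγ').1
    rw [← hff] at h2
    exact fibre_inj γ₁ γ γ' hodd₁ (h1.trans h2.symm)
  have hsum : ∑ γ ∈ F, Real.exp (-t * (nq γ : ℝ)) =
      ∑ x ∈ F.image f, Real.exp (-t * ((x.1 : ℝ) ^ 2 + 2 * m * (x.2 : ℝ) ^ 2) / A) := by
    rw [Finset.sum_image hinj]
    refine Finset.sum_congr rfl fun γ hγ => ?_
    have h2 := (hf γ hγ).2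
    have h3 : (A : ℝ) * (nq γ : ℝ) = ((f γ).1 : ℝ) ^ 2 + 2 * m * ((f γ).2 : ℝ) ^ 2 := by
      exact_mod_cast h2
    congr 1
    rw [← h3]
    field_simp
  rw [hsum]
  have hg := gauss_pairs t ht m A hm hA (F.image f) (by
    intro x hx y hy hxy
    obtain ⟨γ, hγ, rfl⟩ := Finset.mem_image.1 hx
    obtain ⟨γ', hγ', rfl⟩ := Finset.mem_image.1 hy
    have h1 := hf γ hγ
    have h2 := hf γ' hγ'
    rw [← hxy] at h2
    exact fibre_class m v γ₁ γ γ' hodd₁ hp _ _ _ h1.1 h2.1 h1.2 h2.2 (hF γ hγ).2 (hF γ' hγ').2)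
  refine hg.trans ?_
  have hst : 0 < Real.sqrt t := Real.sqrt_pos.2 ht
  have hpi : Real.sqrt Real.pi ≤ 2 := by
    rw [Real.sqrt_le_left (by norm_num)]
    linarith [Real.pi_le_four]
  have hpi0 : 0 ≤ Real.sqrt Real.pi := Real.sqrt_nonneg _
  -- first term
  have e1 : Real.sqrt (Real.pi / (t * A)) ≤ 2 / Real.sqrt t := by
    rw [Real.sqrt_div Real.pi_pos.le]
    have h : Real.sqrt t ≤ Real.sqrt (t * A) := Real.sqrt_le_sqrt (by nlinarith)
    exact div_le_div₀ (by norm_num) hpi hst h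
  have e2 : Real.sqrt (Real.pi * A / (2 * m * t)) ≤ 2 * A / Real.sqrt t := by
    rw [Real.sqrt_div (by positivity), Real.sqrt_mul Real.pi_pos.le]
    have h : Real.sqrt t ≤ Real.sqrt (2 * m * t) := Real.sqrt_le_sqrt (by nlinarith)
    have h2 : Real.sqrt (A : ℝ) ≤ A := by
      rw [Real.sqrt_le_left (by linarith)]
      nlinarith
    have h3 : Real.sqrt Real.pi * Real.sqrt (A : ℝ) ≤ 2 * A :=
      mul_le_mul hpi h2 (Real.sqrt_nonneg _) (by norm_num)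
    exact div_le_div₀ (by positivity) h3 hst h
  have e3 : Real.sqrt (Real.pi / (t * A)) * Real.sqrt (Real.pi * A / (2 * m * t)) =
      Real.pi / Real.sqrt (2 * m) / t := by
    rw [← Real.sqrt_mul (by positivity)]
    have h : Real.pi / (t * A) * (Real.pi * A / (2 * m * t)) =
        (Real.pi / t) ^ 2 / (2 * m) := by
      field_simp
    rw [h, Real.sqrt_div (by positivity), Real.sqrt_sq (by positivity)]
    ring
  have e4 : Real.pi / (2 * Real.sqrt (2 * m)) / t = (Real.pi / Real.sqrt (2 * m) / t) / 2 := by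
    ring
  have e5 : (1 : ℝ) / Real.sqrt t ≤ A / Real.sqrt t :=
    div_le_div_of_nonneg_right hA1 hst.le
  have e6 : (2 : ℝ) / Real.sqrt t = 2 * (1 / Real.sqrt t) := by ring
  have e7 : 2 * (A : ℝ) / Real.sqrt t = 2 * (A / Real.sqrt t) := by ring
  have e8 : 4 * (A : ℝ) / Real.sqrt t = 4 * (A / Real.sqrt t) := by ring
  rw [e4, e8]
  rw [e6] at e1
  rw [e7] at e2
  have e9 : 0 ≤ (A : ℝ) / Real.sqrt t := by positivity
  have e10 : (1 + Real.sqrt (Real.pi / (t * A)) / 2) * (1 + Real.sqrt (Real.pi * A / (2 * m * t))) =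
      1 + Real.sqrt (Real.pi * A / (2 * m * t)) + Real.sqrt (Real.pi / (t * A)) / 2 +
        (Real.sqrt (Real.pi / (t * A)) * Real.sqrt (Real.pi * A / (2 * m * t))) / 2 := by ring
  rw [e10, e3]
  linarith

end Pool.Agent.Lib.H82O
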