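import Pool.Agent.Lib.H82O.Q03

/-!
# H82O Q05A: injectivity
-/

set_option autoImplicit false

namespace Pool.Agent.Lib.H82O

open Pool.Agent.Lib.H63.TSP

theorem q05a_re (b : ℤ) : (qi b).re = b := rfl
theorem q05a_imI (b : ℤ) : (qi b).imI = 0 := rfl
theorem q05a_imJ (b : ℤ) : (qi b).imJ = 0 := rfl
theorem q05a_imK (b : ℤ) : (qi b).imK = 0 := rfl

/-- PROOF. `d ∣` all coordinates of `d α = s d' α'` and `α'` is primitive with Bezout coefficients, so
`d ∣ d'`; symmetrically `d' ∣ d`, so `d = d'`; cancel. -/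
theorem prim_scale (d d' s : ℤ) (hd : 0 < d) (hd' : 0 < d') (hs : s = 1 ∨ s = -1) (α α' : HZ)
    (hα : PrimH α) (hα' : PrimH α') (h : qi d * α = qi (s * d') * α') : d = d' ∧ α = qi s * α' := by
  obtain ⟨x, y, z, w, hB⟩ := hα
  obtain ⟨x', y', z', w', hB'⟩ := hα'
  have h0 := congrArg QuaternionAlgebra.re h
  have h1 := congrArg QuaternionAlgebra.imI h
  have h2 := congrArg QuaternionAlgebra.imJ h
  have h3 := congrArg QuaternionAlgebra.imK h
  simp [q05a_re, q05a_imI, q05a_imJ, q05a_imK] at h0 h1 h2 h3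
  have hs2 : s * s = 1 := by rcases hs with h | h <;> rw [h] <;> norm_num
  have e1 : d ∣ s * d' := by
    refine ⟨x' * α.re + y' * α.imI + z' * α.imJ + w' * α.imK, ?_⟩
    linear_combination (-(s * d')) * hB' - x' * h0 - y' * h1 - z' * h2 - w' * h3
  have e1' : d ∣ d' := by
    have := Dvd.dvd.mul_left e1 s
    have e : s * (s * d') = d' := by rw [← mul_assoc, hs2, one_mul]
    rwa [e] at this
  have e2 : d' ∣ d := by
    refine ⟨s * (x * α'.re + y * α'.imI + z * α'.imJ + w * α'.imK), ?_⟩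
    linear_combination (-d) * hB + x * h0 + y * h1 + z * h2 + w * h3
  have hdd : d = d' := Int.dvd_antisymm hd.le hd'.le e1' e2
  subst hdd
  refine ⟨rfl, ?_⟩
  have hc : ∀ a b : ℤ, d * a = s * d * b → a = s * b := by
    intro a b hab
    have : d * a = d * (s * b) := by linear_combination hab
    exact mul_left_cancel₀ hd.ne' this
  ext
  · simpa [q05a_re, q05a_imI, q05a_imJ, q05a_imK] using hc _ _ h0
  · simpa [q05a_re, q05a_imI, q05a_imJ, q05a_imK] using hc _ _ h1
  · simpa [q05a_re, q05a_imI, q05a_imJ, q05a_imK] using hc _ _ h2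
  · simpa [q05a_re, q05a_imI, q05a_imJ, q05a_imK] using hc _ _ h3

end Pool.Agent.Lib.H82O
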