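import Pool.Agent.Lib.H82O.Q03

/-!
# H82O Q05B: injectivity
-/

set_option autoImplicit false

namespace Pool.Agent.Lib.H82O

open Pool.Agent.Lib.H63.TSP

theorem q05b_re (b : ℤ) : (qi b).re = b := rfl
theorem q05b_imI (b : ℤ) : (qi b).imI = 0 := rfl
theorem q05b_imJ (b : ℤ) : (qi b).imJ = 0 := rfl
theorem q05b_imK (b : ℤ) : (qi b).imK = 0 := rfl

/-- PROOF. Subtract: `b - b' = (β - s β') α` with `s α' = α`.. precisely `b + v = β α`,
`b' + v = β' α' = β' s α` (as `α = s α'`, `s² = 1`), so `k := b - b' = (β - s β') α =: κ α`. Multiply by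
`ᾱ` on the right: `k ᾱ = κ nq α = κ n`: `n` divides all coordinates of `k ᾱ`, hence `k` times those of
`α` up to sign; by `PrimH α` (Bezout) `n ∣ k`. -/
theorem q_root (v : V) (n b b' s : ℤ) (hs : s = 1 ∨ s = -1) (α α' β β' : HZ) (hα : PrimH α)
    (hn : nq α = n) (h : qi b + qv v = β * α) (h' : qi b' + qv v = β' * α')
    (hαα : α = qi s * α') : n ∣ b - b' := by
  obtain ⟨x, y, z, w, hB⟩ := hα
  have key : ∃ κ : HZ, κ * α = qi (b - b') := by
    have hsub : qi (b - b') = qi b - qi b' := by ext <;> simp [q05b_re, q05b_imI, q05b_imJ, q05b_imK]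
    have e : qi (b - b') = β * α - β' * α' := by
      rw [hsub, ← h, ← h']
      abel
    rcases hs with hs | hs
    · have e1 : α = α' := by
        rw [hαα, hs]
        ext <;> simp [q05b_re, q05b_imI, q05b_imJ, q05b_imK]
      refine ⟨β - β', ?_⟩
      rw [e, ← e1, sub_mul]
    · have e1 : α' = -α := by
        rw [hαα, hs]
        ext <;> simp [q05b_re, q05b_imI, q05b_imJ, q05b_imK]
      refine ⟨β + β', ?_⟩
      rw [e, e1, add_mul, mul_neg, sub_neg_eq_add]
  obtain ⟨κ, hκ⟩ := key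
  have h0 := congrArg QuaternionAlgebra.re hκ
  have h1 := congrArg QuaternionAlgebra.imI hκ
  have h2 := congrArg QuaternionAlgebra.imJ hκ
  have h3 := congrArg QuaternionAlgebra.imK hκ
  simp [q05b_re, q05b_imI, q05b_imJ, q05b_imK] at h0 h1 h2 h3
  unfold nq at hn
  refine ⟨x * κ.re - y * κ.imI - z * κ.imJ - w * κ.imK, ?_⟩
  have k0 : (b - b') * α.re = n * κ.re := by
    rw [← hn]
    linear_combination (-α.re) * h0 - α.imI * h1 - α.imJ * h2 - α.imK * h3
  have k1 : (b - b') * α.imI = - (n * κ.imI) := by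
    rw [← hn]
    linear_combination (-α.imI) * h0 + α.re * h1 - α.imK * h2 + α.imJ * h3
  have k2 : (b - b') * α.imJ = - (n * κ.imJ) := by
    rw [← hn]
    linear_combination (-α.imJ) * h0 + α.imK * h1 + α.re * h2 - α.imI * h3
  have k3 : (b - b') * α.imK = - (n * κ.imK) := by
    rw [← hn]
    linear_combination (-α.imK) * h0 - α.imJ * h1 + α.imI * h2 + α.re * h3
  linear_combination (-(b - b')) * hB + x * k0 + y * k1 + z * k2 + w * k3

end Pool.Agent.Lib.H82O
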