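import Pool.Agent.Lib.H82O.Q03
import Pool.Agent.Lib.H82O.Q05A
import Pool.Agent.Lib.H82O.Q05B

/-! Collects Q05A, Q05B. -/
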