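import Pool.Agent.Lib.H82O.Q04
import Pool.Agent.Lib.H82O.Q05
import Pool.Agent.Lib.H82O.G03

/-!
# H82O C01: the sum over roots is bounded by the number of vectors of `X m`
-/

set_option autoImplicit false

namespace Pool.Agent.Lib.H82O

open Pool.Agent.Lib.H63.TSP

/-- A triple `(d, n, b)`: `d, n` odd positive, `b < n` a square root of `-2m` modulo `n`. -/
def Tri (m : ℤ) (x : ℕ × ℕ × ℕ) : Prop :=
  x.1 % 2 = 1 ∧ x.2.1 % 2 = 1 ∧ x.2.2 < x.2.1 ∧ (x.2.1 : ℤ) ∣ (x.2.2 : ℤ) ^ 2 + 2 * m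

theorem c01_re (b : ℤ) : (qi b).re = b := rfl
theorem c01_imI (b : ℤ) : (qi b).imI = 0 := rfl
theorem c01_imJ (b : ℤ) : (qi b).imJ = 0 := rfl
theorem c01_imK (b : ℤ) : (qi b).imK = 0 := rfl

theorem c01_comm (k : ℤ) (α : HZ) : qi k * α = α * qi k := by
  ext <;> simp [c01_re, c01_imI, c01_imJ, c01_imK, mul_comm]

theorem c01_mul (j k : ℤ) : qi (j * k) = qi j * qi k := by
  ext <;> simp [c01_re, c01_imI, c01_imJ, c01_imK]

theorem c01_nq (k : ℤ) (α : HZ) : nq (qi k * α) = k ^ 2 * nq α := by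
  unfold nq
  simp [c01_re, c01_imI, c01_imJ, c01_imK]
  ring

theorem c01_unit (s : ℤ) (α : HZ) (hα : PrimH α) (h : α = qi s * α) :
    s = 1 := by
  obtain ⟨x, y, z, w, hB⟩ := hα
  have h0 := congrArg QuaternionAlgebra.re h
  have h1 := congrArg QuaternionAlgebra.imI h
  have h2 := congrArg QuaternionAlgebra.imJ h
  have h3 := congrArg QuaternionAlgebra.imK h
  simp only [Quaternion.re_mul, Quaternion.imI_mul, Quaternion.imJ_mul, Quaternion.imK_mul,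
    c01_re, c01_imI, c01_imJ, c01_imK, zero_mul, sub_zero, add_zero] at h0 h1 h2 h3
  linear_combination (1 - s) * hB - x * h0 - y * h1 - z * h2 - w * h3

/-- the bound for the triples whose vector is `u` -/
theorem c01_one (m : ℕ) (hm0 : 0 < m) (v : V)
    (hv : v.e ^ 2 + v.p ^ 2 + v.q ^ 2 = 2 * (m : ℤ)) (hprim : PrimV v)
    (U : ℕ → ℕ → V) (Al Be : ℕ → ℕ → HZ)
    (hU : ∀ n b : ℕ, 0 < n → n % 2 = 1 → (n : ℤ) ∣ (b : ℤ) ^ 2 + 2 * (m : ℤ) →
      qv (U n b) * Al n b = Al n b * qv v ∧ qi b + qv v = Be n b * Al n b ∧ nq (Al n b) = n)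
    (u : V) :
    ∃ C : ℝ, 0 ≤ C ∧ ∀ P : Finset (ℕ × ℕ × ℕ), (∀ x ∈ P, Tri m x ∧ U x.2.1 x.2.2 = u) →
      ∀ t : ℝ, 0 < t → t ≤ 1 →
      ∑ x ∈ P, Real.exp (-t * ((x.1 : ℝ) ^ 2 * x.2.1)) ≤
        Real.pi / (4 * Real.sqrt (2 * m)) / t + C / Real.sqrt t := by
  classical
  by_cases hex : ∃ n b : ℕ, n % 2 = 1 ∧ b < n ∧ (n : ℤ) ∣ (b : ℤ) ^ 2 + 2 * (m : ℤ) ∧ U n b = u
  swap
  · refine ⟨0, le_rfl, ?_⟩
    intro P hP t ht _
    have hP0 : P = ∅ := by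
      by_contra hne
      obtain ⟨x, hx⟩ := Finset.nonempty_iff_ne_empty.2 hne
      obtain ⟨⟨_, h1, h2, h3⟩, h4⟩ := hP x hx
      exact hex ⟨x.2.1, x.2.2, h1, h2, h3, h4⟩
    rw [hP0, Finset.sum_empty]
    positivity
  obtain ⟨n0, b0, hn0, hb0, hd0, hu0⟩ := hex
  have hn0p : 0 < n0 := by omega
  have h0 := hU n0 b0 hn0p hn0 hd0
  have hprimH : ∀ n b : ℕ, 0 < n → n % 2 = 1 → (n : ℤ) ∣ (b : ℤ) ^ 2 + 2 * (m : ℤ) →
      PrimH (Al n b) := by
    intro n b hn hn2 hd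
    exact q_prim v hprim b (Al n b) (Be n b) (hU n b hn hn2 hd).2.1
  refine ⟨(4 * (n0 : ℝ) + 1) / 2, by positivity, ?_⟩
  intro P hP t ht ht1
  set G : (ℕ × ℕ × ℕ) × ℤ → HZ := fun y => qi (y.2 * (y.1.1 : ℤ)) * Al y.1.2.1 y.1.2.2 with hG
  set S : Finset ℤ := {1, -1} with hS
  have hSm : ∀ s ∈ S, s = 1 ∨ s = -1 := by
    intro s hs
    rw [hS] at hs
    simpa using hs
  have hinj : Set.InjOn G (P ×ˢ S : Finset ((ℕ × ℕ × ℕ) × ℤ)) := by
    rintro ⟨⟨d, n, b⟩, s⟩ hx ⟨⟨d', n', b'⟩, s'⟩ hx' heq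
    rw [Finset.mem_coe, Finset.mem_product] at hx hx'
    obtain ⟨⟨hd2, hn2, hbn, hdv⟩, -⟩ := hP _ hx.1
    obtain ⟨⟨hd2', hn2', hbn', hdv'⟩, -⟩ := hP _ hx'.1
    have hs := hSm _ hx.2
    have hs' := hSm _ hx'.2
    simp only at hd2 hn2 hbn hdv hd2' hn2' hbn' hdv' hs hs'
    have hnp : 0 < n := by omega
    have hnp' : 0 < n' := by omega
    have heq' : qi (s * (d : ℤ)) * Al n b = qi (s' * (d' : ℤ)) * Al n' b' := heq
    have hss : s * s = 1 := by rcases hs with h | h <;> rw [h] <;> norm_num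
    have hs0 : s * s' = 1 ∨ s * s' = -1 := by
      rcases hs with h | h <;> rcases hs' with h' | h' <;> rw [h, h'] <;> norm_num
    have heq2 : qi (d : ℤ) * Al n b = qi ((s * s') * (d' : ℤ)) * Al n' b' := by
      have h1 := congrArg (fun w => qi s * w) heq'
      simp only [← mul_assoc, ← c01_mul] at h1
      rw [hss, one_mul] at h1
      exact h1
    have hA := prim_scale (d : ℤ) (d' : ℤ) (s * s') (by omega) (by omega) hs0 _ _
      (hprimH n b hnp hn2 hdv) (hprimH n' b' hnp' hn2' hdv') heq2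
    have hdd : d = d' := by exact_mod_cast hA.1
    have hnn : n = n' := by
      have h1 := (hU n b hnp hn2 hdv).2.2
      have h2 := (hU n' b' hnp' hn2' hdv').2.2
      rw [hA.2, c01_nq] at h1
      have h3 : (s * s') ^ 2 = 1 := by rcases hs0 with h | h <;> rw [h] <;> norm_num
      rw [h3, one_mul, h2] at h1
      exact_mod_cast h1.symm
    subst hnn
    have hbb : b = b' := by
      have hr := q_root v (n : ℤ) (b : ℤ) (b' : ℤ) (s * s') hs0 _ _ _ _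
        (hprimH n b hnp hn2 hdv) (hU n b hnp hn2 hdv).2.2 (hU n b hnp hn2 hdv).2.1
        (hU n b' hnp' hn2' hdv').2.1 hA.2
      have h1 : |(b : ℤ) - b'| < n := by
        rw [abs_lt]
        constructor <;> omega
      have h2 := Int.eq_zero_of_abs_lt_dvd hr h1
      omega
    subst hbb
    have h1 := c01_unit (s * s') (Al n b) (hprimH n b hnp hn2 hdv) hA.2
    have h2 : s = s' := by
      rcases hs with h | h <;> rcases hs' with h' | h' <;> rw [h, h'] at h1 ⊢ <;> norm_num at h1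
    rw [hdd, h2]
  have hF : ∀ γ ∈ (P ×ˢ S).image G, qv u * γ = γ * qv v ∧ nq γ % 2 = 1 := by
    intro γ hγ
    obtain ⟨⟨⟨d, n, b⟩, s⟩, hx, rfl⟩ := Finset.mem_image.1 hγ
    rw [Finset.mem_product] at hx
    obtain ⟨⟨hd2, hn2, hbn, hdv⟩, hUu⟩ := hP _ hx.1
    have hs := hSm _ hx.2
    simp only at hd2 hn2 hbn hdv hs hUu
    have hnp : 0 < n := by omega
    have h1 := hU n b hnp hn2 hdv
    simp only [hG]
    constructor
    · have h2 : qv u * Al n b = Al n b * qv v := by rw [← hUu]; exact h1.1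
      rw [c01_comm, ← mul_assoc, h2, mul_assoc, ← c01_comm, ← mul_assoc]
    · rw [c01_nq, h1.2.2]
      have e : (s * (d : ℤ)) ^ 2 * (n : ℤ) = (d : ℤ) ^ 2 * n := by
        have h3 : s ^ 2 = 1 := by rcases hs with h | h <;> rw [h] <;> norm_num
        rw [mul_pow, h3, one_mul]
      rw [e]
      have hodd : (d ^ 2 * n) % 2 = 1 := by
        rw [Nat.mul_mod, Nat.pow_mod, hd2, hn2]
      exact_mod_cast hodd
  have hfb := fibre_bound (m : ℤ) (by exact_mod_cast hm0) v u hv hprim (Al n0 b0)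
    (by rw [← hu0]; exact h0.1) (by rw [h0.2.2]; exact_mod_cast hn0)
    (hprimH n0 b0 hn0p hn0 hd0) ((P ×ˢ S).image G) hF t ht
  rw [Finset.sum_image hinj, Finset.sum_product] at hfb
  have hin : ∀ x ∈ P, ∑ s ∈ S, Real.exp (-t * (nq (G (x, s)) : ℝ)) =
      2 * Real.exp (-t * ((x.1 : ℝ) ^ 2 * x.2.1)) := by
    rintro ⟨d, n, b⟩ hx
    obtain ⟨⟨hd2, hn2, hbn, hdv⟩, hUu⟩ := hP _ hx
    simp only at hd2 hn2 hbn hdv hUu
    have hnp : 0 < n := by omega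
    have h1 := hU n b hnp hn2 hdv
    have h2 : ∀ s ∈ S, Real.exp (-t * (nq (G ((d, n, b), s)) : ℝ)) =
        Real.exp (-t * ((d : ℝ) ^ 2 * n)) := by
      intro s hs
      have hs' := hSm s hs
      have h3 : s ^ 2 = 1 := by rcases hs' with h | h <;> rw [h] <;> norm_num
      have h4 : nq (G ((d, n, b), s)) = (d : ℤ) ^ 2 * n := by
        simp only [hG]
        rw [c01_nq, h1.2.2, mul_pow, h3, one_mul]
      rw [h4]
      push_cast
      rfl
    rw [Finset.sum_congr rfl h2, Finset.sum_const]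
    have hc : S.card = 2 := by rw [hS]; rfl
    rw [hc]
    simp
  rw [Finset.sum_congr rfl hin, ← Finset.mul_sum, h0.2.2] at hfb
  have hst : 0 < Real.sqrt t := Real.sqrt_pos.2 ht
  have h1st : 1 ≤ 1 / Real.sqrt t := by
    rw [le_div_iff₀ hst, one_mul]
    exact Real.sqrt_le_one.2 ht1
  have e1 : Real.pi / (4 * Real.sqrt (2 * m)) / t = (Real.pi / (2 * Real.sqrt (2 * m)) / t) / 2 := by
    ring
  have e2 : (4 * (n0 : ℝ) + 1) / 2 / Real.sqrt t =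
      (4 * (n0 : ℝ) / Real.sqrt t + 1 / Real.sqrt t) / 2 := by
    ring
  rw [e1, e2]
  push_cast at hfb
  linarith

/-- PROOF. For `(n, b)` as in `Tri` choose (`Classical.choice`, depending only on `(n, b)`)
`u(n,b) ∈ X m`, `α(n,b)`, `β(n,b)` by `q_main`; `α(n,b)` is primitive (`q_prim`), `nq α = n`. For
`u ∈ XF m`, if some `(n, b)` (with `Tri m (1,n,b)`) has `u(n,b) = u`, fix one such, and let
`γ₁(u) = α(n,b)`, `A_u = nq γ₁(u)`; otherwise put `A_u = 1`. Take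
`C₁ = (1/2) ∑_{u ∈ XF m} (4 A_u + 1)`. Let `P` be given, and for `u ∈ XF m` let
`P_u = {(d,n,b) ∈ P : u(n,b) = u}` and `F_u = {s d α(n,b) : (d,n,b) ∈ P_u, s = ±1}` (as `qi (s d) * α`).
The map `(s, (d,n,b)) ↦ qi (s d) α(n,b)` is injective on `{±1} × P_u`: by `prim_scale`
(if `s d α = s' d' α'` then `d = d'`, `α = ± α'`), then `nq` gives `n = n'`, `q_root` gives
`n ∣ b - b'`, `b = b'` (both `< n`), and finally `s = s'` since `α ≠ 0`. Every element of `F_u` satisfies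
`qv u γ = γ qv v` (`qi` is central), and `nq (qi (s d) α) = d² n` is odd. So
`2 ∑_{P_u} exp(-t d² n) = ∑_{γ ∈ F_u} exp(-t nq γ) ≤ π/(2√(2m))/t + 4 A_u/√t + 1` (`fibre_bound`) and
`1 ≤ 1/√t`. Sum over `u ∈ XF m` (`mem_XF`). -/
theorem triple_bound (m : ℕ) (hm : (m : ℤ) % 6 = 1) (v : V) (hv : X m v) (hprim : PrimV v) :
    ∃ C₁ : ℝ, 0 ≤ C₁ ∧ ∀ P : Finset (ℕ × ℕ × ℕ), (∀ x ∈ P, Tri m x) →
      ∀ t : ℝ, 0 < t → t ≤ 1 →
      ∑ x ∈ P, Real.exp (-t * ((x.1 : ℝ) ^ 2 * x.2.1)) ≤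
        (XF m).card * Real.pi / (4 * Real.sqrt (2 * m)) / t + C₁ / Real.sqrt t := by
  classical
  have hm0 : 0 < m := by omega
  have hq : ∀ n b : ℕ, ∃ (u : V) (α β : HZ), 0 < n → n % 2 = 1 →
      (n : ℤ) ∣ (b : ℤ) ^ 2 + 2 * (m : ℤ) →
      X m u ∧ qv u * α = α * qv v ∧ qi b + qv v = β * α ∧ nq α = n := by
    intro n b
    by_cases h : 0 < n ∧ n % 2 = 1 ∧ (n : ℤ) ∣ (b : ℤ) ^ 2 + 2 * (m : ℤ)
    · obtain ⟨u, α, β, h1⟩ := q_main m hm v hv hprim (n : ℤ) (b : ℤ) (by exact_mod_cast h.1)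
        (by exact_mod_cast h.2.1) h.2.2
      exact ⟨u, α, β, fun _ _ _ => h1⟩
    · exact ⟨v, 0, 0, fun h1 h2 h3 => absurd ⟨h1, h2, h3⟩ h⟩
  choose U Al Be hU using hq
  have hone := c01_one m hm0 v hv.1 hprim U Al Be
    (fun n b h1 h2 h3 => (hU n b h1 h2 h3).2)
  choose C hC0 hC using hone
  refine ⟨∑ u ∈ XF m, C u, Finset.sum_nonneg fun u _ => hC0 u, ?_⟩
  intro P hP t ht ht1
  have hmaps : ∀ x ∈ P, U x.2.1 x.2.2 ∈ XF (m : ℤ) := by
    intro x hx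
    obtain ⟨h1, h2, h3, h4⟩ := hP x hx
    exact mem_XF.2 (hU _ _ (by omega) h2 h4).1
  rw [← Finset.sum_fiberwise_of_maps_to hmaps]
  have hle : ∀ u ∈ XF (m : ℤ), ∑ x ∈ P.filter (fun x => U x.2.1 x.2.2 = u),
      Real.exp (-t * ((x.1 : ℝ) ^ 2 * x.2.1)) ≤
      Real.pi / (4 * Real.sqrt (2 * m)) / t + C u / Real.sqrt t := by
    intro u _
    refine hC u _ ?_ t ht ht1
    intro x hx
    have hx' := Finset.mem_filter.1 hx
    exact ⟨hP x hx'.1, hx'.2⟩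
  refine (Finset.sum_le_sum hle).trans (le_of_eq ?_)
  rw [Finset.sum_add_distrib, Finset.sum_const, ← Finset.sum_div, nsmul_eq_mul]
  ring

end Pool.Agent.Lib.H82O
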