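import Pool.Agent.Lib.H82O.Defs

/-!
# H82O Q07: `v` is primitive when `m` is squarefree
-/

set_option autoImplicit false

namespace Pool.Agent.Lib.H82O

open Pool.Agent.Lib.H63.TSP

/-- PROOF. If an integer `d` divides `e, p, q`, then `d² ∣ 2m`; `d` is odd (`p` is odd: `odd_pq`), so
`d² ∣ m` and `d` is a unit as `m` is squarefree. So the gcd of `e, p, q` is one; Bezout
(`Int.gcd_eq_gcd_ab` twice, or the principal ideal `span {e, p, q}`). -/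
theorem primV_of_squarefree (m : ℕ) (hm : (m : ℤ) % 6 = 1) (hsq : Squarefree m) (v : V)
    (hv : X m v) : PrimV v := by
  have hodd : v.p % 2 = 1 := (odd_pq (m := (m : ℤ)) (by omega) hv).1
  obtain ⟨h1, -, -, -⟩ := hv
  have b1 := Int.gcd_eq_gcd_ab v.e v.p
  have b2 := Int.gcd_eq_gcd_ab (Int.gcd v.e v.p : ℤ) v.q
  set d : ℕ := Int.gcd (Int.gcd v.e v.p : ℤ) v.q with hd
  have hd1 : (d : ℤ) ∣ (Int.gcd v.e v.p : ℤ) := Int.gcd_dvd_left _ _
  have hde : (d : ℤ) ∣ v.e := hd1.trans (Int.gcd_dvd_left _ _)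
  have hdp : (d : ℤ) ∣ v.p := hd1.trans (Int.gcd_dvd_right _ _)
  have hdq : (d : ℤ) ∣ v.q := Int.gcd_dvd_right _ _
  have h2 : (d : ℤ) ^ 2 ∣ 2 * m := by
    rw [← h1]
    exact dvd_add (dvd_add (pow_dvd_pow_of_dvd hde 2) (pow_dvd_pow_of_dvd hdp 2)) (pow_dvd_pow_of_dvd hdq 2)
  have h3 : d ^ 2 ∣ 2 * m := by
    have h4 : ((d ^ 2 : ℕ) : ℤ) ∣ ((2 * m : ℕ) : ℤ) := by
      push_cast
      exact h2
    exact Int.natCast_dvd_natCast.1 h4
  have hdodd : Odd d := by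
    rw [← Nat.not_even_iff_odd]
    intro he
    have h4 : (2 : ℤ) ∣ v.p := by
      have h5 : (2 : ℤ) ∣ (d : ℤ) := by exact_mod_cast he.two_dvd
      exact h5.trans hdp
    omega
  have hcop : Nat.Coprime (d ^ 2) 2 := Nat.Coprime.pow_left 2 (Nat.coprime_two_right.2 hdodd)
  have h5 : d ^ 2 ∣ m := hcop.dvd_of_dvd_mul_left h3
  have h6 : d = 1 := by
    rw [sq] at h5
    exact Nat.isUnit_iff.1 (hsq d h5)
  rw [h6, Nat.cast_one] at b2
  refine ⟨Int.gcdA v.e v.p * Int.gcdA (Int.gcd v.e v.p : ℤ) v.q, Int.gcdB v.e v.p * Int.gcdA (Int.gcd v.e v.p : ℤ) v.q,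
    Int.gcdB (Int.gcd v.e v.p : ℤ) v.q, ?_⟩
  linear_combination -b2 - Int.gcdA (Int.gcd v.e v.p : ℤ) v.q * b1

end Pool.Agent.Lib.H82O
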