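import Pool.Agent.Lib.H82O.R02
import Pool.Agent.Lib.H82O.C01
import Pool.Agent.Lib.H82O.Q07

/-!
# H82O C02: exponential sums of `r(n)`
-/

set_option autoImplicit false

namespace Pool.Agent.Lib.H82O

open Pool.Agent.Lib.H63.TSP

/-- PROOF. `rr ≤ gg` (`rr_le_gg`), and `∑_{n ≤ N, n odd} gg m n e^(-tn)` is the sum of
`exp(-t d² n')` over the finite set of the triples `(d, n', b)` with `d² n' ≤ N` odd, `b < n'`,
`n' ∣ b² + 2m` (`Finset.sum_sigma'`, `Finset.card_eq_sum_ones`; the set can be defined as the filter of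
`range (N+1) ×ˢ range (N+1) ×ˢ range (N+1)` by `Tri m x ∧ 1 ≤ ..., x.1^2 * x.2.1 ≤ N`, and the sum
is compared with `Finset.sum_nbij'` or by fibres over `n = d² n'`). Then `triple_bound`, with
`v` any element of `X m` (`X_nonempty`: write `m = 6 k + 1`) and `primV_of_squarefree`. -/
theorem rr_exp_bound (m : ℕ) (hm : m % 6 = 1) (hsq : Squarefree m) :
    ∃ C₁ : ℝ, 0 ≤ C₁ ∧ ∀ (N : ℕ) (t : ℝ), 0 < t → t ≤ 1 →
      ∑ n ∈ (Finset.Icc 1 N).filter (fun n => n % 2 = 1), (rr m n : ℝ) * Real.exp (-t * n) ≤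
        (XF m).card * Real.pi / (4 * Real.sqrt (2 * m)) / t + C₁ / Real.sqrt t := by
  classical
  have hmZ : (m : ℤ) % 6 = 1 := by omega
  obtain ⟨v, hv⟩ : ∃ v : V, X (m : ℤ) v := by
    obtain ⟨v, hv⟩ := X_nonempty (m / 6)
    refine ⟨v, ?_⟩
    have e : (6 * ((m / 6 : ℕ) : ℤ) + 1) = (m : ℤ) := by omega
    rwa [e] at hv
  obtain ⟨C₁, hC0, hC⟩ := triple_bound m hmZ v hv (primV_of_squarefree m hmZ hsq v hv)
  refine ⟨C₁, hC0, ?_⟩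
  intro N t ht ht1
  set S : Finset ℕ := (Finset.Icc 1 N).filter (fun n => n % 2 = 1) with hS
  set D : ℕ → Finset ℕ := fun n => n.divisors.filter (fun d => d ^ 2 ∣ n) with hD
  set B : ℕ → ℕ → Finset ℕ := fun n d =>
    (Finset.range (n / d ^ 2)).filter fun b : ℕ => ((n / d ^ 2 : ℕ) : ℤ) ∣ (b : ℤ) ^ 2 + 2 * (m : ℤ)
    with hB
  have h1 : ∀ n ∈ S, (rr m n : ℝ) * Real.exp (-t * n) ≤
      ∑ d ∈ D n, ∑ b ∈ B n d, Real.exp (-t * ((d : ℝ) ^ 2 * (n / d ^ 2 : ℕ))) := by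
    intro n hn
    have hn' := Finset.mem_filter.1 hn
    have hle := (rr_le_gg m n hn'.2).1
    have hleR : (rr m n : ℝ) ≤ (gg m n : ℝ) := by exact_mod_cast hle
    refine (mul_le_mul_of_nonneg_right hleR (Real.exp_pos _).le).trans (le_of_eq ?_)
    unfold gg
    push_cast
    rw [Finset.sum_mul]
    refine Finset.sum_congr rfl fun d hd => ?_
    have hd' := (Finset.mem_filter.1 hd).2
    have e : (n : ℝ) = (d : ℝ) ^ 2 * (n / d ^ 2 : ℕ) := by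
      have := Nat.mul_div_cancel' hd'
      exact_mod_cast this.symm
    rw [Finset.sum_const, nsmul_eq_mul, ← e]
    rfl
  refine (Finset.sum_le_sum h1).trans ?_
  set T : Finset (Σ _ : ℕ, Σ _ : ℕ, ℕ) := S.sigma fun n => (D n).sigma fun d => B n d with hT
  set φ : (Σ _ : ℕ, Σ _ : ℕ, ℕ) → ℕ × ℕ × ℕ := fun x => (x.2.1, x.1 / x.2.1 ^ 2, x.2.2) with hφ
  have hmem : ∀ x ∈ T, x.1 % 2 = 1 ∧ x.2.1 ^ 2 ∣ x.1 ∧ x.2.2 < x.1 / x.2.1 ^ 2 ∧
      ((x.1 / x.2.1 ^ 2 : ℕ) : ℤ) ∣ (x.2.2 : ℤ) ^ 2 + 2 * (m : ℤ) := by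
    intro x hx
    rw [hT, Finset.mem_sigma, Finset.mem_sigma] at hx
    obtain ⟨hx1, hx2, hx3⟩ := hx
    have a1 := Finset.mem_filter.1 hx1
    have a2 := Finset.mem_filter.1 hx2
    have a3 := Finset.mem_filter.1 hx3
    exact ⟨a1.2, a2.2, Finset.mem_range.1 a3.1, a3.2⟩
  have hinj : Set.InjOn φ (T : Set (Σ _ : ℕ, Σ _ : ℕ, ℕ)) := by
    rintro ⟨n, d, b⟩ hx ⟨n', d', b'⟩ hx' heq
    have a1 := (hmem _ hx).2.1
    have a2 := (hmem _ hx').2.1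
    simp only [hφ, Prod.mk.injEq] at heq a1 a2
    obtain ⟨rfl, e2, rfl⟩ := heq
    have e3 : n = n' := by
      rw [← Nat.mul_div_cancel' a1, ← Nat.mul_div_cancel' a2, e2]
    rw [e3]
  have hsum : ∑ n ∈ S, ∑ d ∈ D n, ∑ b ∈ B n d, Real.exp (-t * ((d : ℝ) ^ 2 * (n / d ^ 2 : ℕ))) =
      ∑ x ∈ T.image φ, Real.exp (-t * ((x.1 : ℝ) ^ 2 * x.2.1)) := by
    rw [Finset.sum_image hinj, hT, Finset.sum_sigma]
    refine Finset.sum_congr rfl fun n _ => ?_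
    rw [Finset.sum_sigma]
  rw [hsum]
  refine hC _ ?_ t ht ht1
  intro x hx
  obtain ⟨⟨n, d, b⟩, hy, rfl⟩ := Finset.mem_image.1 hx
  obtain ⟨b1, b2, b3, b4⟩ := hmem _ hy
  simp only at b1 b2 b3 b4
  have e := Nat.mul_div_cancel' b2
  have hodd : (d ^ 2 * (n / d ^ 2)) % 2 = 1 := by rw [e]; exact b1
  have hodd' : Odd (d ^ 2 * (n / d ^ 2)) := Nat.odd_iff.2 hodd
  rw [Nat.odd_mul] at hodd'
  refine ⟨?_, ?_, b3, b4⟩
  · exact Nat.odd_iff.1 ((Nat.odd_pow_iff (by norm_num)).1 hodd'.1)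
  · exact Nat.odd_iff.1 hodd'.2

end Pool.Agent.Lib.H82O
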