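import Mathlib

/-!
# H82O G04: from Gaussian sums to Dirichlet sums (pure analysis, Mellin transform)
-/

set_option autoImplicit false

namespace Pool.Agent.Lib.H82O

open MeasureTheory in
/-- PROOF. For `s > 1` and `N > 0`: `N^(-s) Γ(s) = ∫_0^∞ t^(s-1) exp(-N t) dt`
(`Real.integral_rpow_mul_exp_neg_mul_Ioi`). Sum over the finite set: `Γ(s) ∑ N^(-s) = ∫_0^∞ t^(s-1) S(t) dt`,
`S(t) = ∑ w_i exp(-t N_i)`. On `(0,1]`: `S(t) ≤ C₀/t + C₁/√t`, `∫_0^1 t^(s-1)(C₀/t + C₁/√t) =
C₀/(s-1) + C₁/(s-1/2)`. On `[1,∞)`: `S(t) ≤ exp(-(t-1)) S(1) ≤ exp(1-t) (C₀ + C₁)` as `N_i ≥ 1`, and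
`∫_1^∞ t^(s-1) e^(1-t) ≤ e Γ(s)`. -/
theorem mellin_bound {ι : Type*} (I : Finset ι) (w N : ι → ℝ) (hw : ∀ i ∈ I, 0 ≤ w i)
    (hN : ∀ i ∈ I, 1 ≤ N i) (C₀ C₁ : ℝ) (hC₀ : 0 ≤ C₀) (hC₁ : 0 ≤ C₁)
    (h : ∀ t : ℝ, 0 < t → t ≤ 1 →
      ∑ i ∈ I, w i * Real.exp (-t * N i) ≤ C₀ / t + C₁ / Real.sqrt t)
    (s : ℝ) (hs : 1 < s) (hs2 : s ≤ 2) :
    Real.Gamma s * ∑ i ∈ I, w i * (N i) ^ (-s) ≤
      C₀ / (s - 1) + C₁ / (s - 1 / 2) + Real.exp 1 * Real.Gamma s * (C₀ + C₁) := by
  have hs0 : 0 < s := by linarith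
  -- the exponential integrals
  have hint : ∀ r : ℝ, 0 < r → IntegrableOn (fun t : ℝ => t ^ (s - 1) * Real.exp (-(r * t))) (Set.Ioi 0) := by
    intro r hr
    have h1 := Real.integral_rpow_mul_exp_neg_mul_Ioi hs0 hr
    by_contra hcon
    rw [integral_undef hcon] at h1
    have : 0 < (1 / r) ^ s * Real.Gamma s := mul_pos (Real.rpow_pos_of_pos (by positivity) _) (Real.Gamma_pos_of_pos hs0)
    linarith
  obtain ⟨S, hS⟩ : ∃ S : ℝ → ℝ, S = fun t => ∑ i ∈ I, w i * Real.exp (-t * N i) := ⟨_, rfl⟩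
  have hterm : ∀ i ∈ I, IntegrableOn (fun t : ℝ => w i * (t ^ (s - 1) * Real.exp (-(N i * t)))) (Set.Ioi 0) := fun i hi =>
    (hint (N i) (by linarith [hN i hi])).const_mul (w i)
  have e1 : Real.Gamma s * ∑ i ∈ I, w i * (N i) ^ (-s) = ∫ t in Set.Ioi (0 : ℝ), t ^ (s - 1) * S t := by
    have h1 : ∀ t : ℝ, t ^ (s - 1) * S t = ∑ i ∈ I, w i * (t ^ (s - 1) * Real.exp (-(N i * t))) := by
      intro t
      rw [hS, Finset.mul_sum]
      refine Finset.sum_congr rfl fun i _ => ?_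
      rw [show -t * N i = -(N i * t) by ring]
      ring
    simp_rw [h1]
    rw [integral_finsetSum _ hterm, Finset.mul_sum]
    refine Finset.sum_congr rfl fun i hi => ?_
    have hNi : 0 < N i := by linarith [hN i hi]
    rw [integral_const_mul, Real.integral_rpow_mul_exp_neg_mul_Ioi hs0 hNi, one_div, Real.inv_rpow hNi.le, Real.rpow_neg hNi.le]
    ring
  have hSint : IntegrableOn (fun t : ℝ => t ^ (s - 1) * S t) (Set.Ioi 0) := by
    have h1 : (fun t : ℝ => t ^ (s - 1) * S t) = fun t => ∑ i ∈ I, w i * (t ^ (s - 1) * Real.exp (-(N i * t))) := by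
      funext t
      rw [hS, Finset.mul_sum]
      refine Finset.sum_congr rfl fun i _ => ?_
      rw [show -t * N i = -(N i * t) by ring]
      ring
    rw [h1]
    exact integrable_finsetSum _ hterm
  rw [e1, ← Set.Ioc_union_Ioi_eq_Ioi zero_le_one, setIntegral_union (Set.Ioc_disjoint_Ioi le_rfl) measurableSet_Ioi
    (hSint.mono_set Set.Ioc_subset_Ioi_self) (hSint.mono_set (Set.Ioi_subset_Ioi zero_le_one))]
  refine add_le_add ?_ ?_
  · -- the part on (0, 1]
    have hi1 : IntervalIntegrable (fun t : ℝ => t ^ (s - 2)) volume 0 1 := intervalIntegral.intervalIntegrable_rpow' (by linarith)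
    have hi2 : IntervalIntegrable (fun t : ℝ => t ^ (s - 3 / 2)) volume 0 1 := intervalIntegral.intervalIntegrable_rpow' (by linarith)
    have h1 : ∫ t in Set.Ioc (0 : ℝ) 1, t ^ (s - 1) * S t ≤ ∫ t in Set.Ioc (0 : ℝ) 1, (C₀ * t ^ (s - 2) + C₁ * t ^ (s - 3 / 2)) := by
      refine setIntegral_mono_on (hSint.mono_set Set.Ioc_subset_Ioi_self) ?_ measurableSet_Ioc ?_
      · have := (hi1.const_mul C₀).add (hi2.const_mul C₁)
        rwa [intervalIntegrable_iff_integrableOn_Ioc_of_le zero_le_one] at this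
      · intro t ht
        have ht0 : 0 < t := ht.1
        have h2 := h t ht0 ht.2
        have h3 : 0 ≤ t ^ (s - 1) := Real.rpow_nonneg ht0.le _
        have e2 : t ^ (s - 1) * (C₀ / t) = C₀ * t ^ (s - 2) := by
          have : t ^ (s - 2) = t ^ (s - 1) / t := by
            rw [show s - 2 = (s - 1) - 1 by ring, Real.rpow_sub_one ht0.ne']
          rw [this]
          ring
        have e3 : t ^ (s - 1) * (C₁ / Real.sqrt t) = C₁ * t ^ (s - 3 / 2) := by
          have : t ^ (s - 3 / 2) = t ^ (s - 1) / Real.sqrt t := by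
            rw [show s - 3 / 2 = (s - 1) - 1 / 2 by ring, Real.rpow_sub ht0, Real.sqrt_eq_rpow]
          rw [this]
          ring
        calc t ^ (s - 1) * S t ≤ t ^ (s - 1) * (C₀ / t + C₁ / Real.sqrt t) := by
              rw [hS]
              exact mul_le_mul_of_nonneg_left h2 h3
          _ = _ := by rw [mul_add, e2, e3]
    refine h1.trans (le_of_eq ?_)
    rw [← intervalIntegral.integral_of_le zero_le_one, intervalIntegral.integral_add (hi1.const_mul C₀) (hi2.const_mul C₁),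
      intervalIntegral.integral_const_mul, intervalIntegral.integral_const_mul, integral_rpow (Or.inl (by linarith)),
      integral_rpow (Or.inl (by linarith))]
    rw [Real.one_rpow, Real.zero_rpow (by linarith), Real.zero_rpow (by linarith), Real.one_rpow]
    rw [show s - 2 + 1 = s - 1 by ring, show s - 3 / 2 + 1 = s - 1 / 2 by ring]
    ring
  · -- the part on (1, ∞)
    have h1 : S 1 ≤ C₀ + C₁ := by
      have := h 1 one_pos le_rfl
      rw [hS]
      simpa using this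
    have h2 : ∀ t ∈ Set.Ioi (1 : ℝ), t ^ (s - 1) * S t ≤ Real.exp 1 * (C₀ + C₁) * (t ^ (s - 1) * Real.exp (-(1 * t))) := by
      intro t ht
      have ht1 : (1 : ℝ) < t := ht
      have h3 : S t ≤ Real.exp (1 - t) * S 1 := by
        rw [hS]
        simp only
        rw [Finset.mul_sum]
        refine Finset.sum_le_sum fun i hi => ?_
        have h4 : Real.exp (-t * N i) ≤ Real.exp (1 - t) * Real.exp (-1 * N i) := by
          rw [← Real.exp_add]
          apply Real.exp_le_exp.2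
          have := hN i hi
          nlinarith
        calc w i * Real.exp (-t * N i) ≤ w i * (Real.exp (1 - t) * Real.exp (-1 * N i)) := mul_le_mul_of_nonneg_left h4 (hw i hi)
          _ = _ := by ring
      have h5 : S t ≤ Real.exp (1 - t) * (C₀ + C₁) := h3.trans (mul_le_mul_of_nonneg_left h1 (Real.exp_pos _).le)
      have h6 : 0 ≤ t ^ (s - 1) := Real.rpow_nonneg (by linarith) _
      calc t ^ (s - 1) * S t ≤ t ^ (s - 1) * (Real.exp (1 - t) * (C₀ + C₁)) := mul_le_mul_of_nonneg_left h5 h6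
        _ = _ := by
          rw [show (1 : ℝ) - t = 1 + (-(1 * t)) by ring, Real.exp_add]
          ring
    have h3 : ∫ t in Set.Ioi (1 : ℝ), t ^ (s - 1) * S t ≤
        ∫ t in Set.Ioi (1 : ℝ), Real.exp 1 * (C₀ + C₁) * (t ^ (s - 1) * Real.exp (-(1 * t))) :=
      setIntegral_mono_on (hSint.mono_set (Set.Ioi_subset_Ioi zero_le_one))
        (((hint 1 one_pos).mono_set (Set.Ioi_subset_Ioi zero_le_one)).const_mul _) measurableSet_Ioi h2
    refine h3.trans ?_
    rw [integral_const_mul]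
    have h4 : ∫ t in Set.Ioi (1 : ℝ), t ^ (s - 1) * Real.exp (-(1 * t)) ≤ Real.Gamma s := by
      have h5 := Real.integral_rpow_mul_exp_neg_mul_Ioi hs0 one_pos
      rw [div_one, Real.one_rpow, one_mul] at h5
      rw [← h5]
      refine setIntegral_mono_set (hint 1 one_pos) ?_ (Filter.Eventually.of_forall (Set.Ioi_subset_Ioi zero_le_one))
      refine (ae_restrict_iff' measurableSet_Ioi).2 (Filter.Eventually.of_forall fun t ht => ?_)
      exact mul_nonneg (Real.rpow_nonneg (le_of_lt ht) _) (Real.exp_pos _).le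
    calc Real.exp 1 * (C₀ + C₁) * ∫ t in Set.Ioi (1 : ℝ), t ^ (s - 1) * Real.exp (-(1 * t)) ≤ Real.exp 1 * (C₀ + C₁) * Real.Gamma s :=
          mul_le_mul_of_nonneg_left h4 (mul_nonneg (Real.exp_pos _).le (by linarith))
      _ = _ := by ring

end Pool.Agent.Lib.H82O
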