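import Pool.Agent.Lib.H82O.K02

/-!
# H82O K04A: the Dirichlet series of `r(n)`, `n` odd
-/

set_option autoImplicit false

namespace Pool.Agent.Lib.H82O

/-- `r(n)` for odd `n`, `0` for even `n` -/
noncomputable def ro (m n : ℕ) : ℝ := if n % 2 = 1 then (rr m n : ℝ) else 0

theorem ro_conv (m : ℕ) (hm : 0 < m) (n : ℕ) (hn : n ≠ 0) :
    LSeries.convolution (fun n : ℕ => chi m (n : ZMod (8 * m)))
      (fun n : ℕ => (1 : DirichletCharacter ℂ 2) (n : ZMod 2)) n = ((ro m n : ℝ) : ℂ) := by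
  have hodd : ∀ k : ℕ, k % 2 = 1 → (1 : DirichletCharacter ℂ 2) (k : ZMod 2) = 1 := by
    intro k hk
    apply MulChar.one_apply
    rw [ZMod.isUnit_iff_coprime]
    exact Nat.Coprime.symm (Nat.coprime_two_left.mpr (Nat.odd_iff.mpr hk))
  have heven : ∀ k : ℕ, k % 2 = 0 → (1 : DirichletCharacter ℂ 2) (k : ZMod 2) = 0 := by
    intro k hk
    apply MulChar.map_nonunit
    rw [ZMod.isUnit_iff_coprime]
    intro h
    have := Nat.coprime_two_left.mp h.symm
    rw [Nat.odd_iff] at this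
    omega
  rw [LSeries.convolution_def]
  unfold ro
  by_cases h : n % 2 = 1
  · rw [if_pos h]
    unfold rr
    show ∑ p ∈ n.divisorsAntidiagonal, chi m ((p.1 : ℕ) : ZMod (8 * m)) *
      (1 : DirichletCharacter ℂ 2) ((p.2 : ℕ) : ZMod 2) = _
    rw [Nat.sum_divisorsAntidiagonal (fun a b => chi m ((a : ℕ) : ZMod (8 * m)) *
      (1 : DirichletCharacter ℂ 2) ((b : ℕ) : ZMod 2))]
    push_cast
    refine Finset.sum_congr rfl fun d hd => ?_
    have hdn : d ∣ n := Nat.dvd_of_mem_divisors hd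
    have h1 : d % 2 = 1 := by
      rw [← Nat.odd_iff] at h ⊢
      exact Odd.of_dvd_nat h hdn
    have h2 : (n / d) % 2 = 1 := by
      rw [← Nat.odd_iff] at h ⊢
      exact Odd.of_dvd_nat h (Nat.div_dvd_of_dvd hdn)
    show chi m ((d : ℕ) : ZMod (8 * m)) * (1 : DirichletCharacter ℂ 2) ((n / d : ℕ) : ZMod 2) = _
    rw [chi_odd m hm d h1, hodd _ h2, mul_one]
  · rw [if_neg h]
    push_cast
    refine Finset.sum_eq_zero fun x hx => ?_
    have hx1 : x.1 * x.2 = n := (Nat.mem_divisorsAntidiagonal.mp hx).1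
    have h0 : n % 2 = 0 := by omega
    rcases Nat.mod_two_eq_zero_or_one x.1 with h1 | h1
    · show chi m ((x.1 : ℕ) : ZMod (8 * m)) * _ = 0
      rw [chi_even m x.1 h1, zero_mul]
    · rcases Nat.mod_two_eq_zero_or_one x.2 with h2 | h2
      · show _ * (1 : DirichletCharacter ℂ 2) ((x.2 : ℕ) : ZMod 2) = 0
        rw [heven x.2 h2, mul_zero]
      · exfalso
        have : Odd (x.1 * x.2) := (Nat.odd_iff.mpr h1).mul (Nat.odd_iff.mpr h2)
        rw [hx1, Nat.odd_iff] at this
        omega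

/-- PROOF. Let `χ₀` be the principal character modulo 2. For `n ≥ 1`:
`∑_{d k = n} chi m (d) χ₀(k) = ro m n`: if `n` is odd all `d, k` are odd (`chi_odd`); if `n` is even
then `d` or `k` is even, so every term is 0 (`chi_even`). So `ro m` is the Dirichlet convolution of
`chi m` and `χ₀` (as arithmetic functions, `LSeries_mul'`, or `LSeries_convolution`), and
`LSeries ro = L(s, chi m) L(s, χ₀)`, `L(s, χ₀) = (1 - 2^(-s)) ζ(s)` for `Re s > 1`
(`DirichletCharacter.LFunctionTrivChar_eq_mul_riemannZeta`; or directly). -/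
theorem ro_series (m : ℕ) [NeZero m] (hm : m % 6 = 1) (s : ℝ) (hs : 1 < s) :
    Summable (fun n : ℕ => ro m n * (n : ℝ) ^ (-s)) ∧
    ((∑' n : ℕ, ro m n * (n : ℝ) ^ (-s) : ℝ) : ℂ) =
      (1 - (2 : ℂ) ^ (-(s : ℂ))) * riemannZeta s * (chi m).LFunction s := by
  have hm0 : 0 < m := Nat.pos_of_ne_zero (NeZero.ne m)
  have hs' : 1 < (s : ℂ).re := by rw [Complex.ofReal_re]; exact hs
  set f : ℕ → ℂ := fun n : ℕ => chi m (n : ZMod (8 * m)) with hf
  set g : ℕ → ℂ := fun n : ℕ => (1 : DirichletCharacter ℂ 2) (n : ZMod 2) with hg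
  have hfs : LSeriesSummable f s := ZMod.LSeriesSummable_of_one_lt_re _ hs'
  have hgs : LSeriesSummable g s := ZMod.LSeriesSummable_of_one_lt_re _ hs'
  have hterm : ∀ n : ℕ, LSeries.term (LSeries.convolution f g) s n =
      ((ro m n * (n : ℝ) ^ (-s) : ℝ) : ℂ) := by
    intro n
    rcases eq_or_ne n 0 with rfl | hn
    · rw [LSeries.term_zero]
      simp [ro]
    · rw [LSeries.term_of_ne_zero hn, ro_conv m hm0 n hn]
      push_cast
      rw [Complex.ofReal_cpow (Nat.cast_nonneg n), div_eq_mul_inv]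
      push_cast
      rw [Complex.cpow_neg]
  have hcs : LSeriesSummable (LSeries.convolution f g) s := hfs.convolution hgs
  have hsum : Summable (fun n : ℕ => ((ro m n * (n : ℝ) ^ (-s) : ℝ) : ℂ)) := by
    have : (fun n : ℕ => ((ro m n * (n : ℝ) ^ (-s) : ℝ) : ℂ)) =
        LSeries.term (LSeries.convolution f g) s := by
      funext n
      exact (hterm n).symm
    rw [this]
    exact hcs
  refine ⟨Complex.summable_ofReal.mp hsum, ?_⟩
  rw [Complex.ofReal_tsum]
  have h1 : ∑' n : ℕ, ((ro m n * (n : ℝ) ^ (-s) : ℝ) : ℂ) = LSeries (LSeries.convolution f g) s := by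
    unfold LSeries
    exact tsum_congr fun n => (hterm n).symm
  rw [h1, LSeries_convolution' hfs hgs]
  have h2 : LSeries f s = (chi m).LFunction s := (DirichletCharacter.LFunction_eq_LSeries _ hs').symm
  have h3 : LSeries g s = (1 - (2 : ℂ) ^ (-(s : ℂ))) * riemannZeta s := by
    have h4 := DirichletCharacter.LFunctionTrivChar_eq_mul_riemannZeta (N := 2) (s := (s : ℂ))
      (by
        intro h
        rw [h, Complex.one_re] at hs'
        exact lt_irrefl _ hs')
    rw [Nat.Prime.primeFactors Nat.prime_two, Finset.prod_singleton] at h4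
    rw [← DirichletCharacter.LFunction_eq_LSeries _ hs']
    exact_mod_cast h4
  rw [h2, h3, mul_comm]

end Pool.Agent.Lib.H82O
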