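import Pool.Agent.Lib.H82O.K02
import Pool.Agent.Lib.H82O.K04A

/-!
# H82O K04B: the Dirichlet series of `r(n)`, `n` odd
-/

set_option autoImplicit false

namespace Pool.Agent.Lib.H82O

open Filter in
/-- PROOF. Multiply `ro_series` by `s - 1`, use `riemannZeta_residue_one` (restricted to real
`s > 1`), continuity of `LFunction` at `1` (`chi_ne_one`) and of `2^(-s)`; take real parts
(`1 - 2^(-1) = 1/2`). -/
theorem ro_residue (m : ℕ) [NeZero m] (hm : m % 6 = 1) :
    Tendsto (fun s : ℝ => (s - 1) * ∑' n : ℕ, ro m n * (n : ℝ) ^ (-s)) (nhdsWithin 1 (Set.Ioi 1))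
      (nhds (((chi m).LFunction 1).re / 2)) := by
  have h8 : NeZero (8 * m) := ⟨by have := NeZero.ne m; omega⟩
  have hne : chi m ≠ 1 := chi_ne_one m (by omega)
  have hto : Tendsto (fun s : ℝ => (s : ℂ)) (nhdsWithin 1 (Set.Ioi 1)) (nhds 1) := by
    have h : Tendsto (fun s : ℝ => (s : ℂ)) (nhds 1) (nhds ((1 : ℝ) : ℂ)) :=
      Complex.continuous_ofReal.continuousAt
    rw [Complex.ofReal_one] at h
    exact h.mono_left nhdsWithin_le_nhds
  have hto' : Tendsto (fun s : ℝ => (s : ℂ)) (nhdsWithin 1 (Set.Ioi 1)) (nhdsWithin 1 {1}ᶜ) := by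
    refine tendsto_nhdsWithin_iff.mpr ⟨hto, ?_⟩
    filter_upwards [self_mem_nhdsWithin] with s hs
    intro h
    have h1 : (s : ℂ) = ((1 : ℝ) : ℂ) := by rw [Complex.ofReal_one]; exact h
    have h2 : s = 1 := Complex.ofReal_injective h1
    have h3 : (1 : ℝ) < s := hs
    linarith
  have hz := riemannZeta_residue_one.comp hto'
  have hL : Tendsto (fun s : ℝ => (chi m).LFunction (s : ℂ)) (nhdsWithin 1 (Set.Ioi 1))
      (nhds ((chi m).LFunction 1)) :=
    ((DirichletCharacter.differentiable_LFunction hne).continuous.continuousAt.tendsto).comp hto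
  have h2 : Tendsto (fun s : ℝ => 1 - (2 : ℂ) ^ (-(s : ℂ))) (nhdsWithin 1 (Set.Ioi 1))
      (nhds (1 / 2)) := by
    have hc : ContinuousAt (fun s : ℂ => 1 - (2 : ℂ) ^ (-s)) 1 := by
      refine continuousAt_const.sub ?_
      exact (continuousAt_id.neg).const_cpow (Or.inl two_ne_zero)
    have h3 := hc.tendsto.comp hto
    have h4 : 1 - (2 : ℂ) ^ (-(1 : ℂ)) = 1 / 2 := by
      rw [Complex.cpow_neg_one]
      norm_num
    rw [h4] at h3
    exact h3
  have hprod := (h2.mul hz).mul hL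
  have hre := (Complex.continuous_re.tendsto _).comp hprod
  have hval : (1 / 2 * 1 * (chi m).LFunction 1).re = ((chi m).LFunction 1).re / 2 := by
    rw [mul_one, one_div, ← Complex.ofReal_ofNat, ← Complex.ofReal_inv, Complex.re_ofReal_mul]
    ring
  rw [hval] at hre
  refine hre.congr' ?_
  filter_upwards [self_mem_nhdsWithin] with s hs
  have h5 := (ro_series m hm s hs).2
  have h6 : ((((s - 1) * ∑' n : ℕ, ro m n * (n : ℝ) ^ (-s) : ℝ)) : ℂ) =
      (1 - (2 : ℂ) ^ (-(s : ℂ))) * (((s : ℂ) - 1) * riemannZeta s) * (chi m).LFunction s := by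
    rw [Complex.ofReal_mul, h5]
    push_cast
    ring
  have h7 := congrArg Complex.re h6
  rw [Complex.ofReal_re] at h7
  exact h7.symm

end Pool.Agent.Lib.H82O
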