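import Pool.Agent.Lib.H82O.C02
import Pool.Agent.Lib.H82O.G04
import Pool.Agent.Lib.H82O.K04

/-!
# H82O C03: the upper bound for `L(1, χ)`
-/

set_option autoImplicit false

namespace Pool.Agent.Lib.H82O

open Pool.Agent.Lib.H63.TSP

/-- PROOF. Put `C₀ = |XF m| π/(4 √(2m))`. `mellin_bound` with the index set `{n ≤ N, n odd}`,
`w = rr m` (`≥ 0` by `rr_le_gg`), `N_i = n`, and `rr_exp_bound`: for `1 < s ≤ 2` and all `N`,
`Γ(s) ∑_{n ≤ N} ro m n n^(-s) ≤ C₀/(s-1) + C'`, `C'` independent of `s, N` (`Γ(s) ≤ 1`.. on `[1,2]` is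
bounded: continuity on a compact interval, or keep `Γ(s)`). Let `N → ∞`, multiply by `s - 1` and let
`s → 1+`: `Γ(s) → 1`, so by `ro_residue`, `Re L(1)/2 ≤ C₀`, i.e.
`Re L(1) ≤ |XF m| π/(2 √(2m)) = π |XF m|/√(8m)`. -/
theorem L1_le (m : ℕ) [NeZero m] (hm : m % 6 = 1) (hsq : Squarefree m) :
    ((chi m).LFunction 1).re ≤ Real.pi * (XF m).card / Real.sqrt (8 * m) := by
  obtain ⟨C₁, hC₁, hb⟩ := rr_exp_bound m hm hsq
  set C₀ : ℝ := (XF m).card * Real.pi / (4 * Real.sqrt (2 * m)) with hC₀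
  have hC₀0 : 0 ≤ C₀ := by positivity
  -- the bound for the series
  have key : ∀ s : ℝ, 1 < s → s ≤ 2 →
      Real.Gamma s * ((s - 1) * ∑' n : ℕ, ro m n * (n : ℝ) ^ (-s)) ≤
        C₀ + (s - 1) * (C₁ / (s - 1 / 2) + Real.exp 1 * Real.Gamma s * (C₀ + C₁)) := by
    intro s hs hs2
    have hG : 0 < Real.Gamma s := Real.Gamma_pos_of_pos (by linarith)
    have hs1 : 0 < s - 1 := by linarith
    have hS : ∑' n : ℕ, ro m n * (n : ℝ) ^ (-s) ≤
        (C₀ / (s - 1) + C₁ / (s - 1 / 2) + Real.exp 1 * Real.Gamma s * (C₀ + C₁)) /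
          Real.Gamma s := by
      refine Real.tsum_le_of_sum_range_le (fun n => ?_) (fun n => ?_)
      · refine mul_nonneg ?_ (Real.rpow_nonneg (Nat.cast_nonneg n) _)
        unfold ro
        split_ifs with h
        · exact_mod_cast (rr_le_gg m n h).2
        · exact le_rfl
      · rw [le_div_iff₀ hG, mul_comm]
        have h1 := mellin_bound ((Finset.Icc 1 (n - 1)).filter (fun k => k % 2 = 1))
          (fun k => (rr m k : ℝ)) (fun k => (k : ℝ))
          (fun k hk => by
            exact_mod_cast (rr_le_gg m k (Finset.mem_filter.mp hk).2).2)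
          (fun k hk => by
            exact_mod_cast (Finset.mem_Icc.mp (Finset.mem_filter.mp hk).1).1)
          C₀ C₁ hC₀0 hC₁ (fun t ht ht1 => hb (n - 1) t ht ht1) s hs hs2
        have h2 : ∑ i ∈ Finset.range n, ro m i * (i : ℝ) ^ (-s) =
            ∑ i ∈ (Finset.Icc 1 (n - 1)).filter (fun k => k % 2 = 1),
              (rr m i : ℝ) * (i : ℝ) ^ (-s) := by
          have h3 : (Finset.Icc 1 (n - 1)).filter (fun k => k % 2 = 1) =
              (Finset.range n).filter (fun k => k % 2 = 1) := by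
            ext k
            simp only [Finset.mem_filter, Finset.mem_Icc, Finset.mem_range]
            omega
          rw [h3, Finset.sum_filter]
          refine Finset.sum_congr rfl fun k _ => ?_
          unfold ro
          split_ifs
          · rfl
          · rw [zero_mul]
        rw [h2]
        exact h1
    have h4 : Real.Gamma s * ∑' n : ℕ, ro m n * (n : ℝ) ^ (-s) ≤
        C₀ / (s - 1) + C₁ / (s - 1 / 2) + Real.exp 1 * Real.Gamma s * (C₀ + C₁) := by
      rw [mul_comm]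
      exact (le_div_iff₀ hG).mp hS
    calc Real.Gamma s * ((s - 1) * ∑' n : ℕ, ro m n * (n : ℝ) ^ (-s))
        = (s - 1) * (Real.Gamma s * ∑' n : ℕ, ro m n * (n : ℝ) ^ (-s)) := by ring
      _ ≤ (s - 1) * (C₀ / (s - 1) + C₁ / (s - 1 / 2) + Real.exp 1 * Real.Gamma s * (C₀ + C₁)) :=
          mul_le_mul_of_nonneg_left h4 hs1.le
      _ = C₀ + (s - 1) * (C₁ / (s - 1 / 2) + Real.exp 1 * Real.Gamma s * (C₀ + C₁)) := by
          have h5 : (s - 1) * (C₀ / (s - 1)) = C₀ := mul_div_cancel₀ _ hs1.ne'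
          rw [mul_add, mul_add, h5]
          ring
  -- the limits
  have hGc : Filter.Tendsto Real.Gamma (nhdsWithin 1 (Set.Ioi 1)) (nhds 1) := by
    have h := (Real.differentiableAt_Gamma (s := 1) (fun k => by
      have : (0 : ℝ) ≤ k := Nat.cast_nonneg k
      linarith)).continuousAt.tendsto
    rw [Real.Gamma_one] at h
    exact h.mono_left nhdsWithin_le_nhds
  have hid : Filter.Tendsto (fun s : ℝ => s) (nhdsWithin 1 (Set.Ioi 1)) (nhds 1) :=
    Filter.tendsto_id.mono_left nhdsWithin_le_nhds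
  have hl := hGc.mul (ro_residue m hm)
  have hr : Filter.Tendsto (fun s : ℝ =>
      C₀ + (s - 1) * (C₁ / (s - 1 / 2) + Real.exp 1 * Real.Gamma s * (C₀ + C₁)))
      (nhdsWithin 1 (Set.Ioi 1)) (nhds (C₀ + (1 - 1) * (C₁ / (1 - 1 / 2) +
        Real.exp 1 * 1 * (C₀ + C₁)))) := by
    refine tendsto_const_nhds.add ((hid.sub tendsto_const_nhds).mul
      ((tendsto_const_nhds.div (hid.sub tendsto_const_nhds) (by norm_num)).add
        ((tendsto_const_nhds.mul hGc).mul tendsto_const_nhds)))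
  have hle := le_of_tendsto_of_tendsto hl hr (by
    have h2 : ∀ᶠ s : ℝ in nhdsWithin 1 (Set.Ioi 1), s ≤ 2 :=
      nhdsWithin_le_nhds (Iic_mem_nhds (by norm_num))
    filter_upwards [self_mem_nhdsWithin, h2] with s hs hs2
    exact key s hs hs2)
  rw [sub_self, zero_mul, add_zero, one_mul] at hle
  have h8 : Real.sqrt (8 * m) = 2 * Real.sqrt (2 * m) := by
    have : (8 * m : ℝ) = 2 ^ 2 * (2 * m) := by ring
    rw [this, Real.sqrt_mul (by norm_num), Real.sqrt_sq (by norm_num)]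
  rw [h8]
  have h9 : Real.pi * (XF m).card / (2 * Real.sqrt (2 * m)) = 2 * C₀ := by
    rw [hC₀]
    ring
  rw [h9]
  linarith

end Pool.Agent.Lib.H82O
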