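import Pool.Agent.Lib.H82O.DefsL

/-!
# H82O D01A: partial summation for characters
-/

set_option autoImplicit false

namespace Pool.Agent.Lib.H82O

open Pool.Agent.Lib.H68T

theorem d01a_block (q : ℕ) [NeZero q] (χ : DirichletCharacter ℂ q) (hχ : χ ≠ 1) (m : ℕ) :
    ∀ N : ℕ, ‖∑ k ∈ Finset.range m, χ ((N + k + 1 : ℕ) : ZMod q)‖ ≤ q := by
  have hq : 0 < q := Nat.pos_of_ne_zero (NeZero.ne q)
  induction m using Nat.strong_induction_on with
  | _ m ih =>
    intro N
    rcases lt_or_ge m q with h | h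
    · refine (norm_sum_le _ _).trans ?_
      refine (Finset.sum_le_sum fun k _ => DirichletCharacter.norm_le_one χ _).trans ?_
      rw [Finset.sum_const, Finset.card_range, nsmul_eq_mul, mul_one]
      exact_mod_cast h.le
    · obtain ⟨m', rfl⟩ := Nat.exists_eq_add_of_le h
      rw [Finset.sum_range_add, gl1_period q χ hχ, zero_add]
      have h1 := ih m' (by omega) (N + q)
      have e : ∀ k, N + (q + k) + 1 = N + q + k + 1 := fun k => by ring
      simp only [e]
      exact h1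

theorem d01a_Ioc {M : Type*} [AddCommMonoid M] (g : ℕ → M) (N m : ℕ) :
    ∑ n ∈ Finset.Ioc N (N + m), g n = ∑ k ∈ Finset.range m, g (N + k + 1) := by
  induction m with
  | zero => simp
  | succ m ih =>
    rw [Finset.sum_range_succ, ← ih, ← add_assoc, Finset.sum_Ioc_succ_top (by omega)]

/-- BLOCKS. PROOF. `∑_{N < n ≤ K} χ(n)`: by `gl1_period` (the sum over `q` consecutive integers
vanishes) one may assume `K - N < q` (induction on `K - N`), and then the sum has at most `q` terms of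
norm `≤ 1` (`DirichletCharacter.norm_le_one`). -/
theorem block_bound (q : ℕ) [NeZero q] (χ : DirichletCharacter ℂ q) (hχ : χ ≠ 1) (N K : ℕ) :
    ‖∑ n ∈ Finset.Ioc N K, χ (n : ZMod q)‖ ≤ q := by
  rcases le_total K N with h | h
  · rw [Finset.Ioc_eq_empty (by omega)]
    simp
  · obtain ⟨m, rfl⟩ := Nat.exists_eq_add_of_le h
    rw [d01a_Ioc (fun n => χ (n : ZMod q))]
    exact d01a_block q χ hχ m N

theorem d01a_parts (c : ℕ → ℂ) (f : ℕ → ℝ) (m : ℕ) :
    ∑ k ∈ Finset.range m, c k * (f k : ℂ) = (∑ k ∈ Finset.range m, c k) * (f m : ℂ) +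
      ∑ k ∈ Finset.range m, (∑ j ∈ Finset.range (k + 1), c j) * ((f k - f (k + 1) : ℝ) : ℂ) := by
  induction m with
  | zero => simp
  | succ m ih =>
    rw [Finset.sum_range_succ, ih, Finset.sum_range_succ (fun k => (∑ j ∈ Finset.range (k + 1), c j)
      * ((f k - f (k + 1) : ℝ) : ℂ)), Finset.sum_range_succ c]
    push_cast
    ring

/-- ABEL. PROOF. With `B k = ∑_{N < n ≤ k} χ(n)`, `‖B k‖ ≤ q`:
`∑_{N < n ≤ K} χ(n) f(n) = B K f(K) + ∑_{N < n < K} B n (f n - f (n+1))`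
(`Finset.sum_range_by_parts` or induction on `K`), so the norm is
`≤ q (f K + ∑ (f n - f (n+1))) = q f(N+1)`. (`K = N`: empty sum, `0 ≤ f (N+1)`.) -/
theorem tail_bound (q : ℕ) [NeZero q] (χ : DirichletCharacter ℂ q) (hχ : χ ≠ 1) (f : ℕ → ℝ)
    (N : ℕ) (hf0 : ∀ n, N < n → 0 ≤ f n) (hf : ∀ n, N < n → f (n + 1) ≤ f n) (K : ℕ)
    (hK : N ≤ K) :
    ‖∑ n ∈ Finset.Ioc N K, χ (n : ZMod q) * (f n : ℂ)‖ ≤ q * f (N + 1) := by
  obtain ⟨m, rfl⟩ := Nat.exists_eq_add_of_le hK
  rw [d01a_Ioc (fun n => χ (n : ZMod q) * (f n : ℂ)),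
    d01a_parts (fun k => χ ((N + k + 1 : ℕ) : ZMod q)) (fun k => f (N + k + 1)) m]
  have h1 : ‖(∑ k ∈ Finset.range m, χ ((N + k + 1 : ℕ) : ZMod q)) * (f (N + m + 1) : ℂ)‖ ≤
      q * f (N + m + 1) := by
    rw [norm_mul, Complex.norm_real, Real.norm_eq_abs, abs_of_nonneg (hf0 _ (by omega))]
    exact mul_le_mul_of_nonneg_right (d01a_block q χ hχ m N) (hf0 _ (by omega))
  have h2 : ‖∑ k ∈ Finset.range m, (∑ j ∈ Finset.range (k + 1), χ ((N + j + 1 : ℕ) : ZMod q)) *
      ((f (N + k + 1) - f (N + (k + 1) + 1) : ℝ) : ℂ)‖ ≤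
      ∑ k ∈ Finset.range m, q * (f (N + k + 1) - f (N + (k + 1) + 1)) := by
    refine (norm_sum_le _ _).trans (Finset.sum_le_sum fun k _ => ?_)
    have h3 : 0 ≤ f (N + k + 1) - f (N + (k + 1) + 1) := by
      have := hf (N + k + 1) (by omega)
      have e : N + (k + 1) + 1 = N + k + 1 + 1 := by ring
      rw [e]; linarith
    rw [norm_mul, Complex.norm_real, Real.norm_eq_abs, abs_of_nonneg h3]
    exact mul_le_mul_of_nonneg_right (d01a_block q χ hχ (k + 1) N) h3
  rw [← Finset.mul_sum, Finset.sum_range_sub' (fun k => f (N + k + 1))] at h2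
  refine (norm_add_le _ _).trans ((add_le_add h1 h2).trans ?_)
  simp only [add_zero]
  linarith

end Pool.Agent.Lib.H82O
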