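import Pool.Agent.Lib.H82O.DefsL

/-!
# H82O D01B: partial summation for characters
-/

set_option autoImplicit false

namespace Pool.Agent.Lib.H82O

open Pool.Agent.Lib.H68T

theorem d01b_Icc {M : Type*} [AddCommMonoid M] (g : ℕ → M) (K : ℕ) :
    ∑ n ∈ Finset.Icc 1 K, g n = ∑ n ∈ Finset.range K, g (n + 1) := by
  induction K with
  | zero => simp
  | succ K ih => rw [Finset.sum_Icc_succ_top (by omega), ih, Finset.sum_range_succ]

open Filter in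
/-- PROOF. `gl1_eqOn` (`L(s,χ) = ∑' gl1_A χ n s` for `Re s > 0`), `gl1_parts`
(`∑_{n<K} χ(n+1) (n+1)^(-s) = T_K (K+1)^(-s) + ∑_{n<K} gl1_A χ n s`), `T_K` bounded (`gl1_T_bound`);
this is the end of the proof of `gl1_eq` in `Pool/Agent/Lib/H68T/GL1.lean` (which works for
`Re s > 0`). -/
theorem L_tendsto (q : ℕ) [NeZero q] (χ : DirichletCharacter ℂ q) (hχ : χ ≠ 1) (σ : ℝ)
    (hσ : 0 < σ) :
    Tendsto (fun K : ℕ => ∑ n ∈ Finset.Icc 1 K, χ (n : ZMod q) * (((n : ℝ) ^ (-σ) : ℝ) : ℂ))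
      atTop (nhds (χ.LFunction (σ : ℂ))) := by
  have hs0 : 0 < (σ : ℂ).re := by simpa using hσ
  rw [gl1_eqOn q χ hχ _ hs0]
  have hsumA := (gl1_tele (σ : ℂ).re hs0 (q * ‖(σ : ℂ)‖ / (σ : ℂ).re) (by positivity)
    (fun n => gl1_A χ n (σ : ℂ)) (fun n => gl1_A_norm q χ hχ n (σ : ℂ) hs0)).1
  have h5 : Filter.Tendsto (fun K => gl1_T χ K * (((K : ℝ) + 1 : ℝ) : ℂ) ^ (-(σ : ℂ)) +
      ∑ n ∈ Finset.range K, gl1_A χ n (σ : ℂ)) Filter.atTop
      (nhds (0 + ∑' n, gl1_A χ n (σ : ℂ))) := by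
    refine Filter.Tendsto.add ?_ hsumA.hasSum.tendsto_sum_nat
    have h6 : Filter.Tendsto (fun K : ℕ => (q : ℝ) * ((K : ℝ) + 1) ^ (-(σ : ℂ).re)) Filter.atTop
        (nhds ((q : ℝ) * 0)) := by
      refine Filter.Tendsto.const_mul _ ?_
      have h7 := tendsto_rpow_neg_atTop hs0
      have h8 : Filter.Tendsto (fun K : ℕ => (K : ℝ) + 1) Filter.atTop Filter.atTop :=
        Filter.tendsto_atTop_add_const_right _ _ tendsto_natCast_atTop_atTop
      exact h7.comp h8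
    rw [mul_zero] at h6
    refine squeeze_zero_norm (fun K => ?_) h6
    rw [norm_mul, Complex.norm_cpow_eq_rpow_re_of_pos (by positivity)]
    exact mul_le_mul_of_nonneg_right (gl1_T_bound q χ hχ K) (Real.rpow_nonneg (by positivity) _)
  rw [zero_add] at h5
  refine h5.congr fun K => ?_
  have h9 := gl1_parts χ (fun n => (((n : ℝ) + 1 : ℝ) : ℂ) ^ (-(σ : ℂ))) K
  have h10 : ∑ n ∈ Finset.Icc 1 K, χ (n : ZMod q) * (((n : ℝ) ^ (-σ) : ℝ) : ℂ) =
      ∑ n ∈ Finset.range K, χ ((n + 1 : ℕ) : ZMod q) * (((n : ℝ) + 1 : ℝ) : ℂ) ^ (-(σ : ℂ)) := by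
    rw [d01b_Icc (fun n => χ (n : ZMod q) * (((n : ℝ) ^ (-σ) : ℝ) : ℂ))]
    refine Finset.sum_congr rfl fun n _ => ?_
    rw [Complex.ofReal_cpow (by positivity)]
    push_cast
    rfl
  rw [h10, h9]
  congr 1
  refine Finset.sum_congr rfl fun n _ => ?_
  rw [gl1_A]
  congr 3
  push_cast
  ring_nf

end Pool.Agent.Lib.H82O
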