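import Pool.Agent.Lib.H82O.DefsL
import Pool.Agent.Lib.H82O.D01A
import Pool.Agent.Lib.H82O.D01B

/-! Collects D01A, D01B. -/
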