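import Mathlib

/-!
# H82O D02: sums over odd numbers (pure)
-/

set_option autoImplicit false

namespace Pool.Agent.Lib.H82O

theorem d02_odd (g : ℕ → ℝ) (k : ℕ) :
    ∑ n ∈ (Finset.Icc 1 (2 * k + 1)).filter (fun n => n % 2 = 1), g n =
      ∑ j ∈ Finset.range (k + 1), g (2 * j + 1) := by
  rw [Finset.sum_filter]
  induction k with
  | zero => simp
  | succ k ih =>
    have e : 2 * (k + 1) + 1 = 2 * k + 1 + 1 + 1 := by ring
    rw [e, Finset.sum_Icc_succ_top (by omega), Finset.sum_Icc_succ_top (by omega), ih,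
      Finset.sum_range_succ _ (k + 1), if_neg (by omega), if_pos (by omega)]
    rw [add_zero]
    congr 2

theorem d02_even (g : ℕ → ℝ) (k : ℕ) :
    ∑ n ∈ (Finset.Icc 1 (2 * k + 2)).filter (fun n => n % 2 = 1), g n =
      ∑ j ∈ Finset.range (k + 1), g (2 * j + 1) := by
  rw [← d02_odd, Finset.sum_filter, Finset.sum_filter]
  have e : 2 * k + 2 = (2 * k + 1) + 1 := rfl
  rw [e, Finset.sum_Icc_succ_top (by omega), if_neg (by omega), add_zero]

theorem d02_step (k : ℕ) : (1 : ℝ) / ((2 * (k + 1) + 1 : ℕ) : ℝ) ≤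
    Real.log ((2 * (k + 1) + 1 : ℕ) : ℝ) / 2 - Real.log ((2 * k + 1 : ℕ) : ℝ) / 2 := by
  have h0 : (0 : ℝ) < ((2 * k + 1 : ℕ) : ℝ) := by positivity
  have h1 : (0 : ℝ) < ((2 * (k + 1) + 1 : ℕ) : ℝ) := by positivity
  have h2 := Real.one_sub_inv_le_log_of_pos (div_pos h1 h0)
  rw [Real.log_div h1.ne' h0.ne', inv_div] at h2
  have h3 : (1 : ℝ) / ((2 * (k + 1) + 1 : ℕ) : ℝ) * 2 =
      1 - ((2 * k + 1 : ℕ) : ℝ) / ((2 * (k + 1) + 1 : ℕ) : ℝ) := by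
    field_simp
    push_cast
    ring
  linarith

theorem d02_a (k : ℕ) : ∑ j ∈ Finset.range (k + 1), (1 : ℝ) / ((2 * j + 1 : ℕ) : ℝ) ≤
    1 + Real.log ((2 * k + 1 : ℕ) : ℝ) / 2 := by
  induction k with
  | zero => simp
  | succ k ih =>
    rw [Finset.sum_range_succ]
    have := d02_step k
    linarith

/-- PROOF. `1` for `n = 1`, and `1/n ≤ (1/2) ∫_{n-2}^n dx/x = (log n - log (n-2))/2` for odd `n ≥ 3`
(`Real.one_sub_inv_le_log_of_pos`: `2/n ≤ log (n/(n-2))`); telescoping (induction on `N`). -/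
theorem sum_inv_odd (N : ℕ) (hN : 1 ≤ N) :
    ∑ n ∈ (Finset.Icc 1 N).filter (fun n => n % 2 = 1), (1 : ℝ) / n ≤ 1 + Real.log N / 2 := by
  obtain ⟨k, rfl | rfl⟩ : ∃ k, N = 2 * k + 1 ∨ N = 2 * k + 2 := ⟨(N - 1) / 2, by omega⟩
  · rw [d02_odd (fun n => (1 : ℝ) / n)]
    exact d02_a k
  · rw [d02_even (fun n => (1 : ℝ) / n)]
    refine (d02_a k).trans ?_
    have : Real.log ((2 * k + 1 : ℕ) : ℝ) ≤ Real.log ((2 * k + 2 : ℕ) : ℝ) :=
      Real.log_le_log (by positivity) (by exact_mod_cast (by omega : 2 * k + 1 ≤ 2 * k + 2))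
    linarith

theorem d02_step2 (k : ℕ) (hk : 1 ≤ k) :
    Real.log ((2 * (k + 1) + 1 : ℕ) : ℝ) / ((2 * (k + 1) + 1 : ℕ) : ℝ) ≤
    (Real.log ((2 * (k + 1) + 1 : ℕ) : ℝ)) ^ 2 / 4 - (Real.log ((2 * k + 1 : ℕ) : ℝ)) ^ 2 / 4 := by
  have h3 : (3 : ℝ) ≤ ((2 * k + 1 : ℕ) : ℝ) := by exact_mod_cast (by omega : 3 ≤ 2 * k + 1)
  have hab : ((2 * k + 1 : ℕ) : ℝ) < ((2 * (k + 1) + 1 : ℕ) : ℝ) := by
    exact_mod_cast (by omega : 2 * k + 1 < 2 * (k + 1) + 1)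
  have hd : ∀ x : ℝ, 0 < x → HasDerivAt (fun x => Real.log x ^ 2) (2 * (Real.log x / x)) x := by
    intro x hx
    have h := (Real.hasDerivAt_log hx.ne').pow 2
    have e : 2 * (Real.log x / x) = (2 : ℕ) * Real.log x ^ (2 - 1) * x⁻¹ := by
      rw [div_eq_mul_inv]; push_cast; ring
    rw [e]
    exact h
  obtain ⟨c, hc, he⟩ := exists_hasDerivAt_eq_slope (fun x => Real.log x ^ 2)
    (fun x => 2 * (Real.log x / x)) hab
    (fun x hx => (hd x (by linarith [hx.1])).continuousAt.continuousWithinAt)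
    (fun x hx => hd x (by linarith [hx.1]))
  have hdiff : ((2 * (k + 1) + 1 : ℕ) : ℝ) - ((2 * k + 1 : ℕ) : ℝ) = 2 := by push_cast; ring
  rw [hdiff] at he
  have he1 : Real.exp 1 ≤ c := by
    have := Real.exp_one_lt_d9
    linarith [hc.1]
  have hanti := Real.log_div_self_antitoneOn (show c ∈ {x | Real.exp 1 ≤ x} from he1)
    (show ((2 * (k + 1) + 1 : ℕ) : ℝ) ∈ {x | Real.exp 1 ≤ x} from he1.trans hc.2.le) hc.2.le
  simp only at hanti he
  linarith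

theorem d02_b (k : ℕ) : ∑ j ∈ Finset.range (k + 1),
    Real.log ((2 * j + 1 : ℕ) : ℝ) / ((2 * j + 1 : ℕ) : ℝ) ≤
    (Real.log ((2 * k + 1 : ℕ) : ℝ)) ^ 2 / 4 + 1 / 8 := by
  induction k with
  | zero => simp
  | succ k ih =>
    rcases Nat.eq_zero_or_pos k with rfl | hk
    · simp only [Finset.sum_range_succ, Finset.sum_range_zero]
      norm_num
      nlinarith [sq_nonneg (Real.log 3 - 2 / 3)]
    · rw [Finset.sum_range_succ]
      have := d02_step2 k hk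
      linarith

/-- PROOF. The term `n = 1` is `0`, `n = 3` gives `log 3/3 ≤ 0.3663`; for odd `n ≥ 5`:
`log n/n ≤ (1/2) ∫_{n-2}^n log x/x dx = (log² n - log² (n-2))/4`, since `log x/x` is decreasing for
`x ≥ e` (`Real.log_div_self_antitoneOn`); telescoping from `3`: total
`≤ 0.3663 - (log 3)²/4 + (log N)²/4 ≤ (log N)²/4 + 1/8` (`log 3 ≥ 1.09`, `(log 3)²/4 ≥ 0.297`). For
`N ≤ 2` the sum is `0`. -/
theorem sum_log_odd (N : ℕ) (hN : 1 ≤ N) :
    ∑ n ∈ (Finset.Icc 1 N).filter (fun n => n % 2 = 1), Real.log n / n ≤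
      (Real.log N) ^ 2 / 4 + 1 / 8 := by
  obtain ⟨k, rfl | rfl⟩ : ∃ k, N = 2 * k + 1 ∨ N = 2 * k + 2 := ⟨(N - 1) / 2, by omega⟩
  · rw [d02_odd (fun n => Real.log n / n)]
    exact d02_b k
  · rw [d02_even (fun n => Real.log n / n)]
    refine (d02_b k).trans ?_
    have h1 : Real.log ((2 * k + 1 : ℕ) : ℝ) ≤ Real.log ((2 * k + 2 : ℕ) : ℝ) :=
      Real.log_le_log (by positivity) (by exact_mod_cast (by omega : 2 * k + 1 ≤ 2 * k + 2))
    have h2 : 0 ≤ Real.log ((2 * k + 1 : ℕ) : ℝ) := Real.log_natCast_nonneg _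
    have h3 := pow_le_pow_left₀ h2 h1 2
    linarith

end Pool.Agent.Lib.H82O
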