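import Pool.Agent.Lib.H82O.D01
import Pool.Agent.Lib.H82O.D02

/-!
# H82O D03A: upper bounds for `L(1,χ)`
-/

set_option autoImplicit false

namespace Pool.Agent.Lib.H82O

/-- PROOF. For even `n` `χ(n) = 0` (`2 ∣ q`, not a unit). By `L_tendsto` (`σ = 1`) and `tail_bound`
(`f n = 1/n`, `N = 2q`): `‖L(1)‖ ≤ ∑_{n ≤ 2q odd} 1/n + q/(2q+1) ≤ 1 + log(2q)/2 + 1/2`
(`sum_inv_odd`). -/
theorem L1_upper (q : ℕ) [NeZero q] (hq : q % 2 = 0) (χ : DirichletCharacter ℂ q) (hχ : χ ≠ 1) :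
    ‖χ.LFunction 1‖ ≤ Real.log (2 * q) / 2 + 3 / 2 := by
  have hq0 : 0 < q := Nat.pos_of_ne_zero (NeZero.ne q)
  have hlim := (L_tendsto q χ hχ 1 one_pos).norm
  rw [Complex.ofReal_one] at hlim
  refine le_of_tendsto hlim ?_
  filter_upwards [Filter.eventually_ge_atTop (2 * q)] with K hK
  have hsplit : ∑ n ∈ Finset.Icc 1 K, χ (n : ZMod q) * (((n : ℝ) ^ (-(1 : ℝ)) : ℝ) : ℂ) =
      ∑ n ∈ Finset.Icc 1 (2 * q), χ (n : ZMod q) * (((n : ℝ) ^ (-(1 : ℝ)) : ℝ) : ℂ) +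
      ∑ n ∈ Finset.Ioc (2 * q) K, χ (n : ZMod q) * (((n : ℝ) ^ (-(1 : ℝ)) : ℝ) : ℂ) := by
    have h1 := Finset.sum_Ioc_consecutive (fun n : ℕ => χ (n : ZMod q) *
      (((n : ℝ) ^ (-(1 : ℝ)) : ℝ) : ℂ)) (Nat.zero_le (2 * q)) hK
    exact h1.symm
  rw [hsplit]
  refine (norm_add_le _ _).trans ?_
  have ha : ‖∑ n ∈ Finset.Icc 1 (2 * q), χ (n : ZMod q) * (((n : ℝ) ^ (-(1 : ℝ)) : ℝ) : ℂ)‖ ≤
      1 + Real.log ((2 * q : ℕ) : ℝ) / 2 := by
    refine le_trans ?_ (sum_inv_odd (2 * q) (by omega))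
    rw [Finset.sum_filter]
    refine (norm_sum_le _ _).trans (Finset.sum_le_sum fun n _ => ?_)
    split_ifs with h
    · rw [norm_mul, Complex.norm_real, Real.rpow_neg_one, Real.norm_eq_abs,
        abs_of_nonneg (by positivity), one_div]
      exact mul_le_of_le_one_left (by positivity) (DirichletCharacter.norm_le_one χ _)
    · have h1 : χ (n : ZMod q) = 0 := by
        apply χ.map_nonunit
        intro hu
        have h2 := (ZMod.isUnit_iff_coprime n q).1 hu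
        have h3 : 2 ∣ Nat.gcd n q := Nat.dvd_gcd (by omega) (by omega)
        rw [h2] at h3
        omega
      rw [h1, zero_mul, norm_zero]
  have hb := tail_bound q χ hχ (fun n => (n : ℝ) ^ (-(1 : ℝ))) (2 * q)
    (fun n _ => by positivity) (fun n hn => by
      simp only [Real.rpow_neg_one]
      apply inv_anti₀
      · exact_mod_cast (by omega : 0 < n)
      · push_cast; linarith) K hK
  have hc : (q : ℝ) * ((2 * q + 1 : ℕ) : ℝ) ^ (-(1 : ℝ)) ≤ 1 / 2 := by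
    rw [Real.rpow_neg_one, ← div_eq_mul_inv, div_le_div_iff₀ (by positivity) (by norm_num)]
    push_cast
    linarith
  push_cast at ha hb hc ⊢
  linarith

end Pool.Agent.Lib.H82O
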