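import Pool.Agent.Lib.H82O.D01
import Pool.Agent.Lib.H82O.D02

/-!
# H82O D03B: upper bounds for `L(1,χ)`
-/

set_option autoImplicit false

namespace Pool.Agent.Lib.H82O

theorem d03b_log {β x : ℝ} (hβ : 7 / 8 ≤ β) (hx : 4 ≤ x) : 1 ≤ β * Real.log x := by
  have h1 : 1.38 ≤ Real.log 4 := by
    have h2 : Real.log 4 = 2 * Real.log 2 := by
      rw [show (4 : ℝ) = 2 ^ 2 by norm_num, Real.log_pow]; norm_num
    have h3 := Real.log_two_gt_d9
    rw [h2]; linarith
  have h2 : Real.log 4 ≤ Real.log x := Real.log_le_log (by norm_num) hx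
  nlinarith

/-- PURE. `f(x) = x^(-β) - x^(-1)`. PROOF. (1) `x^(1-β) - 1 = e^y - 1 ≤ y e^y`, `y = (1-β) log x ≥ 0`
(`1 - e^(-y) ≤ y`). (2) `f(x) = g(log x)`, `g(L) = e^(-βL) - e^(-L)`; `g'(L) = e^(-L)(1 - β e^((1-β)L))`
and `β e^((1-β)L) ≥ β (1 + (1-β) L) ≥ 1` iff `β L ≥ 1`, true for `L ≥ 8/7`, `β ≥ 7/8`; so `f` is
antitone on `x ≥ 4` (`log 4 ≥ 1.38 ≥ 8/7`). (3) the same computation: `x ↦ x^(-β) log x` is antitone
for `β log x ≥ 1`. -/
theorem f_facts (β : ℝ) (hβ : 7 / 8 ≤ β) (hβ1 : β < 1) :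
    (∀ x : ℝ, 1 ≤ x → 0 ≤ x ^ (-β) - x ^ (-1 : ℝ) ∧
      x ^ (-β) - x ^ (-1 : ℝ) ≤ (1 - β) * x ^ (1 - β) * (Real.log x / x)) ∧
    (∀ x y : ℝ, 4 ≤ x → x ≤ y → y ^ (-β) - y ^ (-1 : ℝ) ≤ x ^ (-β) - x ^ (-1 : ℝ)) ∧
    (∀ x y : ℝ, 4 ≤ x → x ≤ y →
      y ^ (1 - β) * (Real.log y / y) ≤ x ^ (1 - β) * (Real.log x / x)) := by
  refine ⟨?_, ?_, ?_⟩
  · intro x hx
    have hx0 : 0 < x := by linarith
    constructor
    · have := Real.rpow_le_rpow_of_exponent_le hx (show (-1 : ℝ) ≤ -β by linarith)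
      linarith
    · have h1 : x ^ (1 - β) = Real.exp ((1 - β) * Real.log x) := by
        rw [Real.rpow_def_of_pos hx0]; ring_nf
      have h2 : x ^ (-β) = x ^ (1 - β) * x⁻¹ := by
        rw [← Real.rpow_neg_one x, ← Real.rpow_add hx0]; ring_nf
      have h3 := Real.add_one_le_exp (-((1 - β) * Real.log x))
      rw [Real.exp_neg] at h3
      have h4 := Real.exp_pos ((1 - β) * Real.log x)
      rw [h2, Real.rpow_neg_one, h1]
      have h5 : Real.exp ((1 - β) * Real.log x) - 1 ≤
          (1 - β) * Real.log x * Real.exp ((1 - β) * Real.log x) := by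
        have h6 := mul_le_mul_of_nonneg_left h3 h4.le
        rw [mul_inv_cancel₀ h4.ne'] at h6
        linarith
      have h7 := mul_le_mul_of_nonneg_right h5 (inv_nonneg.2 hx0.le)
      calc _ = (Real.exp ((1 - β) * Real.log x) - 1) * x⁻¹ := by ring
        _ ≤ _ := h7
        _ = _ := by rw [div_eq_mul_inv]; ring
  · have hanti : AntitoneOn (fun x : ℝ => x ^ (-β) - x ^ (-1 : ℝ)) (Set.Ici 4) := by
      have hd : ∀ x : ℝ, 0 < x → HasDerivAt (fun x : ℝ => x ^ (-β) - x ^ (-1 : ℝ))
          (-β * x ^ (-β - 1) - (-1) * x ^ (-1 - 1 : ℝ)) x := fun x hx =>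
        (Real.hasDerivAt_rpow_const (Or.inl hx.ne')).sub
          (Real.hasDerivAt_rpow_const (Or.inl hx.ne'))
      refine antitoneOn_of_deriv_nonpos (convex_Ici 4) ?_ ?_ ?_
      · intro x hx
        have : (4 : ℝ) ≤ x := hx
        exact (hd x (by linarith)).continuousAt.continuousWithinAt
      · intro x hx
        rw [interior_Ici] at hx
        have : (4 : ℝ) < x := hx
        exact (hd x (by linarith)).differentiableAt.differentiableWithinAt
      · intro x hx
        rw [interior_Ici] at hx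
        have hx4 : (4 : ℝ) < x := hx
        have hx0 : 0 < x := by linarith
        rw [(hd x hx0).deriv]
        have h1 := d03b_log hβ hx4.le
        have h2 : x ^ (-β - 1) = x ^ (-1 - 1 : ℝ) * x ^ (1 - β) := by
          rw [← Real.rpow_add hx0]; ring_nf
        have h3 : 1 + (1 - β) * Real.log x ≤ x ^ (1 - β) := by
          have := Real.add_one_le_exp ((1 - β) * Real.log x)
          rw [Real.rpow_def_of_pos hx0]
          have e : Real.log x * (1 - β) = (1 - β) * Real.log x := by ring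
          rw [e]
          linarith
        have h4 : 0 < x ^ (-1 - 1 : ℝ) := Real.rpow_pos_of_pos hx0 _
        have h5 : 1 ≤ β * x ^ (1 - β) := by nlinarith
        rw [h2]
        nlinarith
    intro x y hx hxy
    exact hanti (show x ∈ Set.Ici 4 from hx) (show y ∈ Set.Ici 4 from hx.trans hxy) hxy
  · have hanti : AntitoneOn (fun x : ℝ => x ^ (-β) * Real.log x) (Set.Ici 4) := by
      have hd : ∀ x : ℝ, 0 < x → HasDerivAt (fun x : ℝ => x ^ (-β) * Real.log x)
          (-β * x ^ (-β - 1) * Real.log x + x ^ (-β) * x⁻¹) x := fun x hx =>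
        (Real.hasDerivAt_rpow_const (Or.inl hx.ne')).mul (Real.hasDerivAt_log hx.ne')
      refine antitoneOn_of_deriv_nonpos (convex_Ici 4) ?_ ?_ ?_
      · intro x hx
        have : (4 : ℝ) ≤ x := hx
        exact (hd x (by linarith)).continuousAt.continuousWithinAt
      · intro x hx
        rw [interior_Ici] at hx
        have : (4 : ℝ) < x := hx
        exact (hd x (by linarith)).differentiableAt.differentiableWithinAt
      · intro x hx
        rw [interior_Ici] at hx
        have hx4 : (4 : ℝ) < x := hx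
        have hx0 : 0 < x := by linarith
        rw [(hd x hx0).deriv]
        have h1 := d03b_log hβ hx4.le
        have h2 : x ^ (-β) * x⁻¹ = x ^ (-β - 1) := by
          rw [← Real.rpow_neg_one x, ← Real.rpow_add hx0]; ring_nf
        have h4 : 0 < x ^ (-β - 1) := Real.rpow_pos_of_pos hx0 _
        rw [h2]
        nlinarith
    intro x y hx hxy
    have key := hanti (show x ∈ Set.Ici 4 from hx) (show y ∈ Set.Ici 4 from hx.trans hxy) hxy
    simp only at key
    have e : ∀ z : ℝ, 0 < z → z ^ (1 - β) * (Real.log z / z) = z ^ (-β) * Real.log z := by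
      intro z hz
      have h2 : z ^ (-β) = z ^ (1 - β) * z⁻¹ := by
        rw [← Real.rpow_neg_one z, ← Real.rpow_add hz]; ring_nf
      rw [h2, div_eq_mul_inv]; ring
    rw [e x (by linarith), e y (by linarith)]
    exact key

end Pool.Agent.Lib.H82O
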