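import Pool.Agent.Lib.H82O.D01
import Pool.Agent.Lib.H82O.D02
import Pool.Agent.Lib.H82O.D03B

/-!
# H82O D03C: upper bounds for `L(1,χ)`
-/

set_option autoImplicit false

namespace Pool.Agent.Lib.H82O

theorem d03c_even (q : ℕ) [NeZero q] (hq : q % 2 = 0) (χ : DirichletCharacter ℂ q) (n : ℕ)
    (hn : ¬ n % 2 = 1) : χ (n : ZMod q) = 0 := by
  apply MulChar.map_nonunit
  rw [ZMod.isUnit_iff_coprime]
  intro hc
  have h1 : 2 ∣ n := by omega
  have h2 : 2 ∣ q := by omega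
  have h3 := Nat.dvd_gcd h1 h2
  rw [hc] at h3
  omega

/-- PROOF. `L(β) = 0`, so by `L_tendsto` at `1` and `β`:
`L(1) = - lim ∑_{n ≤ K} χ(n) f(n)`, `f(n) = n^(-β) - n^(-1)`. Cut at `N = 4q ≥ 64`. For `n ≤ N` odd:
`0 ≤ f(n) ≤ (1-β) N^(1-β) log n/n` (`f_facts`), sum `≤ (1-β) N^(1-β) ((log N)²/4 + 1/8)`
(`sum_log_odd`; even `n` do not contribute). Tail: `≤ q f(N+1) ≤ q f(N) ≤
q (1-β) N^(1-β) log N/N = (1-β) N^(1-β) (log N)/4`. -/
theorem L1_zero (q : ℕ) [NeZero q] (hq : q % 2 = 0) (hq16 : 16 ≤ q) (χ : DirichletCharacter ℂ q)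
    (hχ : χ ≠ 1) (β : ℝ) (hβ : 7 / 8 ≤ β) (hβ1 : β < 1) (hz : χ.LFunction (β : ℂ) = 0) :
    ‖χ.LFunction 1‖ ≤ (1 - β) * (4 * q) ^ (1 - β) *
      ((Real.log (4 * q)) ^ 2 / 4 + Real.log (4 * q) / 4 + 1 / 8) := by
  obtain ⟨f1, f2, -⟩ := f_facts β hβ hβ1
  obtain ⟨f, hf⟩ : ∃ f : ℕ → ℝ, f = fun n : ℕ => (n : ℝ) ^ (-β) - (n : ℝ) ^ (-1 : ℝ) := ⟨_, rfl⟩
  obtain ⟨N, hN⟩ : ∃ N : ℕ, N = 4 * q := ⟨_, rfl⟩
  have hNR : (N : ℝ) = 4 * q := by rw [hN]; push_cast; rfl
  have hN64 : 64 ≤ N := by omega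
  have hNR64 : (64 : ℝ) ≤ N := by exact_mod_cast hN64
  rw [← hNR]
  have hq0 : (0 : ℝ) < q := by
    have : (16 : ℝ) ≤ q := by exact_mod_cast hq16
    linarith
  have hb1 : 0 < 1 - β := by linarith
  have t1 := L_tendsto q χ hχ 1 one_pos
  have t2 := L_tendsto q χ hχ β (by linarith)
  rw [hz] at t2
  have t3 := t2.sub t1
  have hlim : Filter.Tendsto (fun K : ℕ => ‖∑ n ∈ Finset.Icc 1 K, χ (n : ZMod q) * (f n : ℂ)‖)
      Filter.atTop (nhds ‖χ.LFunction 1‖) := by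
    have h1 := t3.norm
    rw [zero_sub, norm_neg, Complex.ofReal_one] at h1
    refine h1.congr fun K => ?_
    rw [← Finset.sum_sub_distrib]
    congr 1
    refine Finset.sum_congr rfl fun n _ => ?_
    rw [hf]
    push_cast
    ring
  refine le_of_tendsto hlim (Filter.eventually_atTop.2 ⟨N, fun K hK => ?_⟩)
  have hI : ∀ K : ℕ, Finset.Icc 1 K = Finset.Ioc 0 K := fun K => by
    ext n
    simp only [Finset.mem_Icc, Finset.mem_Ioc]
    omega
  rw [hI K, ← Finset.sum_Ioc_consecutive _ (Nat.zero_le N) hK, ← hI N]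
  refine (norm_add_le _ _).trans ?_
  have hf0 : ∀ n : ℕ, 1 ≤ n → 0 ≤ f n := by
    intro n hn
    rw [hf]
    exact (f1 n (by exact_mod_cast hn)).1
  have htail := tail_bound q χ hχ f N (fun n hn => hf0 n (by omega)) (fun n hn => by
    rw [hf]
    exact f2 n ((n + 1 : ℕ) : ℝ) (by exact_mod_cast (by omega : 4 ≤ n))
      (by exact_mod_cast Nat.le_succ n)) K hK
  have htail2 : q * f (N + 1) ≤ (1 - β) * (N : ℝ) ^ (1 - β) * (Real.log N / 4) := by
    have h1 : f (N + 1) ≤ f N := by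
      rw [hf]
      exact f2 N ((N + 1 : ℕ) : ℝ) (by linarith) (by exact_mod_cast Nat.le_succ N)
    have h2 : f N ≤ (1 - β) * (N : ℝ) ^ (1 - β) * (Real.log N / N) := by
      rw [hf]
      exact (f1 N (by linarith)).2
    calc q * f (N + 1) ≤ q * ((1 - β) * (N : ℝ) ^ (1 - β) * (Real.log N / N)) :=
          mul_le_mul_of_nonneg_left (h1.trans h2) hq0.le
      _ = (1 - β) * (N : ℝ) ^ (1 - β) * (Real.log N / 4) := by
          rw [hNR]
          field_simp
  have hhead : ‖∑ n ∈ Finset.Icc 1 N, χ (n : ZMod q) * (f n : ℂ)‖ ≤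
      (1 - β) * (N : ℝ) ^ (1 - β) * ((Real.log N) ^ 2 / 4 + 1 / 8) := by
    calc ‖∑ n ∈ Finset.Icc 1 N, χ (n : ZMod q) * (f n : ℂ)‖
        ≤ ∑ n ∈ Finset.Icc 1 N, ‖χ (n : ZMod q) * (f n : ℂ)‖ := norm_sum_le _ _
      _ ≤ ∑ n ∈ Finset.Icc 1 N, (if n % 2 = 1 then (1 - β) * (N : ℝ) ^ (1 - β) *
            (Real.log n / n) else 0) := by
          apply Finset.sum_le_sum
          intro n hn
          rw [Finset.mem_Icc] at hn
          split_ifs with hodd
          · rw [norm_mul, Complex.norm_real, Real.norm_eq_abs, abs_of_nonneg (hf0 n hn.1)]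
            have h1 : ‖χ (n : ZMod q)‖ ≤ 1 := DirichletCharacter.norm_le_one χ _
            have h2 : f n ≤ (1 - β) * (n : ℝ) ^ (1 - β) * (Real.log n / n) := by
              rw [hf]
              exact (f1 n (by exact_mod_cast hn.1)).2
            have h3 : (n : ℝ) ^ (1 - β) ≤ (N : ℝ) ^ (1 - β) :=
              Real.rpow_le_rpow (Nat.cast_nonneg _) (by exact_mod_cast hn.2) hb1.le
            have h4 : 0 ≤ Real.log n / n :=
              div_nonneg (Real.log_natCast_nonneg n) (Nat.cast_nonneg _)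
            calc ‖χ (n : ZMod q)‖ * f n ≤ 1 * f n :=
                  mul_le_mul_of_nonneg_right h1 (hf0 n hn.1)
              _ = f n := one_mul _
              _ ≤ (1 - β) * (n : ℝ) ^ (1 - β) * (Real.log n / n) := h2
              _ ≤ (1 - β) * (N : ℝ) ^ (1 - β) * (Real.log n / n) := by
                  apply mul_le_mul_of_nonneg_right _ h4
                  exact mul_le_mul_of_nonneg_left h3 hb1.le
          · rw [d03c_even q hq χ n hodd, zero_mul, norm_zero]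
      _ = (1 - β) * (N : ℝ) ^ (1 - β) *
            ∑ n ∈ (Finset.Icc 1 N).filter (fun n => n % 2 = 1), Real.log n / n := by
          rw [← Finset.sum_filter, Finset.mul_sum]
      _ ≤ _ := by
          apply mul_le_mul_of_nonneg_left (sum_log_odd N (by omega))
          positivity
  have e : (1 - β) * (N : ℝ) ^ (1 - β) * ((Real.log N) ^ 2 / 4 + Real.log N / 4 + 1 / 8) =
      (1 - β) * (N : ℝ) ^ (1 - β) * ((Real.log N) ^ 2 / 4 + 1 / 8) +
      (1 - β) * (N : ℝ) ^ (1 - β) * (Real.log N / 4) := by ring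
  rw [e]
  exact add_le_add hhead (htail.trans htail2)

end Pool.Agent.Lib.H82O
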