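import Pool.Agent.Lib.H82O.D01
import Pool.Agent.Lib.H82O.D02
import Pool.Agent.Lib.H82O.D03A
import Pool.Agent.Lib.H82O.D03B
import Pool.Agent.Lib.H82O.D03C

/-! Collects D03A, D03B, D03C. -/
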