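import Mathlib

/-!
# H82O D04: the residue inequality (pure complex analysis)
-/

set_option autoImplicit false

namespace Pool.Agent.Lib.H82O

open scoped Nat

open Finset in
theorem d04_inv (k : ℕ) : iteratedDeriv k (fun s : ℂ => (s - 1)⁻¹) (3 / 2 : ℂ) =
    (-1) ^ k * (k ! : ℂ) * 2 ^ (k + 1) := by
  rw [iteratedDeriv_eq_iterate]
  have h := iter_deriv_inv_linear_sub k (1 : ℂ) 1
  simp only [one_mul, one_pow, mul_one] at h
  rw [h]
  have : ((3 / 2 : ℂ) - 1) = (2 : ℂ)⁻¹ := by norm_num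
  simp only [this]
  rw [inv_zpow, ← zpow_neg]
  congr 1
  have : (-(-1 - (k : ℤ))) = ((k + 1 : ℕ) : ℤ) := by push_cast; ring
  rw [this, zpow_natCast]

theorem d04_logMul (f : ℕ → ℂ) (k n : ℕ) :
    (LSeries.logMul^[k] f) n = (Complex.log n) ^ k * f n := by
  induction k generalizing f with
  | zero => simp
  | succ k ih =>
    rw [Function.iterate_succ_apply, ih, LSeries.logMul, pow_succ]
    ring

theorem d04_term (a : ℕ → ℝ) (k n : ℕ) (hn : 1 ≤ n) :
    LSeries.term (LSeries.logMul^[k] (fun n => (a n : ℂ))) ((3 / 2 : ℝ) : ℂ) n =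
      ((a n * (n : ℝ) ^ (-(3 / 2 : ℝ)) * (Real.log n) ^ k : ℝ) : ℂ) := by
  have h0 : n ≠ 0 := by omega
  rw [LSeries.term_of_ne_zero h0, d04_logMul, Real.rpow_neg (by positivity), Complex.ofReal_mul,
    Complex.ofReal_mul, Complex.ofReal_inv, Complex.ofReal_cpow (by positivity),
    Complex.ofReal_pow, Complex.ofReal_log (by positivity), Complex.ofReal_natCast]
  rw [div_eq_mul_inv]
  ring

theorem d04_term_zero (a : ℕ → ℝ) (k : ℕ) :
    LSeries.term (LSeries.logMul^[k] (fun n => (a n : ℂ))) ((3 / 2 : ℝ) : ℂ) 0 = 0 :=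
  LSeries.term_zero _ _

theorem d04_head (a : ℕ → ℝ) (ha : ∀ n, 0 ≤ a n)
    (hsum : ∀ s : ℂ, 1 < s.re → LSeriesSummable (fun n => (a n : ℂ)) s) (k : ℕ) (T : Finset ℕ)
    (hT : ∀ n ∈ T, 1 ≤ n) :
    ∑ n ∈ T, a n * (n : ℝ) ^ (-(3 / 2 : ℝ)) * (Real.log n) ^ k ≤
      (LSeries (LSeries.logMul^[k] (fun n => (a n : ℂ))) ((3 / 2 : ℝ) : ℂ)).re := by
  have habs : LSeries.abscissaOfAbsConv (fun n => (a n : ℂ)) < ((3 / 2 : ℝ) : EReal) := by
    have h1 : LSeries.abscissaOfAbsConv (fun n => (a n : ℂ)) ≤ ((1 : ℝ) : EReal) :=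
      LSeries.abscissaOfAbsConv_le_of_forall_lt_LSeriesSummable fun y hy =>
        hsum y (by simpa using hy)
    exact h1.trans_lt (by exact_mod_cast (by norm_num : (1 : ℝ) < 3 / 2))
  have hs : LSeriesSummable (LSeries.logMul^[k] (fun n => (a n : ℂ))) ((3 / 2 : ℝ) : ℂ) := by
    refine LSeriesSummable_of_abscissaOfAbsConv_lt_re ?_
    rw [LSeries.absicssaOfAbsConv_logPowMul, Complex.ofReal_re]
    exact habs
  have h1 := hs.hasSum
  have h2 := Complex.hasSum_re h1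
  have h3 : ∀ n, 0 ≤ (LSeries.term (LSeries.logMul^[k] (fun n => (a n : ℂ)))
      ((3 / 2 : ℝ) : ℂ) n).re := by
    intro n
    rcases Nat.eq_zero_or_pos n with rfl | hn
    · rw [d04_term_zero]; simp
    · rw [d04_term a k n hn, Complex.ofReal_re]
      have := ha n
      have := Real.log_natCast_nonneg n
      positivity
  have h4 := sum_le_hasSum T (fun n _ => h3 n) h2
  refine le_trans (le_of_eq ?_) h4
  refine Finset.sum_congr rfl fun n hn => ?_
  rw [d04_term a k n (hT n hn), Complex.ofReal_re]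

open Finset in
/-- A sharper form of `residue_lower` in `Pool/Agent/Lib/H57S/S2A.lean` (copy that proof; the model is
complete). Let `F = dslope h 1` (entire; `F s = (h s - lam)/(s - 1)` for `s ≠ 1`), `c = 3/2`,
`u = 3/2 - β`, `c_k = iteratedDeriv k F c / k!`.
(1) On `|s - 3/2| = 1`: `‖F‖ ≤ 4M`, so `‖c_k‖ ≤ 4M`.
(2) `(-1)^k c_k = b_k - lam 2^(k+1)`, `b_k = (-1)^k iteratedDeriv k (LSeries a) (3/2)/k!`
`= ∑_n a(n) n^(-3/2) (log n)^k/k!` (`LSeries_iteratedDeriv`: `iteratedDeriv k (LSeries a) s =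
(-1)^k LSeries (logMul^[k] a) s`; all terms are real and `≥ 0`), hence
`Re b_k ≥ ∑_{n ∈ T} a(n) n^(-3/2) (log n)^k/k!` (partial sum of a series of non-negative terms).
(3) Taylor at `β`: `F β = ∑ c_k (-u)^k`, and `F β = (h β - lam)/(β - 1) = (lam - r)/(1 - β)`; the tail
`k ≥ K` has norm `≤ 4 M u^K/(1 - u)`. As in the model
`lam (2u)^K = (1 - β)(∑_{k<K} b_k u^k + tail) + r`. Take real parts:
`‖lam‖ (3 - 2β)^K ≥ (1 - β)(∑_{k<K} Re b_k u^k - ‖tail‖) + r`, and `r ≥ 0`. -/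
theorem residue_T (h : ℂ → ℂ) (hh : Differentiable ℂ h) (lam : ℂ) (hlam : h 1 = lam)
    (a : ℕ → ℝ) (ha : ∀ n, 0 ≤ a n)
    (hsum : ∀ s : ℂ, 1 < s.re → LSeriesSummable (fun n => (a n : ℂ)) s)
    (hL : ∀ s : ℂ, 1 < s.re → LSeries (fun n => (a n : ℂ)) s = h s / (s - 1))
    (M : ℝ) (hM : ∀ s : ℂ, ‖s - 3 / 2‖ = 1 → ‖h s‖ ≤ M) (hlM : ‖lam‖ ≤ M)
    (β : ℝ) (hβ : 7 / 8 ≤ β) (hβ1 : β < 1) (r : ℝ) (hr : 0 ≤ r) (hz : h β = (r : ℂ)) (K : ℕ)
    (T : Finset ℕ) (hT : ∀ n ∈ T, 1 ≤ n) :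
    (1 - β) * (∑ n ∈ T, a n * (n : ℝ) ^ (-(3 / 2 : ℝ)) *
        ∑ k ∈ Finset.range K, ((3 / 2 - β) * Real.log n) ^ k / (k ! : ℝ)
      - 4 * M * (3 / 2 - β) ^ K / (β - 1 / 2)) ≤ ‖lam‖ * (3 - 2 * β) ^ K := by
  have hM0 : 0 ≤ M := (norm_nonneg _).trans hlM
  set F : ℂ → ℂ := dslope h 1 with hF
  have hFd : Differentiable ℂ F := by
    rw [← differentiableOn_univ]
    exact (Complex.differentiableOn_dslope Filter.univ_mem).2 hh.differentiableOn
  have hFs : ∀ s : ℂ, s ≠ 1 → F s = h s / (s - 1) - lam * (s - 1)⁻¹ := by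
    intro s hs
    rw [hF, dslope_of_ne _ hs, slope_def_field, hlam]
    ring
  set c : ℂ := 3 / 2 with hc
  -- (1)
  have hbd : ∀ k : ℕ, ‖iteratedDeriv k F c‖ ≤ (k.factorial : ℝ) * (4 * M) := by
    intro k
    have := Complex.norm_iteratedDeriv_le_of_forall_mem_sphere_norm_le (c := c) (R := 1)
      (C := 4 * M) (f := F) k one_pos hFd.diffContOnCl ?_
    · simpa using this
    · intro z hz
      rw [mem_sphere_iff_norm] at hz
      have h1 : 1 / 2 ≤ ‖z - 1‖ := by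
        have e : z - c = (z - 1) - (1 / 2 : ℂ) := by rw [hc]; ring
        have h2 : ‖z - c‖ ≤ ‖z - 1‖ + ‖(1 / 2 : ℂ)‖ := by rw [e]; exact norm_sub_le _ _
        have h3 : ‖(1 / 2 : ℂ)‖ = 1 / 2 := by norm_num
        rw [hz, h3] at h2
        linarith
      have hz1 : z ≠ 1 := by
        intro h0
        rw [h0, sub_self, norm_zero] at h1
        norm_num at h1
      have hpos : 0 < ‖z - 1‖ := by linarith
      rw [hFs z hz1, ← div_eq_mul_inv, ← sub_div, norm_div, div_le_iff₀ hpos]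
      calc ‖h z - lam‖ ≤ ‖h z‖ + ‖lam‖ := norm_sub_le _ _
        _ ≤ M + M := add_le_add (hM z hz) hlM
        _ = 4 * M * (1 / 2) := by ring
        _ ≤ 4 * M * ‖z - 1‖ := mul_le_mul_of_nonneg_left h1 (by positivity)
  -- (2)
  have habs : LSeries.abscissaOfAbsConv (fun n => (a n : ℂ)) < ((3 / 2 : ℝ) : EReal) := by
    have h1 : LSeries.abscissaOfAbsConv (fun n => (a n : ℂ)) ≤ ((1 : ℝ) : EReal) :=
      LSeries.abscissaOfAbsConv_le_of_forall_lt_LSeriesSummable fun y hy =>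
        hsum y (by simpa using hy)
    exact h1.trans_lt (by exact_mod_cast (by norm_num : (1 : ℝ) < 3 / 2))
  have hcr : (((3 / 2 : ℝ)) : ℂ) = c := by rw [hc]; push_cast; ring
  have hEv : F =ᶠ[nhds c] fun s => LSeries (fun n => (a n : ℂ)) s - lam * (s - 1)⁻¹ := by
    have : {s : ℂ | 1 < s.re} ∈ nhds c := by
      refine (isOpen_lt continuous_const Complex.continuous_re).mem_nhds ?_
      rw [← hcr]; simp; norm_num
    filter_upwards [this] with s hs
    have hs1 : s ≠ 1 := by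
      rintro rfl
      simp at hs
    rw [hFs s hs1, hL s hs]
  have hder : ∀ k : ℕ, iteratedDeriv k F c =
      iteratedDeriv k (LSeries (fun n => (a n : ℂ))) c -
        lam * ((-1) ^ k * (k.factorial : ℂ) * 2 ^ (k + 1)) := by
    intro k
    rw [hEv.iteratedDeriv_eq k]
    have hg : ContDiffAt ℂ k (fun s : ℂ => lam * (s - 1)⁻¹) c := by
      refine contDiffAt_const.mul (ContDiffAt.inv (contDiffAt_id.sub contDiffAt_const) ?_)
      rw [hc]; norm_num
    have hf : ContDiffAt ℂ k (LSeries (fun n => (a n : ℂ))) c := by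
      have h1 := LSeries_analyticOnNhd (fun n => (a n : ℂ)) c (by
        rw [← hcr]; simpa using habs)
      exact h1.contDiffAt
    rw [iteratedDeriv_fun_sub hf hg, iteratedDeriv_const_mul_field, hc, d04_inv]
  set b : ℕ → ℂ := fun k => (-1) ^ k * iteratedDeriv k (LSeries (fun n => (a n : ℂ))) c /
    (k.factorial : ℂ) with hb
  have hb0 : ∀ k, (∑ n ∈ T, a n * (n : ℝ) ^ (-(3 / 2 : ℝ)) * (Real.log n) ^ k) / (k ! : ℝ) ≤
      (b k).re := by
    intro k
    have h1 := LSeries_iteratedDeriv (f := fun n => (a n : ℂ)) k (s := c) (by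
      rw [← hcr]; simpa using habs)
    have h2 := d04_head a ha hsum k T hT
    rw [hcr] at h2
    have e2 : ((-1 : ℂ)) ^ k * (-1) ^ k = 1 := by rw [← pow_add, Even.neg_one_pow ⟨k, rfl⟩]
    have h3 : b k = LSeries (LSeries.logMul^[k] (fun n => (a n : ℂ))) c / ((k ! : ℝ) : ℂ) := by
      rw [hb]
      simp only
      rw [h1, ← mul_assoc, e2, one_mul, Complex.ofReal_natCast]
    rw [h3, Complex.div_ofReal_re]
    have : (0 : ℝ) < (k ! : ℝ) := by exact_mod_cast k.factorial_pos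
    gcongr
  -- (3)
  set u : ℝ := 3 / 2 - β with hu
  have hu1 : 1 / 2 < u := by rw [hu]; linarith
  have hTay := Complex.hasSum_taylorSeries_of_entire hFd c (β : ℂ)
  set S : ℕ → ℂ := fun k => ((k.factorial : ℂ))⁻¹ • ((β : ℂ) - c) ^ k • iteratedDeriv k F c with hS
  have hSb : ∀ k, S k = b k * (u : ℂ) ^ k - 2 * lam * (2 * (u : ℂ)) ^ k := by
    intro k
    rw [hS]
    simp only [smul_eq_mul]
    rw [hder k, hb]
    have e1 : ((β : ℂ) - c) = (-1) * (u : ℂ) := by rw [hc, hu]; push_cast; ring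
    have hk : (k.factorial : ℂ) ≠ 0 := by exact_mod_cast k.factorial_ne_zero
    have e2 : ((-1 : ℂ)) ^ k * (-1) ^ k = 1 := by rw [← pow_add, Even.neg_one_pow ⟨k, rfl⟩]
    rw [e1, mul_pow, mul_pow]
    field_simp
    linear_combination (-(lam * 2 ^ k * 2 * (k.factorial : ℂ) * (u : ℂ) ^ k)) * e2
  have hSn : ∀ k, ‖S k‖ ≤ 4 * M * u ^ k := by
    intro k
    rw [hS]
    simp only [smul_eq_mul, norm_mul, norm_inv, norm_pow]
    have e1 : ‖(β : ℂ) - c‖ = u := by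
      have : (β : ℂ) - c = ((-u : ℝ) : ℂ) := by rw [hc, hu]; push_cast; ring
      rw [this, Complex.norm_real, Real.norm_eq_abs, abs_neg, abs_of_pos (by linarith)]
    have hk : (0 : ℝ) < k.factorial := by exact_mod_cast k.factorial_pos
    rw [e1, Complex.norm_natCast]
    calc (k.factorial : ℝ)⁻¹ * (u ^ k * ‖iteratedDeriv k F c‖)
        ≤ (k.factorial : ℝ)⁻¹ * (u ^ k * ((k.factorial : ℝ) * (4 * M))) := by
          have := hbd k
          have : 0 ≤ u ^ k := pow_nonneg (by linarith) k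
          gcongr
      _ = 4 * M * u ^ k := by field_simp
  have hFβ : (1 - (β : ℂ)) * F β = lam - r := by
    have h1 : (β : ℂ) ≠ 1 := by
      intro h0
      have : β = 1 := by exact_mod_cast h0
      linarith
    have h2 : (β : ℂ) - 1 ≠ 0 := sub_ne_zero.2 h1
    rw [hFs _ h1, hz]
    field_simp
    ring
  -- split
  have hSs : Summable S := hTay.summable
  have hsplit : (∑ k ∈ range K, S k) + ∑' k, S (k + K) = F β := by
    rw [hSs.sum_add_tsum_nat_add K, hTay.tsum_eq]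
  have hu0 : 0 ≤ u := by linarith
  have hu11 : u < 1 := by linarith
  have htail : ‖∑' k, S (k + K)‖ ≤ 4 * M * u ^ K / (β - 1 / 2) := by
    have hg : HasSum (fun k => 4 * M * u ^ K * u ^ k) (4 * M * u ^ K * (1 - u)⁻¹) :=
      (hasSum_geometric_of_lt_one hu0 hu11).mul_left _
    have h1 : ‖∑' k, S (k + K)‖ ≤ 4 * M * u ^ K * (1 - u)⁻¹ := by
      refine tsum_of_norm_bounded hg fun k => ?_
      calc ‖S (k + K)‖ ≤ 4 * M * u ^ (k + K) := hSn _
        _ = _ := by rw [pow_add]; ring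
    have h2 : 1 - u = β - 1 / 2 := by rw [hu]; ring
    rw [h2, ← div_eq_mul_inv] at h1
    exact h1
  have h2u : ((2 * (u : ℂ)) - 1) * ∑ k ∈ range K, (2 * (u : ℂ)) ^ k = (2 * (u : ℂ)) ^ K - 1 := by
    rw [mul_comm]; exact geom_sum_mul _ _
  have hmain : lam * (2 * (u : ℂ)) ^ K = ((1 - β : ℝ) : ℂ) *
      ((∑ k ∈ range K, b k * (u : ℂ) ^ k) + ∑' k, S (k + K)) + r := by
    have h4 : (∑ k ∈ range K, S k) = (∑ k ∈ range K, b k * (u : ℂ) ^ k) -
        2 * lam * ∑ k ∈ range K, (2 * (u : ℂ)) ^ k := by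
      rw [mul_sum, ← sum_sub_distrib]
      exact sum_congr rfl fun k _ => hSb k
    have h5 : (1 - (β : ℂ)) * ((∑ k ∈ range K, S k) + ∑' k, S (k + K)) = lam - r := by
      rw [hsplit, hFβ]
    rw [h4] at h5
    have h6 : (2 * (u : ℂ)) - 1 = 2 * (1 - β) := by rw [hu]; push_cast; ring
    rw [h6] at h2u
    push_cast
    linear_combination (-lam) * h2u - h5
  have hB : ∑ n ∈ T, a n * (n : ℝ) ^ (-(3 / 2 : ℝ)) *
        ∑ k ∈ Finset.range K, (u * Real.log n) ^ k / (k ! : ℝ) ≤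
      (∑ k ∈ range K, b k * (u : ℂ) ^ k).re := by
    rw [Complex.re_sum]
    have e1 : ∑ n ∈ T, a n * (n : ℝ) ^ (-(3 / 2 : ℝ)) *
        ∑ k ∈ Finset.range K, (u * Real.log n) ^ k / (k ! : ℝ) =
        ∑ k ∈ range K, (∑ n ∈ T, a n * (n : ℝ) ^ (-(3 / 2 : ℝ)) * (Real.log n) ^ k) / (k ! : ℝ) *
          u ^ k := by
      simp only [mul_sum, sum_div, sum_mul]
      rw [sum_comm]
      refine sum_congr rfl fun k _ => sum_congr rfl fun n _ => ?_
      rw [mul_pow]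
      ring
    rw [e1]
    refine sum_le_sum fun k _ => ?_
    have e2 : (b k * (u : ℂ) ^ k).re = (b k).re * u ^ k := by
      rw [← Complex.ofReal_pow, Complex.re_mul_ofReal]
    rw [e2]
    exact mul_le_mul_of_nonneg_right (hb0 k) (pow_nonneg hu0 k)
  have hn := congrArg Complex.re hmain
  have e1 : lam * (2 * (u : ℂ)) ^ K = lam * (((3 - 2 * β) ^ K : ℝ) : ℂ) := by
    have : 2 * (u : ℂ) = ((3 - 2 * β : ℝ) : ℂ) := by rw [hu]; push_cast; ring
    rw [this, Complex.ofReal_pow]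
  rw [e1, Complex.re_mul_ofReal, Complex.add_re, Complex.re_ofReal_mul, Complex.ofReal_re,
    Complex.add_re] at hn
  have h7 : -(4 * M * u ^ K / (β - 1 / 2)) ≤ (∑' k, S (k + K)).re :=
    (abs_le.1 ((Complex.abs_re_le_norm _).trans htail)).1
  have h8 : lam.re * (3 - 2 * β) ^ K ≤ ‖lam‖ * (3 - 2 * β) ^ K :=
    mul_le_mul_of_nonneg_right (Complex.re_le_norm _) (pow_nonneg (by linarith) K)
  have h9 : (1 - β) * (∑ n ∈ T, a n * (n : ℝ) ^ (-(3 / 2 : ℝ)) *
        ∑ k ∈ Finset.range K, (u * Real.log n) ^ k / (k ! : ℝ) - 4 * M * u ^ K / (β - 1 / 2)) ≤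
      (1 - β) * ((∑ k ∈ range K, b k * (u : ℂ) ^ k).re + (∑' k, S (k + K)).re) :=
    mul_le_mul_of_nonneg_left (by linarith) (by linarith)
  linarith

end Pool.Agent.Lib.H82O
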