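import Pool.Agent.Lib.H82O.D04

/-!
# H82O D05A: truncated exponentials
-/

set_option autoImplicit false

namespace Pool.Agent.Lib.H82O

open scoped Nat

theorem d05a_hasSum (x : ℝ) : HasSum (fun n : ℕ => x ^ n / (n ! : ℝ)) (Real.exp x) := by
  rw [Real.exp_eq_exp_ℝ]
  exact NormedSpace.expSeries_div_hasSum_exp x

/-- PROOF. `exp x - ∑_{k<K} x^k/k! = ∑_{k ≥ K} x^k/k! ≤ (x^K/K!) exp x` (`(K+j)! ≥ K! j!`), and
`K! ≥ (K/e)^K ≥ (K/3)^K` (`Nat.factorial_lt`..; or `x^K/K! ≤ exp (x t)/t^K` for `t > 0`, from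
`(x t)^K/K! ≤ exp (x t)`; with `t = 6`: `x^K/K! ≤ exp (6x)/6^K ≤ e^K/6^K ≤ 2^(-K)` as
`6x ≤ K` and `e ≤ 3`). -/
theorem exp_trunc (K : ℕ) (x : ℝ) (hx : 0 ≤ x) (hxK : 6 * x ≤ K) :
    (1 - (1 / 2 : ℝ) ^ K) * Real.exp x ≤ ∑ k ∈ Finset.range K, x ^ k / (k ! : ℝ) := by
  have h1 := d05a_hasSum x
  have h2 := (d05a_hasSum (4 * x)).mul_left ((1 / 4 : ℝ) ^ K)
  have h3 : HasSum (fun n : ℕ => if n ∈ Finset.range K then x ^ n / (n ! : ℝ) else 0)
      (∑ n ∈ Finset.range K, if n ∈ Finset.range K then x ^ n / (n ! : ℝ) else 0) :=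
    hasSum_sum_of_ne_finset_zero (fun n hn => if_neg hn)
  have h4 : Real.exp x ≤ (∑ n ∈ Finset.range K, if n ∈ Finset.range K then x ^ n / (n ! : ℝ)
      else 0) + (1 / 4 : ℝ) ^ K * Real.exp (4 * x) := by
    refine hasSum_le ?_ h1 (h3.add h2)
    intro n
    by_cases hn : n ∈ Finset.range K
    · simp only [hn, if_true]
      have : 0 ≤ (1 / 4 : ℝ) ^ K * ((4 * x) ^ n / (n ! : ℝ)) := by positivity
      linarith
    · simp only [hn, if_false, zero_add]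
      have hKn : K ≤ n := by simpa using hn
      have h5 : (1 : ℝ) ≤ (1 / 4 : ℝ) ^ K * 4 ^ n := by
        obtain ⟨j, rfl⟩ := Nat.exists_eq_add_of_le hKn
        have e : (1 / 4 : ℝ) ^ K * 4 ^ (K + j) = 4 ^ j := by
          rw [pow_add, ← mul_assoc, ← mul_pow]; norm_num
        rw [e]
        exact one_le_pow₀ (by norm_num)
      have h6 : 0 ≤ x ^ n / (n ! : ℝ) := by positivity
      calc x ^ n / (n ! : ℝ) = 1 * (x ^ n / (n ! : ℝ)) := by ring
        _ ≤ ((1 / 4 : ℝ) ^ K * 4 ^ n) * (x ^ n / (n ! : ℝ)) := mul_le_mul_of_nonneg_right h5 h6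
        _ = _ := by rw [mul_pow]; ring
  have h5 : (∑ n ∈ Finset.range K, if n ∈ Finset.range K then x ^ n / (n ! : ℝ) else 0) =
      ∑ k ∈ Finset.range K, x ^ k / (k ! : ℝ) :=
    Finset.sum_congr rfl fun n hn => if_pos hn
  rw [h5] at h4
  have h6 : (1 / 4 : ℝ) ^ K * Real.exp (4 * x) ≤ (1 / 2 : ℝ) ^ K * Real.exp x := by
    have e1 : Real.exp (4 * x) = Real.exp (3 * x) * Real.exp x := by
      rw [← Real.exp_add]; ring_nf
    have e2 : Real.exp (3 * x) ≤ 2 ^ K := by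
      have e3 : Real.exp (3 * x) ≤ Real.exp (K * (1 / 2)) := Real.exp_le_exp.2 (by linarith)
      have e4 : Real.exp (K * (1 / 2)) = Real.exp (1 / 2) ^ K := by rw [← Real.exp_nat_mul]
      have e5 : Real.exp (1 / 2) ≤ 2 := by
        have e6 : Real.exp (1 / 2) ^ 2 = Real.exp 1 := by
          rw [← Real.exp_nat_mul]; norm_num
        have e7 := Real.exp_one_lt_d9
        have e8 := Real.exp_pos (1 / 2)
        nlinarith
      rw [e4] at e3
      exact e3.trans (pow_le_pow_left₀ (Real.exp_pos _).le e5 K)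
    have e9 : (1 / 4 : ℝ) ^ K * 2 ^ K = (1 / 2) ^ K := by rw [← mul_pow]; norm_num
    rw [e1, ← mul_assoc, ← e9]
    gcongr
  linarith

end Pool.Agent.Lib.H82O
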