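import Pool.Agent.Lib.H82O.D04
import Pool.Agent.Lib.H82O.D05A

/-!
# H82O D05B: truncated exponentials
-/

set_option autoImplicit false

namespace Pool.Agent.Lib.H82O

open scoped Nat

/-- PROOF. `residue_T` and `exp_trunc` with `x = (3/2 - β) log n`: `exp x = n^(3/2 - β)`, so
`n^(-3/2) exp x = n^(-β) ≥ n^(-1)` (`n ≥ 1`). -/
theorem residue_T' (h : ℂ → ℂ) (hh : Differentiable ℂ h) (lam : ℂ) (hlam : h 1 = lam)
    (a : ℕ → ℝ) (ha : ∀ n, 0 ≤ a n)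
    (hsum : ∀ s : ℂ, 1 < s.re → LSeriesSummable (fun n => (a n : ℂ)) s)
    (hL : ∀ s : ℂ, 1 < s.re → LSeries (fun n => (a n : ℂ)) s = h s / (s - 1))
    (M : ℝ) (hM : ∀ s : ℂ, ‖s - 3 / 2‖ = 1 → ‖h s‖ ≤ M) (hlM : ‖lam‖ ≤ M)
    (β : ℝ) (hβ : 7 / 8 ≤ β) (hβ1 : β < 1) (r : ℝ) (hr : 0 ≤ r) (hz : h β = (r : ℂ)) (K : ℕ)
    (T : Finset ℕ) (hT : ∀ n ∈ T, 1 ≤ n)
    (hK : ∀ n ∈ T, 6 * ((3 / 2 - β) * Real.log n) ≤ K) :
    (1 - β) * ((1 - (1 / 2 : ℝ) ^ K) * ∑ n ∈ T, a n / n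
      - 4 * M * (3 / 2 - β) ^ K / (β - 1 / 2)) ≤ ‖lam‖ * (3 - 2 * β) ^ K := by
  refine le_trans ?_ (residue_T h hh lam hlam a ha hsum hL M hM hlM β hβ hβ1 r hr hz K T hT)
  refine mul_le_mul_of_nonneg_left ?_ (by linarith)
  refine sub_le_sub_right ?_ _
  rw [Finset.mul_sum]
  refine Finset.sum_le_sum fun n hn => ?_
  have hn1 : (1 : ℝ) ≤ n := by exact_mod_cast hT n hn
  have hn0 : (0 : ℝ) < n := by linarith
  have hlog : 0 ≤ Real.log n := Real.log_nonneg hn1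
  have h1 := exp_trunc K ((3 / 2 - β) * Real.log n) (mul_nonneg (by linarith) hlog) (hK n hn)
  have h2 : (0 : ℝ) ≤ a n * (n : ℝ) ^ (-(3 / 2 : ℝ)) := mul_nonneg (ha n) (by positivity)
  refine le_trans ?_ (mul_le_mul_of_nonneg_left h1 h2)
  have h3 : (n : ℝ)⁻¹ ≤ (n : ℝ) ^ (-(3 / 2 : ℝ)) * Real.exp ((3 / 2 - β) * Real.log n) := by
    have e : Real.exp ((3 / 2 - β) * Real.log n) = (n : ℝ) ^ (3 / 2 - β) := by
      rw [Real.rpow_def_of_pos hn0]; ring_nf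
    rw [e, ← Real.rpow_add hn0, ← Real.rpow_neg_one]
    exact Real.rpow_le_rpow_of_exponent_le hn1 (by linarith)
  have h4 : (0 : ℝ) ≤ 1 - (1 / 2 : ℝ) ^ K := by
    have : (1 / 2 : ℝ) ^ K ≤ 1 := pow_le_one₀ (by norm_num) (by norm_num)
    linarith
  calc (1 - (1 / 2 : ℝ) ^ K) * (a n / n) = ((1 - (1 / 2 : ℝ) ^ K) * a n) * (n : ℝ)⁻¹ := by
        rw [div_eq_mul_inv]; ring
    _ ≤ ((1 - (1 / 2 : ℝ) ^ K) * a n) * ((n : ℝ) ^ (-(3 / 2 : ℝ)) *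
        Real.exp ((3 / 2 - β) * Real.log n)) :=
        mul_le_mul_of_nonneg_left h3 (mul_nonneg h4 (ha n))
    _ = _ := by ring

end Pool.Agent.Lib.H82O
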