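import Pool.Agent.Lib.H82O.D04
import Pool.Agent.Lib.H82O.D05A
import Pool.Agent.Lib.H82O.D05B

/-! Collects D05A, D05B. -/
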