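import Mathlib
import Pool.Agent.Lib.H63.TSPThree

/-!
# Project H82O: at most one natural number is not triangular + square + pentagonal

Light definitions (no L-functions). `Rep`, `V`, `X m v`, `Bad m`, `XF m`, `mem_XF`, `R3` come from
`Pool/Agent/Lib/H63/TSPBasic.lean` and `TSPThree.lean`.
-/

set_option autoImplicit false

namespace Pool.Agent.Lib.H82O

open Pool.Agent.Lib.H63.TSP

/-- integral quaternions (Lipschitz order) -/
abbrev HZ : Type := Quaternion ℤ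

/-- the pure quaternion `e i + p j + q k` of a vector -/
def qv (v : V) : HZ := ⟨0, v.e, v.p, v.q⟩

/-- the integer `b` as a quaternion -/
def qi (b : ℤ) : HZ := ⟨b, 0, 0, 0⟩

/-- norm `a² + b² + c² + d²` -/
def nq (α : HZ) : ℤ := α.re ^ 2 + α.imI ^ 2 + α.imJ ^ 2 + α.imK ^ 2

/-- primitive vector (Bezout form) -/
def PrimV (v : V) : Prop := ∃ a b c : ℤ, a * v.e + b * v.p + c * v.q = 1

/-- primitive quaternion (Bezout form) -/
def PrimH (α : HZ) : Prop := ∃ a b c d : ℤ, a * α.re + b * α.imI + c * α.imJ + d * α.imK = 1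

/-- coordinates of the rotation `v ↦ α v ᾱ`, `α = a + b i + c j + d k`, `v = x i + y j + z k` -/
def wx (a b c d x y z : ℤ) : ℤ :=
  (a ^ 2 + b ^ 2 - c ^ 2 - d ^ 2) * x + 2 * (b * c - a * d) * y + 2 * (b * d + a * c) * z

def wy (a b c d x y z : ℤ) : ℤ :=
  (a ^ 2 - b ^ 2 + c ^ 2 - d ^ 2) * y + 2 * (b * c + a * d) * x + 2 * (c * d - a * b) * z

def wz (a b c d x y z : ℤ) : ℤ :=
  (a ^ 2 - b ^ 2 - c ^ 2 + d ^ 2) * z + 2 * (b * d - a * c) * x + 2 * (c * d + a * b) * y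

theorem w_norm (a b c d x y z : ℤ) :
    wx a b c d x y z ^ 2 + wy a b c d x y z ^ 2 + wz a b c d x y z ^ 2 =
      (a ^ 2 + b ^ 2 + c ^ 2 + d ^ 2) ^ 2 * (x ^ 2 + y ^ 2 + z ^ 2) := by
  unfold wx wy wz; ring

/-- the number of square roots of `-2m` modulo `n` -/
def rho (m : ℤ) (n : ℕ) : ℕ := ((Finset.range n).filter fun b : ℕ => (n : ℤ) ∣ (b : ℤ) ^ 2 + 2 * m).card

/-- `r(n) = ∑_{d ∣ n} (-2m/d)` for odd `n` (Jacobi symbols) -/
def rr (m : ℕ) (n : ℕ) : ℤ := ∑ d ∈ n.divisors, jacobiSym (-2 * (m : ℤ)) d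

end Pool.Agent.Lib.H82O
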