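import Pool.Agent.Lib.H57S.Defs
import Pool.Agent.Lib.H68T.GL1
import Pool.Agent.Lib.H68T.GL2
import Pool.Agent.Lib.H82O.Defs

/-!
# Project H82O: the characters

`Pool.Agent.Lib.H57S.prodc ψ₁ ψ₂` (level `r₁ r₂`, `prodc_apply`), `Pool.Agent.Lib.H68T.gl2_Z` is the
entire function `(s-1) ζ(s)` (`gl2_Z_eq`, `gl2_Z_one`, `gl2_Z_bound`, `gl2_eqOn`), and
`Pool.Agent.Lib.H68T.gl1_T`, `gl1_A`, `gl1_eqOn`, `LFunction_bound` are the partial sums of a
character and the Abel summation formula for `L(s,χ)` on `Re s > 0`.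
-/

set_option autoImplicit false

namespace Pool.Agent.Lib.H82O

open Classical in
/-- the character `n ↦ (-2m/n)` (`n` odd), modulo `8m` -/
noncomputable def chi (m : ℕ) : DirichletCharacter ℂ (8 * m) :=
  if h : ∃ χ : DirichletCharacter ℂ (8 * m), ∀ n : ℕ, Odd n →
      χ (n : ZMod (8 * m)) = ((jacobiSym (-2 * (m : ℤ)) n : ℤ) : ℂ) then h.choose else 1

/-- the bound for `L(1,χ)` -/
noncomputable def Lb (x : ℝ) : ℝ := 3 / 4000 * (10 ^ 13 / x) ^ (3 / 10 : ℝ)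

end Pool.Agent.Lib.H82O
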