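import Pool.Agent.Lib.H57S.S1
import Pool.Agent.Lib.H82O.DefsL

/-!
# H82O D06: the coefficients of `ζ(s) L(s,χ)`
-/

set_option autoImplicit false

namespace Pool.Agent.Lib.H82O

open Pool.Agent.Lib.H57S in
open scoped ComplexOrder in
/-- PROOF. `a n = (DirichletCharacter.zetaMul χ n).re`, `zetaMul χ n = ∑_{d ∣ n} χ(d)` (`≥ 0`:
`DirichletCharacter.zetaMul_nonneg`; real). `a 1 = 1`, `a 2 = 1 + χ(2) = 1`, `a 3 = 1 + χ(3) = 2`,
`a 4 = 1 + χ(2) + χ(4) = 1`. L-series: `LSeries_mul'` as in `coeff_exists`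
(`Pool/Agent/Lib/H57S/S1.lean`: `S1_zetaMul`, `S1_LSeries`, `S1_summable`). -/
theorem coeff_one (q : ℕ) [NeZero q] (χ : DirichletCharacter ℂ q) (hs : χ ^ 2 = 1)
    (h2 : χ ((2 : ℕ) : ZMod q) = 0) (h3 : χ ((3 : ℕ) : ZMod q) = 1) :
    ∃ a : ℕ → ℝ, (∀ n, 0 ≤ a n) ∧ a 1 = 1 ∧ a 2 = 1 ∧ a 3 = 2 ∧ a 4 = 1 ∧ ∀ s : ℂ, 1 < s.re →
      LSeriesSummable (fun n => (a n : ℂ)) s ∧
      LSeries (fun n => (a n : ℂ)) s = riemannZeta s * χ.LFunction s := by
  have hnn : ∀ n, 0 ≤ χ.zetaMul n := fun n => DirichletCharacter.zetaMul_nonneg hs n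
  have hre : ∀ n, (((χ.zetaMul n).re : ℝ) : ℂ) = χ.zetaMul n := by
    intro n
    have h := (Complex.nonneg_iff.1 (hnn n)).2
    exact Complex.ext (by simp) (by simp [← h])
  have hval : ∀ p k : ℕ, p.Prime → χ.zetaMul (p ^ k) = ∑ i ∈ Finset.range (k + 1), (χ (p : ZMod q)) ^ i :=
    fun p k hp => S1_zetaMul_pow χ hp k
  refine ⟨fun n => (χ.zetaMul n).re, fun n => (Complex.nonneg_iff.1 (hnn n)).1, ?_, ?_, ?_, ?_, ?_⟩
  · have := hval 2 0 Nat.prime_two
    rw [pow_zero] at this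
    simp [this]
  · have := hval 2 1 Nat.prime_two
    rw [pow_one, h2] at this
    simp [this, Finset.sum_range_succ]
  · have := hval 3 1 Nat.prime_three
    rw [pow_one, h3] at this
    show (χ.zetaMul 3).re = 2
    rw [this]
    norm_num [Finset.sum_range_succ]
  · have := hval 2 2 Nat.prime_two
    rw [show 2 ^ 2 = 4 by norm_num, h2] at this
    show (χ.zetaMul 4).re = 1
    rw [this]
    simp [Finset.sum_range_succ]
  · intro s hs1
    have e : (fun n => (((χ.zetaMul n).re : ℝ) : ℂ)) = fun n => χ.zetaMul n := funext hre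
    rw [e]
    have z1 : LSeriesSummable (fun n => (ArithmeticFunction.zeta : ArithmeticFunction ℂ) n) s :=
      ArithmeticFunction.LSeriesSummable_zeta_iff.mpr hs1
    have s1 := S1_summable χ hs1
    refine ⟨χ.LSeriesSummable_zetaMul hs1, ?_⟩
    rw [S1_zetaMul, ArithmeticFunction.LSeries_mul' z1 s1, S1_LSeries χ hs1]
    have hz : LSeries (fun n => (ArithmeticFunction.zeta : ArithmeticFunction ℂ) n) s =
        riemannZeta s := by
      rw [← ArithmeticFunction.LSeries_zeta_eq_riemannZeta hs1]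
      rfl
    rw [hz]

end Pool.Agent.Lib.H82O
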