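import Pool.Agent.Lib.H57S.S1
import Pool.Agent.Lib.H82O.DefsL

/-!
# H82O D07: the coefficients of `ζ(s) L(s,ψ₁) L(s,ψ₂) L(s,ψ₁ψ₂)`
-/

set_option autoImplicit false

namespace Pool.Agent.Lib.H82O

open Pool.Agent.Lib.H57S

open scoped ComplexOrder

theorem d07_mul_pow (f g : ArithmeticFunction ℂ) {p : ℕ} (hp : p.Prime) (k : ℕ) :
    (f * g) (p ^ k) = ∑ i ∈ Finset.range (k + 1), f (p ^ i) * g (p ^ (k - i)) := by
  rw [ArithmeticFunction.mul_apply,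
    Nat.sum_divisorsAntidiagonal (fun i j => f i * g j), Nat.sum_divisors_prime_pow hp]
  refine Finset.sum_congr rfl fun i hi => ?_
  have hi' : i ≤ k := by
    have := Finset.mem_range.1 hi
    omega
  rw [Nat.pow_div hi' hp.pos]

/-- the local factor -/
noncomputable def d07_B (x y : ℂ) (k : ℕ) : ℂ :=
  ∑ i ∈ Finset.range (k + 1), (∑ l ∈ Finset.range (i + 1), x ^ l) *
    (y ^ (k - i) * ∑ l ∈ Finset.range (k - i + 1), x ^ l)

theorem d07_b_pow (r₁ r₂ : ℕ) [NeZero r₁] [NeZero r₂] (ψ₁ : DirichletCharacter ℂ r₁)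
    (ψ₂ : DirichletCharacter ℂ r₂) {p : ℕ} (hp : p.Prime) (k : ℕ) :
    (ψ₁.zetaMul * (S1_X ψ₂ * S1_X (prodc ψ₁ ψ₂))) (p ^ k) =
      d07_B (ψ₁ (p : ZMod r₁)) (ψ₂ (p : ZMod r₂)) k := by
  have hne : ∀ i, p ^ i ≠ 0 := fun i => pow_ne_zero _ hp.ne_zero
  have p12 : ∀ n : ℕ, prodc ψ₁ ψ₂ (n : ZMod (r₁ * r₂)) =
      ψ₁ (n : ZMod r₁) * ψ₂ (n : ZMod r₂) := fun n => prodc_apply ψ₁ ψ₂ n
  rw [d07_mul_pow _ _ hp, d07_B]
  refine Finset.sum_congr rfl fun i _ => ?_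
  rw [S1_pair ψ₁ ψ₂ (prodc ψ₁ ψ₂) p12 (hne _), S1_zetaMul_pow ψ₁ hp, S1_zetaMul_pow ψ₁ hp]
  push_cast
  rw [map_pow]

theorem d07_B0 (k : ℕ) (hk : k < 7) : d07_B 0 0 k = 1 := by
  unfold d07_B
  interval_cases k <;> simp [Finset.sum_range_succ]

theorem d07_B1 (k : ℕ) (hk : k < 7) :
    d07_B 1 1 k = (((k + 1) * (k + 2) * (k + 3) / 6 : ℕ) : ℂ) := by
  unfold d07_B
  interval_cases k <;> simp [Finset.sum_range_succ] <;> norm_num

theorem d07_B2 : d07_B (-1) (-1) 2 = 2 := by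
  unfold d07_B
  simp [Finset.sum_range_succ]
  norm_num

theorem d07_inj (p : ℕ) (hp : p.Prime) {i i' A A' : ℕ} (hA : ¬ p ∣ A) (hA' : ¬ p ∣ A')
    (h : p ^ i * A = p ^ i' * A') : i = i' ∧ A = A' := by
  have key : ∀ {i i' A A' : ℕ}, ¬ p ∣ A → i ≤ i' → p ^ i * A = p ^ i' * A' → i = i' ∧ A = A' := by
    intro i i' A A' hA hii h
    obtain ⟨d, rfl⟩ := Nat.exists_eq_add_of_le hii
    rw [pow_add, mul_assoc] at h
    have h1 : A = p ^ d * A' := Nat.eq_of_mul_eq_mul_left (pow_pos hp.pos i) h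
    rcases Nat.eq_zero_or_pos d with rfl | hd
    · simpa using h1
    · exfalso
      apply hA
      rw [h1]
      exact Dvd.dvd.mul_right (dvd_pow_self p hd.ne') A'
  rcases le_total i i' with h1 | h1
  · exact key hA h1 h
  · obtain ⟨h2, h3⟩ := key hA' h1 h.symm
    exact ⟨h2.symm, h3.symm⟩

/-- the five values of `l` -/
def d07_L : Finset ℕ := {1, 5, 7, 11, 13}

/-- the parametrization of `T` -/
def d07_f (x : ℕ × ℕ × ℕ) : ℕ := 2 ^ x.1 * (3 ^ x.2.1 * x.2.2 ^ 2)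

/-- the index set -/
def d07_I : Finset (ℕ × ℕ × ℕ) := Finset.range 7 ×ˢ Finset.range 7 ×ˢ d07_L

theorem d07_L_prop : ∀ l ∈ d07_L, ¬ 2 ∣ l ∧ ¬ 3 ∣ l ∧ 1 ≤ l ∧ l ≤ 13 := by decide

theorem d07_injOn : Set.InjOn d07_f (d07_I : Set (ℕ × ℕ × ℕ)) := by
  rintro ⟨i, j, l⟩ h1 ⟨i', j', l'⟩ h2 h
  simp only [d07_I, Finset.coe_product, Set.mem_prod, Finset.mem_coe] at h1 h2
  have hl := d07_L_prop l h1.2.2
  have hl' := d07_L_prop l' h2.2.2
  have n2 : ∀ (j l : ℕ), ¬ 2 ∣ l → ¬ 2 ∣ 3 ^ j * l ^ 2 := by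
    intro j l hl hd
    rcases (Nat.prime_two.dvd_mul).1 hd with h | h
    · have := Nat.prime_two.dvd_of_dvd_pow h
      omega
    · exact hl (Nat.prime_two.dvd_of_dvd_pow h)
  have n3 : ∀ l : ℕ, ¬ 3 ∣ l → ¬ 3 ∣ l ^ 2 := fun l hl hd =>
    hl (Nat.prime_three.dvd_of_dvd_pow hd)
  obtain ⟨e1, e2⟩ := d07_inj 2 Nat.prime_two (n2 j l hl.1) (n2 j' l' hl'.1) h
  obtain ⟨e3, e4⟩ := d07_inj 3 Nat.prime_three (n3 l hl.2.1) (n3 l' hl'.2.1) e2
  have e5 : l = l' := Nat.pow_left_injective (by norm_num : (2 : ℕ) ≠ 0) e4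
  simp only at e1 e3
  rw [e1, e3, e5]

theorem d07_bounds (x : ℕ × ℕ × ℕ) (hx : x ∈ d07_I) : 1 ≤ d07_f x ∧ d07_f x ≤ 10 ^ 7 := by
  obtain ⟨i, j, l⟩ := x
  simp only [d07_I, Finset.mem_product, Finset.mem_range] at hx
  obtain ⟨hi, hj, hl⟩ := hx
  obtain ⟨-, -, h1, h2⟩ := d07_L_prop l hl
  constructor
  · unfold d07_f
    exact Nat.mul_pos (by positivity) (Nat.mul_pos (by positivity) (by positivity))
  · unfold d07_f
    calc 2 ^ i * (3 ^ j * l ^ 2) ≤ 2 ^ 6 * (3 ^ 6 * 13 ^ 2) := by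
          gcongr
          · norm_num
          · omega
          · norm_num
          · omega
      _ ≤ 10 ^ 7 := by norm_num

/-- the value at `l ^ 2` -/
def d07_C (l : ℕ) : ℕ := if l = 1 then 1 else 2

theorem d07_sum : (11.3 : ℝ) ≤ ∑ x ∈ d07_I, ((((x.2.1 + 1) * (x.2.1 + 2) * (x.2.1 + 3) / 6 : ℕ) : ℝ) *
    (d07_C x.2.2 : ℝ)) / (d07_f x : ℝ) := by
  have e : ∑ x ∈ d07_I, ((((x.2.1 + 1) * (x.2.1 + 2) * (x.2.1 + 3) / 6 : ℕ) : ℝ) *
      (d07_C x.2.2 : ℝ)) / (d07_f x : ℝ) =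
      (∑ i ∈ Finset.range 7, ((2 : ℝ) ^ i)⁻¹) *
      ((∑ j ∈ Finset.range 7, (((j + 1) * (j + 2) * (j + 3) / 6 : ℕ) : ℝ) / (3 : ℝ) ^ j) *
        ∑ l ∈ d07_L, (d07_C l : ℝ) / (l : ℝ) ^ 2) := by
    rw [d07_I, Finset.sum_product, Finset.sum_mul]
    refine Finset.sum_congr rfl fun i _ => ?_
    rw [Finset.sum_product, Finset.sum_mul, Finset.mul_sum]
    refine Finset.sum_congr rfl fun j _ => ?_
    rw [Finset.mul_sum, Finset.mul_sum]
    refine Finset.sum_congr rfl fun l _ => ?_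
    simp only [d07_f]
    push_cast
    rw [div_eq_mul_inv, div_eq_mul_inv, div_eq_mul_inv, mul_inv, mul_inv]
    ring
  rw [e]
  simp only [d07_L, d07_C, Finset.sum_range_succ, Finset.sum_range_zero]
  rw [Finset.sum_insert (by decide), Finset.sum_insert (by decide),
    Finset.sum_insert (by decide), Finset.sum_insert (by decide), Finset.sum_singleton]
  norm_num

/-- `b = zetaMul ψ₁ * (ψ₂ · zetaMul ψ₁)`, the arithmetic function of `coeff_exists` in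
`Pool/Agent/Lib/H57S/S1.lean`; it is multiplicative and non-negative (proof there). PRIME POWERS:
`b(p^k) = ∑_{i+j=k} z(p^i) y^j z(p^j)`, `z(p^i) = ∑_{l ≤ i} x^l`, `x = ψ₁(p)`, `y = ψ₂(p)`.
`p = 2` (`x = y = 0`): `b(2^k) = 1`. `p = 3` (`x = y = 1`): `b(3^k) = ∑ (i+1)(j+1) = (k+1)(k+2)(k+3)/6`:
`1, 4, 10, 20, 35, 56, 84` for `k = 0, .., 6`. `p = 5, 7, 11, 13` (`x = y = -1`): `b(p²) = 1 + 0 + 1 = 2`.
THE SET `T = {2^i 3^j l² : i, j ≤ 6, l ∈ {1, 5, 7, 11, 13}}` (the representation is unique: the map is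
injective, by coprimality or by `decide`), all elements between 1 and `64 · 729 · 169 < 10^7`, and
`∑_{n ∈ T} b(n)/n = (127/64)(3618/729)(1 + 2/25 + 2/49 + 2/121 + 2/169) ≥ 11.3`. -/
theorem coeff_four (r₁ r₂ : ℕ) [NeZero r₁] [NeZero r₂] (ψ₁ : DirichletCharacter ℂ r₁)
    (ψ₂ : DirichletCharacter ℂ r₂) (hs₁ : ψ₁ ^ 2 = 1) (hs₂ : ψ₂ ^ 2 = 1)
    (h21 : ψ₁ ((2 : ℕ) : ZMod r₁) = 0) (h22 : ψ₂ ((2 : ℕ) : ZMod r₂) = 0)
    (h31 : ψ₁ ((3 : ℕ) : ZMod r₁) = 1) (h32 : ψ₂ ((3 : ℕ) : ZMod r₂) = 1)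
    (hp1 : ∀ p ∈ ({5, 7, 11, 13} : Finset ℕ), ψ₁ (p : ZMod r₁) = -1)
    (hp2 : ∀ p ∈ ({5, 7, 11, 13} : Finset ℕ), ψ₂ (p : ZMod r₂) = -1) :
    ∃ (a : ℕ → ℝ) (T : Finset ℕ), (∀ n, 0 ≤ a n) ∧ (∀ n ∈ T, 1 ≤ n ∧ n ≤ 10 ^ 7) ∧
      (11.3 : ℝ) ≤ ∑ n ∈ T, a n / n ∧ ∀ s : ℂ, 1 < s.re →
      LSeriesSummable (fun n => (a n : ℂ)) s ∧
      LSeries (fun n => (a n : ℂ)) s =
        riemannZeta s * (ψ₁.LFunction s * ψ₂.LFunction s * (prodc ψ₁ ψ₂).LFunction s) := by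
  set b : ArithmeticFunction ℂ := ψ₁.zetaMul * (S1_X ψ₂ * S1_X (prodc ψ₁ ψ₂)) with hb
  have hmult : b.IsMultiplicative :=
    (DirichletCharacter.isMultiplicative_zetaMul ψ₁).mul
      ((S1_X_mult ψ₂).mul (S1_X_mult (prodc ψ₁ ψ₂)))
  have hnn : ∀ n, 0 ≤ b n := by
    intro n
    rcases eq_or_ne n 0 with rfl | hn
    · simp only [ArithmeticFunction.map_zero, le_refl]
    · rw [hmult.multiplicative_factorization _ hn]
      exact Finset.prod_nonneg fun p hp =>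
        S1_nonneg_pow r₁ r₂ ψ₁ ψ₂ hs₁ hs₂ (Nat.prime_of_mem_primeFactors hp) _
  have hre : ∀ n, (((b n).re : ℝ) : ℂ) = b n := fun n => (Complex.eq_re_of_ofReal_le (hnn n)).symm
  have hv2 : ∀ i, i < 7 → b (2 ^ i) = 1 := by
    intro i hi
    rw [hb, d07_b_pow r₁ r₂ ψ₁ ψ₂ Nat.prime_two, h21, h22, d07_B0 i hi]
  have hv3 : ∀ j, j < 7 → b (3 ^ j) = (((j + 1) * (j + 2) * (j + 3) / 6 : ℕ) : ℂ) := by
    intro j hj
    rw [hb, d07_b_pow r₁ r₂ ψ₁ ψ₂ Nat.prime_three, h31, h32, d07_B1 j hj]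
  have hvp : ∀ p ∈ ({5, 7, 11, 13} : Finset ℕ), b (p ^ 2) = 2 := by
    intro p hp
    have hpp : p.Prime := by
      revert p
      decide
    rw [hb, d07_b_pow r₁ r₂ ψ₁ ψ₂ hpp, hp1 p hp, hp2 p hp, d07_B2]
  have hvl : ∀ l ∈ d07_L, b (l ^ 2) = (d07_C l : ℂ) := by
    intro l hl
    rcases eq_or_ne l 1 with rfl | h1
    · simp only [one_pow, hmult.map_one, d07_C, if_true, Nat.cast_one]
    · have : l ∈ ({5, 7, 11, 13} : Finset ℕ) := by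
        rw [d07_L, Finset.mem_insert] at hl
        exact hl.resolve_left h1
      rw [hvp l this, d07_C, if_neg h1]
      norm_num
  have hval : ∀ x ∈ d07_I, b (d07_f x) =
      (((x.2.1 + 1) * (x.2.1 + 2) * (x.2.1 + 3) / 6 : ℕ) : ℂ) * (d07_C x.2.2 : ℂ) := by
    rintro ⟨i, j, l⟩ hx
    simp only [d07_I, Finset.mem_product, Finset.mem_range] at hx
    obtain ⟨hi, hj, hl⟩ := hx
    obtain ⟨q2, q3, -, -⟩ := d07_L_prop l hl
    have c3 : Nat.Coprime (3 ^ j) (l ^ 2) :=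
      Nat.Coprime.pow _ _ ((Nat.Prime.coprime_iff_not_dvd Nat.prime_three).2 q3)
    have c2 : Nat.Coprime (2 ^ i) (3 ^ j * l ^ 2) := by
      refine Nat.Coprime.mul_right (Nat.Coprime.pow _ _ (by norm_num)) (Nat.Coprime.pow _ _ ?_)
      exact (Nat.Prime.coprime_iff_not_dvd Nat.prime_two).2 q2
    simp only [d07_f]
    rw [hmult.map_mul_of_coprime c2, hmult.map_mul_of_coprime c3, hv2 i hi, hv3 j hj, hvl l hl,
      one_mul]
  refine ⟨fun n => (b n).re, d07_I.image d07_f, fun n => (Complex.nonneg_iff.1 (hnn n)).1, ?_, ?_,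
    fun s hs => ?_⟩
  · intro n hn
    obtain ⟨x, hx, rfl⟩ := Finset.mem_image.1 hn
    exact d07_bounds x hx
  · rw [Finset.sum_image d07_injOn]
    refine d07_sum.trans (le_of_eq ?_)
    refine Finset.sum_congr rfl fun x hx => ?_
    beta_reduce
    rw [hval x hx, ← Nat.cast_mul, ← Nat.cast_mul, Complex.natCast_re]
  · have e : (fun n => (((b n).re : ℝ) : ℂ)) = fun n => b n := funext hre
    rw [e]
    have z1 : LSeriesSummable (fun n => (ArithmeticFunction.zeta : ArithmeticFunction ℂ) n) s :=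
      ArithmeticFunction.LSeriesSummable_zeta_iff.mpr hs
    have s1 := S1_summable ψ₁ hs
    have s2 := S1_summable ψ₂ hs
    have s12 := S1_summable (prodc ψ₁ ψ₂) hs
    have za : LSeriesSummable (fun n => ψ₁.zetaMul n) s := ψ₁.LSeriesSummable_zetaMul hs
    have sb := ArithmeticFunction.LSeriesSummable_mul s2 s12
    refine ⟨ArithmeticFunction.LSeriesSummable_mul za sb, ?_⟩
    rw [hb, ArithmeticFunction.LSeries_mul' za sb, ArithmeticFunction.LSeries_mul' s2 s12,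
      S1_zetaMul, ArithmeticFunction.LSeries_mul' z1 s1, S1_LSeries ψ₁ hs, S1_LSeries ψ₂ hs,
      S1_LSeries (prodc ψ₁ ψ₂) hs]
    have hz : LSeries (fun n => (ArithmeticFunction.zeta : ArithmeticFunction ℂ) n) s =
        riemannZeta s := by
      rw [← ArithmeticFunction.LSeries_zeta_eq_riemannZeta hs]
      rfl
    rw [hz]
    ring

end Pool.Agent.Lib.H82O
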