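import Pool.Agent.Lib.H82O.DefsL

/-!
# H82O D08A: growth, reality and positivity
-/

set_option autoImplicit false

namespace Pool.Agent.Lib.H82O

open Pool.Agent.Lib.H57S Pool.Agent.Lib.H68T

lemma d08a_circle (s : ℂ) (hs : ‖s - 3 / 2‖ = 1) :
    1 / 2 ≤ s.re ∧ s.re ≤ 5 / 2 ∧ |s.im| ≤ 1 ∧ ‖s‖ ≤ 5 / 2 := by
  have e1 := Complex.abs_re_le_norm (s - 3 / 2)
  have e2 := Complex.abs_im_le_norm (s - 3 / 2)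
  rw [hs] at e1 e2
  have e3 : (s - 3 / 2).re = s.re - 3 / 2 := by simp
  have e4 : (s - 3 / 2).im = s.im := by simp
  rw [e3, abs_le] at e1
  rw [e4] at e2
  refine ⟨by linarith, by linarith, e2, ?_⟩
  have : s = (s - 3 / 2) + 3 / 2 := by ring
  calc ‖s‖ = ‖(s - 3 / 2) + 3 / 2‖ := by rw [← this]
    _ ≤ ‖s - 3 / 2‖ + ‖(3 / 2 : ℂ)‖ := norm_add_le _ _
    _ = 1 + 3 / 2 := by rw [hs]; norm_num
    _ = 5 / 2 := by norm_num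

lemma d08a_Z (s : ℂ) (hs : ‖s - 3 / 2‖ = 1) : ‖gl2_Z s‖ ≤ 64 := by
  obtain ⟨h1, h2, h3, -⟩ := d08a_circle s hs
  refine (gl2_Z_bound s h1 (by linarith)).trans ?_
  have : 0 ≤ |s.im| := abs_nonneg _
  nlinarith

lemma d08a_L (q : ℕ) [NeZero q] (χ : DirichletCharacter ℂ q) (hχ : χ ≠ 1) (s : ℂ)
    (hs : ‖s - 3 / 2‖ = 1) : ‖χ.LFunction s‖ ≤ 5 * q := by
  obtain ⟨h1, -, -, h4⟩ := d08a_circle s hs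
  refine (LFunction_bound q χ hχ s h1).trans ?_
  have : (0 : ℝ) ≤ q := Nat.cast_nonneg q
  nlinarith

/-- PROOF. On the circle `1/2 ≤ Re s ≤ 5/2`, `|Im s| ≤ 1`, `‖s‖ ≤ 5/2`; `‖gl2_Z s‖ ≤ 4 · 16 = 64`
(`gl2_Z_bound`), `‖L(s,χ)‖ ≤ 2 q ‖s‖ ≤ 5 q` (`LFunction_bound`). (See the proof of `estermann` in
`Pool/Agent/Lib/H57S/S2B.lean`.) -/
theorem growth_one (q : ℕ) [NeZero q] (χ : DirichletCharacter ℂ q) (hχ : χ ≠ 1) (s : ℂ)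
    (hs : ‖s - 3 / 2‖ = 1) : ‖gl2_Z s * χ.LFunction s‖ ≤ 320 * q := by
  rw [norm_mul]
  calc ‖gl2_Z s‖ * ‖χ.LFunction s‖ ≤ 64 * (5 * q) := by
        have := d08a_Z s hs
        have := d08a_L q χ hχ s hs
        gcongr
    _ = 320 * q := by ring

/-- PROOF. As `growth_one`: `64 · (5 r₁)(5 r₂)(5 r₁ r₂) = 8000 (r₁ r₂)²` (copy from `estermann`). -/
theorem growth_four (r₁ r₂ : ℕ) [NeZero r₁] [NeZero r₂] (ψ₁ : DirichletCharacter ℂ r₁)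
    (ψ₂ : DirichletCharacter ℂ r₂) (h₁ : ψ₁ ≠ 1) (h₂ : ψ₂ ≠ 1) (h₁₂ : prodc ψ₁ ψ₂ ≠ 1) (s : ℂ)
    (hs : ‖s - 3 / 2‖ = 1) :
    ‖gl2_Z s * (ψ₁.LFunction s * ψ₂.LFunction s * (prodc ψ₁ ψ₂).LFunction s)‖ ≤
      8000 * ((r₁ : ℝ) * r₂) ^ 2 := by
  rw [norm_mul, norm_mul, norm_mul]
  have b0 := d08a_Z s hs
  have b1 := d08a_L r₁ ψ₁ h₁ s hs
  have b2 := d08a_L r₂ ψ₂ h₂ s hs
  have b3 := d08a_L (r₁ * r₂) (prodc ψ₁ ψ₂) h₁₂ s hs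
  push_cast at b3
  calc ‖gl2_Z s‖ * (‖ψ₁.LFunction s‖ * ‖ψ₂.LFunction s‖ * ‖(prodc ψ₁ ψ₂).LFunction s‖)
      ≤ 64 * ((5 * r₁) * (5 * r₂) * (5 * (r₁ * r₂))) := by gcongr
    _ = 8000 * ((r₁ : ℝ) * r₂) ^ 2 := by ring

end Pool.Agent.Lib.H82O
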