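import Pool.Agent.Lib.H82O.DefsL

/-!
# H82O D08B: growth, reality and positivity
-/

set_option autoImplicit false

namespace Pool.Agent.Lib.H82O

open Pool.Agent.Lib.H57S Pool.Agent.Lib.H68T

theorem d08b_val {q : ℕ} (χ : DirichletCharacter ℂ q) (hs : χ ^ 2 = 1) (a : ZMod q) :
    (χ a).im = 0 := by
  rcases MulChar.isQuadratic_iff_sq_eq_one.mpr hs a with h | h | h <;> rw [h] <;> simp

theorem d08b_pow {x : ℝ} (hx : 0 < x) (σ : ℝ) : ((x : ℂ) ^ (-(σ : ℂ))).im = 0 := by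
  rw [← Complex.ofReal_neg, ← Complex.ofReal_cpow hx.le, Complex.ofReal_im]

/-- PROOF. `gl1_eqOn`: `L(σ,χ) = ∑' gl1_A χ n σ`, every term is real: `χ(n)` is real (`χ² = 1`:
values `0, ±1`, `MulChar.isQuadratic_iff_sq_eq_one`), and `(n+1)^(-σ)` is real (`Complex.ofReal_cpow`).
Or: `conj`. -/
theorem L_real (q : ℕ) [NeZero q] (χ : DirichletCharacter ℂ q) (hχ : χ ≠ 1) (hs : χ ^ 2 = 1)
    (σ : ℝ) (hσ : 0 < σ) : (χ.LFunction (σ : ℂ)).im = 0 := by
  have hs0 : 0 < (σ : ℂ).re := by simpa using hσ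
  rw [gl1_eqOn q χ hχ _ hs0]
  have hsumA := (gl1_tele (σ : ℂ).re hs0 (q * ‖(σ : ℂ)‖ / (σ : ℂ).re) (by positivity)
    (fun n => gl1_A χ n (σ : ℂ)) (fun n => gl1_A_norm q χ hχ n (σ : ℂ) hs0)).1
  rw [Complex.im_tsum hsumA]
  have h0 : ∀ n, (gl1_A χ n (σ : ℂ)).im = 0 := by
    intro n
    have h1 : (gl1_T χ (n + 1)).im = 0 := by
      unfold gl1_T
      rw [Complex.im_sum]
      exact Finset.sum_eq_zero fun k _ => d08b_val χ hs _
    unfold gl1_A
    rw [Complex.mul_im, h1, Complex.sub_im, d08b_pow (by positivity), d08b_pow (by positivity)]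
    simp
  simp [h0]

theorem d08b_two (q : ℕ) [NeZero q] (χ : DirichletCharacter ℂ q) : 0 < (χ.LFunction 2).re := by
  have h2 : (1 : ℝ) < (2 : ℂ).re := by norm_num
  rw [DirichletCharacter.LFunction_eq_LSeries χ h2]
  have h3 : Summable (LSeries.term (fun n => χ (n : ZMod q)) 2) :=
    DirichletCharacter.LSeriesSummable_of_one_lt_re χ h2
  have h4 := (Complex.hasSum_re h3.hasSum).add hasSum_zeta_two
  have hterm : ∀ n : ℕ, n ≠ 0 → LSeries.term (fun n => χ (n : ZMod q)) 2 n =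
      χ (n : ZMod q) * ((1 / (n : ℝ) ^ 2 : ℝ) : ℂ) := by
    intro n hn
    rw [LSeries.term_of_ne_zero hn]
    have : (n : ℂ) ^ (2 : ℂ) = (n : ℂ) ^ (2 : ℕ) := by
      rw [← Complex.cpow_natCast]; norm_num
    rw [this]
    push_cast
    ring
  have h5 : ∀ n : ℕ, 0 ≤ (LSeries.term (fun n => χ (n : ZMod q)) 2 n).re + 1 / (n : ℝ) ^ 2 := by
    intro n
    rcases Nat.eq_zero_or_pos n with rfl | hn
    · simp
    · rw [hterm n hn.ne', Complex.re_mul_ofReal]
      have h6 := (abs_le.1 ((Complex.abs_re_le_norm _).trans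
        (DirichletCharacter.norm_le_one χ (n : ZMod q)))).1
      have h7 : (0 : ℝ) ≤ 1 / (n : ℝ) ^ 2 := by positivity
      nlinarith
  have h6 := le_hasSum h4 1 (fun n _ => h5 n)
  rw [hterm 1 one_ne_zero] at h6
  simp only [Nat.cast_one, map_one, one_pow, div_one, Complex.ofReal_one, mul_one,
    Complex.one_re] at h6
  have hpi := Real.pi_lt_d2
  have hpi0 := Real.pi_pos
  have h7 : Real.pi ^ 2 / 6 < 2 := by nlinarith
  have h8 : (∑' n, LSeries.term (fun n => χ (n : ZMod q)) 2 n).re =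
    (LSeries (fun n => χ (n : ZMod q)) 2).re := rfl
  linarith

/-- PROOF. For real `s > 1`: `ζ(s) L(s,χ) = ∑ zetaMul χ n n^(-s)` has real part `≥ 1 > 0`
(`zetaMul_nonneg`, value 1 at `n = 1`), and `ζ(s) > 0`, so `Re L(s,χ) > 0`; let `s → 1`:
`Re L(1,χ) ≥ 0`, and `L(1,χ) ≠ 0` (`DirichletCharacter.LFunction_apply_one_ne_zero`) is real. -/
theorem L1_pos (q : ℕ) [NeZero q] (χ : DirichletCharacter ℂ q) (hχ : χ ≠ 1) (hs : χ ^ 2 = 1) :
    0 < (χ.LFunction 1).re := by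
  by_contra hcon
  push Not at hcon
  have hcont : ContinuousOn (fun σ : ℝ => (χ.LFunction (σ : ℂ)).re) (Set.Icc 1 2) := by
    apply Continuous.continuousOn
    exact Complex.continuous_re.comp
      ((DirichletCharacter.differentiable_LFunction hχ).continuous.comp Complex.continuous_ofReal)
  have h1 := intermediate_value_Icc (by norm_num : (1 : ℝ) ≤ 2) hcont
  have h2 : (0 : ℝ) ∈ Set.Icc ((χ.LFunction ((1 : ℝ) : ℂ)).re) ((χ.LFunction ((2 : ℝ) : ℂ)).re) := by
    refine ⟨by simpa using hcon, ?_⟩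
    have := d08b_two q χ
    push_cast
    exact this.le
  obtain ⟨σ, hσ, h3⟩ := h1 h2
  simp only at h3
  have h4 := L_real q χ hχ hs σ (by linarith [hσ.1])
  have h5 : χ.LFunction (σ : ℂ) = 0 := Complex.ext (by simpa using h3) (by simpa using h4)
  exact DirichletCharacter.LFunction_ne_zero_of_one_le_re χ (Or.inl hχ)
    (by simpa using hσ.1) h5

end Pool.Agent.Lib.H82O
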