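import Pool.Agent.Lib.H82O.DefsL

/-!
# H82O D08C: growth, reality and positivity
-/

set_option autoImplicit false

namespace Pool.Agent.Lib.H82O

open Pool.Agent.Lib.H57S Pool.Agent.Lib.H68T

theorem d08c_diff (σ : ℝ) (hσ : 0 < σ) (hσ1 : σ < 1) (a : ℝ) (ha : 0 < a) :
    (1 - σ) * (a + 1) ^ (-σ) ≤ (a + 1) ^ (1 - σ) - a ^ (1 - σ) := by
  obtain ⟨c, hc, he⟩ := exists_hasDerivAt_eq_slope (fun x : ℝ => x ^ (1 - σ))
    (fun x => (1 - σ) * x ^ (1 - σ - 1)) (by linarith : a < a + 1)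
    (fun x hx => (Real.hasDerivAt_rpow_const
      (Or.inl (by linarith [hx.1] : (0 : ℝ) < x).ne')).continuousAt.continuousWithinAt)
    (fun x hx => Real.hasDerivAt_rpow_const (Or.inl (by linarith [hx.1] : (0 : ℝ) < x).ne'))
  have h1 : a + 1 - a = 1 := by ring
  rw [h1, div_one] at he
  rw [← he]
  have e : 1 - σ - 1 = -σ := by ring
  rw [e]
  refine mul_le_mul_of_nonneg_left ?_ (by linarith)
  exact Real.rpow_le_rpow_of_nonpos (by linarith [hc.1]) hc.2.le (by linarith)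

theorem d08c_B (σ : ℝ) (n : ℕ) : gl2_B n (σ : ℂ) =
    (((σ - 1) * ((n : ℝ) + 1) ^ (-σ) + (((n : ℝ) + 2) ^ (1 - σ) - ((n : ℝ) + 1) ^ (1 - σ)) : ℝ)
      : ℂ) := by
  unfold gl2_B
  have h1 : ∀ x : ℝ, 0 < x → (x : ℂ) ^ (-((σ : ℂ) - 1)) = ((x ^ (1 - σ) : ℝ) : ℂ) := by
    intro x hx
    rw [Complex.ofReal_cpow hx.le]
    push_cast
    congr 1
    ring
  have h2 : ∀ x : ℝ, 0 < x → (x : ℂ) ^ (-(σ : ℂ)) = ((x ^ (-σ) : ℝ) : ℂ) := by
    intro x hx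
    rw [Complex.ofReal_cpow hx.le]
    push_cast
    rfl
  rw [h1 _ (by positivity), h1 _ (by positivity), h2 _ (by positivity)]
  simp only [Complex.ofReal_add, Complex.ofReal_mul, Complex.ofReal_sub, Complex.ofReal_one]

/-- PROOF. `gl2_eqOn`: `gl2_Z s = 1 + ∑' gl2_B n s` on `Re s > 0`. Alternatively for `0 < σ < 1`:
`(σ - 1) ζ(σ) = σ - σ (σ-1) ∫_1^∞ {u} u^(-σ-1) du` (analytic continuation), both terms positive for
`σ < 1`. With the series: `gl2_B n σ = (σ-1)(n+1)^(-σ) + (n+2)^(-(σ-1)) - (n+1)^(-(σ-1))` (unfold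
`gl2_B`), i.e. `(1-σ)(∫_{n+1}^{n+2} x^(-σ) dx - (n+1)^(-σ)) ≤ 0`, of absolute value
`≤ (1-σ)((n+1)^(-σ) - (n+2)^(-σ))`; the sum telescopes to at least `-(1-σ)`, so
`gl2_Z σ ≥ σ > 0`. -/
theorem Z_pos (σ : ℝ) (hσ : 0 < σ) (hσ1 : σ < 1) : ∃ z : ℝ, 0 < z ∧ gl2_Z (σ : ℂ) = (z : ℂ) := by
  have hs0 : 0 < (σ : ℂ).re := by simpa using hσ
  obtain ⟨b, hb⟩ : ∃ b : ℕ → ℝ, b = fun n : ℕ => (σ - 1) * ((n : ℝ) + 1) ^ (-σ) +
    (((n : ℝ) + 2) ^ (1 - σ) - ((n : ℝ) + 1) ^ (1 - σ)) := ⟨_, rfl⟩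
  have hB : ∀ n, gl2_B n (σ : ℂ) = (b n : ℂ) := by
    intro n; rw [hb]; exact d08c_B σ n
  have hsumB := (gl1_tele (σ : ℂ).re hs0 (‖(σ : ℂ) - 1‖ * ‖(σ : ℂ)‖ / (σ : ℂ).re) (by positivity)
    (fun n => gl2_B n (σ : ℂ)) (fun n => gl2_B_norm n (σ : ℂ) hs0)).1
  have hsb : Summable b := by
    have h1 := (Complex.hasSum_re hsumB.hasSum).summable
    refine h1.congr fun n => ?_
    simp only [hB, Complex.ofReal_re]
  refine ⟨1 + ∑' n, b n, ?_, ?_⟩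
  · have hpart : ∀ K : ℕ, (1 - σ) * (((K : ℝ) + 1) ^ (-σ) - 1) ≤ ∑ n ∈ Finset.range K, b n := by
      intro K
      induction K with
      | zero => simp
      | succ K ih =>
        rw [Finset.sum_range_succ]
        have h1 := d08c_diff σ hσ hσ1 ((K : ℝ) + 1) (by positivity)
        have e : (K : ℝ) + 1 + 1 = (K : ℝ) + 2 := by ring
        have e2 : ((K + 1 : ℕ) : ℝ) + 1 = (K : ℝ) + 2 := by push_cast; ring
        rw [e] at h1
        rw [e2]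
        have h2 : b K = (σ - 1) * ((K : ℝ) + 1) ^ (-σ) +
          (((K : ℝ) + 2) ^ (1 - σ) - ((K : ℝ) + 1) ^ (1 - σ)) := by rw [hb]
        rw [h2]
        linarith
    have hlow : ∀ K : ℕ, -(1 - σ) ≤ ∑ n ∈ Finset.range K, b n := by
      intro K
      have h1 : 0 ≤ ((K : ℝ) + 1) ^ (-σ) := by positivity
      have h2 := hpart K
      nlinarith
    have h3 := ge_of_tendsto' hsb.hasSum.tendsto_sum_nat hlow
    linarith
  · rw [gl2_eqOn _ hs0]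
    push_cast
    congr 1
    exact tsum_congr hB

end Pool.Agent.Lib.H82O
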