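import Pool.Agent.Lib.H82O.DefsL
import Pool.Agent.Lib.H82O.D08A
import Pool.Agent.Lib.H82O.D08B
import Pool.Agent.Lib.H82O.D08C

/-! Collects D08A, D08B, D08C. -/
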