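import Pool.Agent.Lib.H82O.D05
import Pool.Agent.Lib.H82O.D06
import Pool.Agent.Lib.H82O.D08

/-!
# H82O D10: a small `L(1,χ)` forces a real zero near 1
-/

set_option autoImplicit false

namespace Pool.Agent.Lib.H82O

open Pool.Agent.Lib.H57S Pool.Agent.Lib.H68T

theorem d10_exp : (0.505 : ℝ) ≤ Real.exp (-(2 / 3)) := by
  have h1 : Real.exp (2 / 3) ^ 3 = Real.exp 1 ^ 2 := by
    rw [← Real.exp_nat_mul, ← Real.exp_nat_mul]; norm_num
  have h2 := Real.exp_one_lt_d9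
  have h3 : Real.exp (2 / 3) ≤ 1.98 := by
    by_contra hcon
    push Not at hcon
    have h4 : (1.98 : ℝ) ^ 3 < Real.exp (2 / 3) ^ 3 :=
      pow_lt_pow_left₀ hcon (by norm_num) (by norm_num)
    rw [h1] at h4
    have h5 : Real.exp 1 ^ 2 ≤ 2.7182818286 ^ 2 :=
      pow_le_pow_left₀ (Real.exp_pos _).le h2.le 2
    norm_num at h4 h5
    linarith
  rw [Real.exp_neg, le_inv_comm₀ (by norm_num) (Real.exp_pos _)]
  refine h3.trans ?_
  norm_num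

theorem d10_pow (Q : ℝ) (hQ : 1 ≤ Q) (n : ℕ) (hn : 3 / 2 * Real.log Q ≤ n) :
    (0.505 : ℝ) ^ n ≤ Q⁻¹ := by
  have hQ0 : 0 < Q := by linarith
  calc (0.505 : ℝ) ^ n ≤ Real.exp (-(2 / 3)) ^ n := pow_le_pow_left₀ (by norm_num) d10_exp n
    _ = Real.exp (n * (-(2 / 3))) := by rw [Real.exp_nat_mul]
    _ ≤ Real.exp (-Real.log Q) := Real.exp_le_exp.2 (by nlinarith)
    _ = Q⁻¹ := by rw [Real.exp_neg, Real.exp_log hQ0]

theorem d10_exp7 (x : ℝ) (hx : x ≤ 7 / 100) : Real.exp x ≤ 1.076 := by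
  have h1 := Real.exp_le_exp.2 hx
  have h2 := Real.one_sub_le_exp_neg (7 / 100 : ℝ)
  rw [Real.exp_neg] at h2
  have h3 : Real.exp (7 / 100) ≤ (1 - 7 / 100)⁻¹ := by
    rw [le_inv_comm₀ (Real.exp_pos _) (by norm_num)]
    exact h2
  refine h1.trans (h3.trans ?_)
  norm_num

theorem d10_log4 : Real.log 4 ≤ 1.4 := by
  have h : (4 : ℝ) = 2 ^ 2 := by norm_num
  rw [h, Real.log_pow]
  have := Real.log_two_lt_d9
  push_cast
  linarith

/-- the negative value -/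
theorem d10_neg (q : ℕ) [NeZero q] (hq : 16 ≤ q) (χ : DirichletCharacter ℂ q) (hχ : χ ≠ 1)
    (hs : χ ^ 2 = 1) (h2 : χ ((2 : ℕ) : ZMod q) = 0) (h3 : χ ((3 : ℕ) : ZMod q) = 1)
    (ℓ : ℝ) (hℓ0 : 0 < ℓ) (hℓ : ℓ ≤ 1 / 100) (hlam : χ.LFunction 1 = (ℓ : ℂ))
    (hℓ2 : ℓ * (3 / 2 * Real.log q + 16) ≤ 7 / 100) :
    (χ.LFunction ((1 - ℓ / 2 : ℝ) : ℂ)).re < 0 := by
  by_contra hcon
  push Not at hcon
  set β : ℝ := 1 - ℓ / 2 with hβd
  have hβ1 : β < 1 := by rw [hβd]; linarith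
  have hβ : 0.995 ≤ β := by rw [hβd]; linarith
  have hβ0 : 0 < β := by linarith
  obtain ⟨z, hz0, hz⟩ := Z_pos β hβ0 hβ1
  obtain ⟨a, ha, a1, a2, a3, a4, hL⟩ := coeff_one q χ hs h2 h3
  have him := L_real q χ hχ hs β hβ0
  have hLβ : χ.LFunction (β : ℂ) = (((χ.LFunction (β : ℂ)).re : ℝ) : ℂ) := by
    apply Complex.ext
    · simp
    · simp [him]
  have hq1 : (16 : ℝ) ≤ q := by exact_mod_cast hq
  have hlog : 0 ≤ Real.log q := Real.log_nonneg (by linarith)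
  set N : ℕ := ⌈3 / 2 * Real.log q⌉₊ with hN
  have hN1 : 3 / 2 * Real.log q ≤ N := Nat.le_ceil _
  have hN2 : (N : ℝ) ≤ 3 / 2 * Real.log q + 1 := (Nat.ceil_lt_add_one (by positivity)).le
  have hmem : ∀ n ∈ ({1, 2, 3, 4} : Finset ℕ), 1 ≤ n ∧ n ≤ 4 := by decide
  have key := residue_T' (fun s => gl2_Z s * χ.LFunction s)
    (gl2_Z_differentiable.mul (DirichletCharacter.differentiable_LFunction hχ)) (ℓ : ℂ)
    (by simp only [gl2_Z_one, one_mul, hlam]) a ha (fun s hs => (hL s hs).1)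
    (fun s hs => by
      have hs1 : s ≠ 1 := by rintro rfl; simp at hs
      have hs2 : s - 1 ≠ 0 := sub_ne_zero.2 hs1
      rw [(hL s hs).2]
      rw [gl2_Z_eq s hs1]
      field_simp)
    (320 * q) (growth_one q χ hχ) (by
      rw [Complex.norm_real, Real.norm_eq_abs, abs_of_pos hℓ0]
      linarith)
    β (by linarith) hβ1 (z * (χ.LFunction (β : ℂ)).re) (mul_nonneg hz0.le hcon)
    (by
      rw [hz, Complex.ofReal_mul, ← hLβ]) (N + 15) {1, 2, 3, 4} (fun n hn => (hmem n hn).1)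
    (fun n hn => by
      have h4 := hmem n hn
      have h5 : (n : ℝ) ≤ 4 := by exact_mod_cast h4.2
      have h6 : (1 : ℝ) ≤ n := by exact_mod_cast h4.1
      have h7 : Real.log n ≤ Real.log 4 := Real.log_le_log (by linarith) h5
      have h8 := d10_log4
      have h9 : 0 ≤ Real.log n := Real.log_nonneg h6
      have h10 : 3 / 2 - β ≤ 0.505 := by linarith
      push_cast
      have h11 : (0 : ℝ) ≤ N := Nat.cast_nonneg _
      nlinarith)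
  have hsum : ∑ n ∈ ({1, 2, 3, 4} : Finset ℕ), a n / n = 29 / 12 := by
    rw [Finset.sum_insert (by decide), Finset.sum_insert (by decide),
      Finset.sum_insert (by decide), Finset.sum_singleton, a1, a2, a3, a4]
    norm_num
  rw [hsum, Complex.norm_real, Real.norm_eq_abs, abs_of_pos hℓ0] at key
  have e1 : 1 - β = ℓ / 2 := by rw [hβd]; ring
  have e2 : 3 - 2 * β = 1 + ℓ := by rw [hβd]; ring
  rw [e1, e2] at key
  -- right side
  have hR : (1 + ℓ) ^ (N + 15) ≤ 1.076 := by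
    have h4 : 1 + ℓ ≤ Real.exp ℓ := by
      have := Real.add_one_le_exp ℓ
      linarith
    calc (1 + ℓ) ^ (N + 15) ≤ Real.exp ℓ ^ (N + 15) := pow_le_pow_left₀ (by linarith) h4 _
      _ = Real.exp (((N + 15 : ℕ) : ℝ) * ℓ) := by rw [Real.exp_nat_mul]
      _ ≤ 1.076 := by
        apply d10_exp7
        push_cast
        nlinarith
  -- tail
  have hu0 : 0 ≤ 3 / 2 - β := by linarith
  have hu1 : 3 / 2 - β ≤ 0.505 := by linarith
  have hT : 4 * (320 * (q : ℝ)) * (3 / 2 - β) ^ (N + 15) / (β - 1 / 2) ≤ 0.1 := by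
    have h4 : (3 / 2 - β) ^ (N + 15) ≤ (q : ℝ)⁻¹ * (0.505 : ℝ) ^ 15 := by
      calc (3 / 2 - β) ^ (N + 15) ≤ (0.505 : ℝ) ^ (N + 15) := pow_le_pow_left₀ hu0 hu1 _
        _ = (0.505 : ℝ) ^ N * (0.505 : ℝ) ^ 15 := pow_add _ _ _
        _ ≤ _ := by
          have := d10_pow q (by linarith) N hN1
          have h0 : (0 : ℝ) ≤ (0.505 : ℝ) ^ 15 := by positivity
          exact mul_le_mul_of_nonneg_right this h0
    rw [div_le_iff₀ (by linarith)]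
    calc 4 * (320 * (q : ℝ)) * (3 / 2 - β) ^ (N + 15)
        ≤ 4 * (320 * (q : ℝ)) * ((q : ℝ)⁻¹ * (0.505 : ℝ) ^ 15) := by gcongr
      _ = 1280 * (0.505 : ℝ) ^ 15 := by
        have : (q : ℝ) ≠ 0 := by positivity
        field_simp
        norm_num
      _ ≤ 0.1 * 0.495 := by norm_num
      _ ≤ 0.1 * (β - 1 / 2) := by
        have : (0.495 : ℝ) ≤ β - 1 / 2 := by linarith
        linarith
  have hP : (1 / 2 : ℝ) ^ (N + 15) ≤ (1 / 2) ^ 15 := by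
    rw [pow_add]
    have : (1 / 2 : ℝ) ^ N ≤ 1 := pow_le_one₀ (by norm_num) (by norm_num)
    have h0 : (0 : ℝ) ≤ (1 / 2 : ℝ) ^ 15 := by positivity
    nlinarith
  have hP2 : (1 / 2 : ℝ) ^ 15 ≤ 0.0001 := by norm_num
  have h5 : ℓ / 2 * (2.316) ≤ ℓ * 1.076 := by
    calc ℓ / 2 * 2.316 ≤ ℓ / 2 * ((1 - (1 / 2) ^ (N + 15)) * (29 / 12) -
          4 * (320 * (q : ℝ)) * (3 / 2 - β) ^ (N + 15) / (β - 1 / 2)) := by
          apply mul_le_mul_of_nonneg_left _ (by linarith)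
          nlinarith
      _ ≤ ℓ * (1 + ℓ) ^ (N + 15) := key
      _ ≤ ℓ * 1.076 := mul_le_mul_of_nonneg_left hR hℓ0.le
  nlinarith

/-- PROOF. `χ ≠ 1` mod `q`, real, `ℓ = L(1,χ) > 0`. Put `β = 1 - ℓ/2` (`≥ 0.995`) and suppose
`Re L(β,χ) ≥ 0`. Apply `residue_T'` to `h = gl2_Z · L(·,χ)` (`h 1 = ℓ`: `gl2_Z_one`; entire:
`gl2_Z_differentiable`, `DirichletCharacter.differentiable_LFunction`), the coefficients of `coeff_one`
(`LSeries = ζ L = h/(s-1)`: `gl2_Z_eq`), `M = 320 q` (`growth_one`), `r = gl2_Z(β) L(β) ≥ 0` (`Z_pos`,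
`L_real`), `T = {1,2,3,4}`, `K = ⌈(3/2) log q⌉ + 15`. Here `∑_T a n/n = 1 + 1/2 + 2/3 + 1/4 = 29/12`,
`u = 3/2 - β = 1/2 + ℓ/2 ≤ 0.505`, `6 u log 4 ≤ 15`, `2^(-K) ≤ 2^(-15)`, and the tail is
`4 · 320 q u^K/(1-u) ≤ (1280/0.495) q (0.505)^((3/2) log q + 15)`. As `0.505 ≤ e^(-0.68)`
(`log 0.505 = -0.683..`), `(0.505)^((3/2) log q) ≤ q^(-1.02) ≤ q^(-1)` and
`0.505^15 ≤ 3.6 · 10^(-5)`: the tail is `≤ 2586 · 3.6 · 10^(-5) ≤ 0.1`. So
`(ℓ/2)(29/12 (1 - 2^(-15)) - 0.1) ≤ ℓ (1 + ℓ)^K ≤ ℓ exp(ℓ K) ≤ ℓ exp(0.07)`, i.e. `1.158 ≤ 1.073`,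
a contradiction. So `Re L(β,χ) < 0 < L(1,χ)`; the intermediate value theorem on `[β, 1]` for the real
continuous function `σ ↦ Re L(σ,χ)` gives a zero (`L_real`). -/
theorem exists_zero (q : ℕ) [NeZero q] (hq : 16 ≤ q) (χ : DirichletCharacter ℂ q) (hχ : χ ≠ 1)
    (hs : χ ^ 2 = 1) (h2 : χ ((2 : ℕ) : ZMod q) = 0) (h3 : χ ((3 : ℕ) : ZMod q) = 1)
    (hℓ : (χ.LFunction 1).re ≤ 1 / 100)
    (hℓ2 : (χ.LFunction 1).re * (3 / 2 * Real.log q + 16) ≤ 7 / 100) :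
    ∃ β : ℝ, 1 - (χ.LFunction 1).re / 2 < β ∧ β < 1 ∧ χ.LFunction (β : ℂ) = 0 := by
  set ℓ : ℝ := (χ.LFunction 1).re with hℓd
  have hℓ0 : 0 < ℓ := L1_pos q χ hχ hs
  have hlam : χ.LFunction 1 = (ℓ : ℂ) := by
    have h1 := L_real q χ hχ hs 1 one_pos
    rw [Complex.ofReal_one] at h1
    apply Complex.ext
    · simp [hℓd]
    · simp [h1]
  have hneg := d10_neg q hq χ hχ hs h2 h3 ℓ hℓ0 hℓ hlam hℓ2
  set g : ℝ → ℝ := fun σ => (χ.LFunction (σ : ℂ)).re with hg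
  have hgc : Continuous g :=
    Complex.continuous_re.comp
      ((DirichletCharacter.differentiable_LFunction hχ).continuous.comp Complex.continuous_ofReal)
  have hg1 : 0 < g 1 := by
    simp only [hg, Complex.ofReal_one]
    exact hℓ0
  obtain ⟨β, ⟨hb1, hb2⟩, hb3⟩ := intermediate_value_Ioo (a := 1 - ℓ / 2) (b := 1)
    (by linarith) hgc.continuousOn ⟨hneg, hg1⟩
  refine ⟨β, hb1, hb2, ?_⟩
  have hb0 : 0 < β := by linarith
  apply Complex.ext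
  · simpa [hg] using hb3
  · simpa using L_real q χ hχ hs β hb0

end Pool.Agent.Lib.H82O
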