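import Pool.Agent.Lib.H82O.D05
import Pool.Agent.Lib.H82O.D07
import Pool.Agent.Lib.H82O.D08

/-!
# H82O D11: the pair inequality
-/

set_option autoImplicit false

namespace Pool.Agent.Lib.H82O

open Pool.Agent.Lib.H57S Pool.Agent.Lib.H68T

theorem d11_exp : (0.501 : ℝ) ≤ Real.exp (-(2 / 3)) := by
  have h1 : Real.exp (2 / 3) ^ 3 = Real.exp 1 ^ 2 := by
    rw [← Real.exp_nat_mul, ← Real.exp_nat_mul]; norm_num
  have h2 := Real.exp_one_lt_d9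
  have h3 : Real.exp (2 / 3) ≤ 1.98 := by
    by_contra hcon
    push Not at hcon
    have h4 : (1.98 : ℝ) ^ 3 < Real.exp (2 / 3) ^ 3 :=
      pow_lt_pow_left₀ hcon (by norm_num) (by norm_num)
    rw [h1] at h4
    have h5 : Real.exp 1 ^ 2 ≤ 2.7182818286 ^ 2 :=
      pow_le_pow_left₀ (Real.exp_pos _).le h2.le 2
    norm_num at h4 h5
    linarith
  rw [Real.exp_neg, le_inv_comm₀ (by norm_num) (Real.exp_pos _)]
  refine h3.trans ?_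
  norm_num

theorem d11_pow (Q : ℝ) (hQ : 1 ≤ Q) (n : ℕ) (hn : 3 * Real.log Q ≤ n) :
    (0.501 : ℝ) ^ n ≤ (Q ^ 2)⁻¹ := by
  have hQ0 : 0 < Q := by linarith
  calc (0.501 : ℝ) ^ n ≤ Real.exp (-(2 / 3)) ^ n := pow_le_pow_left₀ (by norm_num) d11_exp n
    _ = Real.exp (n * (-(2 / 3))) := by rw [Real.exp_nat_mul]
    _ ≤ Real.exp (-(2 * Real.log Q)) := Real.exp_le_exp.2 (by nlinarith)
    _ = (Q ^ 2)⁻¹ := by
      have h1 : 2 * Real.log Q = Real.log (Q ^ 2) := by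
        rw [Real.log_pow]; push_cast; ring
      rw [Real.exp_neg, h1, Real.exp_log (by positivity)]

theorem d11_log10 : Real.log 10 ≤ 2.32 := by
  have h1 : 3 * Real.log 10 ≤ 10 * Real.log 2 := by
    have h2 : Real.log ((10 : ℝ) ^ 3) ≤ Real.log ((2 : ℝ) ^ 10) :=
      Real.log_le_log (by norm_num) (by norm_num)
    rw [Real.log_pow, Real.log_pow] at h2
    push_cast at h2
    exact h2
  have := Real.log_two_lt_d9
  linarith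

theorem d11_lam (r₁ r₂ : ℕ) [NeZero r₁] [NeZero r₂] (ψ₁ : DirichletCharacter ℂ r₁)
    (ψ₂ : DirichletCharacter ℂ r₂) (h₁ : ψ₁ ≠ 1) (h₂ : ψ₂ ≠ 1) (h₁₂ : prodc ψ₁ ψ₂ ≠ 1) :
    ‖ψ₁.LFunction 1 * ψ₂.LFunction 1 * (prodc ψ₁ ψ₂).LFunction 1‖ ≤
      8000 * ((r₁ : ℝ) * r₂) ^ 2 := by
  have b1 := LFunction_bound r₁ ψ₁ h₁ 1 (by norm_num)
  have b2 := LFunction_bound r₂ ψ₂ h₂ 1 (by norm_num)
  have b3 := LFunction_bound (r₁ * r₂) (prodc ψ₁ ψ₂) h₁₂ 1 (by norm_num)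
  rw [norm_one] at b1 b2 b3
  push_cast at b3
  have hR0 : 0 ≤ ((r₁ : ℝ) * r₂) ^ 2 := by positivity
  rw [norm_mul, norm_mul]
  calc ‖ψ₁.LFunction 1‖ * ‖ψ₂.LFunction 1‖ * ‖(prodc ψ₁ ψ₂).LFunction 1‖
      ≤ (2 * r₁ * 1) * (2 * r₂ * 1) * (2 * ((r₁ : ℝ) * r₂) * 1) := by gcongr
    _ = 8 * ((r₁ : ℝ) * r₂) ^ 2 := by ring
    _ ≤ _ := by linarith

/-- PROOF. Apply `residue_T'` to `h = gl2_Z · (L₁ L₂ L₁₂)`, `r = 0`, the coefficients and `T` of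
`coeff_four`, `M = 8000 R²`, `R = r₁ r₂ ≥ 10^6`, `K = ⌈3 log R⌉ + 20`. `u = 3/2 - β ≤ 0.501`,
`6 u log n ≤ 6 · 0.501 · log 10^7 ≤ 48.6 ≤ 3 log 10^6 + 20 ≤ K` (`log 10 ≤ 2.3026`, `≥ 2.3025`).
`2^(-K) ≤ 10^(-10)`. Tail: `4 · 8000 R² u^K/(1-u) ≤ 64129 R² (0.501)^(3 log R + 20)`; as
`0.501 ≤ e^(-2/3)` (`log 0.501 = -0.691..`), `(0.501)^(3 log R) ≤ R^(-2)`, and
`0.501^20 ≤ 1.1 · 10^(-6)`: the tail is `≤ 0.08`. So the left side of `residue_T'` is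
`≥ (1-β)(11.3 (1 - 10^(-10)) - 0.08) ≥ 11 (1-β)`, and
`(3 - 2β)^K = (1 + 2(1-β))^K ≤ exp(2 (1-β) K) ≤ exp(2 (1-β)(3 log R + 21))`. -/
theorem pair_ineq (r₁ r₂ : ℕ) [NeZero r₁] [NeZero r₂] (hR : 10 ^ 6 ≤ r₁ * r₂)
    (ψ₁ : DirichletCharacter ℂ r₁) (ψ₂ : DirichletCharacter ℂ r₂)
    (h₁ : ψ₁ ≠ 1) (h₂ : ψ₂ ≠ 1) (h₁₂ : prodc ψ₁ ψ₂ ≠ 1) (hs₁ : ψ₁ ^ 2 = 1) (hs₂ : ψ₂ ^ 2 = 1)
    (h21 : ψ₁ ((2 : ℕ) : ZMod r₁) = 0) (h22 : ψ₂ ((2 : ℕ) : ZMod r₂) = 0)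
    (h31 : ψ₁ ((3 : ℕ) : ZMod r₁) = 1) (h32 : ψ₂ ((3 : ℕ) : ZMod r₂) = 1)
    (hp1 : ∀ p ∈ ({5, 7, 11, 13} : Finset ℕ), ψ₁ (p : ZMod r₁) = -1)
    (hp2 : ∀ p ∈ ({5, 7, 11, 13} : Finset ℕ), ψ₂ (p : ZMod r₂) = -1)
    (β : ℝ) (hβ : 1 - 1 / 1000 ≤ β) (hβ1 : β < 1) (hz : ψ₁.LFunction (β : ℂ) = 0) :
    11 * (1 - β) ≤ ‖ψ₁.LFunction 1‖ * ‖ψ₂.LFunction 1‖ * ‖(prodc ψ₁ ψ₂).LFunction 1‖ *
      Real.exp (2 * (1 - β) * (3 * Real.log ((r₁ : ℝ) * r₂) + 21)) := by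
  obtain ⟨a, T, ha, hT, hsum, hL⟩ := coeff_four r₁ r₂ ψ₁ ψ₂ hs₁ hs₂ h21 h22 h31 h32 hp1 hp2
  set R : ℝ := (r₁ : ℝ) * r₂ with hRd
  have hR6 : (10 : ℝ) ^ 6 ≤ R := by rw [hRd]; exact_mod_cast hR
  have hR1 : 1 ≤ R := le_trans (by norm_num) hR6
  have hlogR : 6 * Real.log 10 ≤ Real.log R := by
    have h := Real.log_le_log (by norm_num) hR6
    rw [Real.log_pow] at h
    push_cast at h
    exact h
  have hlog10 := d11_log10
  have hlog10' : 0 ≤ Real.log 10 := Real.log_nonneg (by norm_num)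
  set N : ℕ := ⌈3 * Real.log R⌉₊ with hN
  have hN1 : 3 * Real.log R ≤ N := Nat.le_ceil _
  have hN2 : (N : ℝ) ≤ 3 * Real.log R + 1 :=
    (Nat.ceil_lt_add_one (by linarith)).le
  have key := residue_T' (fun s => gl2_Z s *
      (ψ₁.LFunction s * ψ₂.LFunction s * (prodc ψ₁ ψ₂).LFunction s))
    (gl2_Z_differentiable.mul (((DirichletCharacter.differentiable_LFunction h₁).mul
      (DirichletCharacter.differentiable_LFunction h₂)).mul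
      (DirichletCharacter.differentiable_LFunction h₁₂)))
    (ψ₁.LFunction 1 * ψ₂.LFunction 1 * (prodc ψ₁ ψ₂).LFunction 1)
    (by simp only [gl2_Z_one, one_mul]) a ha (fun s hs => (hL s hs).1)
    (fun s hs => by
      have hs1 : s ≠ 1 := by rintro rfl; simp at hs
      have hs2 : s - 1 ≠ 0 := sub_ne_zero.2 hs1
      rw [(hL s hs).2]
      rw [gl2_Z_eq s hs1]
      field_simp)
    (8000 * R ^ 2) (growth_four r₁ r₂ ψ₁ ψ₂ h₁ h₂ h₁₂) (d11_lam r₁ r₂ ψ₁ ψ₂ h₁ h₂ h₁₂)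
    β (by linarith) hβ1 0 le_rfl
    (by
      rw [hz]
      simp) (N + 20) T (fun n hn => (hT n hn).1)
    (fun n hn => by
      have h4 := hT n hn
      have h5 : (n : ℝ) ≤ 10 ^ 7 := by exact_mod_cast h4.2
      have h6 : (1 : ℝ) ≤ n := by exact_mod_cast h4.1
      have h7 : Real.log n ≤ 7 * Real.log 10 := by
        have h := Real.log_le_log (by linarith) h5
        rw [Real.log_pow] at h
        push_cast at h
        exact h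
      have h9 : 0 ≤ Real.log n := Real.log_nonneg h6
      have h10 : 3 / 2 - β ≤ 0.501 := by linarith
      have h11 : 0 ≤ 3 / 2 - β := by linarith
      push_cast
      have h12 : (3 / 2 - β) * Real.log n ≤ 0.501 * (7 * Real.log 10) :=
        mul_le_mul h10 h7 h9 (by norm_num)
      linarith)
  have hδ : 0 < 1 - β := by linarith
  have hu0 : 0 ≤ 3 / 2 - β := by linarith
  have hu1 : 3 / 2 - β ≤ 0.501 := by linarith
  -- tail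
  have hTl : 4 * (8000 * R ^ 2) * (3 / 2 - β) ^ (N + 20) / (β - 1 / 2) ≤ 0.08 := by
    have h4 : (3 / 2 - β) ^ (N + 20) ≤ (R ^ 2)⁻¹ * (0.501 : ℝ) ^ 20 := by
      calc (3 / 2 - β) ^ (N + 20) ≤ (0.501 : ℝ) ^ (N + 20) := pow_le_pow_left₀ hu0 hu1 _
        _ = (0.501 : ℝ) ^ N * (0.501 : ℝ) ^ 20 := pow_add _ _ _
        _ ≤ _ := by
          have := d11_pow R hR1 N hN1
          have h0 : (0 : ℝ) ≤ (0.501 : ℝ) ^ 20 := by positivity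
          exact mul_le_mul_of_nonneg_right this h0
    rw [div_le_iff₀ (by linarith)]
    calc 4 * (8000 * R ^ 2) * (3 / 2 - β) ^ (N + 20)
        ≤ 4 * (8000 * R ^ 2) * ((R ^ 2)⁻¹ * (0.501 : ℝ) ^ 20) := by gcongr
      _ = 32000 * (0.501 : ℝ) ^ 20 := by
        have : R ≠ 0 := by positivity
        field_simp
        norm_num
      _ ≤ 0.08 * 0.499 := by norm_num
      _ ≤ 0.08 * (β - 1 / 2) := by
        have : (0.499 : ℝ) ≤ β - 1 / 2 := by linarith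
        linarith
  have hP : (1 / 2 : ℝ) ^ (N + 20) ≤ (1 / 2) ^ 20 := by
    rw [pow_add]
    have : (1 / 2 : ℝ) ^ N ≤ 1 := pow_le_one₀ (by norm_num) (by norm_num)
    have h0 : (0 : ℝ) ≤ (1 / 2 : ℝ) ^ 20 := by positivity
    nlinarith
  have hP2 : (1 / 2 : ℝ) ^ 20 ≤ 0.0001 := by norm_num
  have hP0 : (0 : ℝ) ≤ (1 / 2 : ℝ) ^ (N + 20) := by positivity
  have hS : (11.08 : ℝ) ≤ (1 - (1 / 2 : ℝ) ^ (N + 20)) * ∑ n ∈ T, a n / n := by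
    have h4 : (0.9999 : ℝ) ≤ 1 - (1 / 2 : ℝ) ^ (N + 20) := by linarith
    calc (11.08 : ℝ) ≤ 0.9999 * 11.3 := by norm_num
      _ ≤ _ := mul_le_mul h4 hsum (by norm_num) (by linarith)
  have hE : (3 - 2 * β) ^ (N + 20) ≤ Real.exp (2 * (1 - β) * (3 * Real.log R + 21)) := by
    have h1 : (3 - 2 * β) ≤ Real.exp (2 * (1 - β)) := by
      have := Real.add_one_le_exp (2 * (1 - β))
      linarith
    calc (3 - 2 * β) ^ (N + 20) ≤ Real.exp (2 * (1 - β)) ^ (N + 20) :=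
          pow_le_pow_left₀ (by linarith) h1 _
      _ = Real.exp (((N + 20 : ℕ) : ℝ) * (2 * (1 - β))) := by rw [Real.exp_nat_mul]
      _ ≤ _ := by
        apply Real.exp_le_exp.2
        push_cast
        nlinarith
  calc 11 * (1 - β) = (1 - β) * 11 := by ring
    _ ≤ (1 - β) * ((1 - (1 / 2 : ℝ) ^ (N + 20)) * ∑ n ∈ T, a n / n
      - 4 * (8000 * R ^ 2) * (3 / 2 - β) ^ (N + 20) / (β - 1 / 2)) :=
        mul_le_mul_of_nonneg_left (by linarith) hδ.le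
    _ ≤ ‖ψ₁.LFunction 1 * ψ₂.LFunction 1 * (prodc ψ₁ ψ₂).LFunction 1‖ *
        (3 - 2 * β) ^ (N + 20) := key
    _ ≤ _ := by
      rw [norm_mul, norm_mul]
      exact mul_le_mul_of_nonneg_left hE (by positivity)

end Pool.Agent.Lib.H82O
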