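import Pool.Agent.Lib.H63.TSPTable
import Pool.Agent.Lib.H63.TSPInject
import Pool.Agent.Lib.H82O.Defs

/-!
# H82O E01: counting paths of the automaton exactly
-/

set_option autoImplicit false

namespace Pool.Agent.Lib.H82O

open Pool.Agent.Lib.H63.TSP

/-- the three transitions of the node with key `x` (the same search as `Tb.find`, written with
`bif` for fast kernel evaluation) -/
def look : Tb → ℕ → ℕ × ℕ × ℕ
  | .nil, _ => (0, 0, 0)
  | .node l k _ a b c r, x => bif Nat.beq x k then (a, b, c) else bif Nat.blt x k then look l x else look r x

/-- number of words of length `K` readable from the state with key `k` and length `len` (numeric keys: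
`k = enc w`, `len = w.length`); a transition `t = 2 d + flag`: append the digit (`E = 1`, `P = 2`,
`Q = 3`), drop `d` letters, flag `1` means forbidden -/
def paths (T : Tb) : ℕ → ℕ → ℕ → ℕ
  | 0, _, _ => 1
  | K + 1, k, len =>
    let x := look T k
    (bif Nat.beq (x.1 % 2) 1 then 0 else
      paths T K ((k + 4 ^ len) / 4 ^ (x.1 / 2)) (len + 1 - x.1 / 2)) +
    (bif Nat.beq (x.2.1 % 2) 1 then 0 else
      paths T K ((k + 2 * 4 ^ len) / 4 ^ (x.2.1 / 2)) (len + 1 - x.2.1 / 2)) +
    (bif Nat.beq (x.2.2 % 2) 1 then 0 else
      paths T K ((k + 3 * 4 ^ len) / 4 ^ (x.2.2 / 2)) (len + 1 - x.2.2 / 2))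

theorem e01_look {p : ℕ → ℕ → ℕ → ℕ → ℕ → Bool} : ∀ (t : Tb) (x : ℕ), t.all p = true →
    t.find x ≠ 0 → p x (t.find x) (look t x).1 (look t x).2.1 (look t x).2.2 = true
  | .nil, _, _, h => by simp [Tb.find] at h
  | .node l k h a b c r, x, hc, hne => by
    simp only [Tb.all, Bool.and_eq_true] at hc
    obtain ⟨⟨h1, h2⟩, h3⟩ := hc
    simp only [Tb.find] at hne ⊢
    simp only [look]
    split_ifs at hne ⊢ with h5 h6
    · subst h5
      simp only [Nat.beq_refl, cond_true]
      exact h3
    · have e1 : Nat.beq x k = false := by
        rw [Bool.eq_false_iff]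
        exact fun h => h5 (Nat.eq_of_beq_eq_true h)
      have e2 : Nat.blt x k = true := (Nat.blt_eq (x := x) (y := k)).mpr h6
      rw [e1, e2, cond_false, cond_true]
      exact e01_look l x h1 hne
    · have e1 : Nat.beq x k = false := by
        rw [Bool.eq_false_iff]
        exact fun h => h5 (Nat.eq_of_beq_eq_true h)
      have e2 : Nat.blt x k = false := by
        rw [Bool.eq_false_iff]
        exact fun h => h6 ((Nat.blt_eq (x := x) (y := k)).mp h)
      rw [e1, e2, cond_false, cond_false]
      exact e01_look r x h2 hne

theorem e01_append (w : List J) (j : J) : enc (w ++ [j]) = enc w + digit j * 4 ^ w.length := by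
  induction w with
  | nil => simp [enc]
  | cons k w ih =>
    rw [List.cons_append]
    simp only [enc]
    rw [ih, List.length_cons]
    ring

theorem e01_drop (w : List J) (d : ℕ) : enc (w.drop d) = enc w / 4 ^ d := by
  induction d generalizing w with
  | zero => simp
  | succ d ih =>
    cases w with
    | nil => simp [enc]
    | cons k w =>
      rw [List.drop_succ_cons, ih w, pow_succ', ← Nat.div_div_eq_div_mul]
      congr 1
      simp only [enc]
      have : digit k < 4 := by cases k <;> simp [digit]
      omega

/-- PROOF. Model: `count_bound` in `Pool/Agent/Lib/H63/TSPCount.lean` (same induction on `K`, splitting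
`s` by the letter; forbidden transitions contribute 0 by `impossible`, the others by the induction
hypothesis for `s.image F` and the word `(w ++ [j]).drop (t/2)`), without weights. The numeric state
`(k, len)` corresponds to the word: `enc ((w ++ [j]).drop d) = (enc w + digit j * 4 ^ w.length) / 4 ^ d` and
length `w.length + 1 - d`. The existence of the node in the checked table gives
`(trans ..).1 = true` (`Tb.find_spec`, `nodeOk`, and `look` finds the same node as `find`). -/
theorem count_paths {m : ℤ} (hb : Bad m) {T : Tb} {Fo : Fb} {S N D : ℕ}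
    (hT : tableOk T Fo S N D = true) :
    ∀ (K : ℕ) (w : List J) (s : Finset V), T.find (enc w) ≠ 0 →
      (∀ v ∈ s, X m v ∧ St m w v) → (∀ u ∈ s, ∀ v ∈ s, word K u = word K v → u = v) →
      s.card ≤ paths T K (enc w) w.length := by
  rw [tableOk, Bool.and_eq_true] at hT
  obtain ⟨hF, hall⟩ := hT
  intro K
  induction K with
  | zero =>
    intro w s hw hs hinj
    exact Finset.card_le_one.mpr (fun u hu v hv => hinj u hu v hv rfl)
  | succ K ih =>
    intro w s hw hs hinj
    have habc := e01_look T (enc w) hall hw
    simp only [nodeOk, Bool.and_eq_true, decide_eq_true_eq] at habc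
    obtain ⟨⟨⟨⟨⟨h1, h2⟩, h3⟩, h4⟩, h5⟩, h6⟩ := habc
    have hdec : dec 64 (enc w) = w := enc_inj _ _ h1
    rw [hdec] at h3 h4 h5
    clear h6 h2
    -- split s
    have hsplit : s.card = (s.filter (fun v => letter v = .E)).card
        + (s.filter (fun v => letter v = .P)).card + (s.filter (fun v => letter v = .Q)).card := by
      have e1 : s.card = (s.filter (fun v => letter v = .E)).card
          + (s.filter (fun v => ¬ letter v = .E)).card :=
        (Finset.card_filter_add_card_filter_not (s := s) (fun v => letter v = .E)).symm
      have e2 : (s.filter (fun v => ¬ letter v = .E)).card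
          = (s.filter (fun v => letter v = .P)).card + (s.filter (fun v => letter v = .Q)).card := by
        rw [← Finset.card_union_of_disjoint]
        · congr 1
          ext v
          simp only [Finset.mem_filter, Finset.mem_union]
          constructor
          · rintro ⟨hv, hl⟩
            cases h : letter v
            · exact absurd h hl
            · exact Or.inl ⟨hv, rfl⟩
            · exact Or.inr ⟨hv, rfl⟩
          · rintro (⟨hv, hl⟩ | ⟨hv, hl⟩) <;> exact ⟨hv, by rw [hl]; decide⟩
        · rw [Finset.disjoint_left]
          intro v hv hv'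
          simp only [Finset.mem_filter] at hv hv'
          rw [hv.2] at hv'
          exact absurd hv'.2 (by decide)
      rw [e1, e2]; ring
    have main : ∀ (j : J) (t : ℕ), (trans T Fo w j t).1 = true →
        (s.filter (fun v => letter v = j)).card ≤ (bif Nat.beq (t % 2) 1 then 0 else
          paths T K ((enc w + digit j * 4 ^ w.length) / 4 ^ (t / 2)) (w.length + 1 - t / 2)) := by
      intro j t ht
      have hcard : ((s.filter (fun v => letter v = j)).image F).card
          = (s.filter (fun v => letter v = j)).card :=
        Finset.card_image_of_injOn (fun u hu v hv h => by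
          have hu' := Finset.mem_filter.mp (Finset.mem_coe.mp hu)
          have hv' := Finset.mem_filter.mp (Finset.mem_coe.mp hv)
          exact F_injOn (hs u hu'.1).1 (hs v hv'.1).1 h)
      have himg : ∀ v ∈ (s.filter (fun v => letter v = j)).image F,
          X m v ∧ St m ((w ++ [j]).drop (t / 2)) v := by
        intro v hv
        obtain ⟨u, hu, rfl⟩ := Finset.mem_image.mp hv
        obtain ⟨hu1, hu2⟩ := Finset.mem_filter.mp hu
        refine ⟨X_F (hs u hu1).1, ?_⟩
        apply St_drop
        rw [← hu2]
        exact St_snoc (hs u hu1).2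
      have hinj' : ∀ u ∈ (s.filter (fun v => letter v = j)).image F,
          ∀ v ∈ (s.filter (fun v => letter v = j)).image F, word K u = word K v → u = v := by
        intro u hu v hv huv
        obtain ⟨u', hu', rfl⟩ := Finset.mem_image.mp hu
        obtain ⟨v', hv', rfl⟩ := Finset.mem_image.mp hv
        obtain ⟨hu1, hu2⟩ := Finset.mem_filter.mp hu'
        obtain ⟨hv1, hv2⟩ := Finset.mem_filter.mp hv'
        have : u' = v' := hinj u' hu1 v' hv1 (by simp only [word]; rw [hu2, hv2, huv])
        rw [this]
      unfold Pool.Agent.Lib.H63.TSP.trans at ht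
      split_ifs at ht with hpar
      · obtain ⟨c', hc'⟩ := Fo.find_spec _ hF ht
        have hempty : (s.filter (fun v => letter v = j)).image F = ∅ := by
          rw [Finset.eq_empty_iff_forall_notMem]
          intro v hv
          obtain ⟨_, u, hu, hw', -⟩ := himg v hv
          exact impossible hb hc' hu hw'
        rw [← hcard, hempty, Finset.card_empty]
        exact Nat.zero_le _
      · simp only [ne_eq, decide_not, Bool.not_eq_eq_eq_not, Bool.not_true,
          decide_eq_false_iff_not] at ht
        have h7 := ih _ ((s.filter (fun v => letter v = j)).image F) ht himg hinj'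
        have e1 : Nat.beq (t % 2) 1 = false := by
          rw [Bool.eq_false_iff]
          exact fun h => hpar (Nat.eq_of_beq_eq_true h)
        rw [e1, cond_false]
        rw [hcard, e01_drop, e01_append, List.length_drop, List.length_append, List.length_singleton] at h7
        exact h7
    have mE := main .E _ h3
    have mP := main .P _ h4
    have mQ := main .Q _ h5
    rw [hsplit]
    have hp : paths T (K + 1) (enc w) w.length =
        (bif Nat.beq ((look T (enc w)).1 % 2) 1 then 0 else
          paths T K ((enc w + 4 ^ w.length) / 4 ^ ((look T (enc w)).1 / 2)) (w.length + 1 - (look T (enc w)).1 / 2)) +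
        (bif Nat.beq ((look T (enc w)).2.1 % 2) 1 then 0 else
          paths T K ((enc w + 2 * 4 ^ w.length) / 4 ^ ((look T (enc w)).2.1 / 2)) (w.length + 1 - (look T (enc w)).2.1 / 2)) +
        (bif Nat.beq ((look T (enc w)).2.2 % 2) 1 then 0 else
          paths T K ((enc w + 3 * 4 ^ w.length) / 4 ^ ((look T (enc w)).2.2 / 2)) (w.length + 1 - (look T (enc w)).2.2 / 2)) := rfl
    rw [hp]
    refine Nat.add_le_add (Nat.add_le_add ?_ mP) mQ
    have : digit J.E * 4 ^ w.length = 4 ^ w.length := by simp [digit]
    rw [this] at mE
    exact mE

end Pool.Agent.Lib.H82O
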