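import Pool.Agent.Lib.H82O.E02T

/-!
# H82O E02A: kernel computation of the number of paths
-/

set_option autoImplicit false
set_option maxRecDepth 100000

namespace Pool.Agent.Lib.H82O

open Pool.Agent.Lib.H63.TSP

theorem pathsI_29 : pathsI at0 29 1 ≤ 1907 := by decide +kernel

theorem paths_29 : paths T32.tb 29 0 0 ≤ 1907 := paths_of_at pathsI_29

end Pool.Agent.Lib.H82O
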