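import Pool.Agent.Lib.H82O.E02T

/-!
# H82O E02D: kernel computation of the number of paths
-/

set_option autoImplicit false
set_option maxRecDepth 100000

namespace Pool.Agent.Lib.H82O

open Pool.Agent.Lib.H63.TSP

theorem pathsI_36 : pathsI at0 36 1 ≤ 3371 := by decide +kernel

theorem paths_36 : paths T32.tb 36 0 0 ≤ 3371 := paths_of_at pathsI_36

end Pool.Agent.Lib.H82O
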