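import Pool.Agent.Lib.H82O.E02A
import Pool.Agent.Lib.H82O.E02B
import Pool.Agent.Lib.H82O.E02C
import Pool.Agent.Lib.H82O.E02D
import Pool.Agent.Lib.H82O.E02E

/-!
# H82O E03: the size of `X m` for `m ≥ 10^13`
-/

set_option autoImplicit false

namespace Pool.Agent.Lib.H82O

open Pool.Agent.Lib.H63.TSP

lemma e03_ind (K : ℕ) (hK : 38 ≤ K) :
    (1116 ^ 5) ^ K * (211368 ^ 5 * 3 ^ 29) ≤ (3 * 1000 ^ 5) ^ K * (1000 ^ 5 * 1907 ^ 5) := by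
  induction K, hK using Nat.le_induction with
  | base => norm_num
  | succ K hK ih =>
    calc (1116 ^ 5) ^ (K + 1) * (211368 ^ 5 * 3 ^ 29)
        = 1116 ^ 5 * ((1116 ^ 5) ^ K * (211368 ^ 5 * 3 ^ 29)) := by ring
      _ ≤ (3 * 1000 ^ 5) * ((3 * 1000 ^ 5) ^ K * (1000 ^ 5 * 1907 ^ 5)) :=
          Nat.mul_le_mul (by norm_num) ih
      _ = (3 * 1000 ^ 5) ^ (K + 1) * (1000 ^ 5 * 1907 ^ 5) := by ring

lemma e03_small {c N K m : ℕ} (hc : c ≤ N) (hK : 3 ^ K ≤ 12 * m)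
    (hN : N ^ 5 * 3 ^ 29 ≤ 1907 ^ 5 * 3 ^ K) : c ^ 5 * 3 ^ 29 ≤ 1907 ^ 5 * (12 * m) :=
  calc c ^ 5 * 3 ^ 29 ≤ N ^ 5 * 3 ^ 29 := Nat.mul_le_mul_right _ (Nat.pow_le_pow_left hc 5)
    _ ≤ 1907 ^ 5 * 3 ^ K := hN
    _ ≤ 1907 ^ 5 * (12 * m) := Nat.mul_le_mul_left _ hK

/-- PROOF. `c = (XF m).card`. For every `K` with `4 m < 3^K` (`inject`, see the use of `count_bound` in
`Pool/Agent/Results/MP_e3dd12_nt/ThreeSquareCount.lean`): `c ≤ paths T32.tb K 0 0` (`count_paths` with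
`w = []`; `St` holds trivially) and `1000^K * 1000 * c ≤ 1116^K * 211368` (`count_bound`). Let `K` be the
least one: `3^K ≤ 12 m` (`Nat.log`), `K ≥ 29` because `3^28 < 4 · 10^13`. `K = 29`: `c ≤ 1907` and
`12 m ≥ 3^29`. `K = 30`: use `31`: `c ≤ 2239`, `2239^5 · 3^29 ≤ 1907^5 · 3^30`. `K = 31`: use `34`.
`K = 32`: use `36`. `33 ≤ K ≤ 37`: use `38` (`4083^5 ≤ 1907^5 · 3^4`). `K ≥ 38`: from
`c ≤ (1116/1000)^K · 211.368`: `c^5 3^29 ≤ 1907^5 3^K` reduces to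
`(3 · 1000^5)^K 1907^5 1000^5 ≥ (1116^5)^K 211368^5 3^29`, true for `K = 38` and preserved by
`K → K+1` as `1116^5 ≤ 3 · 1000^5`. -/
theorem XF_card (m : ℕ) (hm : m % 6 = 1) (hb : Bad m) (hm13 : 10 ^ 13 ≤ m) :
    (XF m).card ^ 5 * 3 ^ 29 ≤ 1907 ^ 5 * (12 * m) := by
  have hm3 : (m : ℤ) % 3 = 1 := by omega
  obtain ⟨K, hK1, hK2⟩ : ∃ K : ℕ, 4 * m < 3 ^ K ∧ 3 ^ K ≤ 12 * m := by
    have hne : 4 * m ≠ 0 := by omega
    refine ⟨Nat.log 3 (4 * m) + 1, Nat.lt_pow_succ_log_self (by norm_num) _, ?_⟩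
    rw [pow_succ, mul_comm]
    have := Nat.mul_le_mul_left 3 (Nat.pow_log_le_self 3 hne)
    omega
  have htab : tableOk T32.tb T32.fb 1000 1116 1000 = true := by
    rw [tableOk, T32.fb_ok, T32.tb_ok]; rfl
  have hinj : ∀ L : ℕ, K ≤ L → ∀ u ∈ XF (m : ℤ), ∀ v ∈ XF (m : ℤ), word L u = word L v → u = v := by
    intro L hL u hu v hv h
    have h1 : (4 * m : ℕ) < 3 ^ L := lt_of_lt_of_le hK1 (Nat.pow_le_pow_right (by norm_num) hL)
    exact inject hm3 (by exact_mod_cast h1) (mem_XF.1 hu) (mem_XF.1 hv) h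
  have hst : ∀ v ∈ XF (m : ℤ), X (m : ℤ) v ∧ St (m : ℤ) [] v := fun v hv =>
    ⟨mem_XF.1 hv, v, mem_XF.1 hv, rfl, rfl⟩
  have hpath : ∀ L : ℕ, K ≤ L → (XF (m : ℤ)).card ≤ paths T32.tb L 0 0 := by
    intro L hL
    exact count_paths hb htab L [] (XF m) (by rw [T32.tb_start]; norm_num) hst (hinj L hL)
  have hK29 : 29 ≤ K := by
    by_contra hc
    have h1 : 3 ^ K ≤ 3 ^ 28 := Nat.pow_le_pow_right (by norm_num) (by omega)
    have h2 : 3 ^ 28 < 4 * 10 ^ 13 := by norm_num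
    omega
  rcases Nat.lt_or_ge K 38 with hK38 | hK38
  · have cases : K = 29 ∨ K = 30 ∨ K = 31 ∨ K = 32 ∨ (33 ≤ K ∧ K ≤ 38) := by omega
    rcases cases with h | h | h | h | h
    · exact e03_small ((hpath 29 (by omega)).trans paths_29) hK2 (by rw [h])
    · exact e03_small ((hpath 31 (by omega)).trans paths_31) hK2 (by rw [h]; norm_num)
    · exact e03_small ((hpath 34 (by omega)).trans paths_34) hK2 (by rw [h]; norm_num)
    · exact e03_small ((hpath 36 (by omega)).trans paths_36) hK2 (by rw [h]; norm_num)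
    · refine e03_small ((hpath 38 (by omega)).trans paths_38) hK2 ?_
      have h1 : 3 ^ 33 ≤ 3 ^ K := Nat.pow_le_pow_right (by norm_num) h.1
      calc 4083 ^ 5 * 3 ^ 29 ≤ 1907 ^ 5 * 3 ^ 33 := by norm_num
        _ ≤ 1907 ^ 5 * 3 ^ K := Nat.mul_le_mul_left _ h1
  · have hcount := count_bound hb htab K [] (XF m) (by rw [T32.tb_start]; norm_num) hst
      (hinj K le_rfl)
    rw [T32.tb_start] at hcount
    set c := (XF (m : ℤ)).card with hc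
    have h2 := Nat.pow_le_pow_left hcount 5
    have h3 := e03_ind K hK38
    have h4 : (1000 ^ 5) ^ K * 1000 ^ 5 * (c ^ 5 * 3 ^ 29) ≤
        (1000 ^ 5) ^ K * 1000 ^ 5 * (1907 ^ 5 * 3 ^ K) := by
      calc (1000 ^ 5) ^ K * 1000 ^ 5 * (c ^ 5 * 3 ^ 29)
          = (1000 ^ K * 1000 * c) ^ 5 * 3 ^ 29 := by
            rw [mul_pow, mul_pow, ← pow_mul, ← pow_mul, mul_comm 5 K]; ring
        _ ≤ (1116 ^ K * 211368) ^ 5 * 3 ^ 29 := Nat.mul_le_mul_right _ h2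
        _ = (1116 ^ 5) ^ K * (211368 ^ 5 * 3 ^ 29) := by
            rw [mul_pow, ← pow_mul, ← pow_mul, mul_comm 5 K, mul_assoc]
        _ ≤ (3 * 1000 ^ 5) ^ K * (1000 ^ 5 * 1907 ^ 5) := h3
        _ = (1000 ^ 5) ^ K * 1000 ^ 5 * (1907 ^ 5 * 3 ^ K) := by rw [mul_pow]; ring
    have h5 : c ^ 5 * 3 ^ 29 ≤ 1907 ^ 5 * 3 ^ K := Nat.le_of_mul_le_mul_left h4 (by positivity)
    exact h5.trans (Nat.mul_le_mul_left _ hK2)

end Pool.Agent.Lib.H82O
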