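import Pool.Agent.Lib.H82O.K02

/-!
# H82O K03A: different squarefree numbers give independent characters
-/

set_option autoImplicit false

namespace Pool.Agent.Lib.H82O

open Pool.Agent.Lib.H57S

theorem k03a_key (a b p : ℕ) (ha : Squarefree a) (hb : b ≠ 0) (ha2 : a % 2 = 1) (hb2 : b % 2 = 1) (hp : p.Prime) (hpa : p ∣ a)
    (hpb : ¬ p ∣ b) : ∃ n : ℕ, n % 2 = 1 ∧ jacobiSym ((a : ℤ) * b) n = -1 := by
  have : Fact p.Prime := ⟨hp⟩
  obtain ⟨a', rfl⟩ := hpa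
  have hp2 : p ≠ 2 := by
    rintro rfl
    omega
  have hpa' : ¬ p ∣ a' := by
    intro h
    obtain ⟨c, rfl⟩ := h
    have := ha p ⟨c, by ring⟩
    exact hp.one_lt.ne' (Nat.isUnit_iff.1 this)
  have ha'0 : a' ≠ 0 := by
    rintro rfl
    exact hpa' (dvd_zero _)
  have hcop : Nat.Coprime p (8 * a' * b) := by
    rw [Nat.Prime.coprime_iff_not_dvd hp, hp.dvd_mul, hp.dvd_mul]
    rintro ((h | h) | h)
    · have h8 : p ∣ 2 ^ 3 := h
      exact hp2 ((Nat.prime_dvd_prime_iff_eq hp Nat.prime_two).1 (hp.dvd_of_dvd_pow h8))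
    · exact hpa' h
    · exact hpb h
  obtain ⟨r, hr⟩ : ∃ r : ZMod p, ¬ IsSquare r := FiniteField.exists_nonsquare (by rw [ZMod.ringChar_zmod_n]; exact hp2)
  obtain ⟨n, hn1, hn2⟩ := Nat.chineseRemainder hcop r.val 1
  have hn8 : n % 8 = 1 := by
    have h1 : n ≡ 1 [MOD 8] := hn2.of_dvd ⟨a' * b, by ring⟩
    exact h1
  have hprod : (p * a' * b) % 2 = 1 := by
    rw [Nat.mul_mod, ha2, hb2]
  refine ⟨n, by omega, ?_⟩
  have e0 : (((p * a' : ℕ) : ℤ) * b) = ((p * a' * b : ℕ) : ℤ) := by push_cast; ring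
  have e1 : jacobiSym ((p * a' * b : ℕ) : ℤ) n = jacobiSym (n : ℤ) (p * a' * b) :=
    (jacobiSym.quadratic_reciprocity_one_mod_four (by omega) (Nat.odd_iff.2 hprod)).symm
  have : NeZero p := ⟨hp.ne_zero⟩
  have : NeZero (a' * b) := ⟨mul_ne_zero ha'0 hb⟩
  rw [e0, e1, mul_assoc, jacobiSym.mul_right]
  have e2 : jacobiSym (n : ℤ) (a' * b) = 1 := by
    have h1 : ((n : ℕ) : ℤ) % ((a' * b : ℕ) : ℤ) = 1 % ((a' * b : ℕ) : ℤ) := by
      have h2 : n ≡ 1 [MOD (a' * b)] := hn2.of_dvd ⟨8, by ring⟩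
      exact_mod_cast h2
    rw [jacobiSym.mod_left' h1, jacobiSym.one_left]
  have e3 : jacobiSym (n : ℤ) p = -1 := by
    rw [← jacobiSym.legendreSym.to_jacobiSym, legendreSym.eq_neg_one_iff]
    have h1 : ((n : ℤ) : ZMod p) = r := by
      have h2 : (n : ZMod p) = (r.val : ZMod p) := (ZMod.natCast_eq_natCast_iff _ _ _).2 hn1
      rw [Int.cast_natCast, h2, ZMod.natCast_zmod_val]
    rw [h1]
    exact hr
  rw [e2, e3, mul_one]

/-- PURE. PROOF. `a ≠ b` squarefree and odd: some prime `p` divides exactly one of them (otherwise they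
have the same prime factors and are equal: `Nat.Squarefree..`, `UniqueFactorizationMonoid`), say
`p ∣ a`, `p ∤ b`. Let `a = p a'`, `Q = 8 a' b` (coprime to `p`, as `p ∤ a'` by squarefreeness, `p`
odd). Choose a non-residue `r` modulo `p` (`ZMod.exists_nonsquare`-type, or
`FiniteField.exists_nonsquare`) and, by the Chinese remainder theorem, `n ≡ r (mod p)`,
`n ≡ 1 (mod Q)`. Then `n` is odd, `n ≡ 1 (mod 4)`, coprime to `a b`, and by reciprocity
(`jacobiSym.quadratic_reciprocity_one_mod_four`, `n ≡ 1 mod 4`): `J(a b | n) = J(n | a b) =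
J(n | p) J(n | a' b) = J(r|p) · J(1 | a' b) = -1`. -/
theorem exists_minus (a b : ℕ) (ha : Squarefree a) (hb : Squarefree b) (ha2 : a % 2 = 1)
    (hb2 : b % 2 = 1) (hab : a ≠ b) : ∃ n : ℕ, n % 2 = 1 ∧ jacobiSym ((a : ℤ) * b) n = -1 := by
  by_cases h1 : ∃ p, p.Prime ∧ p ∣ a ∧ ¬ p ∣ b
  · obtain ⟨p, hp, hpa, hpb⟩ := h1
    exact k03a_key a b p ha hb.ne_zero ha2 hb2 hp hpa hpb
  by_cases h2 : ∃ p, p.Prime ∧ p ∣ b ∧ ¬ p ∣ a
  · obtain ⟨p, hp, hpb, hpa⟩ := h2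
    obtain ⟨n, hn, hn2⟩ := k03a_key b a p hb ha.ne_zero hb2 ha2 hp hpb hpa
    exact ⟨n, hn, by rw [mul_comm]; exact hn2⟩
  exfalso
  push Not at h1 h2
  apply hab
  rw [← Nat.prod_primeFactors_of_squarefree ha, ← Nat.prod_primeFactors_of_squarefree hb]
  refine Finset.prod_congr ?_ (fun _ _ => rfl)
  ext p
  rw [Nat.mem_primeFactors, Nat.mem_primeFactors]
  exact ⟨fun h => ⟨h.1, h1 p h.1 h.2.1, hb.ne_zero⟩, fun h => ⟨h.1, h2 p h.1 h.2.1, ha.ne_zero⟩⟩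

end Pool.Agent.Lib.H82O
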