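import Pool.Agent.Lib.H82O.K02
import Pool.Agent.Lib.H82O.K03A

/-!
# H82O K03B: different squarefree numbers give independent characters
-/

set_option autoImplicit false

namespace Pool.Agent.Lib.H82O

open Pool.Agent.Lib.H57S

/-- PROOF. With `n` from `exists_minus`: `prodc (chi a) (chi b) (n) = J(-2a|n) J(-2b|n) =
J(4 a b|n) = J(2|n)² J(ab|n) = -1` (`prodc_apply`, `chi_odd`, `jacobiSym.mul_left`). The principal
character takes only the values 0, 1. -/
theorem prodc_chi_ne_one (a b : ℕ) (ha : Squarefree a) (hb : Squarefree b) (ha2 : a % 2 = 1)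
    (hb2 : b % 2 = 1) (hab : a ≠ b) : prodc (chi a) (chi b) ≠ 1 := by
  intro h1
  obtain ⟨n, hn, hj⟩ := exists_minus a b ha hb ha2 hb2 hab
  have ha0 : 0 < a := by omega
  have hb0 : 0 < b := by omega
  haveI : NeZero (8 * a) := ⟨by omega⟩
  haveI : NeZero (8 * b) := ⟨by omega⟩
  have h2 := prodc_apply (chi a) (chi b) n
  rw [h1, chi_odd a ha0 n hn, chi_odd b hb0 n hn] at h2
  have h3 : jacobiSym (-2 * (a : ℤ)) n * jacobiSym (-2 * (b : ℤ)) n = -1 := by
    rw [← jacobiSym.mul_left, show (-2 * (a : ℤ)) * (-2 * (b : ℤ)) = 2 ^ 2 * ((a : ℤ) * b) by ring, jacobiSym.mul_left, hj, jacobiSym.pow_left,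
      jacobiSym.sq_one, one_mul]
    have h4 : Nat.Coprime 2 n := by
      rw [Nat.coprime_two_left, Nat.odd_iff]
      exact hn
    exact_mod_cast h4
  have h5 : ((jacobiSym (-2 * (a : ℤ)) n : ℤ) : ℂ) * ((jacobiSym (-2 * (b : ℤ)) n : ℤ) : ℂ) = -1 := by
    rw [← Int.cast_mul, h3]
    norm_num
  rw [h5] at h2
  by_cases hu : IsUnit (n : ZMod (8 * a * (8 * b)))
  · rw [MulChar.one_apply hu] at h2
    norm_num at h2
  · rw [MulChar.map_nonunit _ hu] at h2
    norm_num at h2

end Pool.Agent.Lib.H82O
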