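import Pool.Agent.Lib.H82O.K02
import Pool.Agent.Lib.H82O.K03A
import Pool.Agent.Lib.H82O.K03B

/-! Collects K03A, K03B. -/
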