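import Pool.Agent.Lib.H82O.DefsL

/-!
# H82O N01A: numerical inequalities I
-/

set_option autoImplicit false

namespace Pool.Agent.Lib.H82O

/-- PROOF. From `hc`: `c ≤ 1907 (12 x/3^29)^(1/5)`. So `π c/√(8x) ≤ π 1907 (12/3^29)^(1/5) x^(1/5)/√(8x)
= κ x^(-3/10)`, `κ = π 1907 (12/3^29)^(1/5)/√8`, and the claim is `κ ≤ (3/4000) 10^(39/10)`, i.e.
`π · 1907 · (12/3^29)^(1/5) · 4000 ≤ 3 √8 · 10^(3.9)`. Raise to the 10th power: it is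
`(4000 · 1907 π)^10 · 144 ≤ 3^10 · 8^5 · 10^39 · 3^58`; check with `π < 3.1416`
(`Real.pi_lt_d4`): left side / right side `= (0.9987)^10`. (Exact integers: `norm_num`.) -/
theorem Lb_bound (c : ℕ) (x : ℝ) (hx : 10 ^ 13 ≤ x)
    (hc : (c : ℝ) ^ 5 * 3 ^ 29 ≤ 1907 ^ 5 * (12 * x)) :
    Real.pi * c / Real.sqrt (8 * x) ≤ Lb x := by
  have hx0 : (0 : ℝ) < x := by
    have : (0 : ℝ) < 10 ^ 13 := by norm_num
    linarith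
  have hL : 0 ≤ Lb x := by
    unfold Lb
    positivity
  have h10 : (Lb x) ^ 10 = (3 / 4000) ^ 10 * (10 ^ 13 / x) ^ 3 := by
    unfold Lb
    rw [mul_pow]
    congr 1
    rw [← Real.rpow_natCast, ← Real.rpow_mul (by positivity), ← Real.rpow_natCast]
    norm_num
  have hc0 : (0 : ℝ) ≤ c := Nat.cast_nonneg _
  have hl : (Real.pi * c / Real.sqrt (8 * x)) ^ 10 = Real.pi ^ 10 * (c : ℝ) ^ 10 / (8 * x) ^ 5 := by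
    rw [div_pow, mul_pow]
    congr 1
    rw [show (10 : ℕ) = 2 * 5 by norm_num, pow_mul, Real.sq_sqrt (by positivity)]
  have hpi : Real.pi ^ 10 ≤ (3.1416 : ℝ) ^ 10 := pow_le_pow_left₀ Real.pi_pos.le Real.pi_lt_d4.le 10
  have hcc : (c : ℝ) ^ 10 * 3 ^ 58 ≤ 1907 ^ 10 * (144 * x ^ 2) := by
    have h1 : ((c : ℝ) ^ 5 * 3 ^ 29) ^ 2 ≤ (1907 ^ 5 * (12 * x)) ^ 2 := pow_le_pow_left₀ (by positivity) hc 2
    calc (c : ℝ) ^ 10 * 3 ^ 58 = ((c : ℝ) ^ 5 * 3 ^ 29) ^ 2 := by ring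
      _ ≤ (1907 ^ 5 * (12 * x)) ^ 2 := h1
      _ = _ := by ring
  have hnum : (3.1416 : ℝ) ^ 10 * (1907 ^ 10 * 144) * 4000 ^ 10 ≤ 3 ^ 10 * (10 ^ 13) ^ 3 * 8 ^ 5 * 3 ^ 58 := by norm_num
  refine (pow_le_pow_iff_left₀ (by positivity) hL (by norm_num : (10 : ℕ) ≠ 0)).1 ?_
  rw [hl, h10, div_pow, div_pow, div_mul_div_comm, div_le_div_iff₀ (by positivity) (by positivity)]
  -- π^10 c^10 (4000^10 x^3) ≤ 3^10 (10^13)^3 (8x)^5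
  have h2 : Real.pi ^ 10 * (c : ℝ) ^ 10 * (4000 ^ 10 * x ^ 3) * 3 ^ 58 ≤ 3 ^ 10 * (10 ^ 13) ^ 3 * (8 * x) ^ 5 * 3 ^ 58 := by
    calc Real.pi ^ 10 * (c : ℝ) ^ 10 * (4000 ^ 10 * x ^ 3) * 3 ^ 58
        = Real.pi ^ 10 * ((c : ℝ) ^ 10 * 3 ^ 58) * (4000 ^ 10 * x ^ 3) := by ring
      _ ≤ (3.1416 : ℝ) ^ 10 * (1907 ^ 10 * (144 * x ^ 2)) * (4000 ^ 10 * x ^ 3) := by gcongr
      _ = ((3.1416 : ℝ) ^ 10 * (1907 ^ 10 * 144) * 4000 ^ 10) * x ^ 5 := by ring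
      _ ≤ (3 ^ 10 * (10 ^ 13) ^ 3 * 8 ^ 5 * 3 ^ 58) * x ^ 5 := by gcongr
      _ = _ := by ring
  exact le_of_mul_le_mul_right h2 (by positivity)

end Pool.Agent.Lib.H82O
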