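import Pool.Agent.Lib.H82O.DefsL

/-!
# H82O N01B: numerical inequalities I
-/

set_option autoImplicit false

namespace Pool.Agent.Lib.H82O

theorem n01b_exp (x : ℝ) (hx : 10 ^ 13 ≤ x) :
    0 ≤ Real.log (x / 10 ^ 13) ∧
      Lb x = 3 / 4000 * Real.exp (-(3 / 10) * Real.log (x / 10 ^ 13)) ∧
      Real.log x = 13 * (Real.log 2 + Real.log 5) + Real.log (x / 10 ^ 13) := by
  have hx0 : (0 : ℝ) < x := lt_of_lt_of_le (by norm_num) hx
  have hq : (1 : ℝ) ≤ x / 10 ^ 13 := by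
    rw [le_div_iff₀ (by norm_num)]; simpa using hx
  refine ⟨Real.log_nonneg hq, ?_, ?_⟩
  · unfold Lb
    congr 1
    have h1 : (10 ^ 13 / x : ℝ) = (x / 10 ^ 13)⁻¹ := by rw [inv_div]
    rw [h1, Real.rpow_def_of_pos (by positivity), Real.log_inv]
    congr 1
    ring
  · rw [Real.log_div hx0.ne' (by norm_num), Real.log_pow, ← Real.log_mul (by norm_num) (by norm_num)]
    norm_num

/-- PROOF. `Lb x ≤ 3/4000` for `x ≥ 10^13` (`10^13/x ≤ 1`). -/
theorem Lb_le (x : ℝ) (hx : 10 ^ 13 ≤ x) : 0 < Lb x ∧ Lb x ≤ 3 / 4000 := by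
  have h := n01b_exp x hx
  rw [h.2.1]
  refine ⟨by positivity, ?_⟩
  have h1 : Real.exp (-(3 / 10) * Real.log (x / 10 ^ 13)) ≤ 1 := by
    apply Real.exp_le_one_iff.mpr
    nlinarith [h.1]
  linarith

theorem Lb_anti (x y : ℝ) (hx : 10 ^ 13 ≤ x) (hxy : x ≤ y) : Lb y ≤ Lb x := by
  have h := n01b_exp x hx
  have h' := n01b_exp y (hx.trans hxy)
  rw [h.2.1, h'.2.1]
  have hx0 : (0 : ℝ) < x := lt_of_lt_of_le (by norm_num) hx
  have h1 : Real.log (x / 10 ^ 13) ≤ Real.log (y / 10 ^ 13) :=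
    Real.log_le_log (by positivity) (by gcongr)
  have h2 : Real.exp (-(3 / 10) * Real.log (y / 10 ^ 13)) ≤
      Real.exp (-(3 / 10) * Real.log (x / 10 ^ 13)) := by
    apply Real.exp_le_exp.mpr
    linarith
  linarith

/-- PROOF. Put `x = 10^13 e^z`, `z ≥ 0`: `Lb x = (3/4000) e^(-0.3 z)`, `log (8x) = log (8·10^13) + z`,
`log (8·10^13) ≤ 32.02` (`13 log 10 + 3 log 2`, `log 10 = log 2 + log 5`; `Real.log_two_lt_d9`;
`log 10 < 2.3026`). So the left side is `≤ (3/4000) e^(-0.3 z) (48.03 + 16 + 1.5 z)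
≤ (3/4000) · 64.03 · e^(-0.3z) e^(z/40) ≤ 0.05`. -/
theorem Lb_log (x : ℝ) (hx : 10 ^ 13 ≤ x) :
    Lb x * (3 / 2 * Real.log (8 * x) + 16) ≤ 7 / 100 := by
  obtain ⟨hz, hL, hlog⟩ := n01b_exp x hx
  have hx0 : (0 : ℝ) < x := lt_of_lt_of_le (by norm_num) hx
  rw [hL, Real.log_mul (by norm_num) hx0.ne', hlog]
  set z := Real.log (x / 10 ^ 13) with hzdef
  have h8 : Real.log 8 = 3 * Real.log 2 := by
    rw [show (8 : ℝ) = 2 ^ 3 by norm_num, Real.log_pow]; norm_num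
  have h2 := Real.log_two_lt_d9
  have h5 := Real.log_five_lt_d9
  have he : 0 < Real.exp (-(3 / 10) * z) := Real.exp_pos _
  have h1 : 3 / 2 * (Real.log 8 + (13 * (Real.log 2 + Real.log 5) + z)) + 16 ≤
      65 * Real.exp (3 / 10 * z) := by
    have h3 := Real.add_one_le_exp (3 / 10 * z)
    rw [h8]
    nlinarith
  have h4 : Real.exp (-(3 / 10) * z) * Real.exp (3 / 10 * z) = 1 := by
    rw [← Real.exp_add]
    have : -(3 / 10) * z + 3 / 10 * z = 0 := by ring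
    rw [this, Real.exp_zero]
  calc 3 / 4000 * Real.exp (-(3 / 10) * z) *
        (3 / 2 * (Real.log 8 + (13 * (Real.log 2 + Real.log 5) + z)) + 16)
      ≤ 3 / 4000 * Real.exp (-(3 / 10) * z) * (65 * Real.exp (3 / 10 * z)) := by gcongr
    _ = 3 / 4000 * 65 * (Real.exp (-(3 / 10) * z) * Real.exp (3 / 10 * z)) := by ring
    _ ≤ 7 / 100 := by rw [h4]; norm_num

end Pool.Agent.Lib.H82O
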