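import Pool.Agent.Lib.H63.TSPAll
import Pool.Agent.Lib.H82O.K03
import Pool.Agent.Lib.H82O.C03
import Pool.Agent.Lib.H82O.E03
import Pool.Agent.Lib.H82O.N01
import Pool.Agent.Lib.H82O.A09
import Pool.Agent.Lib.H82O.D08

/-!
# H82O F01A: the character of an exceptional number
-/

set_option autoImplicit false

namespace Pool.Agent.Lib.H82O

open Pool.Agent.Lib.H63.TSP

/-- PROOF. `rep_of_prime` (contrapositive): `-2(6n+1)` is not a square modulo `p`, so it is prime to
`p` and the Legendre symbol is `-1` (`legendreSym.eq_neg_one_iff`,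
`jacobiSym.legendreSym.to_jacobiSym`); `chi_odd`. -/
theorem chi_prime {n : ℕ} (h : ¬ Rep n) (p : ℕ) (hp : p.Prime) (h5 : 5 ≤ p) (h300 : p < 300)
    (h139 : p ≠ 139) : chi (6 * n + 1) (p : ZMod (8 * (6 * n + 1))) = -1 := by
  haveI : Fact p.Prime := ⟨hp⟩
  have h1 : ¬ IsSquare ((-2 * (6 * n + 1) : ℤ) : ZMod p) := fun h2 => h (rep_of_prime hp h5 h300 h139 h2)
  have h3 : p % 2 = 1 := by
    rcases hp.eq_two_or_odd with h4 | h4
    · omega
    · exact h4
  rw [chi_odd (6 * n + 1) (by omega) p h3]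
  have h6 : legendreSym p (-2 * (6 * n + 1) : ℤ) = -1 := (legendreSym.eq_neg_one_iff p).2 h1
  rw [jacobiSym.legendreSym.to_jacobiSym] at h6
  have h7 : (-2 * (((6 * n + 1 : ℕ) : ℤ))) = (-2 * (6 * n + 1) : ℤ) := by push_cast; ring
  rw [h7, h6]
  norm_num

end Pool.Agent.Lib.H82O
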