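import Pool.Agent.Lib.H63.TSPAll
import Pool.Agent.Lib.H82O.K03
import Pool.Agent.Lib.H82O.C03
import Pool.Agent.Lib.H82O.E03
import Pool.Agent.Lib.H82O.N01
import Pool.Agent.Lib.H82O.A09
import Pool.Agent.Lib.H82O.D08

/-!
# H82O F01B: the character of an exceptional number
-/

set_option autoImplicit false

namespace Pool.Agent.Lib.H82O

open Pool.Agent.Lib.H63.TSP

/-- PROOF. `squarefree_of_not_rep`, `bad_of_not_rep`, `L1_le`, `XF_card`, `Lb_bound`. The casts: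
`((6 * n + 1 : ℕ) : ℤ) = 6 * (n : ℤ) + 1`. `L1_pos` gives positivity. -/
theorem chi_small {n : ℕ} (h : ¬ Rep n) (hn : 10 ^ 13 ≤ 6 * n + 1) :
    0 < ((chi (6 * n + 1)).LFunction 1).re ∧
      ((chi (6 * n + 1)).LFunction 1).re ≤ Lb ((6 * n + 1 : ℕ) : ℝ) := by
  have hsq := squarefree_of_not_rep h
  have hb := bad_of_not_rep h
  haveI : NeZero (6 * n + 1) := ⟨by omega⟩
  haveI : NeZero (8 * (6 * n + 1)) := ⟨by omega⟩
  have hx : (10 : ℝ) ^ 13 ≤ ((6 * n + 1 : ℕ) : ℝ) := by exact_mod_cast hn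
  refine ⟨L1_pos _ _ (chi_ne_one _ (by omega)) (chi_sq _ (by omega)), (L1_le (6 * n + 1) (by omega) hsq).trans ?_⟩
  apply Lb_bound _ _ hx
  have h1 := XF_card (6 * n + 1) (by omega) (by exact_mod_cast hb) hn
  exact_mod_cast h1

end Pool.Agent.Lib.H82O
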