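import Pool.Agent.Lib.H63.TSPAll
import Pool.Agent.Lib.H82O.K03
import Pool.Agent.Lib.H82O.C03
import Pool.Agent.Lib.H82O.E03
import Pool.Agent.Lib.H82O.N01
import Pool.Agent.Lib.H82O.A09
import Pool.Agent.Lib.H82O.D08
import Pool.Agent.Lib.H82O.F01A
import Pool.Agent.Lib.H82O.F01B

/-! Collects F01A, F01B. -/
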