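import Pool.Agent.Lib.H82O.DefsL

/-!
# H82O N02: numerical inequalities II
-/

set_option autoImplicit false

namespace Pool.Agent.Lib.H82O

theorem n02_exp (x : ℝ) (hx : 10 ^ 13 ≤ x) :
    0 ≤ Real.log (x / 10 ^ 13) ∧
      Lb x = 3 / 4000 * Real.exp (-(3 / 10) * Real.log (x / 10 ^ 13)) ∧
      Real.log x = 13 * (Real.log 2 + Real.log 5) + Real.log (x / 10 ^ 13) := by
  have hx0 : (0 : ℝ) < x := lt_of_lt_of_le (by norm_num) hx
  have hq : (1 : ℝ) ≤ x / 10 ^ 13 := by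
    rw [le_div_iff₀ (by norm_num)]; simpa using hx
  refine ⟨Real.log_nonneg hq, ?_, ?_⟩
  · unfold Lb
    congr 1
    have h1 : (10 ^ 13 / x : ℝ) = (x / 10 ^ 13)⁻¹ := by rw [inv_div]
    rw [h1, Real.rpow_def_of_pos (by positivity), Real.log_inv]
    congr 1
    ring
  · rw [Real.log_div hx0.ne' (by norm_num), Real.log_pow, ← Real.log_mul (by norm_num) (by norm_num)]
    norm_num

theorem n02_core (z l2 l5 : ℝ) (hz : 0 ≤ z) (h2 : l2 < 0.6931471808) (h2' : 0 < l2)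
    (h5 : l5 < 1.6094379126) (h5' : 0 < l5) :
    Real.exp ((5 * l2 + (13 * (l2 + l5) + z)) * (2 / 5000)) *
      ((5 * l2 + (13 * (l2 + l5) + z)) ^ 2 / 4 + (5 * l2 + (13 * (l2 + l5) + z)) / 4 + 1 / 8) *
      (3 / 4000 * Real.exp (-(3 / 10) * z)) *
      ((7 * l2 + 2 * (13 * (l2 + l5) + z)) / 2 + 3 / 2) *
      Real.exp (2 * (2 / 5000) * (3 * (6 * l2 + 2 * (13 * (l2 + l5) + z)) + 21)) < 11 := by
  have hA : Real.exp ((5 * l2 + (13 * (l2 + l5) + z)) * (2 / 5000)) ≤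
      Real.exp (0.01336 + 0.0004 * z) := Real.exp_le_exp.mpr (by linarith)
  have hF : Real.exp (2 * (2 / 5000) * (3 * (6 * l2 + 2 * (13 * (l2 + l5) + z)) + 21)) ≤
      Real.exp (0.1705 + 0.0048 * z) := Real.exp_le_exp.mpr (by linarith)
  have hL : 5 * l2 + (13 * (l2 + l5) + z) ≤ 33.4 + z := by linarith
  have hL0 : 0 ≤ 5 * l2 + (13 * (l2 + l5) + z) := by linarith
  have he30 : z / 30 + 1 ≤ Real.exp (z / 30) := Real.add_one_le_exp _
  have he33 : z / 33 + 1 ≤ Real.exp (z / 33) := Real.add_one_le_exp _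
  have hB : (5 * l2 + (13 * (l2 + l5) + z)) ^ 2 / 4 + (5 * l2 + (13 * (l2 + l5) + z)) / 4 + 1 / 8
      ≤ 287.4 * (Real.exp (z / 30) * Real.exp (z / 30)) := by
    have h1 : (5 * l2 + (13 * (l2 + l5) + z)) ^ 2 ≤ (33.4 + z) ^ 2 :=
      pow_le_pow_left₀ hL0 hL 2
    have h3 : (z / 30 + 1) * (z / 30 + 1) ≤ Real.exp (z / 30) * Real.exp (z / 30) :=
      mul_le_mul he30 he30 (by positivity) (Real.exp_pos _).le
    nlinarith
  have hD : (7 * l2 + 2 * (13 * (l2 + l5) + z)) / 2 + 3 / 2 ≤ 33.87 * Real.exp (z / 33) := by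
    nlinarith
  have hB0 : 0 ≤ (5 * l2 + (13 * (l2 + l5) + z)) ^ 2 / 4 +
      (5 * l2 + (13 * (l2 + l5) + z)) / 4 + 1 / 8 := by positivity
  have hD0 : 0 ≤ (7 * l2 + 2 * (13 * (l2 + l5) + z)) / 2 + 3 / 2 := by positivity
  calc _ ≤ Real.exp (0.01336 + 0.0004 * z) * (287.4 * (Real.exp (z / 30) * Real.exp (z / 30))) *
        (3 / 4000 * Real.exp (-(3 / 10) * z)) * (33.87 * Real.exp (z / 33)) *
        Real.exp (0.1705 + 0.0048 * z) := by gcongr
    _ = (287.4 * (3 / 4000) * 33.87) * Real.exp (0.01336 + 0.0004 * z + (z / 30 + z / 30) +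
          (-(3 / 10) * z) + z / 33 + (0.1705 + 0.0048 * z)) := by
        simp only [Real.exp_add]
        ring
    _ ≤ (287.4 * (3 / 4000) * 33.87) * Real.exp 0.184 := by
        gcongr
        linarith
    _ < 11 := by
        have h1 : (1 : ℝ) - 0.184 ≤ Real.exp (-0.184) := by
          have := Real.add_one_le_exp (-0.184 : ℝ)
          linarith
        have h2 : Real.exp 0.184 * Real.exp (-0.184) = 1 := by
          rw [← Real.exp_add]; norm_num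
        have h3 : 0 < Real.exp 0.184 := Real.exp_pos _
        nlinarith

/-- PROOF. Put `x = 10^13 e^z`, `z ≥ 0`, `ε = 2/5000 = 4·10^(-4)`. With `13 log 10 ≤ 29.934`,
`log 32 ≤ 3.466`, `log 64 ≤ 4.159`, `log 128 ≤ 4.853`:
`L := log (32 x) ≤ 33.4 + z`; `(32x)^ε ≤ exp(0.01336 + ε z) ≤ 1.0135 e^(εz)`;
`L²/4 + L/4 + 1/8 ≤ 278.89 + 8.35 + 0.125 + 16.95 z + z²/4 ≤ 287.4 (1 + z/30)²` `≤ 287.4 e^(z/15)`;
`Lb x = (3/4000) e^(-0.3z)`; `log (128 x²)/2 + 3/2 ≤ 2.427 + 29.934 + z + 1.5 ≤ 33.87 (1 + z/33)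
≤ 33.87 e^(z/33)`; `2 ε (3 log(64 x²) + 21) ≤ 0.0008 (3 (4.159 + 59.868 + 2z) + 21) ≤ 0.1705 + 0.0048 z`,
`exp(0.1705) ≤ 1.186`. The product is
`≤ 1.0135 · 287.4 · 0.00075 · 33.87 · 1.186 · exp(z(0.0004 + 1/15 - 0.3 + 1/33 + 0.0048)) ≤ 8.8 < 11`. -/
theorem final_num (x : ℝ) (hx : 10 ^ 13 ≤ x) :
    (32 * x) ^ (2 / 5000 : ℝ) *
      ((Real.log (32 * x)) ^ 2 / 4 + Real.log (32 * x) / 4 + 1 / 8) * Lb x *
      (Real.log (128 * x ^ 2) / 2 + 3 / 2) *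
      Real.exp (2 * (2 / 5000) * (3 * Real.log (64 * x ^ 2) + 21)) < 11 := by
  obtain ⟨hz, hL, hlog⟩ := n02_exp x hx
  have hx0 : (0 : ℝ) < x := lt_of_lt_of_le (by norm_num) hx
  have hx2 : (x ^ 2 : ℝ) ≠ 0 := by positivity
  have e32 : Real.log (32 * x) = 5 * Real.log 2 +
      (13 * (Real.log 2 + Real.log 5) + Real.log (x / 10 ^ 13)) := by
    rw [Real.log_mul (by norm_num) hx0.ne', hlog, show (32 : ℝ) = 2 ^ 5 by norm_num, Real.log_pow]
    norm_num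
  have e128 : Real.log (128 * x ^ 2) = 7 * Real.log 2 +
      2 * (13 * (Real.log 2 + Real.log 5) + Real.log (x / 10 ^ 13)) := by
    rw [Real.log_mul (by norm_num) hx2, Real.log_pow, hlog, show (128 : ℝ) = 2 ^ 7 by norm_num,
      Real.log_pow]
    norm_num
  have e64 : Real.log (64 * x ^ 2) = 6 * Real.log 2 +
      2 * (13 * (Real.log 2 + Real.log 5) + Real.log (x / 10 ^ 13)) := by
    rw [Real.log_mul (by norm_num) hx2, Real.log_pow, hlog, show (64 : ℝ) = 2 ^ 6 by norm_num,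
      Real.log_pow]
    norm_num
  rw [Real.rpow_def_of_pos (by positivity), e32, e128, e64, hL]
  exact n02_core _ _ _ hz Real.log_two_lt_d9 (Real.log_pos (by norm_num)) Real.log_five_lt_d9
    (Real.log_pos (by norm_num))

end Pool.Agent.Lib.H82O
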