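import Pool.Agent.Lib.H82O.F01
import Pool.Agent.Lib.H82O.D03
import Pool.Agent.Lib.H82O.D10
import Pool.Agent.Lib.H82O.D11
import Pool.Agent.Lib.H82O.N02

/-!
# H82O F02: two exceptional numbers
-/

set_option autoImplicit false

namespace Pool.Agent.Lib.H82O

open Pool.Agent.Lib.H63.TSP Pool.Agent.Lib.H57S
theorem f02_norm {q : ℕ} [NeZero q] (χ : DirichletCharacter ℂ q) (hχ : χ ≠ 1) (hs : χ ^ 2 = 1)
    (hpos : 0 < (χ.LFunction 1).re) : ‖χ.LFunction 1‖ = (χ.LFunction 1).re := by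
  have him : (χ.LFunction 1).im = 0 := by
    have h := L_real q χ hχ hs 1 one_pos
    simpa using h
  have e : χ.LFunction 1 = (((χ.LFunction 1).re : ℝ) : ℂ) := Complex.ext (by simp) (by simp [him])
  rw [e, Complex.norm_real, Real.norm_of_nonneg hpos.le, Complex.ofReal_re]

theorem f02_core (m₁ m₂ : ℕ) [NeZero m₁] [NeZero m₂] (h6 : m₁ % 6 = 1) (h6' : m₂ % 6 = 1)
    (hn : 10 ^ 13 ≤ m₁) (hlt : m₁ < m₂)
    (hs1 : 0 < ((chi m₁).LFunction 1).re ∧ ((chi m₁).LFunction 1).re ≤ Lb (m₁ : ℝ))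
    (hs2 : 0 < ((chi m₂).LFunction 1).re ∧ ((chi m₂).LFunction 1).re ≤ Lb (m₂ : ℝ))
    (hsq1 : Squarefree m₁) (hsq2 : Squarefree m₂)
    (hp1 : ∀ p : ℕ, p.Prime → 5 ≤ p → p < 300 → p ≠ 139 → chi m₁ (p : ZMod (8 * m₁)) = -1)
    (hp2 : ∀ p : ℕ, p.Prime → 5 ≤ p → p < 300 → p ≠ 139 → chi m₂ (p : ZMod (8 * m₂)) = -1) :
    False := by
  have hm12 : m₁ ≤ m₂ := hlt.le
  have hn2 : 10 ^ 13 ≤ m₂ := hn.trans hm12
  have hm1p : 0 < m₁ := by omega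
  have hm2p : 0 < m₂ := by omega
  have hne1 := chi_ne_one m₁ (by omega)
  have hne2 := chi_ne_one m₂ (by omega)
  have hchi1 := chi_sq m₁ hm1p
  have hchi2 := chi_sq m₂ hm2p
  have hx1 : (10 : ℝ) ^ 13 ≤ (m₁ : ℝ) := by exact_mod_cast hn
  have hx2 : (10 : ℝ) ^ 13 ≤ (m₂ : ℝ) := by exact_mod_cast hn2
  have hx12 : (m₁ : ℝ) ≤ (m₂ : ℝ) := by exact_mod_cast hm12
  have hx1p : (0 : ℝ) < m₁ := by exact_mod_cast hm1p
  have hx2p : (0 : ℝ) < m₂ := by exact_mod_cast hm2p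
  have hN1 := f02_norm (chi m₁) hne1 hchi1 hs1.1
  have hN2 := f02_norm (chi m₂) hne2 hchi2 hs2.1
  have hLb1 := Lb_le (m₁ : ℝ) hx1
  have hLb2 := Lb_le (m₂ : ℝ) hx2
  obtain ⟨β, hβ1, hβ2, hβz⟩ := exists_zero (8 * m₁) (by omega) (chi m₁) hne1 hchi1
    (chi_even m₁ 2 rfl) (chi_three m₁ (by omega)) (by linarith [hs1.2, hLb1.2]) (by
      have h := Lb_log (m₁ : ℝ) hx1
      have hlog : 0 ≤ Real.log (8 * (m₁ : ℝ)) := Real.log_nonneg (by linarith)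
      refine le_trans ?_ h
      push_cast
      exact mul_le_mul_of_nonneg_right hs1.2 (by linarith))
  have hδ : 1 - β ≤ 2 / 5000 := by linarith [hs1.2, hLb1.2]
  have hδ0 : 0 < 1 - β := by linarith
  -- (2)
  have h2 := L1_zero (8 * m₁) (by omega) (by omega) (chi m₁) hne1 β (by linarith) hβ2 hβz
  have h2' : ‖(chi m₁).LFunction 1‖ ≤ (1 - β) * ((32 * (m₂ : ℝ)) ^ (2 / 5000 : ℝ) *
      ((Real.log (32 * (m₂ : ℝ))) ^ 2 / 4 + Real.log (32 * (m₂ : ℝ)) / 4 + 1 / 8)) := by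
    refine h2.trans ?_
    have e : (4 : ℝ) * ((8 * m₁ : ℕ) : ℝ) = 32 * (m₁ : ℝ) := by push_cast; ring
    rw [e, mul_assoc]
    have hl0 : 0 ≤ Real.log (32 * (m₁ : ℝ)) := Real.log_nonneg (by linarith)
    have hl1 : Real.log (32 * (m₁ : ℝ)) ≤ Real.log (32 * (m₂ : ℝ)) :=
      Real.log_le_log (by linarith) (by linarith)
    have hr1 : (32 * (m₁ : ℝ)) ^ (1 - β) ≤ (32 * (m₂ : ℝ)) ^ (2 / 5000 : ℝ) :=
      (Real.rpow_le_rpow (by linarith) (by linarith) hδ0.le).trans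
        (Real.rpow_le_rpow_of_exponent_le (by linarith) hδ)
    refine mul_le_mul_of_nonneg_left ?_ hδ0.le
    refine mul_le_mul hr1 ?_ (by positivity) (by positivity)
    nlinarith
  -- (3)
  have h12 := prodc_chi_ne_one m₁ m₂ hsq1 hsq2 (by omega) (by omega) (by omega)
  have h3 := L1_upper (8 * m₁ * (8 * m₂)) (by
    rw [Nat.mul_mod]
    have : 8 * m₁ % 2 = 0 := by omega
    rw [this, zero_mul, Nat.zero_mod]) (prodc (chi m₁) (chi m₂)) h12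
  have h3' : ‖(prodc (chi m₁) (chi m₂)).LFunction 1‖ ≤
      Real.log (128 * (m₂ : ℝ) ^ 2) / 2 + 3 / 2 := by
    refine h3.trans ?_
    have e : (2 : ℝ) * ((8 * m₁ * (8 * m₂) : ℕ) : ℝ) = 128 * ((m₁ : ℝ) * m₂) := by
      push_cast; ring
    rw [e]
    have : Real.log (128 * ((m₁ : ℝ) * m₂)) ≤ Real.log (128 * (m₂ : ℝ) ^ 2) := by
      refine Real.log_le_log (by positivity) ?_
      nlinarith
    linarith
  -- (4)
  have hR : 10 ^ 6 ≤ 8 * m₁ * (8 * m₂) := by nlinarith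
  have hpr : ∀ p ∈ ({5, 7, 11, 13} : Finset ℕ), p.Prime ∧ 5 ≤ p ∧ p < 300 ∧ p ≠ 139 := by
    intro p hp
    simp only [Finset.mem_insert, Finset.mem_singleton] at hp
    rcases hp with rfl | rfl | rfl | rfl <;> norm_num
  have h4 := pair_ineq (8 * m₁) (8 * m₂) hR (chi m₁) (chi m₂) hne1 hne2 h12 hchi1 hchi2
    (chi_even m₁ 2 rfl) (chi_even m₂ 2 rfl) (chi_three m₁ (by omega)) (chi_three m₂ (by omega))
    (fun p hp => hp1 p (hpr p hp).1 (hpr p hp).2.1 (hpr p hp).2.2.1 (hpr p hp).2.2.2)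
    (fun p hp => hp2 p (hpr p hp).1 (hpr p hp).2.1 (hpr p hp).2.2.1 (hpr p hp).2.2.2)
    β (by linarith) hβ2 hβz
  have hexp : Real.exp (2 * (1 - β) *
      (3 * Real.log (((8 * m₁ : ℕ) : ℝ) * ((8 * m₂ : ℕ) : ℝ)) + 21)) ≤
      Real.exp (2 * (2 / 5000) * (3 * Real.log (64 * (m₂ : ℝ) ^ 2) + 21)) := by
    refine Real.exp_le_exp.2 ?_
    have e : ((8 * m₁ : ℕ) : ℝ) * ((8 * m₂ : ℕ) : ℝ) = 64 * ((m₁ : ℝ) * m₂) := by
      push_cast; ring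
    rw [e]
    have h1 : (1 : ℝ) ≤ (m₁ : ℝ) * m₂ := by nlinarith
    have hl0 : 0 ≤ Real.log (64 * ((m₁ : ℝ) * m₂)) := Real.log_nonneg (by linarith)
    have hl1 : Real.log (64 * ((m₁ : ℝ) * m₂)) ≤ Real.log (64 * (m₂ : ℝ) ^ 2) := by
      refine Real.log_le_log (by positivity) ?_
      nlinarith
    refine mul_le_mul ?_ (by linarith) (by linarith) (by norm_num)
    linarith
  have hfin := final_num (m₂ : ℝ) hx2
  have hN2' : ‖(chi m₂).LFunction 1‖ ≤ Lb (m₂ : ℝ) := by rw [hN2]; exact hs2.2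
  obtain ⟨A, hA⟩ : ∃ A : ℝ, A = (32 * (m₂ : ℝ)) ^ (2 / 5000 : ℝ) *
      ((Real.log (32 * (m₂ : ℝ))) ^ 2 / 4 + Real.log (32 * (m₂ : ℝ)) / 4 + 1 / 8) := ⟨_, rfl⟩
  obtain ⟨W, hW⟩ : ∃ W : ℝ, W = Real.log (128 * (m₂ : ℝ) ^ 2) / 2 + 3 / 2 := ⟨_, rfl⟩
  obtain ⟨E, hE⟩ : ∃ E : ℝ,
    E = Real.exp (2 * (2 / 5000) * (3 * Real.log (64 * (m₂ : ℝ) ^ 2) + 21)) := ⟨_, rfl⟩
  rw [← hA] at h2' hfin
  rw [← hW] at h3' hfin
  rw [← hE] at hexp hfin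
  have hA0 : 0 ≤ (1 - β) * A := (norm_nonneg _).trans h2'
  have hW0 : 0 ≤ W := (norm_nonneg _).trans h3'
  have hL0 : 0 ≤ Lb (m₂ : ℝ) := hLb2.1.le
  have c1 : ‖(chi m₁).LFunction 1‖ * ‖(chi m₂).LFunction 1‖ ≤ (1 - β) * A * Lb (m₂ : ℝ) :=
    mul_le_mul h2' hN2' (norm_nonneg _) hA0
  have c2 : ‖(chi m₁).LFunction 1‖ * ‖(chi m₂).LFunction 1‖ *
      ‖(prodc (chi m₁) (chi m₂)).LFunction 1‖ ≤ (1 - β) * A * Lb (m₂ : ℝ) * W :=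
    mul_le_mul c1 h3' (norm_nonneg _) (mul_nonneg hA0 hL0)
  have c3 := mul_le_mul c2 hexp (Real.exp_pos _).le (mul_nonneg (mul_nonneg hA0 hL0) hW0)
  have c4 : 11 * (1 - β) ≤ (1 - β) * A * Lb (m₂ : ℝ) * W * E := h4.trans c3
  have c5 : (1 - β) * A * Lb (m₂ : ℝ) * W * E = (1 - β) * (A * Lb (m₂ : ℝ) * W * E) := by ring
  rw [c5] at c4
  have c6 := mul_lt_mul_of_pos_left hfin hδ0
  linarith

/-- PROOF. Let `m₁ = 6n₁+1 < m₂ = 6n₂+1`, `χᵢ = chi mᵢ` (level `8mᵢ`), `ℓᵢ = Re L(1,χᵢ) = ‖L(1,χᵢ)‖`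
(`L_real` at 1 and positivity), `ℓᵢ ≤ Lb mᵢ ≤ 3/4000` (`chi_small`, `Lb_le`).
(1) `exists_zero` for `q = 8m₁` (`Lb_log`: `log q = log (8 m₁)`): `β` with
`1 - β < ℓ₁/2 ≤ 3/8000 ≤ 2/5000`, `L(β,χ₁) = 0`.
(2) `L1_zero` with `q = 8m₁`: `ℓ₁ ≤ (1-β)(32m₁)^(1-β) (L₁²/4 + L₁/4 + 1/8)`, `L₁ = log(32m₁)`, and
`≤ (1-β)(32m₂)^(2/5000) (L₂²/4 + L₂/4 + 1/8)`, `L₂ = log(32m₂)` (monotonicity).
(3) `L1_upper` with `q = 64 m₁ m₂` (`(8m₁)(8m₂)`), `prodc_chi_ne_one`: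
`‖L(1,prodc)‖ ≤ log(128 m₁m₂)/2 + 3/2 ≤ log(128 m₂²)/2 + 3/2`.
(4) `pair_ineq` (`chi_sq`, `chi_ne_one`, `chi_even` at 2, `chi_three`, `chi_prime` at 5, 7, 11, 13):
`11 (1-β) ≤ ℓ₁ ℓ₂ ‖L(1,prodc)‖ exp(2(1-β)(3 log(64m₁m₂) + 21))`, and the exponential is
`≤ exp(2 (2/5000)(3 log(64m₂²) + 21))`. Divide by `1-β > 0` and insert (2), (3), `ℓ₂ ≤ Lb m₂`:
`11 ≤` the left side of `final_num` for `x = m₂`, contradiction. -/
theorem no_pair {n₁ n₂ : ℕ} (h₁ : ¬ Rep n₁) (h₂ : ¬ Rep n₂) (hn : 10 ^ 13 ≤ 6 * n₁ + 1)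
    (hlt : n₁ < n₂) : False := by
  have hn2 : 10 ^ 13 ≤ 6 * n₂ + 1 := by omega
  exact f02_core (6 * n₁ + 1) (6 * n₂ + 1) (by omega) (by omega) hn (by omega)
    (chi_small h₁ hn) (chi_small h₂ hn2) (squarefree_of_not_rep h₁) (squarefree_of_not_rep h₂)
    (fun p hp h5 h300 h139 => chi_prime h₁ p hp h5 h300 h139)
    (fun p hp h5 h300 h139 => chi_prime h₂ p hp h5 h300 h139)

end Pool.Agent.Lib.H82O
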