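import Pool.Agent.Lib.H82O.B09
import Pool.Agent.Lib.H82O.F02

/-!
# H82O: the theorem
-/

set_option autoImplicit false

namespace Pool.Agent.Lib.H82O

open Pool.Agent.Lib.H63.TSP

theorem at_most_one (n₁ n₂ : ℕ) (h₁ : ¬ Rep n₁) (h₂ : ¬ Rep n₂) : n₁ = n₂ := by
  have key : ∀ n : ℕ, ¬ Rep n → 10 ^ 13 ≤ 6 * n + 1 := by
    intro n hn
    by_contra hc
    exact hn (sieve_all n (by omega))
  rcases lt_trichotomy n₁ n₂ with h | h | h
  · exact (no_pair h₁ h₂ (key _ h₁) h).elim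
  · exact h
  · exact (no_pair h₂ h₁ (key _ h₂) h).elim

end Pool.Agent.Lib.H82O
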