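import Mathlib

/-!
# H82O G01: a one-dimensional Gaussian sum (pure analysis)
-/

set_option autoImplicit false

namespace Pool.Agent.Lib.H82O

open MeasureTheory

theorem g01_mono (τ : ℝ) (hτ : 0 < τ) (a b : ℝ) (h : |a| ≤ |b|) : Real.exp (-τ * b ^ 2) ≤ Real.exp (-τ * a ^ 2) := by
  apply Real.exp_le_exp.2
  have h1 : a ^ 2 ≤ b ^ 2 := sq_le_sq.2 h
  nlinarith

theorem g01_int (τ : ℝ) (hτ : 0 < τ) (a b : ℝ) (hab : a ≤ b) :
    ∫ x in a..b, Real.exp (-τ * x ^ 2) ≤ Real.sqrt (Real.pi / τ) := by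
  rw [intervalIntegral.integral_of_le hab, ← integral_gaussian]
  exact setIntegral_le_integral (integrable_exp_neg_mul_sq hτ) (Filter.Eventually.of_forall fun x => (Real.exp_pos _).le)

/-- Sums over a residue class of the integers. PROOF. Let `f x = exp(-τ x²)`. Elements of the class are
spaced by `M`. For `s ∈ J` with `s ≥ M`: `f s ≤ (1/M) ∫_{s-M}^{s} f` (`f` decreasing on `[0,∞)`); for
`s ≤ -M`: `f s ≤ (1/M) ∫_{s}^{s+M} f`. In `(-M, M)` there are at most two elements of the class,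
`s₁ ∈ [0, M)` and `s₂ = s₁ - M ∈ [-M, 0)`; the interval `[s₂, s₁]` has length `M`, and on it
`f ≥ min (f s₁) (f s₂)` (unimodal), while `max ≤ 1`: `f s₁ + f s₂ ≤ 1 + (1/M) ∫_{s₂}^{s₁} f`. All these
intervals have disjoint interiors, so `∑_J f ≤ 1 + (1/M) ∫_ℝ f = 1 + √(π/τ)/M`
(`integral_gaussian`). A convenient way: show by induction, for the initial class elements, that
`∑_{0 ≤ j ≤ n} f(s₁ + M j) ≤ f(s₁) + (1/M) ∫_{s₁}^{s₁+Mn} f` and the same on the left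
(`AntitoneOn.sum_le_integral`), with `J ⊆ {s₁ + M j} ∪ {s₂ - M j}`, and then combine. -/
theorem gauss_class (τ : ℝ) (hτ : 0 < τ) (M : ℤ) (hM : 0 < M) (s₀ : ℤ) (J : Finset ℤ)
    (hJ : ∀ s ∈ J, M ∣ s - s₀) :
    ∑ s ∈ J, Real.exp (-τ * (s : ℝ) ^ 2) ≤ 1 + Real.sqrt (Real.pi / τ) / M := by
  have hMR : (0 : ℝ) < M := by exact_mod_cast hM
  obtain ⟨f, hf⟩ : ∃ f : ℝ → ℝ, f = fun x => Real.exp (-τ * x ^ 2) := ⟨_, rfl⟩
  have hfp : ∀ x, 0 ≤ f x := fun x => by rw [hf]; exact (Real.exp_pos _).le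
  have hfc : Continuous f := by rw [hf]; fun_prop
  have hf1 : ∀ x, f x ≤ 1 := by
    intro x
    rw [hf]
    have : -τ * x ^ 2 ≤ 0 := by nlinarith [sq_nonneg x, mul_nonneg hτ.le (sq_nonneg x)]
    exact Real.exp_le_one_iff.2 this
  have hfm : ∀ a b, |a| ≤ |b| → f b ≤ f a := fun a b h => by rw [hf]; exact g01_mono τ hτ a b h
  have hfi : ∀ a b, IntervalIntegrable f volume a b := fun a b => hfc.intervalIntegrable a b
  obtain ⟨s₁, hs₁⟩ : ∃ s₁ : ℤ, s₁ = s₀ % M := ⟨_, rfl⟩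
  have hs10 : 0 ≤ s₁ := by rw [hs₁]; exact Int.emod_nonneg _ hM.ne'
  have hs1M : s₁ < M := by rw [hs₁]; exact Int.emod_lt_of_pos _ hM
  have hd1 : M ∣ s₀ - s₁ := by rw [hs₁]; exact Int.dvd_self_sub_emod
  obtain ⟨n, hn⟩ : ∃ n : ℕ, n = J.sup (fun s => (s - s₁).natAbs) := ⟨_, rfl⟩
  obtain ⟨A, hA⟩ : ∃ A : Finset ℤ, A = (Finset.range (n + 1)).image (fun j : ℕ => s₁ + M * j) := ⟨_, rfl⟩
  obtain ⟨B, hB⟩ : ∃ B : Finset ℤ, B = (Finset.range (n + 1)).image (fun j : ℕ => s₁ - M - M * j) := ⟨_, rfl⟩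
  have hsub : J ⊆ A ∪ B := by
    intro s hs
    have h1 : M ∣ s - s₁ := by
      have := dvd_add (hJ s hs) hd1
      rwa [sub_add_sub_cancel] at this
    obtain ⟨k, hk⟩ := h1
    have hkn : k.natAbs ≤ n := by
      have h2 : (s - s₁).natAbs ≤ n := by
        rw [hn]
        exact Finset.le_sup (f := fun s => (s - s₁).natAbs) hs
      rw [hk, Int.natAbs_mul] at h2
      have h3 : 1 ≤ M.natAbs := Int.natAbs_pos.2 hM.ne'
      nlinarith
    rcases le_or_gt 0 k with h0 | h0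
    · refine Finset.mem_union_left _ ?_
      rw [hA, Finset.mem_image]
      refine ⟨k.natAbs, Finset.mem_range.2 (by omega), ?_⟩
      have : ((k.natAbs : ℕ) : ℤ) = k := Int.natAbs_of_nonneg h0
      rw [this, ← hk]
      ring
    · refine Finset.mem_union_right _ ?_
      rw [hB, Finset.mem_image]
      refine ⟨(-k - 1).natAbs, Finset.mem_range.2 (by omega), ?_⟩
      have : (((-k - 1).natAbs : ℕ) : ℤ) = -k - 1 := Int.natAbs_of_nonneg (by omega)
      rw [this]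
      linear_combination -hk
  have e1 : ∑ s ∈ J, f s ≤ ∑ j ∈ Finset.range (n + 1), f (s₁ + M * j) + ∑ j ∈ Finset.range (n + 1), f ((s₁ - M : ℤ) - M * j) := by
    have h1 : ∑ s ∈ J, f s ≤ ∑ s ∈ A ∪ B, f s := Finset.sum_le_sum_of_subset_of_nonneg hsub (fun s _ _ => hfp _)
    have h2 : ∑ s ∈ A ∪ B, f s ≤ ∑ s ∈ A, f s + ∑ s ∈ B, f s := by
      rw [← Finset.sum_union_inter]
      linarith [Finset.sum_nonneg (s := A ∩ B) (f := fun s : ℤ => f s) (fun s _ => hfp _)]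
    have h3 : ∑ s ∈ A, f s = ∑ j ∈ Finset.range (n + 1), f (s₁ + M * j) := by
      rw [hA, Finset.sum_image]
      · exact Finset.sum_congr rfl fun j _ => by push_cast; rfl
      · intro i _ j _ hij
        simp only at hij
        have : M * (i : ℤ) = M * j := by linarith
        have := mul_left_cancel₀ hM.ne' this
        exact_mod_cast this
    have h4 : ∑ s ∈ B, f s = ∑ j ∈ Finset.range (n + 1), f ((s₁ - M : ℤ) - M * j) := by
      rw [hB, Finset.sum_image]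
      · exact Finset.sum_congr rfl fun j _ => by push_cast; rfl
      · intro i _ j _ hij
        simp only at hij
        have : M * (i : ℤ) = M * j := by linarith
        have := mul_left_cancel₀ hM.ne' this
        exact_mod_cast this
    linarith
  have hs10R : (0 : ℝ) ≤ s₁ := by exact_mod_cast hs10
  have hs1MR : (s₁ : ℝ) < M := by exact_mod_cast hs1M
  -- right part
  have e2 : ∑ j ∈ Finset.range (n + 1), f (s₁ + M * j) ≤ f s₁ + (M : ℝ)⁻¹ * ∫ x in (s₁ : ℝ)..(s₁ + M * n), f x := by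
    rw [Finset.sum_range_succ']
    have h1 : AntitoneOn (fun x : ℝ => f (s₁ + M * x)) (Set.Icc 0 (0 + (n : ℝ))) := by
      intro x hx y hy hxy
      refine hfm _ _ ?_
      have hx0 := hx.1
      have hMx : (M : ℝ) * x ≤ M * y := mul_le_mul_of_nonneg_left hxy hMR.le
      have hMx0 : 0 ≤ (M : ℝ) * x := mul_nonneg hMR.le hx0
      rw [abs_of_nonneg (by linarith), abs_of_nonneg (by linarith)]
      linarith
    have h2 := h1.sum_le_integral
    have h3 := intervalIntegral.integral_comp_add_mul (a := 0) (b := (n : ℝ)) f hMR.ne' (s₁ : ℝ)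
    rw [zero_add] at h2
    rw [h3, mul_zero, add_zero, smul_eq_mul] at h2
    simp only [Nat.cast_zero, mul_zero, add_zero]
    simp only [zero_add] at h2
    linarith
  -- left part
  have e3 : ∑ j ∈ Finset.range (n + 1), f ((s₁ - M : ℤ) - M * j) ≤ f ((s₁ - M : ℤ)) +
      (M : ℝ)⁻¹ * ∫ x in ((s₁ - M : ℤ) - M * n : ℝ)..((s₁ - M : ℤ) : ℝ), f x := by
    rw [Finset.sum_range_succ']
    have h1 : AntitoneOn (fun x : ℝ => f ((s₁ - M : ℤ) - M * x)) (Set.Icc 0 (0 + (n : ℝ))) := by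
      intro x hx y hy hxy
      refine hfm _ _ ?_
      have hx0 := hx.1
      have hMx : (M : ℝ) * x ≤ M * y := mul_le_mul_of_nonneg_left hxy hMR.le
      have hMx0 : 0 ≤ (M : ℝ) * x := mul_nonneg hMR.le hx0
      push_cast
      rw [abs_of_nonpos (by linarith), abs_of_nonpos (by linarith)]
      linarith
    have h2 := h1.sum_le_integral
    have h3 := intervalIntegral.integral_comp_sub_mul (a := 0) (b := (n : ℝ)) f hMR.ne' ((s₁ - M : ℤ) : ℝ)
    rw [zero_add] at h2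
    rw [h3, mul_zero, sub_zero, smul_eq_mul] at h2
    simp only [Nat.cast_zero, mul_zero, sub_zero]
    simp only [zero_add] at h2
    linarith
  -- middle part
  have e4 : f s₁ + f ((s₁ - M : ℤ)) ≤ 1 + (M : ℝ)⁻¹ * ∫ x in ((s₁ - M : ℤ) : ℝ)..(s₁ : ℝ), f x := by
    have h1 : ∀ x ∈ Set.Icc ((s₁ - M : ℤ) : ℝ) (s₁ : ℝ), min (f s₁) (f ((s₁ - M : ℤ))) ≤ f x := by
      intro x hx
      rcases le_total 0 x with h0 | h0
      · refine (min_le_left _ _).trans (hfm _ _ ?_)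
        rw [abs_of_nonneg h0, abs_of_nonneg hs10R]
        exact hx.2
      · refine (min_le_right _ _).trans (hfm _ _ ?_)
        have h2 : (((s₁ - M : ℤ)) : ℝ) ≤ 0 := by push_cast; linarith
        rw [abs_of_nonpos h0, abs_of_nonpos h2]
        linarith [hx.1]
    have hle : ((s₁ - M : ℤ) : ℝ) ≤ s₁ := by push_cast; linarith
    have h2 : ∫ x in ((s₁ - M : ℤ) : ℝ)..(s₁ : ℝ), (min (f s₁) (f ((s₁ - M : ℤ)))) ≤ ∫ x in ((s₁ - M : ℤ) : ℝ)..(s₁ : ℝ), f x :=
      intervalIntegral.integral_mono_on hle (by simp) (hfi _ _) h1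
    rw [intervalIntegral.integral_const, smul_eq_mul] at h2
    have h3 : (s₁ : ℝ) - ((s₁ - M : ℤ) : ℝ) = M := by push_cast; ring
    rw [h3] at h2
    have h4 : min (f s₁) (f ((s₁ - M : ℤ))) ≤ (M : ℝ)⁻¹ * ∫ x in ((s₁ - M : ℤ) : ℝ)..(s₁ : ℝ), f x := by
      rw [inv_mul_eq_div, le_div_iff₀ hMR]
      linarith
    have h5 : f s₁ + f ((s₁ - M : ℤ)) = min (f s₁) (f ((s₁ - M : ℤ))) + max (f s₁) (f ((s₁ - M : ℤ))) := (min_add_max _ _).symm
    have h6 : max (f s₁) (f ((s₁ - M : ℤ))) ≤ 1 := max_le (hf1 _) (hf1 _)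
    linarith
  -- the integrals together
  have e5 : (∫ x in ((s₁ - M : ℤ) - M * n : ℝ)..((s₁ - M : ℤ) : ℝ), f x) + (∫ x in ((s₁ - M : ℤ) : ℝ)..(s₁ : ℝ), f x) +
      (∫ x in (s₁ : ℝ)..(s₁ + M * n), f x) ≤ Real.sqrt (Real.pi / τ) := by
    rw [intervalIntegral.integral_add_adjacent_intervals (hfi _ _) (hfi _ _), intervalIntegral.integral_add_adjacent_intervals (hfi _ _) (hfi _ _)]
    have h1 : (((s₁ - M : ℤ) : ℝ) - M * n) ≤ s₁ + M * n := by
      push_cast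
      have : (0 : ℝ) ≤ M * n := by positivity
      linarith
    have h2 := g01_int τ hτ _ _ h1
    rw [hf]
    exact h2
  have e6 : ∑ s ∈ J, Real.exp (-τ * (s : ℝ) ^ 2) = ∑ s ∈ J, f s := by rw [hf]
  rw [e6]
  have e7 : (M : ℝ)⁻¹ * ((∫ x in ((s₁ - M : ℤ) - M * n : ℝ)..((s₁ - M : ℤ) : ℝ), f x) + (∫ x in ((s₁ - M : ℤ) : ℝ)..(s₁ : ℝ), f x) +
      (∫ x in (s₁ : ℝ)..(s₁ + M * n), f x)) ≤ (M : ℝ)⁻¹ * Real.sqrt (Real.pi / τ) :=
    mul_le_mul_of_nonneg_left e5 (by positivity)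
  have e8 : Real.sqrt (Real.pi / τ) / M = (M : ℝ)⁻¹ * Real.sqrt (Real.pi / τ) := by rw [inv_mul_eq_div]
  rw [e8]
  rw [mul_add, mul_add] at e7
  linarith

end Pool.Agent.Lib.H82O
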