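import Pool.Agent.Lib.H82O.G01

/-!
# H82O G02: the two-dimensional Gaussian sum (pure)
-/

set_option autoImplicit false

namespace Pool.Agent.Lib.H82O

/-- PROOF. Sum first over the pairs with a given `c` (`Finset.sum_fiberwise` or
`Finset.sum_comp`; `C` = the image of the second coordinate): by hypothesis the values `s` for this `c` lie in
one class modulo `2A`, so by `gauss_class` with `τ = t/A`, `M = 2A` the inner sum of
`exp(-t s²/A)` is `≤ 1 + √(π A/t)/(2A) = 1 + √(π/(t A))/2`. The outer sum of `exp(-(2 m t/A) c²)` over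
`c ∈ C` is `≤ 1 + √(π A/(2 m t))` by `gauss_class` with `M = 1`. -/
theorem gauss_pairs (t : ℝ) (ht : 0 < t) (m A : ℤ) (hm : 0 < m) (hA : 0 < A)
    (P : Finset (ℤ × ℤ)) (hP : ∀ x ∈ P, ∀ y ∈ P, x.2 = y.2 → 2 * A ∣ x.1 - y.1) :
    ∑ x ∈ P, Real.exp (-t * ((x.1 : ℝ) ^ 2 + 2 * m * (x.2 : ℝ) ^ 2) / A) ≤
      (1 + Real.sqrt (Real.pi / (t * A)) / 2) * (1 + Real.sqrt (Real.pi * A / (2 * m * t))) := by
  classical
  have hmR : (0 : ℝ) < m := by exact_mod_cast hm
  have hAR : (0 : ℝ) < A := by exact_mod_cast hA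
  set C : Finset ℤ := P.image Prod.snd with hC
  have h1 : ∑ x ∈ P, Real.exp (-t * ((x.1 : ℝ) ^ 2 + 2 * m * (x.2 : ℝ) ^ 2) / A) =
      ∑ c ∈ C, ∑ x ∈ P.filter (fun x => x.2 = c),
        Real.exp (-t * ((x.1 : ℝ) ^ 2 + 2 * m * (x.2 : ℝ) ^ 2) / A) :=
    (Finset.sum_fiberwise_of_maps_to (fun x hx => Finset.mem_image_of_mem _ hx) _).symm
  have hinner : ∀ c ∈ C, ∑ x ∈ P.filter (fun x => x.2 = c),
        Real.exp (-t * ((x.1 : ℝ) ^ 2 + 2 * m * (x.2 : ℝ) ^ 2) / A) ≤
      (1 + Real.sqrt (Real.pi / (t * A)) / 2) * Real.exp (-(2 * m * t / A) * (c : ℝ) ^ 2) := by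
    intro c hc
    have hs : ∑ x ∈ P.filter (fun x => x.2 = c),
        Real.exp (-t * ((x.1 : ℝ) ^ 2 + 2 * m * (x.2 : ℝ) ^ 2) / A) =
        ∑ x ∈ P.filter (fun x => x.2 = c),
          Real.exp (-(t / A) * (x.1 : ℝ) ^ 2) * Real.exp (-(2 * m * t / A) * (c : ℝ) ^ 2) := by
      refine Finset.sum_congr rfl fun x hx => ?_
      have hxc : x.2 = c := (Finset.mem_filter.1 hx).2
      rw [← Real.exp_add, hxc]
      congr 1
      field_simp
      ring
    rw [hs, ← Finset.sum_mul]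
    refine mul_le_mul_of_nonneg_right ?_ (Real.exp_pos _).le
    have hinj : Set.InjOn Prod.fst (P.filter (fun x => x.2 = c) : Set (ℤ × ℤ)) := by
      intro x hx y hy hxy
      have hx2 : x.2 = c := (Finset.mem_filter.1 hx).2
      have hy2 : y.2 = c := (Finset.mem_filter.1 hy).2
      exact Prod.ext hxy (hx2.trans hy2.symm)
    have hi : ∑ x ∈ P.filter (fun x => x.2 = c), Real.exp (-(t / A) * (x.1 : ℝ) ^ 2) =
        ∑ s ∈ (P.filter (fun x => x.2 = c)).image Prod.fst, Real.exp (-(t / A) * (s : ℝ) ^ 2) :=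
      (Finset.sum_image (f := fun s : ℤ => Real.exp (-(t / A) * (s : ℝ) ^ 2)) hinj).symm
    rw [hi]
    obtain ⟨z, hz, hzc⟩ := Finset.mem_image.1 hc
    have hg := gauss_class (t / A) (div_pos ht hAR) (2 * A) (by linarith) z.1
      ((P.filter (fun x => x.2 = c)).image Prod.fst) (by
        intro s hs
        obtain ⟨x, hx, rfl⟩ := Finset.mem_image.1 hs
        have hx' := Finset.mem_filter.1 hx
        exact hP x hx'.1 z hz (hx'.2.trans hzc.symm))
    refine hg.trans (le_of_eq ?_)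
    have e1 : Real.pi / (t / A) = Real.pi / (t * A) * (A : ℝ) ^ 2 := by
      field_simp
    have e2 : Real.sqrt (Real.pi / (t / A)) = Real.sqrt (Real.pi / (t * A)) * A := by
      rw [e1, Real.sqrt_mul (by positivity), Real.sqrt_sq hAR.le]
    rw [e2]
    push_cast
    field_simp
  rw [h1]
  refine (Finset.sum_le_sum hinner).trans ?_
  rw [← Finset.mul_sum]
  refine mul_le_mul_of_nonneg_left ?_ (by positivity)
  have hg := gauss_class (2 * m * t / A) (by positivity) 1 one_pos 0 C (fun s _ => one_dvd _)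
  refine hg.trans (le_of_eq ?_)
  have e1 : Real.pi / (2 * m * t / A) = Real.pi * A / (2 * m * t) := by
    field_simp
  rw [e1]
  push_cast
  rw [div_one]

end Pool.Agent.Lib.H82O
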