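import Pool.Agent.Lib.H82O.DefsL

/-!
# H82O K01: the character `chi m`
-/

set_option autoImplicit false

namespace Pool.Agent.Lib.H82O

theorem k01_mod (m : ℕ) {n : ℕ} (hn : Odd n) :
    jacobiSym (-2 * (m : ℤ)) n = jacobiSym (-2 * (m : ℤ)) (n % (8 * m)) := by
  have h := jacobiSym.mod_right (-2 * (m : ℤ)) hn
  have e : 4 * (-2 * (m : ℤ)).natAbs = 8 * m := by
    rw [Int.natAbs_mul, Int.natAbs_natCast]
    have : (-2 : ℤ).natAbs = 2 := rfl
    rw [this]
    ring
  rw [e] at h
  exact h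

theorem k01_odd (m : ℕ) (hm : 0 < m) {a : ZMod (8 * m)} (ha : IsUnit a) : Odd a.val := by
  haveI : NeZero (8 * m) := ⟨by omega⟩
  have h1 : IsUnit ((a.val : ℕ) : ZMod (8 * m)) := by rwa [ZMod.natCast_zmod_val]
  rw [ZMod.isUnit_iff_coprime] at h1
  have h2 : Nat.Coprime a.val 2 := h1.coprime_dvd_right ⟨4 * m, by ring⟩
  exact Nat.coprime_two_right.1 h2

/-- EXISTENCE. PROOF. For a unit `a` of `ZMod (8m)` (`m ≥ 1`), `a.val` is odd and coprime to `8m`; put
`f a = J(-2m | a.val)` for units and `0` otherwise. Multiplicativity on units: with `x = a.val`,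
`y = b.val`, `(ab).val = (x y) % (8m)`, and `J(-2m | x y) = J(-2m | (x y) % (8 m))` by
`jacobiSym.mod_right` (`4 |-2m| = 8m`), `J(-2m | x y) = J(-2m|x) J(-2m|y)` (`jacobiSym.mul_right`).
This gives a `MulChar (ZMod (8m)) ℂ` (`MulChar.mk` / `MulChar.ofUnitHom`). For odd `n` not coprime to
`8m`, `gcd(n, m) > 1` and both sides are `0` (`jacobiSym.eq_zero_iff_not_coprime`); for odd `n`
coprime to `8m`: `(n : ZMod (8m)).val = n % (8m)` and `jacobiSym.mod_right`. -/
theorem chi_exists (m : ℕ) (hm : 0 < m) : ∃ χ : DirichletCharacter ℂ (8 * m), ∀ n : ℕ, Odd n →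
    χ (n : ZMod (8 * m)) = ((jacobiSym (-2 * (m : ℤ)) n : ℤ) : ℂ) := by
  classical
  haveI : NeZero (8 * m) := ⟨by omega⟩
  haveI : Fact (1 < 8 * m) := ⟨by omega⟩
  obtain ⟨f, hf⟩ : ∃ f : ZMod (8 * m) → ℂ, f = fun a => if IsUnit a then
    ((jacobiSym (-2 * (m : ℤ)) a.val : ℤ) : ℂ) else 0 := ⟨_, rfl⟩
  have hone : f 1 = 1 := by
    rw [hf]
    simp only [isUnit_one, if_true]
    rw [ZMod.val_one, jacobiSym.one_right]
    simp
  have hmul : ∀ a b, f (a * b) = f a * f b := by
    intro a b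
    rw [hf]
    simp only
    by_cases ha : IsUnit a
    · by_cases hb : IsUnit b
      · rw [if_pos (ha.mul hb), if_pos ha, if_pos hb, ZMod.val_mul,
          ← k01_mod m ((k01_odd m hm ha).mul (k01_odd m hm hb)), jacobiSym.mul_right']
        · push_cast
          rfl
        · exact (k01_odd m hm ha).pos.ne'
        · exact (k01_odd m hm hb).pos.ne'
      · rw [if_neg (fun h => hb (IsUnit.mul_iff.1 h).2), if_neg hb, mul_zero]
    · rw [if_neg (fun h => ha (IsUnit.mul_iff.1 h).1), if_neg ha, zero_mul]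
  refine ⟨⟨⟨⟨f, hone⟩, hmul⟩, fun a ha => ?_⟩, fun n hn => ?_⟩
  · change f a = 0
    rw [hf]
    exact if_neg ha
  · change f (n : ZMod (8 * m)) = _
    rw [hf]
    simp only
    split_ifs with hu
    · rw [ZMod.val_natCast, ← k01_mod m hn]
    · rw [ZMod.isUnit_iff_coprime] at hu
      have hn0 : n ≠ 0 := hn.pos.ne'
      haveI : NeZero n := ⟨hn0⟩
      have h1 : jacobiSym (-2 * (m : ℤ)) n = 0 := by
        rw [jacobiSym.eq_zero_iff_not_coprime]
        intro hg
        apply hu
        have h2 : Nat.Coprime (2 * m) n := by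
          have e : (-2 * (m : ℤ)).gcd n = (2 * m).gcd n := by
            rw [Int.gcd_eq_natAbs, Int.natAbs_mul, Int.natAbs_natCast, Int.natAbs_natCast]
            rfl
          rw [Nat.Coprime, ← e]
          exact hg
        have h3 : Nat.Coprime 4 n := by
          have : Nat.Coprime 2 n := Nat.coprime_two_left.2 hn
          have h4 := Nat.Coprime.mul_left this this
          exact h4
        have h5 := Nat.Coprime.mul_left h3 h2
        have e2 : 4 * (2 * m) = 8 * m := by ring
        rw [e2] at h5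
        exact h5.symm
      rw [h1]
      simp

end Pool.Agent.Lib.H82O
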