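import Pool.Agent.Lib.H82O.K01

/-!
# H82O K02A: first properties of `chi m`
-/

set_option autoImplicit false

namespace Pool.Agent.Lib.H82O

theorem chi_odd (m : ℕ) (hm : 0 < m) (n : ℕ) (hn : n % 2 = 1) :
    chi m (n : ZMod (8 * m)) = ((jacobiSym (-2 * (m : ℤ)) n : ℤ) : ℂ) := by
  have h := chi_exists m hm
  unfold chi
  rw [dif_pos h]
  exact h.choose_spec n (Nat.odd_iff.mpr hn)

/-- an even `n` is not a unit modulo `8m` -/
theorem chi_even (m : ℕ) (n : ℕ) (hn : n % 2 = 0) : chi m (n : ZMod (8 * m)) = 0 := by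
  apply MulChar.map_nonunit
  rw [ZMod.isUnit_iff_coprime]
  intro h
  have h1 : 2 ∣ Nat.gcd n (8 * m) := Nat.dvd_gcd (Nat.dvd_of_mod_eq_zero hn) ⟨4 * m, by ring⟩
  rw [h] at h1
  omega

/-- PROOF. On units (odd `a.val`, coprime to `m`) the value is `±1`. -/
theorem chi_sq (m : ℕ) (hm : 0 < m) : chi m ^ 2 = 1 := by
  haveI : NeZero (8 * m) := ⟨by omega⟩
  apply MulChar.ext
  intro a
  rw [MulChar.pow_apply_coe, MulChar.one_apply_coe]
  have h1 : (a : ZMod (8 * m)) = ((a : ZMod (8 * m)).val : ZMod (8 * m)) := (ZMod.natCast_zmod_val _).symm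
  have h2 : Nat.Coprime (a : ZMod (8 * m)).val (8 * m) := by
    rw [← ZMod.isUnit_iff_coprime, ← h1]
    exact a.isUnit
  have h3 : (a : ZMod (8 * m)).val % 2 = 1 := by
    by_contra h
    have h4 : 2 ∣ Nat.gcd (a : ZMod (8 * m)).val (8 * m) := Nat.dvd_gcd (by omega) ⟨4 * m, by ring⟩
    rw [h2] at h4
    omega
  rw [h1, chi_odd m hm _ h3]
  have h5 : Int.gcd (-2 * (m : ℤ)) ((a : ZMod (8 * m)).val : ℤ) = 1 := by
    have h6 : Nat.Coprime (a : ZMod (8 * m)).val (2 * m) := Nat.Coprime.coprime_dvd_right ⟨4, by ring⟩ h2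
    have h7 : (-2 * (m : ℤ)) = -((2 * m : ℕ) : ℤ) := by push_cast; ring
    rw [h7, Int.neg_gcd, Int.gcd_natCast_natCast]
    exact h6.symm
  have h8 := jacobiSym.sq_one h5
  exact_mod_cast h8

end Pool.Agent.Lib.H82O
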