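import Pool.Agent.Lib.H82O.K01
import Pool.Agent.Lib.H82O.K02A

/-!
# H82O K02B: first properties of `chi m`
-/

set_option autoImplicit false

namespace Pool.Agent.Lib.H82O

/-- PROOF. `chi m (8m - 1) = J(-2m | 8m - 1) = -1`: with `N = 8m - 1 ≡ 7 mod 8`, `J(-1|N) = -1`,
`J(2|N) = 1`; `J(m|N)`: if `m ≡ 1 mod 4` reciprocity gives `J(N|m) = J(-1|m) = 1`; if `m ≡ 3 mod 4` it
gives `-J(N|m) = -J(-1|m) = 1`. -/
theorem chi_ne_one (m : ℕ) (hm : m % 2 = 1) : chi m ≠ 1 := by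
  intro h
  have hm0 : 0 < m := by omega
  obtain ⟨N, hN⟩ : ∃ N : ℕ, N = 8 * m - 1 := ⟨_, rfl⟩
  have hN2 : N % 2 = 1 := by omega
  have hN8 : N % 8 = 7 := by omega
  have hNm : (N : ℤ) = 8 * m - 1 := by omega
  have h1 := chi_odd m hm0 N hN2
  have hmodd : Odd m := Nat.odd_iff.2 hm
  have hNodd : Odd N := Nat.odd_iff.2 hN2
  have h2 : jacobiSym (-2) N = -1 := by
    rw [jacobiSym.at_neg_two hNodd, ZMod.χ₈'_nat_eq_if_mod_eight]
    rw [if_neg (by omega), if_neg (by omega)]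
  have h3 : jacobiSym (N : ℤ) m = jacobiSym (-1) m := by
    apply jacobiSym.mod_left'
    rw [hNm]
    have e : (8 * (m : ℤ) - 1) = -1 + 8 * m := by ring
    rw [e, Int.add_mul_emod_self_right]
  have h4 : jacobiSym (m : ℤ) N = 1 := by
    rcases (show m % 4 = 1 ∨ m % 4 = 3 by omega) with h5 | h5
    · rw [jacobiSym.quadratic_reciprocity_one_mod_four h5 hNodd, h3, jacobiSym.at_neg_one hmodd,
        ZMod.χ₄_nat_one_mod_four h5]
    · rw [jacobiSym.quadratic_reciprocity_three_mod_four h5 (by omega), h3, jacobiSym.at_neg_one hmodd,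
        ZMod.χ₄_nat_three_mod_four h5]
      norm_num
  rw [jacobiSym.mul_left, h2, h4, h] at h1
  by_cases hu : IsUnit ((N : ℕ) : ZMod (8 * m))
  · rw [MulChar.one_apply hu] at h1
    norm_num at h1
  · rw [MulChar.map_nonunit _ hu] at h1
    norm_num at h1

/-- PROOF. `J(-2m | 3) = J(-2 | 3) = 1` for `m ≡ 1 mod 3`. -/
theorem chi_three (m : ℕ) (hm : m % 6 = 1) : chi m ((3 : ℕ) : ZMod (8 * m)) = 1 := by
  have hm0 : 0 < m := by omega
  rw [chi_odd m hm0 3 (by norm_num)]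
  have h1 : jacobiSym (-2 * (m : ℤ)) 3 = jacobiSym 1 3 := by
    apply jacobiSym.mod_left'
    omega
  rw [h1, jacobiSym.one_left]
  norm_num

end Pool.Agent.Lib.H82O
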