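import Pool.Agent.Lib.H82O.K01
import Pool.Agent.Lib.H82O.K02A
import Pool.Agent.Lib.H82O.K02B

/-! Collects K02A, K02B. -/
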