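import Pool.Agent.Lib.H82O.Defs

/-!
# H82O Q01: division in the Lipschitz order by an element of odd norm
-/

set_option autoImplicit false

namespace Pool.Agent.Lib.H82O

theorem q01_near (N : ℤ) (hN : 0 < N) (hodd : N % 2 = 1) (y : ℤ) : ∃ q : ℤ, -N < 2 * (y - q * N) ∧ 2 * (y - q * N) < N := by
  refine ⟨(2 * y + N) / (2 * N), ?_, ?_⟩
  · have h1 := Int.mul_ediv_add_emod (2 * y + N) (2 * N)
    have h2 := Int.emod_lt_of_pos (2 * y + N) (show 0 < 2 * N by linarith)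
    have h3 := Int.emod_nonneg (2 * y + N) (show 2 * N ≠ 0 by linarith)
    obtain ⟨q, hq⟩ : ∃ q, q = (2 * y + N) / (2 * N) := ⟨_, rfl⟩
    obtain ⟨r, hr⟩ : ∃ r, r = (2 * y + N) % (2 * N) := ⟨_, rfl⟩
    rw [← hq] at h1 ⊢
    rw [← hr] at h1 h2 h3
    have h4 : 2 * (y - q * N) = r - N := by linear_combination -h1
    rw [h4]
    rcases h3.lt_or_eq with h5 | h5
    · linarith
    · exfalso
      rw [← h5] at h4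
      omega
  · have h1 := Int.mul_ediv_add_emod (2 * y + N) (2 * N)
    have h2 := Int.emod_lt_of_pos (2 * y + N) (show 0 < 2 * N by linarith)
    obtain ⟨q, hq⟩ : ∃ q, q = (2 * y + N) / (2 * N) := ⟨_, rfl⟩
    obtain ⟨r, hr⟩ : ∃ r, r = (2 * y + N) % (2 * N) := ⟨_, rfl⟩
    rw [← hq] at h1 ⊢
    rw [← hr] at h1 h2
    have h4 : 2 * (y - q * N) = r - N := by linear_combination -h1
    linarith

theorem q01_sq {N e : ℤ} (h1 : -N < 2 * e) (h2 : 2 * e < N) : 4 * e ^ 2 < N ^ 2 := by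
  nlinarith

theorem q01_par {N S e t : ℤ} (hodd : N % 2 = 1) (ht : t ^ 2 = 1) (hS : S % 2 = 0) : (S + t ^ 2 * N ^ 2 - 2 * (t * N * e)) % 2 = 1 := by
  rw [ht, one_mul]
  have : N ^ 2 % 2 = 1 := by
    rw [pow_two, Int.mul_emod, hodd]
    norm_num
  omega

theorem q01_key {N e0 e1 e2 e3 : ℤ} (hN : 0 < N) (hodd : N % 2 = 1) (a0 : -N < 2 * e0) (b0 : 2 * e0 < N) (h0 : e0 ≠ 0)
    (h1 : e1 ^ 2 ≤ e0 ^ 2) (h2 : e2 ^ 2 ≤ e0 ^ 2) (h3 : e3 ^ 2 ≤ e0 ^ 2) (hS : (e0 ^ 2 + e1 ^ 2 + e2 ^ 2 + e3 ^ 2) % 2 = 0) :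
    ∃ t : ℤ, (e0 - t * N) ^ 2 + e1 ^ 2 + e2 ^ 2 + e3 ^ 2 < N ^ 2 ∧ ((e0 - t * N) ^ 2 + e1 ^ 2 + e2 ^ 2 + e3 ^ 2) % 2 = 1 := by
  have key : ∀ t : ℤ, (e0 - t * N) ^ 2 + e1 ^ 2 + e2 ^ 2 + e3 ^ 2 =
      (e0 ^ 2 + e1 ^ 2 + e2 ^ 2 + e3 ^ 2) + t ^ 2 * N ^ 2 - 2 * (t * N * e0) := fun t => by ring
  rcases lt_or_gt_of_ne h0 with h | h
  · refine ⟨-1, ?_, ?_⟩
    · nlinarith
    · rw [key]
      exact q01_par hodd (by norm_num) hS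
  · refine ⟨1, ?_, ?_⟩
    · nlinarith
    · rw [key]
      exact q01_par hodd (by norm_num) hS

/-- PURE INTEGERS. PROOF. Choose `qᵢ` with `eᵢ = yᵢ - qᵢ N`, `|eᵢ| < N/2` (`N` odd: round; e.g.
`Int.bmod`, or `qᵢ = (2 yᵢ + N)/(2N)`); `∑ eᵢ² < N²`. If `∑ eᵢ²` is odd we are done. Otherwise let `i` be
an index with `|eᵢ|` maximal; `eᵢ ≠ 0`, since otherwise all `N ∣ yᵢ`. Replace `eᵢ` by `eᵢ ∓ N` (sign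
opposite), of absolute value `N - |eᵢ|`: the sum becomes `∑ + N² - 2 N |eᵢ|`, which is odd, and
`∑ ≤ 4 eᵢ² < 2 N |eᵢ|`, so it is `< N²`. -/
theorem round4 (N : ℤ) (hN : 0 < N) (hodd : N % 2 = 1) (y0 y1 y2 y3 : ℤ)
    (hy : ¬ (N ∣ y0 ∧ N ∣ y1 ∧ N ∣ y2 ∧ N ∣ y3)) : ∃ q0 q1 q2 q3 : ℤ,
    (y0 - q0 * N) ^ 2 + (y1 - q1 * N) ^ 2 + (y2 - q2 * N) ^ 2 + (y3 - q3 * N) ^ 2 < N ^ 2 ∧
    ((y0 - q0 * N) ^ 2 + (y1 - q1 * N) ^ 2 + (y2 - q2 * N) ^ 2 + (y3 - q3 * N) ^ 2) % 2 = 1 := by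
  obtain ⟨q0, a0, b0⟩ := q01_near N hN hodd y0
  obtain ⟨q1, a1, b1⟩ := q01_near N hN hodd y1
  obtain ⟨q2, a2, b2⟩ := q01_near N hN hodd y2
  obtain ⟨q3, a3, b3⟩ := q01_near N hN hodd y3
  by_cases hS : ((y0 - q0 * N) ^ 2 + (y1 - q1 * N) ^ 2 + (y2 - q2 * N) ^ 2 + (y3 - q3 * N) ^ 2) % 2 = 1
  · refine ⟨q0, q1, q2, q3, ?_, hS⟩
    have := q01_sq a0 b0
    have := q01_sq a1 b1
    have := q01_sq a2 b2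
    have := q01_sq a3 b3
    linarith
  have hS0 : ((y0 - q0 * N) ^ 2 + (y1 - q1 * N) ^ 2 + (y2 - q2 * N) ^ 2 + (y3 - q3 * N) ^ 2) % 2 = 0 := by omega
  obtain ⟨e0, he0⟩ : ∃ e0, e0 = y0 - q0 * N := ⟨_, rfl⟩
  obtain ⟨e1, he1⟩ : ∃ e1, e1 = y1 - q1 * N := ⟨_, rfl⟩
  obtain ⟨e2, he2⟩ : ∃ e2, e2 = y2 - q2 * N := ⟨_, rfl⟩
  obtain ⟨e3, he3⟩ : ∃ e3, e3 = y3 - q3 * N := ⟨_, rfl⟩
  rw [← he0, ← he1, ← he2, ← he3] at hS0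
  rw [← he0] at a0 b0
  rw [← he1] at a1 b1
  rw [← he2] at a2 b2
  rw [← he3] at a3 b3
  have hne : ¬ (e0 = 0 ∧ e1 = 0 ∧ e2 = 0 ∧ e3 = 0) := by
    rintro ⟨r0, r1, r2, r3⟩
    exact hy ⟨⟨q0, by linarith⟩, ⟨q1, by linarith⟩, ⟨q2, by linarith⟩, ⟨q3, by linarith⟩⟩
  have hz : ∀ {x y : ℤ}, x ^ 2 ≤ y ^ 2 → y = 0 → x = 0 := by
    intro x y h1 h2
    rw [h2] at h1
    exact pow_eq_zero_iff (two_ne_zero) |>.1 (le_antisymm (by simpa using h1) (sq_nonneg x))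
  have hcase : (e1 ^ 2 ≤ e0 ^ 2 ∧ e2 ^ 2 ≤ e0 ^ 2 ∧ e3 ^ 2 ≤ e0 ^ 2) ∨ (e0 ^ 2 ≤ e1 ^ 2 ∧ e2 ^ 2 ≤ e1 ^ 2 ∧ e3 ^ 2 ≤ e1 ^ 2) ∨
      (e0 ^ 2 ≤ e2 ^ 2 ∧ e1 ^ 2 ≤ e2 ^ 2 ∧ e3 ^ 2 ≤ e2 ^ 2) ∨ (e0 ^ 2 ≤ e3 ^ 2 ∧ e1 ^ 2 ≤ e3 ^ 2 ∧ e2 ^ 2 ≤ e3 ^ 2) := by
    omega
  rcases hcase with ⟨c1, c2, c3⟩ | ⟨c1, c2, c3⟩ | ⟨c1, c2, c3⟩ | ⟨c1, c2, c3⟩
  · obtain ⟨t, h1, h2⟩ := q01_key hN hodd a0 b0 (fun h => hne ⟨h, hz c1 h, hz c2 h, hz c3 h⟩) c1 c2 c3 hS0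
    refine ⟨q0 + t, q1, q2, q3, ?_, ?_⟩
    · rw [← he1, ← he2, ← he3, show y0 - (q0 + t) * N = e0 - t * N by rw [he0]; ring]
      exact h1
    · rw [← he1, ← he2, ← he3, show y0 - (q0 + t) * N = e0 - t * N by rw [he0]; ring]
      exact h2
  · obtain ⟨t, h1, h2⟩ := q01_key hN hodd a1 b1 (fun h => hne ⟨hz c1 h, h, hz c2 h, hz c3 h⟩) c1 c2 c3 (by
      rw [← hS0]; congr 1; ring)
    refine ⟨q0, q1 + t, q2, q3, ?_, ?_⟩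
    · rw [← he0, ← he2, ← he3, show y1 - (q1 + t) * N = e1 - t * N by rw [he1]; ring]
      linarith
    · rw [← he0, ← he2, ← he3, show y1 - (q1 + t) * N = e1 - t * N by rw [he1]; ring, ← h2]
      congr 1
      ring
  · obtain ⟨t, h1, h2⟩ := q01_key hN hodd a2 b2 (fun h => hne ⟨hz c1 h, hz c2 h, h, hz c3 h⟩) c1 c2 c3 (by
      rw [← hS0]; congr 1; ring)
    refine ⟨q0, q1, q2 + t, q3, ?_, ?_⟩
    · rw [← he0, ← he1, ← he3, show y2 - (q2 + t) * N = e2 - t * N by rw [he2]; ring]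
      linarith
    · rw [← he0, ← he1, ← he3, show y2 - (q2 + t) * N = e2 - t * N by rw [he2]; ring, ← h2]
      congr 1
      ring
  · obtain ⟨t, h1, h2⟩ := q01_key hN hodd a3 b3 (fun h => hne ⟨hz c1 h, hz c2 h, hz c3 h, h⟩) c1 c2 c3 (by
      rw [← hS0]; congr 1; ring)
    refine ⟨q0, q1, q2, q3 + t, ?_, ?_⟩
    · rw [← he0, ← he1, ← he2, show y3 - (q3 + t) * N = e3 - t * N by rw [he3]; ring]
      linarith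
    · rw [← he0, ← he1, ← he2, show y3 - (q3 + t) * N = e3 - t * N by rw [he3]; ring, ← h2]
      congr 1
      ring

end Pool.Agent.Lib.H82O
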