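import Pool.Agent.Lib.H82O.Q01

/-!
# H82O Q02A: left ideals of the Lipschitz order containing an odd integer are principal
-/

set_option autoImplicit false

namespace Pool.Agent.Lib.H82O

/-- `nq` is multiplicative. PROOF. `ext`-free: unfold the multiplication of quaternions
(`Quaternion.re_mul`, `imI_mul`, ...) and `ring`. -/
theorem nq_mul (α β : HZ) : nq (α * β) = nq α * nq β := by
  unfold nq
  rw [Quaternion.re_mul, Quaternion.imI_mul, Quaternion.imJ_mul, Quaternion.imK_mul]
  ring

theorem nq_star (α : HZ) : nq (star α) = nq α := by
  unfold nq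
  rw [Quaternion.re_star, Quaternion.imI_star, Quaternion.imJ_star, Quaternion.imK_star]
  ring

/-- `α ᾱ = N(α)` -/
theorem mul_star_nq (α : HZ) : α * star α = qi (nq α) := by
  apply Quaternion.ext
  · rw [Quaternion.re_mul, Quaternion.re_star, Quaternion.imI_star, Quaternion.imJ_star, Quaternion.imK_star]
    simp only [qi, nq]
    ring
  · rw [Quaternion.imI_mul, Quaternion.re_star, Quaternion.imI_star, Quaternion.imJ_star, Quaternion.imK_star]
    simp only [qi]
    ring
  · rw [Quaternion.imJ_mul, Quaternion.re_star, Quaternion.imI_star, Quaternion.imJ_star, Quaternion.imK_star]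
    simp only [qi]
    ring
  · rw [Quaternion.imK_mul, Quaternion.re_star, Quaternion.imI_star, Quaternion.imJ_star, Quaternion.imK_star]
    simp only [qi]
    ring

end Pool.Agent.Lib.H82O
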