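import Pool.Agent.Lib.H82O.Q01
import Pool.Agent.Lib.H82O.Q02A

/-!
# H82O Q02B: left ideals of the Lipschitz order containing an odd integer are principal
-/

set_option autoImplicit false

namespace Pool.Agent.Lib.H82O

theorem q02b_nonneg (α : HZ) : 0 ≤ nq α := by
  unfold nq
  positivity

theorem q02b_zero {α : HZ} (h : nq α = 0) : α = 0 := by
  unfold nq at h
  have h0 : α.re = 0 := by nlinarith [sq_nonneg α.re, sq_nonneg α.imI, sq_nonneg α.imJ, sq_nonneg α.imK]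
  have h1 : α.imI = 0 := by nlinarith [sq_nonneg α.re, sq_nonneg α.imI, sq_nonneg α.imJ, sq_nonneg α.imK]
  have h2 : α.imJ = 0 := by nlinarith [sq_nonneg α.re, sq_nonneg α.imI, sq_nonneg α.imJ, sq_nonneg α.imK]
  have h3 : α.imK = 0 := by nlinarith [sq_nonneg α.re, sq_nonneg α.imI, sq_nonneg α.imJ, sq_nonneg α.imK]
  exact Quaternion.ext _ _ h0 h1 h2 h3

/-- The quaternion with given coordinates. -/
def q02b_mk (a b c d : ℤ) : HZ := ⟨a, b, c, d⟩

theorem q02b_mul_qi (q0 q1 q2 q3 N : ℤ) : q02b_mk q0 q1 q2 q3 * qi N = q02b_mk (q0 * N) (q1 * N) (q2 * N) (q3 * N) := by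
  apply Quaternion.ext
  · rw [Quaternion.re_mul]
    simp only [qi, q02b_mk]
    ring
  · rw [Quaternion.imI_mul]
    simp only [qi, q02b_mk]
    ring
  · rw [Quaternion.imJ_mul]
    simp only [qi, q02b_mk]
    ring
  · rw [Quaternion.imK_mul]
    simp only [qi, q02b_mk]
    ring

/-- DIVISION. PROOF. Apply `round4` with `N = nq α` and `y = x ᾱ` (coordinates); if all
coordinates of `x ᾱ` are divisible by `N` then `x ᾱ = q N = q α ᾱ`, so `x = q α` (cancel `ᾱ`: multiply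
by `α` on the right and divide by `N`), excluded. With `q = (q0,q1,q2,q3)`, `r = x - q α`:
`r ᾱ = x ᾱ - q N`, so `nq r · N = nq (r ᾱ) < N²`, `nq r < N`, and `nq (r ᾱ)` is odd, so `nq r` is odd. -/
theorem q_div (α x : HZ) (hα : nq α % 2 = 1) (hx : ¬ ∃ q : HZ, x = q * α) :
    ∃ q : HZ, nq (x - q * α) < nq α ∧ nq (x - q * α) % 2 = 1 := by
  have hN0 : nq α ≠ 0 := by
    intro h
    rw [h] at hα
    norm_num at hα
  have hN : 0 < nq α := lt_of_le_of_ne (q02b_nonneg α) hN0.symm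
  have hmul : ∀ q : HZ, (x - q * α) * star α = x * star α - q * qi (nq α) := by
    intro q
    rw [sub_mul, mul_assoc, mul_star_nq]
  have hnorm : ∀ q : HZ, nq (x - q * α) * nq α = nq (x * star α - q * qi (nq α)) := by
    intro q
    rw [← hmul q, nq_mul, nq_star]
  have hcoord : ∀ q0 q1 q2 q3 : ℤ, nq (x * star α - q02b_mk q0 q1 q2 q3 * qi (nq α)) =
      ((x * star α).re - q0 * nq α) ^ 2 + ((x * star α).imI - q1 * nq α) ^ 2 + ((x * star α).imJ - q2 * nq α) ^ 2 +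
        ((x * star α).imK - q3 * nq α) ^ 2 := by
    intro q0 q1 q2 q3
    rw [q02b_mul_qi]
    rfl
  have hy : ¬ (nq α ∣ (x * star α).re ∧ nq α ∣ (x * star α).imI ∧ nq α ∣ (x * star α).imJ ∧ nq α ∣ (x * star α).imK) := by
    rintro ⟨⟨a, ha⟩, ⟨b, hb⟩, ⟨c, hc⟩, ⟨d, hd⟩⟩
    apply hx
    refine ⟨q02b_mk a b c d, ?_⟩
    have h1 := hnorm (q02b_mk a b c d)
    rw [hcoord, ha, hb, hc, hd] at h1
    have h2 : nq (x - q02b_mk a b c d * α) * nq α = 0 := by
      rw [h1]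
      ring
    have h3 : nq (x - q02b_mk a b c d * α) = 0 := (mul_eq_zero.1 h2).resolve_right hN0
    exact sub_eq_zero.1 (q02b_zero h3)
  obtain ⟨q0, q1, q2, q3, h1, h2⟩ := round4 (nq α) hN hα _ _ _ _ hy
  refine ⟨q02b_mk q0 q1 q2 q3, ?_, ?_⟩
  · rw [← hcoord, ← hnorm, sq] at h1
    exact lt_of_mul_lt_mul_right h1 hN.le
  · rw [← hcoord, ← hnorm] at h2
    have h3 := q02b_nonneg (x - q02b_mk q0 q1 q2 q3 * α)
    rcases Int.emod_two_eq_zero_or_one (nq (x - q02b_mk q0 q1 q2 q3 * α)) with h4 | h4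
    · rw [Int.mul_emod, h4, zero_mul] at h2
      norm_num at h2
    · exact h4

end Pool.Agent.Lib.H82O
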