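import Pool.Agent.Lib.H82O.Q01
import Pool.Agent.Lib.H82O.Q02B

/-!
# H82O Q02C: left ideals of the Lipschitz order containing an odd integer are principal
-/

set_option autoImplicit false

namespace Pool.Agent.Lib.H82O

theorem q02c_nonneg (x : HZ) : 0 ≤ nq x := by
  unfold nq; positivity

/-- PRINCIPAL. PROOF. Let `I = {δ n + ε w}`, a left ideal. It contains `n`, of odd norm `n² > 0`; let
`α ∈ I` have minimal norm among the elements of odd norm (well founded minimum of the natural number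
`(nq α).toNat`). For `x ∈ I`, if `x ∉ L α`, then `q_div` gives `x - q α ∈ I` of smaller odd norm,
contradiction. Apply this to `x = n` and `x = w`. -/
theorem q_gcd (n : ℤ) (hn : 0 < n) (hodd : n % 2 = 1) (w : HZ) :
    ∃ α β γ δ ε : HZ, qi n = γ * α ∧ w = β * α ∧ α = δ * qi n + ε * w ∧ nq α % 2 = 1 := by
  classical
  let P : ℕ → Prop := fun k => ∃ x : HZ, (∃ δ ε : HZ, x = δ * qi n + ε * w) ∧ nq x % 2 = 1 ∧
    (nq x).toNat = k
  have hP : ∃ k, P k := by
    refine ⟨(nq (qi n)).toNat, qi n, ⟨1, 0, by simp⟩, ?_, rfl⟩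
    have : nq (qi n) = n * n := by simp [nq, qi]; ring
    rw [this, Int.mul_emod, hodd]; norm_num
  obtain ⟨α, ⟨δ, ε, hα⟩, ho, hk⟩ := Nat.find_spec hP
  have key : ∀ x : HZ, (∃ δ ε : HZ, x = δ * qi n + ε * w) → ∃ q : HZ, x = q * α := by
    intro x ⟨δ', ε', hx⟩
    by_contra hcon
    obtain ⟨q, h1, h2⟩ := q_div α x ho hcon
    have hlt : (nq (x - q * α)).toNat < Nat.find hP := by
      rw [← hk]
      have h3 := q02c_nonneg (x - q * α)
      have h4 := q02c_nonneg α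
      omega
    apply Nat.find_min hP hlt
    refine ⟨x - q * α, ⟨δ' - q * δ, ε' - q * ε, ?_⟩, h2, rfl⟩
    rw [hx]
    nth_rewrite 1 [hα]
    rw [mul_add, sub_mul, sub_mul, ← mul_assoc, ← mul_assoc]
    abel
  obtain ⟨γ, hγ⟩ := key (qi n) ⟨1, 0, by simp⟩
  obtain ⟨β, hβ⟩ := key w ⟨0, 1, by simp⟩
  exact ⟨α, β, γ, δ, ε, hγ, hβ, hα, ho⟩

end Pool.Agent.Lib.H82O
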