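import Pool.Agent.Lib.H82O.Q01
import Pool.Agent.Lib.H82O.Q02A
import Pool.Agent.Lib.H82O.Q02B
import Pool.Agent.Lib.H82O.Q02C

/-! Collects Q02A, Q02B, Q02C. -/
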