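import Pool.Agent.Lib.H82O.Q02

/-!
# H82O Q03B: the norm of the generator
-/

set_option autoImplicit false

namespace Pool.Agent.Lib.H82O

open Pool.Agent.Lib.H63.TSP

/-- PROOF. If a prime (or any) `d` divides all coordinates of `α` then it divides those of
`β α = b + v`, so `d ∣ v.e, v.p, v.q` and `d ∣ 1` by `PrimV`. Hence the gcd of the four coordinates of
`α` is one; Bezout (`Int.gcd_eq_gcd_ab`, three times; or the ideal `span {..}` of `ℤ` is principal,
generated by `d` dividing all coordinates, so `d` is a unit and `1` is in the span: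
`Ideal.mem_span_insert`). -/
theorem q_prim (v : V) (hprim : PrimV v) (b : ℤ) (α β : HZ) (h : qi b + qv v = β * α) :
    PrimH α := by
  obtain ⟨a, b', c, hp⟩ := hprim
  have hi : v.e = (β * α).imI := by
    rw [← h, Quaternion.imI_add]
    simp only [qi, qv]
    ring
  have hj : v.p = (β * α).imJ := by
    rw [← h, Quaternion.imJ_add]
    simp only [qi, qv]
    ring
  have hk : v.q = (β * α).imK := by
    rw [← h, Quaternion.imK_add]
    simp only [qi, qv]
    ring
  rw [Quaternion.imI_mul] at hi
  rw [Quaternion.imJ_mul] at hj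
  rw [Quaternion.imK_mul] at hk
  rw [hi, hj, hk] at hp
  refine ⟨a * β.imI + b' * β.imJ + c * β.imK, a * β.re + b' * β.imK - c * β.imJ,
    -a * β.imK + b' * β.re + c * β.imI, a * β.imJ - b' * β.imI + c * β.re, ?_⟩
  linear_combination hp

end Pool.Agent.Lib.H82O
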