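import Pool.Agent.Lib.H82O.Q02
import Pool.Agent.Lib.H82O.Q03B

/-!
# H82O Q03A: the norm of the generator
-/

set_option autoImplicit false

namespace Pool.Agent.Lib.H82O

open Pool.Agent.Lib.H63.TSP

/-- PROOF. Let `α, β, γ, δ, ε` be as in `q_gcd` for `w = qi b + qv v`. Note `qi` is central and
`w (star w) = b² + |v|² = b² + 2m` (`qi`). (1) `n ∣ nq α`: `qi (nq α) = α ᾱ` with
`α = δ n + ε w`, `ᾱ = n δ̄ + w̄ ε̄`: all terms of the product are multiples of `n`, the last one being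
`ε w w̄ ε̄ = (b² + 2m) ε ε̄`. So `nq α = n k`, `k ≥ 1` (compare real parts). (2) From `n = γ α`:
`n ᾱ = γ α ᾱ = γ n k`, so `ᾱ = k γ` (cancel `n ≠ 0`: coordinates) and `α = k γ̄`. Hence
`w = β α = k (β γ̄)`: `k` divides `b`, `v.e`, `v.p`, `v.q`; by `PrimV` `k ∣ 1`, so `k = 1`. -/
theorem q_norm (m : ℤ) (v : V) (hv : v.e ^ 2 + v.p ^ 2 + v.q ^ 2 = 2 * m) (hprim : PrimV v)
    (n b : ℤ) (hn : 0 < n) (hodd : n % 2 = 1) (hb : n ∣ b ^ 2 + 2 * m) :
    ∃ α β : HZ, qi b + qv v = β * α ∧ nq α = n := by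
  obtain ⟨α, β, γ, δ, ε, h1, h2, h3, h4⟩ := q_gcd n hn hodd (qi b + qv v)
  refine ⟨α, β, h2, ?_⟩
  have hw : nq (qi b + qv v) = b ^ 2 + 2 * m := by
    rw [← hv]
    unfold nq
    rw [Quaternion.re_add, Quaternion.imI_add, Quaternion.imJ_add, Quaternion.imK_add]
    simp only [qi, qv]
    ring
  obtain ⟨c, hc⟩ := hb
  have hδ : nq (δ * qi n + ε * (qi b + qv v)) = n ^ 2 * nq δ + nq (ε * (qi b + qv v)) +
      2 * n * (δ.re * (ε * (qi b + qv v)).re + δ.imI * (ε * (qi b + qv v)).imI + δ.imJ * (ε * (qi b + qv v)).imJ +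
        δ.imK * (ε * (qi b + qv v)).imK) := by
    generalize ε * (qi b + qv v) = y
    unfold nq
    rw [Quaternion.re_add, Quaternion.imI_add, Quaternion.imJ_add, Quaternion.imK_add,
      Quaternion.re_mul, Quaternion.imI_mul, Quaternion.imJ_mul, Quaternion.imK_mul]
    simp only [qi]
    ring
  obtain ⟨k, hk⟩ : n ∣ nq α := by
    rw [h3, hδ, nq_mul, hw, hc]
    refine ⟨n * nq δ + nq ε * c + 2 * (δ.re * (ε * (qi b + qv v)).re + δ.imI * (ε * (qi b + qv v)).imI +
      δ.imJ * (ε * (qi b + qv v)).imJ + δ.imK * (ε * (qi b + qv v)).imK), ?_⟩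
    ring
  have hn0 : n ≠ 0 := hn.ne'
  have hkpos : 0 < k := by
    have h5 : 0 ≤ nq α := by
      unfold nq
      positivity
    have h6 : nq α ≠ 0 := by
      intro h
      rw [h] at h4
      norm_num at h4
    have h7 : 0 < n * k := by
      rw [← hk]
      exact lt_of_le_of_ne h5 h6.symm
    exact pos_of_mul_pos_right h7 hn.le
  have key : qi n * star α = γ * qi (nq α) := by
    rw [← mul_star_nq, ← mul_assoc, ← h1]
  have e0 : k ∣ α.re := by
    have h5 := congrArg (fun t : HZ => t.re) key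
    simp only [Quaternion.re_mul, Quaternion.re_star, Quaternion.imI_star, Quaternion.imJ_star, Quaternion.imK_star] at h5
    simp only [qi] at h5
    refine ⟨γ.re, mul_left_cancel₀ hn0 ?_⟩
    rw [hk] at h5
    linear_combination h5
  have e1 : k ∣ α.imI := by
    have h5 := congrArg (fun t : HZ => t.imI) key
    simp only [Quaternion.imI_mul, Quaternion.re_star, Quaternion.imI_star, Quaternion.imJ_star, Quaternion.imK_star] at h5
    simp only [qi] at h5
    refine ⟨-γ.imI, mul_left_cancel₀ hn0 ?_⟩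
    rw [hk] at h5
    linear_combination -h5
  have e2 : k ∣ α.imJ := by
    have h5 := congrArg (fun t : HZ => t.imJ) key
    simp only [Quaternion.imJ_mul, Quaternion.re_star, Quaternion.imI_star, Quaternion.imJ_star, Quaternion.imK_star] at h5
    simp only [qi] at h5
    refine ⟨-γ.imJ, mul_left_cancel₀ hn0 ?_⟩
    rw [hk] at h5
    linear_combination -h5
  have e3 : k ∣ α.imK := by
    have h5 := congrArg (fun t : HZ => t.imK) key
    simp only [Quaternion.imK_mul, Quaternion.re_star, Quaternion.imI_star, Quaternion.imJ_star, Quaternion.imK_star] at h5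
    simp only [qi] at h5
    refine ⟨-γ.imK, mul_left_cancel₀ hn0 ?_⟩
    rw [hk] at h5
    linear_combination -h5
  obtain ⟨a, b', c', d, hp⟩ := q_prim v hprim b α β h2
  have hk1 : k ∣ 1 := by
    rw [← hp]
    exact dvd_add (dvd_add (dvd_add (Dvd.dvd.mul_left e0 a) (Dvd.dvd.mul_left e1 b')) (Dvd.dvd.mul_left e2 c'))
      (Dvd.dvd.mul_left e3 d)
  have hk2 : k = 1 := le_antisymm (Int.le_of_dvd one_pos hk1) hkpos
  rw [hk, hk2, mul_one]

end Pool.Agent.Lib.H82O
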