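import Pool.Agent.Lib.H82O.Q02
import Pool.Agent.Lib.H82O.Q03A
import Pool.Agent.Lib.H82O.Q03B

/-! Collects Q03A, Q03B. -/
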