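import Pool.Agent.Lib.H82O.Q03

/-!
# H82O Q04A: the new vector, normalized into `X m`
-/

set_option autoImplicit false

namespace Pool.Agent.Lib.H82O

open Pool.Agent.Lib.H63.TSP

theorem q04a_re (b : ℤ) : (qi b).re = b := rfl
theorem q04a_imI (b : ℤ) : (qi b).imI = 0 := rfl
theorem q04a_imJ (b : ℤ) : (qi b).imJ = 0 := rfl
theorem q04a_imK (b : ℤ) : (qi b).imK = 0 := rfl
theorem q04a_vre (v : V) : (qv v).re = 0 := rfl
theorem q04a_vimI (v : V) : (qv v).imI = v.e := rfl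
theorem q04a_vimJ (v : V) : (qv v).imJ = v.p := rfl
theorem q04a_vimK (v : V) : (qv v).imK = v.q := rfl

/-- PROOF. Put `u = α β - b` (quaternion). `u α = α β α - b α = α (b + v) - b α = α v`. So
`u · nq α = u α ᾱ = α v ᾱ`. The real part of `α v ᾱ` is `0` (`ring` on coordinates), so
`u.re = 0` (`nq α ≠ 0`). Norms: `nq u · nq α = nq α · nq v`, so `nq u = nq v = 2m`. PARITY: the first
imaginary coordinate of `α v ᾱ` is `(a²+b²-c²-d²) e + 2(..) ≡ (nq α) e ≡ 0 (mod 2)`, and it is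
`nq α · u.imI` with `nq α` odd, so `u.imI` is even. Take the `V` with these coordinates. -/
theorem q_rotate (m : ℤ) (v : V) (hv : v.e ^ 2 + v.p ^ 2 + v.q ^ 2 = 2 * m) (he : v.e % 2 = 0)
    (b : ℤ) (α β : HZ) (h : qi b + qv v = β * α) (hodd : nq α % 2 = 1) :
    ∃ u : V, u.e ^ 2 + u.p ^ 2 + u.q ^ 2 = 2 * m ∧ u.e % 2 = 0 ∧ qv u * α = α * qv v := by
  have hcomm : qi b * α = α * qi b := by
    ext <;> simp [q04a_re, q04a_imI, q04a_imJ, q04a_imK, mul_comm]
  have hw : (α * β - qi b) * α = α * qv v := by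
    rw [sub_mul, mul_assoc, ← h, mul_add, hcomm]
    abel
  set w : HZ := α * β - qi b with hwdef
  have h0 := congrArg QuaternionAlgebra.re hw
  have h1 := congrArg QuaternionAlgebra.imI hw
  have h2 := congrArg QuaternionAlgebra.imJ hw
  have h3 := congrArg QuaternionAlgebra.imK hw
  simp only [Quaternion.re_mul, Quaternion.imI_mul, Quaternion.imJ_mul, Quaternion.imK_mul,
    q04a_vre, q04a_vimI, q04a_vimJ, q04a_vimK, mul_zero, zero_sub] at h0 h1 h2 h3
  set A : ℤ := nq α with hA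
  have hAe : A = α.re ^ 2 + α.imI ^ 2 + α.imJ ^ 2 + α.imK ^ 2 := rfl
  have hA0 : A ≠ 0 := by
    intro h
    rw [h] at hodd
    norm_num at hodd
  have k0 : A * w.re = 0 := by
    rw [hAe]
    linear_combination α.re * h0 + α.imI * h1 + α.imJ * h2 + α.imK * h3
  have k1 : A * w.imI = wx α.re α.imI α.imJ α.imK v.e v.p v.q := by
    rw [hAe]; unfold wx
    linear_combination (-α.imI) * h0 + α.re * h1 - α.imK * h2 + α.imJ * h3
  have k2 : A * w.imJ = wy α.re α.imI α.imJ α.imK v.e v.p v.q := by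
    rw [hAe]; unfold wy
    linear_combination (-α.imJ) * h0 + α.imK * h1 + α.re * h2 - α.imI * h3
  have k3 : A * w.imK = wz α.re α.imI α.imJ α.imK v.e v.p v.q := by
    rw [hAe]; unfold wz
    linear_combination (-α.imK) * h0 - α.imJ * h1 + α.imI * h2 + α.re * h3
  have hre : w.re = 0 := by
    rcases mul_eq_zero.1 k0 with h | h
    · exact absurd h hA0
    · exact h
  have hnorm : w.imI ^ 2 + w.imJ ^ 2 + w.imK ^ 2 = 2 * m := by
    have hn := w_norm α.re α.imI α.imJ α.imK v.e v.p v.q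
    rw [← k1, ← k2, ← k3, ← hAe, hv] at hn
    have : A ^ 2 * (w.imI ^ 2 + w.imJ ^ 2 + w.imK ^ 2) = A ^ 2 * (2 * m) := by
      rw [← hn]; ring
    exact mul_left_cancel₀ (pow_ne_zero 2 hA0) this
  have hpar : w.imI % 2 = 0 := by
    obtain ⟨e', he'⟩ : (2 : ℤ) ∣ v.e := Int.dvd_of_emod_eq_zero he
    have h2dvd : (2 : ℤ) ∣ A * w.imI := by
      rw [k1]
      unfold wx
      rw [he']
      refine ⟨(α.re ^ 2 + α.imI ^ 2 - α.imJ ^ 2 - α.imK ^ 2) * e' +
        (α.imI * α.imJ - α.re * α.imK) * v.p + (α.imI * α.imK + α.re * α.imJ) * v.q, ?_⟩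
      ring
    rcases Int.prime_two.dvd_or_dvd h2dvd with h | h
    · omega
    · omega
  refine ⟨⟨w.imI, w.imJ, w.imK⟩, hnorm, hpar, ?_⟩
  have hwv : qv ⟨w.imI, w.imJ, w.imK⟩ = w := by
    ext
    · exact hre.symm
    · rfl
    · rfl
    · rfl
  rw [hwv, hw]

end Pool.Agent.Lib.H82O
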