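import Pool.Agent.Lib.H82O.Q03

/-!
# H82O Q04B: the new vector, normalized into `X m`
-/

set_option autoImplicit false

namespace Pool.Agent.Lib.H82O

open Pool.Agent.Lib.H63.TSP

def q04b_mk (a b c d : ℤ) : HZ := ⟨a, b, c, d⟩
theorem q04b_re (a b c d : ℤ) : (q04b_mk a b c d).re = a := rfl
theorem q04b_imI (a b c d : ℤ) : (q04b_mk a b c d).imI = b := rfl
theorem q04b_imJ (a b c d : ℤ) : (q04b_mk a b c d).imJ = c := rfl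
theorem q04b_imK (a b c d : ℤ) : (q04b_mk a b c d).imK = d := rfl
theorem q04b_vre (v : V) : (qv v).re = 0 := rfl
theorem q04b_vimI (v : V) : (qv v).imI = v.e := rfl
theorem q04b_vimJ (v : V) : (qv v).imJ = v.p := rfl
theorem q04b_vimK (v : V) : (qv v).imK = v.q := rfl

theorem q04b_key (m : ℤ) (v u u' : V) (hX : X m u') (α β w : HZ)
    (h : qv u * α = α * qv v) (hw : w = β * α) (ε ε' : HZ) (h1 : ε' * ε = 1)
    (h2 : qv u' * ε = ε * qv u) (h3 : nq (ε * α) = nq α) :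
    ∃ (u' : V) (α' β' : HZ), X m u' ∧ qv u' * α' = α' * qv v ∧ w = β' * α' ∧ nq α' = nq α := by
  refine ⟨u', ε * α, β * ε', hX, ?_, ?_, h3⟩
  · rw [← mul_assoc, h2, mul_assoc, h, mul_assoc]
  · rw [hw, mul_assoc, ← mul_assoc ε', h1, one_mul]

theorem q04b_sq (e : ℤ) : (e % 3 = 0 ∧ e ^ 2 % 3 = 0) ∨ (e % 3 = 1 ∧ e ^ 2 % 3 = 1) ∨
    (e % 3 = 2 ∧ e ^ 2 % 3 = 1) := by
  have h : e % 3 = 0 ∨ e % 3 = 1 ∨ e % 3 = 2 := by omega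
  rcases h with h | h | h
  · left; refine ⟨h, ?_⟩; rw [pow_two, Int.mul_emod, h]; rfl
  · right; left; refine ⟨h, ?_⟩; rw [pow_two, Int.mul_emod, h]; rfl
  · right; right; refine ⟨h, ?_⟩; rw [pow_two, Int.mul_emod, h]; rfl

/-- NORMALIZATION BY `i, j, k`. PROOF. Modulo 3 exactly one coordinate of `u` is divisible by three
(`2m ≡ 2`). For `ε ∈ {1, i, j, k}` (`⟨1,0,0,0⟩`, `⟨0,1,0,0⟩`, ..) one has `ε u ε̄ = u'` with
`u' = u`, `(e,-p,-q)`, `(-e,p,-q)`, `(-e,-p,q)` respectively, and `u' (ε α) = ε u ε̄ ε α = (ε α) v`.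
Check in each of the 12 residue patterns of `(u.e, u.p, u.q)` modulo three that one of the four `u'`
satisfies `(p - e) % 3 = 1`, `(q - e) % 3 = 2` (pattern `(0,1,2)`: `(0, ±1, ±2)`..). The new `β` is
`β ε̄` (`(β ε̄)(ε α) = β α`), and `nq (ε α) = nq α`. -/
theorem q_normalize (m : ℤ) (hm : m % 6 = 1) (v u : V)
    (hu : u.e ^ 2 + u.p ^ 2 + u.q ^ 2 = 2 * m) (hue : u.e % 2 = 0) (α β w : HZ)
    (h : qv u * α = α * qv v) (hw : w = β * α) :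
    ∃ (u' : V) (α' β' : HZ), X m u' ∧ qv u' * α' = α' * qv v ∧ w = β' * α' ∧ nq α' = nq α := by
  have hcase : ((u.p - u.e) % 3 = 1 ∧ (u.q - u.e) % 3 = 2) ∨
      ((-u.p - u.e) % 3 = 1 ∧ (-u.q - u.e) % 3 = 2) ∨
      ((u.p - -u.e) % 3 = 1 ∧ (-u.q - -u.e) % 3 = 2) ∨
      ((-u.p - -u.e) % 3 = 1 ∧ (u.q - -u.e) % 3 = 2) := by
    have h1 : (u.e ^ 2 + u.p ^ 2 + u.q ^ 2) % 3 = 2 := by rw [hu]; omega
    rcases q04b_sq u.e with ⟨a, a'⟩ | ⟨a, a'⟩ | ⟨a, a'⟩ <;>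
    rcases q04b_sq u.p with ⟨b, b'⟩ | ⟨b, b'⟩ | ⟨b, b'⟩ <;>
    rcases q04b_sq u.q with ⟨c, c'⟩ | ⟨c, c'⟩ | ⟨c, c'⟩ <;>
    omega
  rcases hcase with ⟨h1, h2⟩ | ⟨h1, h2⟩ | ⟨h1, h2⟩ | ⟨h1, h2⟩
  · refine q04b_key m v u u ⟨hu, hue, h1, h2⟩ α β w h hw 1 1 (one_mul 1) ?_ ?_
    · rw [mul_one, one_mul]
    · rw [one_mul]
  · refine q04b_key m v u ⟨u.e, -u.p, -u.q⟩ ⟨?_, hue, h1, h2⟩ α β w h hw (q04b_mk 0 1 0 0)
      (q04b_mk 0 (-1) 0 0) ?_ ?_ ?_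
    · simpa using hu
    · ext <;> simp [q04b_re, q04b_imI, q04b_imJ, q04b_imK] <;> rfl
    · ext <;> simp [q04b_re, q04b_imI, q04b_imJ, q04b_imK, q04b_vre, q04b_vimI, q04b_vimJ,
        q04b_vimK]
    · unfold nq; simp [q04b_re, q04b_imI, q04b_imJ, q04b_imK]; ring
  · refine q04b_key m v u ⟨-u.e, u.p, -u.q⟩ ⟨?_, ?_, h1, h2⟩ α β w h hw (q04b_mk 0 0 1 0)
      (q04b_mk 0 0 (-1) 0) ?_ ?_ ?_
    · simpa using hu
    · show (-u.e) % 2 = 0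
      omega
    · ext <;> simp [q04b_re, q04b_imI, q04b_imJ, q04b_imK] <;> rfl
    · ext <;> simp [q04b_re, q04b_imI, q04b_imJ, q04b_imK, q04b_vre, q04b_vimI, q04b_vimJ,
        q04b_vimK]
    · unfold nq; simp [q04b_re, q04b_imI, q04b_imJ, q04b_imK]; ring
  · refine q04b_key m v u ⟨-u.e, -u.p, u.q⟩ ⟨?_, ?_, h1, h2⟩ α β w h hw (q04b_mk 0 0 0 1)
      (q04b_mk 0 0 0 (-1)) ?_ ?_ ?_
    · simpa using hu
    · show (-u.e) % 2 = 0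
      omega
    · ext <;> simp [q04b_re, q04b_imI, q04b_imJ, q04b_imK] <;> rfl
    · ext <;> simp [q04b_re, q04b_imI, q04b_imJ, q04b_imK, q04b_vre, q04b_vimI, q04b_vimJ,
        q04b_vimK]
    · unfold nq; simp [q04b_re, q04b_imI, q04b_imJ, q04b_imK]; ring

end Pool.Agent.Lib.H82O
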