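import Pool.Agent.Lib.H82O.Q03
import Pool.Agent.Lib.H82O.Q04A
import Pool.Agent.Lib.H82O.Q04B

/-!
# H82O Q04C: the new vector, normalized into `X m`
-/

set_option autoImplicit false

namespace Pool.Agent.Lib.H82O

open Pool.Agent.Lib.H63.TSP

/-- MAIN. PROOF. `q_norm`, `q_rotate`, `q_normalize`. -/
theorem q_main (m : ℤ) (hm : m % 6 = 1) (v : V) (hv : X m v) (hprim : PrimV v) (n b : ℤ)
    (hn : 0 < n) (hodd : n % 2 = 1) (hb : n ∣ b ^ 2 + 2 * m) :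
    ∃ (u : V) (α β : HZ), X m u ∧ qv u * α = α * qv v ∧ qi b + qv v = β * α ∧ nq α = n := by
  obtain ⟨hv1, hv2, -⟩ := hv
  obtain ⟨α, β, h1, h2⟩ := q_norm m v hv1 hprim n b hn hodd hb
  obtain ⟨u, hu1, hu2, hu3⟩ := q_rotate m v hv1 hv2 b α β h1 (by rw [h2]; exact hodd)
  obtain ⟨u', α', β', g1, g2, g3, g4⟩ := q_normalize m hm v u hu1 hu2 α β _ hu3 h1
  exact ⟨u', α', β', g1, g2, g3, g4.trans h2⟩

end Pool.Agent.Lib.H82O
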