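import Pool.Agent.Lib.H82O.Defs

/-!
# H82O R01A: the number of square roots of `-2m` modulo `n` is multiplicative
-/

set_option autoImplicit false

namespace Pool.Agent.Lib.H82O

theorem r01a_card (m : ℤ) (n : ℕ) [NeZero n] : rho m n = Fintype.card {x : ZMod n // x ^ 2 + 2 * (m : ZMod n) = 0} := by
  rw [Fintype.card_subtype]
  unfold rho
  have hiff : ∀ b : ℕ, ((n : ℤ) ∣ (b : ℤ) ^ 2 + 2 * m) ↔ ((b : ZMod n) ^ 2 + 2 * (m : ZMod n) = 0) := by
    intro b
    rw [← ZMod.intCast_zmod_eq_zero_iff_dvd]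
    push_cast
    rfl
  refine Finset.card_bij (fun b _ => (b : ZMod n)) ?_ ?_ ?_
  · intro b hb
    rw [Finset.mem_filter, hiff] at hb
    rw [Finset.mem_filter]
    exact ⟨Finset.mem_univ _, hb.2⟩
  · intro b hb c hc h
    rw [Finset.mem_filter, Finset.mem_range] at hb hc
    have h1 := (ZMod.natCast_eq_natCast_iff' b c n).1 h
    rwa [Nat.mod_eq_of_lt hb.1, Nat.mod_eq_of_lt hc.1] at h1
  · intro x hx
    rw [Finset.mem_filter] at hx
    refine ⟨x.val, ?_, ZMod.natCast_zmod_val x⟩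
    rw [Finset.mem_filter, Finset.mem_range, hiff, ZMod.natCast_zmod_val]
    exact ⟨x.val_lt, hx.2⟩

/-- PROOF. `rho m n` is the number of `x : ZMod n` with `x² = -2m` (`n ≠ 0`: the bijection
`b ↦ (b : ZMod n)` from `range n`), and `ZMod.chineseRemainder` is a ring isomorphism
`ZMod (a b) ≃ ZMod a × ZMod b`: the solutions modulo `ab` correspond to pairs of solutions. Or directly:
`(b₁, b₂) ↦` the residue given by `Nat.chineseRemainder`. -/
theorem rho_mul (m : ℤ) (a b : ℕ) (ha : a ≠ 0) (hb : b ≠ 0) (h : Nat.Coprime a b) :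
    rho m (a * b) = rho m a * rho m b := by
  haveI : NeZero a := ⟨ha⟩
  haveI : NeZero b := ⟨hb⟩
  haveI : NeZero (a * b) := ⟨mul_ne_zero ha hb⟩
  rw [r01a_card, r01a_card, r01a_card, ← Fintype.card_prod]
  apply Fintype.card_congr
  refine Equiv.trans (Equiv.subtypeEquiv (ZMod.chineseRemainder h).toEquiv
    (q := fun p : ZMod a × ZMod b => p.1 ^ 2 + 2 * (m : ZMod a) = 0 ∧ p.2 ^ 2 + 2 * (m : ZMod b) = 0) ?_)
    (Equiv.subtypeProdEquivProd (p := fun y : ZMod a => y ^ 2 + 2 * (m : ZMod a) = 0) (q := fun y : ZMod b => y ^ 2 + 2 * (m : ZMod b) = 0))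
  intro x
  have h1 : (ZMod.chineseRemainder h) (x ^ 2 + 2 * (m : ZMod (a * b))) =
      (((ZMod.chineseRemainder h) x).1 ^ 2 + 2 * (m : ZMod a), ((ZMod.chineseRemainder h) x).2 ^ 2 + 2 * (m : ZMod b)) := by
    rw [map_add, map_pow, map_mul, map_intCast, map_ofNat]
    rfl
  rw [← (ZMod.chineseRemainder h).map_eq_zero_iff, h1, Prod.mk_eq_zero]
  rfl

theorem rho_one (m : ℤ) : rho m 1 = 1 := by
  unfold rho
  simp

end Pool.Agent.Lib.H82O
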