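import Pool.Agent.Lib.H82O.Defs

/-!
# H82O R01B: the number of square roots of `-2m` modulo `n` is multiplicative
-/

set_option autoImplicit false

namespace Pool.Agent.Lib.H82O

/-- `b = 0` is a root when `p ∣ m`. -/
theorem rho_dvd (m : ℤ) (p : ℕ) (hp : 0 < p) (h : (p : ℤ) ∣ m) : 1 ≤ rho m p := by
  unfold rho
  rw [Nat.one_le_iff_ne_zero, Finset.card_ne_zero]
  refine ⟨0, Finset.mem_filter.2 ⟨Finset.mem_range.2 hp, ?_⟩⟩
  obtain ⟨c, hc⟩ := h
  exact ⟨2 * c, by rw [hc]; push_cast; ring⟩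

theorem r01b_base (m : ℤ) (p : ℕ) (hp : p.Prime) (h : jacobiSym (-2 * m) p = 1) :
    ¬ (p : ℤ) ∣ 2 * m ∧ ∃ b : ℤ, (p : ℤ) ∣ b ^ 2 + 2 * m := by
  have hF : Fact p.Prime := ⟨hp⟩
  rw [← jacobiSym.legendreSym.to_jacobiSym] at h
  have h0 : ((-2 * m : ℤ) : ZMod p) ≠ 0 := by
    intro h0
    rw [(legendreSym.eq_zero_iff p _).2 h0] at h
    exact zero_ne_one h
  refine ⟨fun hd => h0 ?_, ?_⟩
  · rw [ZMod.intCast_zmod_eq_zero_iff_dvd] at *
    have : (-2 * m : ℤ) = -(2 * m) := by ring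
    rw [this]
    exact (dvd_neg).2 hd
  · obtain ⟨r, hr⟩ := (legendreSym.eq_one_iff p h0).1 h
    refine ⟨(r.val : ℤ), ?_⟩
    rw [← ZMod.intCast_zmod_eq_zero_iff_dvd]
    push_cast
    rw [ZMod.natCast_zmod_val]
    push_cast at hr
    linear_combination -hr

theorem r01b_hensel (m : ℤ) (p : ℕ) (hp : p.Prime) (hp2 : p ≠ 2)
    (h : jacobiSym (-2 * m) p = 1) (k : ℕ) : ∃ b : ℤ, ((p : ℤ) ^ (k + 1)) ∣ b ^ 2 + 2 * m := by
  obtain ⟨h1, b0, hb0⟩ := r01b_base m p hp h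
  induction k with
  | zero => exact ⟨b0, by simpa using hb0⟩
  | succ k ih =>
    obtain ⟨b, l, hl⟩ := ih
    have hpZ : Prime (p : ℤ) := Nat.prime_iff_prime_int.1 hp
    have hpb : ¬ (p : ℤ) ∣ 2 * b := by
      intro hd
      rcases hpZ.dvd_or_dvd hd with h2 | h2
      · have : p ∣ 2 := by exact_mod_cast h2
        exact hp2 ((Nat.prime_dvd_prime_iff_eq hp Nat.prime_two).1 this)
      · apply h1
        have h3 : (p : ℤ) ∣ b ^ 2 + 2 * m := by
          rw [hl]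
          exact Dvd.dvd.mul_right (dvd_pow_self _ (Nat.succ_ne_zero k)) _
        have h4 : (p : ℤ) ∣ b ^ 2 := h2.pow two_ne_zero
        exact (Int.dvd_iff_dvd_of_dvd_add h3).1 h4
    have hco : IsCoprime (2 * b) (p : ℤ) := by
      rw [isCoprime_comm]
      exact (hpZ.coprime_iff_not_dvd).2 hpb
    obtain ⟨u, v, huv⟩ := hco
    refine ⟨b + (p : ℤ) ^ (k + 1) * (-(l * u)), l * v + (p : ℤ) ^ k * (l * u) ^ 2, ?_⟩
    have e1 : u * (2 * b) = 1 - v * p := by linear_combination huv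
    have e2 : (b + (p : ℤ) ^ (k + 1) * (-(l * u))) ^ 2 + 2 * m =
        (b ^ 2 + 2 * m) - (p : ℤ) ^ (k + 1) * l * (u * (2 * b)) + ((p : ℤ) ^ (k + 1)) ^ 2 * (l * u) ^ 2 := by ring
    rw [e2, hl, e1]
    ring

/-- HENSEL. PROOF. `p` odd prime, `p ∤ m`, `-2m` a square modulo `p`. By induction on `k`
there is `b` with `p^k ∣ b² + 2m`: if `b² + 2m = p^k l` then
`(b + p^k x)² + 2m ≡ p^k (l + 2 b x) (mod p^(k+1))` and `2b` is invertible modulo `p`
(`p ∤ b` because `p ∤ 2m`). Then `b` and `-b` are two different residues modulo `p^k`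
(`p^k ∣ 2b` would give `p ∣ b`): two elements `b % p^k`, `(-b) % p^k` of the filter. -/
theorem rho_two (m : ℤ) (p : ℕ) (hp : p.Prime) (hp2 : p ≠ 2) (k : ℕ) (hk : 1 ≤ k)
    (h : jacobiSym (-2 * m) p = 1) : 2 ≤ rho m (p ^ k) := by
  obtain ⟨k, rfl⟩ := Nat.exists_eq_add_of_le' hk
  obtain ⟨b, hb⟩ := r01b_hensel m p hp hp2 h k
  obtain ⟨h1, -⟩ := r01b_base m p hp h
  set q : ℕ := p ^ (k + 1) with hq
  have hq0 : 0 < q := pow_pos hp.pos _
  have hqZ : (0 : ℤ) < q := by exact_mod_cast hq0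
  have hb' : (q : ℤ) ∣ b ^ 2 + 2 * m := by
    rw [hq]; push_cast; exact hb
  have key : ∀ c : ℤ, (q : ℤ) ∣ c ^ 2 + 2 * m →
      (c % q).toNat ∈ ((Finset.range q).filter fun b : ℕ => (q : ℤ) ∣ (b : ℤ) ^ 2 + 2 * m) := by
    intro c hc
    have e1 : (((c % q).toNat : ℕ) : ℤ) = c % q := Int.toNat_of_nonneg (Int.emod_nonneg _ hqZ.ne')
    rw [Finset.mem_filter, Finset.mem_range]
    constructor
    · have := Int.emod_lt_of_pos c hqZ
      zify
      rw [e1]
      exact this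
    · rw [e1]
      have e2 : (c % q) ^ 2 + 2 * m ≡ c ^ 2 + 2 * m [ZMOD q] :=
        ((Int.mod_modEq c q).pow 2).add_right _
      exact (Int.ModEq.dvd_iff e2).2 hc
  have hne : (b % q).toNat ≠ ((-b) % q).toNat := by
    intro he
    have e1 : b % q = (-b) % q := by
      have h3 := congrArg (fun t : ℕ => (t : ℤ)) he
      simpa only [Int.toNat_of_nonneg (Int.emod_nonneg _ hqZ.ne')] using h3
    have e2 : (q : ℤ) ∣ -b - b := Int.ModEq.dvd e1
    have hpZ : Prime (p : ℤ) := Nat.prime_iff_prime_int.1 hp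
    have e3 : (p : ℤ) ∣ 2 * b := by
      have h4 : (p : ℤ) ∣ q := by rw [hq]; push_cast; exact dvd_pow_self _ (Nat.succ_ne_zero k)
      have h5 := h4.trans e2
      have h6 : -b - b = -(2 * b) := by ring
      rw [h6, dvd_neg] at h5
      exact h5
    rcases hpZ.dvd_or_dvd e3 with h2 | h2
    · have : p ∣ 2 := by exact_mod_cast h2
      exact hp2 ((Nat.prime_dvd_prime_iff_eq hp Nat.prime_two).1 this)
    · apply h1
      have h4 : (p : ℤ) ∣ q := by rw [hq]; push_cast; exact dvd_pow_self _ (Nat.succ_ne_zero k)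
      have h3 : (p : ℤ) ∣ b ^ 2 + 2 * m := h4.trans hb'
      exact (Int.dvd_iff_dvd_of_dvd_add h3).1 (h2.pow two_ne_zero)
  unfold rho
  have h2 : ({(b % q).toNat, ((-b) % q).toNat} : Finset ℕ) ⊆
      ((Finset.range q).filter fun b : ℕ => (q : ℤ) ∣ (b : ℤ) ^ 2 + 2 * m) := by
    intro x hx
    rw [Finset.mem_insert, Finset.mem_singleton] at hx
    rcases hx with rfl | rfl
    · exact key b hb'
    · exact key (-b) (by rw [neg_sq]; exact hb')
  have h3 := Finset.card_le_card h2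
  rwa [Finset.card_pair hne] at h3

end Pool.Agent.Lib.H82O
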