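import Pool.Agent.Lib.H82O.R01

/-!
# H82O R02A: `r(n) ≤ ∑_{d² ∣ n} ρ(n/d²)`
-/

set_option autoImplicit false

namespace Pool.Agent.Lib.H82O

/-- the sum over the square divisors -/
def gg (m : ℤ) (n : ℕ) : ℕ := ∑ d ∈ n.divisors.filter (fun d => d ^ 2 ∣ n), rho m (n / d ^ 2)

/-- PROOF. For coprime `a, b ≠ 0` the `d` with `d² ∣ ab` are uniquely `d = d₁ d₂` with `d₁² ∣ a`,
`d₂² ∣ b` (`Nat.divisors` of a coprime product, `Nat.Coprime`), and
`ab/d² = (a/d₁²)(b/d₂²)` with coprime factors: `rho_mul`. -/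
theorem gg_mul (m : ℤ) (a b : ℕ) (ha : a ≠ 0) (hb : b ≠ 0) (h : Nat.Coprime a b) :
    gg m (a * b) = gg m a * gg m b := by
  unfold gg
  rw [Finset.sum_mul_sum, ← Finset.sum_product']
  symm
  refine Finset.sum_nbij' (fun x : ℕ × ℕ => x.1 * x.2) (fun d => (Nat.gcd d a, Nat.gcd d b)) ?_ ?_ ?_ ?_ ?_
  · rintro ⟨d1, d2⟩ hd
    rw [Finset.mem_product] at hd
    obtain ⟨h1, h2⟩ := hd
    rw [Finset.mem_filter, Nat.mem_divisors] at h1 h2
    rw [Finset.mem_filter, Nat.mem_divisors]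
    refine ⟨⟨mul_dvd_mul h1.1.1 h2.1.1, mul_ne_zero ha hb⟩, ?_⟩
    rw [mul_pow]
    exact mul_dvd_mul h1.2 h2.2
  · intro d hd
    rw [Finset.mem_filter, Nat.mem_divisors] at hd
    obtain ⟨⟨h1, -⟩, h2⟩ := hd
    rw [Finset.mem_product, Finset.mem_filter, Finset.mem_filter, Nat.mem_divisors, Nat.mem_divisors]
    refine ⟨⟨⟨Nat.gcd_dvd_right _ _, ha⟩, ?_⟩, ⟨Nat.gcd_dvd_right _ _, hb⟩, ?_⟩
    · have h3 : (Nat.gcd d a) ^ 2 ∣ a * b := (pow_dvd_pow_of_dvd (Nat.gcd_dvd_left d a) 2).trans h2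
      have h4 : Nat.Coprime ((Nat.gcd d a) ^ 2) b := Nat.Coprime.pow_left 2 (Nat.Coprime.coprime_dvd_left (Nat.gcd_dvd_right d a) h)
      exact h4.dvd_of_dvd_mul_right h3
    · have h3 : (Nat.gcd d b) ^ 2 ∣ a * b := (pow_dvd_pow_of_dvd (Nat.gcd_dvd_left d b) 2).trans h2
      have h4 : Nat.Coprime ((Nat.gcd d b) ^ 2) a := Nat.Coprime.pow_left 2 (Nat.Coprime.coprime_dvd_left (Nat.gcd_dvd_right d b) h.symm)
      exact h4.dvd_of_dvd_mul_left h3
  · rintro ⟨d1, d2⟩ hd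
    rw [Finset.mem_product] at hd
    obtain ⟨h1, h2⟩ := hd
    rw [Finset.mem_filter, Nat.mem_divisors] at h1 h2
    have c2 : Nat.Coprime d2 a := Nat.Coprime.coprime_dvd_left h2.1.1 h.symm
    have c1 : Nat.Coprime d1 b := Nat.Coprime.coprime_dvd_left h1.1.1 h
    simp only
    rw [Nat.Coprime.gcd_mul_right_cancel d1 c2, Nat.Coprime.gcd_mul_left_cancel d2 c1, Nat.gcd_eq_left h1.1.1, Nat.gcd_eq_left h2.1.1]
  · intro d hd
    rw [Finset.mem_filter, Nat.mem_divisors] at hd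
    simp only
    rw [← Nat.Coprime.gcd_mul d h]
    exact Nat.gcd_eq_left hd.1.1
  · rintro ⟨d1, d2⟩ hd
    rw [Finset.mem_product] at hd
    obtain ⟨h1, h2⟩ := hd
    rw [Finset.mem_filter, Nat.mem_divisors] at h1 h2
    obtain ⟨a', ha'⟩ := h1.2
    obtain ⟨b', hb'⟩ := h2.2
    simp only
    have hd1 : 0 < d1 ^ 2 := by
      rcases Nat.eq_zero_or_pos (d1 ^ 2) with h0 | h0
      · rw [h0, zero_mul] at ha'; exact absurd ha' ha
      · exact h0
    have hd2 : 0 < d2 ^ 2 := by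
      rcases Nat.eq_zero_or_pos (d2 ^ 2) with h0 | h0
      · rw [h0, zero_mul] at hb'; exact absurd hb' hb
      · exact h0
    have e1 : a / d1 ^ 2 = a' := by rw [ha']; exact Nat.mul_div_cancel_left _ hd1
    have e2 : b / d2 ^ 2 = b' := by rw [hb']; exact Nat.mul_div_cancel_left _ hd2
    have e3 : a * b / (d1 * d2) ^ 2 = a' * b' := by
      rw [ha', hb', mul_pow, show d1 ^ 2 * a' * (d2 ^ 2 * b') = d1 ^ 2 * d2 ^ 2 * (a' * b') by ring]
      exact Nat.mul_div_cancel_left _ (Nat.mul_pos hd1 hd2)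
    rw [e1, e2, e3]
    have ha0 : a' ≠ 0 := by
      rintro rfl
      exact ha (by rw [ha', mul_zero])
    have hb0 : b' ≠ 0 := by
      rintro rfl
      exact hb (by rw [hb', mul_zero])
    refine (rho_mul m a' b' ha0 hb0 ?_).symm
    refine Nat.Coprime.coprime_dvd_left (Dvd.intro_left _ ha'.symm) (Nat.Coprime.coprime_dvd_right (Dvd.intro_left _ hb'.symm) h)

end Pool.Agent.Lib.H82O
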