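import Pool.Agent.Lib.H82O.R01

/-!
# H82O R02B: `r(n) ≤ ∑_{d² ∣ n} ρ(n/d²)`
-/

set_option autoImplicit false

namespace Pool.Agent.Lib.H82O

/-- PROOF. `rr` is the Dirichlet convolution of the constant function 1 and the completely
multiplicative function `J(-2m | ·)` (`jacobiSym.mul_right`); sum over the divisors of a coprime product
(`Nat.Coprime.sum_divisors_mul` or `ArithmeticFunction.IsMultiplicative`). -/
theorem rr_mul (m : ℕ) (a b : ℕ) (ha : a ≠ 0) (hb : b ≠ 0) (h : Nat.Coprime a b) :
    rr m (a * b) = rr m a * rr m b := by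
  unfold rr
  have h1 : (a * b).divisors = (a.divisors ×ˢ b.divisors).image (fun p : ℕ × ℕ => p.1 * p.2) := by
    rw [Nat.divisors_mul, Finset.mul_def]
  rw [h1, Finset.sum_image h.mul_injOn_divisors, Finset.sum_product, Finset.sum_mul_sum]
  refine Finset.sum_congr rfl fun d hd => Finset.sum_congr rfl fun e he => ?_
  exact jacobiSym.mul_right' _ (Nat.pos_of_mem_divisors hd).ne' (Nat.pos_of_mem_divisors he).ne'

end Pool.Agent.Lib.H82O
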