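import Pool.Agent.Lib.H82O.R01
import Pool.Agent.Lib.H82O.R02A

/-!
# H82O R02C: `r(n) ≤ ∑_{d² ∣ n} ρ(n/d²)`
-/

set_option autoImplicit false

namespace Pool.Agent.Lib.H82O

theorem r02c_gg_pow (m : ℤ) (p : ℕ) (hp : p.Prime) (k : ℕ) :
    gg m (p ^ k) = ∑ j ∈ Finset.range (k / 2 + 1), rho m (p ^ (k - 2 * j)) := by
  unfold gg
  rw [Finset.sum_filter, Nat.sum_divisors_prime_pow hp, ← Finset.sum_filter]
  have hS : (Finset.range (k + 1)).filter (fun i => (p ^ i) ^ 2 ∣ p ^ k) =
      Finset.range (k / 2 + 1) := by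
    ext i
    rw [Finset.mem_filter, Finset.mem_range, Finset.mem_range, ← pow_mul,
      Nat.pow_dvd_pow_iff_le_right hp.one_lt]
    omega
  rw [hS]
  refine Finset.sum_congr rfl fun j hj => ?_
  have hj' : j * 2 ≤ k := by
    have := Finset.mem_range.1 hj
    omega
  rw [← pow_mul, Nat.pow_div hj' hp.pos, mul_comm j 2]

theorem r02c_gg_succ (m : ℤ) (p : ℕ) (hp : p.Prime) (k : ℕ) :
    gg m (p ^ (k + 2)) = gg m (p ^ k) + rho m (p ^ (k + 2)) := by
  rw [r02c_gg_pow m p hp, r02c_gg_pow m p hp]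
  have h : (k + 2) / 2 + 1 = (k / 2 + 1) + 1 := by omega
  rw [h, Finset.sum_range_succ']
  have h2 : ∀ j, k + 2 - 2 * (j + 1) = k - 2 * j := by intro j; omega
  simp only [h2]
  norm_num

theorem r02c_rr_pow (m : ℕ) (p : ℕ) (hp : p.Prime) (k : ℕ) :
    rr m (p ^ k) = ∑ i ∈ Finset.range (k + 1), (jacobiSym (-2 * (m : ℤ)) p) ^ i := by
  unfold rr
  rw [Nat.sum_divisors_prime_pow hp]
  exact Finset.sum_congr rfl fun i _ => jacobiSym.pow_right _ _ _

/-- PROOF. `x = J(-2m | p) ∈ {0, 1, -1}`, `rr m (p^k) = ∑_{i ≤ k} x^i` (`Nat.sum_divisors_prime_pow`),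
`gg m (p^k) = ∑_{2j ≤ k} rho m (p^(k-2j))`. `x = 1`: `rr = k + 1`; `gg ≥ 2 · (number of j with 2j < k)`
`+ (1 if k even) = k + 1` by `rho_two`, `rho_one`. `x = -1`: `rr = 1` for `k` even, `0` for `k` odd, and
`gg ≥ rho m 1 = 1` for `k` even. `x = 0`: `p ∣ 2m`, so `p ∣ m`, `rr = 1`, and `gg ≥ rho m 1 = 1` or
`≥ rho m p ≥ 1` (`rho_dvd`; `j = (k-1)/2`). -/
theorem rr_le_gg_pow (m : ℕ) (p : ℕ) (hp : p.Prime) (hp2 : p ≠ 2) (k : ℕ) :
    rr m (p ^ k) ≤ gg m (p ^ k) ∧ 0 ≤ rr m (p ^ k) := by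
  set x := jacobiSym (-2 * (m : ℤ)) p with hx
  have hx3 : x = 0 ∨ x = 1 ∨ x = -1 := jacobiSym.trichotomy _ _
  have hrr : ∀ k, rr m (p ^ k) = ∑ i ∈ Finset.range (k + 1), x ^ i := r02c_rr_pow m p hp
  have hrs : ∀ k, rr m (p ^ (k + 2)) = rr m (p ^ k) + (x ^ (k + 1) + x ^ (k + 2)) := by
    intro k
    rw [hrr, hrr, Finset.sum_range_succ, Finset.sum_range_succ _ (k + 1)]
    ring
  have hstep0 : ∀ k : ℕ, 0 ≤ x ^ (k + 1) + x ^ (k + 2) := by
    intro k
    rcases hx3 with h | h | h <;> rw [h]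
    · simp
    · simp
    · rw [pow_succ (-1 : ℤ) (k + 1)]
      simp
  have hstep1 : ∀ k : ℕ, x ^ (k + 1) + x ^ (k + 2) ≤ rho m (p ^ (k + 2)) := by
    intro k
    rcases hx3 with h | h | h
    · rw [h]; simp
    · have h2 := rho_two m p hp hp2 (k + 2) (by omega) (by rw [← hx, h])
      rw [h]
      simp only [one_pow]
      have : ((2 : ℕ) : ℤ) ≤ (rho m (p ^ (k + 2)) : ℤ) := by exact_mod_cast h2
      simpa using this
    · rw [h, pow_succ (-1 : ℤ) (k + 1)]
      simp
  have main : ∀ k, (rr m (p ^ k) ≤ gg m (p ^ k) ∧ 0 ≤ rr m (p ^ k)) ∧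
      (rr m (p ^ (k + 1)) ≤ gg m (p ^ (k + 1)) ∧ 0 ≤ rr m (p ^ (k + 1))) := by
    intro k
    induction k with
    | zero =>
      refine ⟨?_, ?_⟩
      · rw [hrr, r02c_gg_pow (m : ℤ) p hp]
        simp [rho_one]
      · rw [hrr, r02c_gg_pow (m : ℤ) p hp]
        rw [Finset.sum_range_succ, Finset.sum_range_succ]
        simp only [Finset.range_zero, Finset.sum_empty, zero_add, pow_zero, pow_one,
          Nat.reduceDiv, Finset.sum_range_one, mul_zero]
        rcases hx3 with h | h | h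
        · have hpm : ((p : ℕ) : ℤ) ∣ (m : ℤ) := by
            have h0 : jacobiSym (-2 * (m : ℤ)) p = 0 := by rw [← hx, h]
            have : Fact p.Prime := ⟨hp⟩
            rw [← jacobiSym.legendreSym.to_jacobiSym, legendreSym.eq_zero_iff] at h0
            have h1 := (ZMod.intCast_zmod_eq_zero_iff_dvd _ _).1 h0
            have hpI : Prime (p : ℤ) := Nat.prime_iff_prime_int.1 hp
            rcases hpI.dvd_or_dvd h1 with h2 | h2
            · exfalso
              have h3 : (p : ℤ) ∣ 2 := by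
                have := (dvd_neg (a := (p : ℤ)) (b := (2 : ℤ))).1 (by simpa using h2)
                exact this
              have h4 : p ∣ 2 := by exact_mod_cast h3
              exact hp2 ((Nat.prime_dvd_prime_iff_eq hp Nat.prime_two).1 h4)
            · exact h2
          have h1 := rho_dvd m p hp.pos hpm
          rw [h]
          constructor
          · simp only [Nat.sub_zero, pow_one, add_zero]
            exact_mod_cast h1
          · norm_num
        · have h2 := rho_two m p hp hp2 1 le_rfl (by rw [← hx, h])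
          rw [h]
          constructor
          · simp only [Nat.sub_zero]
            have : ((2 : ℕ) : ℤ) ≤ (rho m (p ^ 1) : ℤ) := by exact_mod_cast h2
            simpa using this
          · norm_num
        · rw [h]
          constructor
          · simp
          · norm_num
    | succ k ih =>
      refine ⟨ih.2, ?_⟩
      have e : k + 1 + 1 = k + 2 := rfl
      rw [e, hrs, r02c_gg_succ (m : ℤ) p hp]
      push_cast
      exact ⟨add_le_add ih.1.1 (hstep1 k), add_nonneg ih.1.2 (hstep0 k)⟩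
  exact (main k).1

end Pool.Agent.Lib.H82O
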