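import Pool.Agent.Lib.H82O.R01
import Pool.Agent.Lib.H82O.R02A
import Pool.Agent.Lib.H82O.R02B
import Pool.Agent.Lib.H82O.R02C

/-!
# H82O R02D: `r(n) ≤ ∑_{d² ∣ n} ρ(n/d²)`
-/

set_option autoImplicit false

namespace Pool.Agent.Lib.H82O

/-- PROOF. Induction on `n` by `Nat.recOnPosPrimePosCoprime` (or `induction_on_primes`): prime powers by
`rr_le_gg_pow`, coprime products by `rr_mul`, `gg_mul` and non-negativity. -/
theorem rr_le_gg (m : ℕ) (n : ℕ) (hn : n % 2 = 1) : rr m n ≤ gg m n ∧ 0 ≤ rr m n := by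
  revert hn
  refine Nat.recOnPosPrimePosCoprime ?_ ?_ ?_ ?_ n
  · intro p k hp hk hn
    refine rr_le_gg_pow m p hp ?_ k
    rintro rfl
    have h1 : 2 ∣ 2 ^ k := dvd_pow_self 2 (by omega)
    omega
  · intro h
    omega
  · intro _
    have h1 := rr_le_gg_pow m 3 Nat.prime_three (by norm_num) 0
    rwa [pow_zero] at h1
  · intro a b ha hb hab iha ihb hn
    have ha2 : a % 2 = 1 := by
      rcases Nat.mod_two_eq_zero_or_one a with h | h
      · rw [Nat.mul_mod, h, zero_mul] at hn
        omega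
      · exact h
    have hb2 : b % 2 = 1 := by
      rcases Nat.mod_two_eq_zero_or_one b with h | h
      · rw [Nat.mul_mod, h, mul_zero] at hn
        omega
      · exact h
    obtain ⟨a1, a2⟩ := iha ha2
    obtain ⟨b1, b2⟩ := ihb hb2
    rw [rr_mul m a b (by omega) (by omega) hab, gg_mul m a b (by omega) (by omega) hab]
    push_cast
    exact ⟨mul_le_mul a1 b1 b2 (le_trans a2 a1), mul_nonneg a2 b2⟩

end Pool.Agent.Lib.H82O
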