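import Pool.Agent.Lib.H82O.R01
import Pool.Agent.Lib.H82O.R02A
import Pool.Agent.Lib.H82O.R02B
import Pool.Agent.Lib.H82O.R02C
import Pool.Agent.Lib.H82O.R02D

/-! Collects R02A, R02B, R02C, R02D. -/
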